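import Pool.Agent.P.MP_2cea5e_gt.I.S.Tool2

/-!
Chapter I, section 2: rigidity on a cheap antidiagonal.
-/

open scoped ContDiff Topology ENNReal
open MeasureTheory Set Filter

noncomputable section

set_option linter.dupNamespace false

namespace Pool.Agent.P.MP_2cea5e_gt.I.S4

namespace Anti

theorem c2_mul {y y' y'' : ℝ → ℝ} {J : Set ℝ} (h : C2On y y' y'' J) (c : ℝ) :
    C2On (fun x => c * y x) (fun x => c * y' x) (fun x => c * y'' x) J :=
  ⟨fun x hx => (h.d1 x hx).const_mul c, fun x hx => (h.d2 x hx).const_mul c,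
    continuousOn_const.mul h.c2⟩

theorem lim0 {y : ℝ → ℝ} {C c : ℝ} (h : ∀ x ∈ Ioo (0 : ℝ) 1, |y x - c| ≤ C * x) :
    Tendsto y (𝓝[>] 0) (𝓝 c) := by
  rw [← tendsto_sub_nhds_zero_iff]
  have e : Tendsto (fun x : ℝ => C * x) (𝓝[>] 0) (𝓝 0) := by
    have : Continuous fun x : ℝ => C * x := by fun_prop
    simpa using (this.tendsto 0).mono_left (nhdsWithin_le_nhds (s := Ioi (0 : ℝ)))
  refine squeeze_zero_norm' ?_ e
  filter_upwards [Ioo_mem_nhdsGT (show (0 : ℝ) < 1 by norm_num)] with x hx using h x hx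

theorem lim1 {y : ℝ → ℝ} {C c : ℝ} (h : ∀ x ∈ Ioo (0 : ℝ) 1, |y x - c| ≤ C * (1 - x)) :
    Tendsto y (𝓝[<] 1) (𝓝 c) := by
  rw [← tendsto_sub_nhds_zero_iff]
  have e : Tendsto (fun x : ℝ => C * (1 - x)) (𝓝[<] 1) (𝓝 0) := by
    have : Continuous fun x : ℝ => C * (1 - x) := by fun_prop
    simpa using (this.tendsto 1).mono_left (nhdsWithin_le_nhds (s := Iio (1 : ℝ)))
  refine squeeze_zero_norm' ?_ e
  filter_upwards [Ioo_mem_nhdsLT (show (0 : ℝ) < 1 by norm_num)] with x hx using h x hx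

variable {d : Dm} {u F : X → ℝ} {t s V ε : ℝ}

theorem memS (hs : 0 < s) (h : SK tPP (ad s '' Icc 0 1) d u F t) {b : ℝ}
    (hb : b ∈ Ioo (0 : ℝ) 1) : ad s b ∈ d.S :=
  h.memPP ⟨b, Ioo_subset_Icc_self hb, rfl⟩ (mul_pos hs (sub_pos.2 hb.2)) (mul_pos hs hb.1)

theorem ene (hs : 0 < s) : ((-s, s) : ℝ × ℝ) ≠ 0 := fun e => hs.ne' (congrArg Prod.snd e)

/-- The transversal second derivative. -/
theorem trans (hc : Core) (hs : 0 < s) (hV : 1 ≤ V) (h : SK tPP (ad s '' Icc 0 1) d u F t)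
    (hF : Cheap (fun b => s * F (t, ad s b)) 0 1 ε)
    (hr : ∫⁻ b in Ioo (1 / 4 : ℝ) (3 / 4), ENNReal.ofReal (rad u t s b) ≤ ENNReal.ofReal V)
    (hε : V * ε ≤ 1 / 10 ^ 6) {b : ℝ} (hb : b ∈ Ioo (0 : ℝ) 1) :
    hq u (-s, s) (t, ad s b) ≤ s * (10000 * V / (b * (1 - b))) := by
  have ha := h.api hc
  obtain ⟨-, -, -, -, -, a6, -, a8⟩ := hc.t1 d u F t (s, 0) (-s, s) (Ioo 0 1) h.gs h.tI (ene hs)
    (fun x hx => by rw [pt_ad]; exact memS hs h hx)
  obtain ⟨b1, m', m'', l', b2, b3, b4⟩ := a8 (s, 0) (1 / s, 1 / s) (by simp)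
    (by simp [hs.ne'])
  obtain ⟨z', z'', c1, -⟩ := a6 (1 / s, 1 / s) (1 / s, 1 / s)
  simp only [ln_ad] at b1 b2 b4 c1
  have hn : ((1 / s, 1 / s) : ℝ × ℝ) ≠ 0 := fun e =>
    (one_div_pos.2 hs).ne' (congrArg Prod.snd e)
  have pe : ∀ x ∈ Ioo (0 : ℝ) 1, 0 < hq u (-s, s) (t, ad s x) := fun x hx =>
    (ha.hqp _ (h.memU (memS hs h hx)) _ (ene hs)).1
  have ph : ∀ x ∈ Ioo (0 : ℝ) 1, 0 < iq u (1 / s, 1 / s) (t, ad s x) := fun x hx =>
    (ha.hqp _ (h.memU (memS hs h hx)) _ hn).2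
  have cS : ContinuousOn (fun x => s * iq u (1 / s, 1 / s) (t, ad s x)) (Ioo 0 1) :=
    continuousOn_const.mul (Line.c2_cont c1)
  have cm := Line.c2_cont (c2_mul b2 s)
  have cl : ContinuousOn (fun x => I.hb u (-s, s) (s, 0) (t, ad s x) / hq u (-s, s) (t, ad s x))
      (Ioo 0 1) := fun x hx => (b4 x hx).1.continuousAt.continuousWithinAt
  have hsub : Icc (1 / 4 : ℝ) (3 / 4) ⊆ Ioo 0 1 := Icc_subset_Ioo (by norm_num) (by norm_num)
  have key := hK (fun x => s * (hq u (-s, s) (t, ad s x))⁻¹) _ _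
    (fun x => I.hb u (-s, s) (s, 0) (t, ad s x) / hq u (-s, s) (t, ad s x)) l'
    (fun x => s * iq u (1 / s, 1 / s) (t, ad s x)) _ V ε hV (c2_mul b2 s)
    (fun x hx => ⟨mul_pos hs (inv_pos.2 (pe x hx)), mul_pos hs (ph x hx), (b4 x hx).1⟩) b3 cS hF
    (fun x hx => by
      have := mul_le_mul_of_nonneg_left (b4 x hx).2 hs.le
      rw [← abs_of_pos hs, ← abs_mul, abs_of_pos hs] at this
      refine le_trans (le_of_eq ?_) this
      congr 1
      ring)
    (by
      refine int_le_of_lint ?_ ?_ (by linarith) ?_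
      · refine IntegrableOn.mono_set (ContinuousOn.integrableOn_Icc
          (ContinuousOn.mono ?_ hsub)) Ioo_subset_Icc_self
        exact (((continuousOn_id.add cl).pow 2).div cm fun x hx =>
          (mul_pos hs (inv_pos.2 (pe x hx))).ne').add
          (cS.inv₀ fun x hx => (mul_pos hs (ph x hx)).ne')
      · refine (ae_restrict_iff' measurableSet_Ioo).2 (Eventually.of_forall fun x hx => ?_)
        have hx' := hsub (Ioo_subset_Icc_self hx)
        have p1 := pe x hx'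
        have p2 := ph x hx'
        positivity
      · refine le_trans (le_of_eq (setLIntegral_congr_fun measurableSet_Ioo fun x hx => ?_)) hr
        have hx' := hsub (Ioo_subset_Icc_self hx)
        have p1 := pe x hx'
        have p2 := ph x hx'
        have e1 := b1 x hx' x
        have e2 : hq u ((s, 0) + x • (-s, s)) (t, ad s x) = s * rad u t s x := by
          rw [pt_ad, rad, hq_eq, hq_eq]
          simp only [ad]
          ring
        have e3 : rad u t s x = (s * rad u t s x) / s := by field_simp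
        show ENNReal.ofReal _ = ENNReal.ofReal _
        congr 1
        rw [e3, ← e2, e1]
        field_simp)
    (by linarith [mul_comm ε V]) b hb
  have p1 := pe b hb
  have p2 : 0 < b * (1 - b) := mul_pos hb.1 (sub_pos.2 hb.2)
  have p3 : 0 < 10000 * V := by linarith
  rw [← div_eq_mul_inv, div_le_div_iff₀ p3 p1] at key
  rw [← mul_div_assoc, le_div_iff₀ p2]
  linarith

end Anti

open Anti in
theorem anti_ok (hc : Core) : StAnti := by
  intro d u F t s V ε hs hV h hF hr hε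
  have ha := h.api hc
  have ε0 : 0 ≤ ε := (setIntegral_nonneg measurableSet_Ioo hF.nn).trans hF.le
  have hT := fun b hb => trans (b := b) hc hs hV h hF hr hε hb
  set Θ := 10000 * V with hΘ
  have Θ0 : 0 ≤ Θ := by linarith
  have Θε : Θ * ε ≤ 1 / 100 := by rw [hΘ]; linarith [mul_assoc 10000 V ε]
  have hU : ∀ x ∈ Ioo (0 : ℝ) 1, ((t, ad s x) : X) ∈ d.U := fun x hx => h.memU (memS hs h hx)
  obtain ⟨-, -, -, -, -, a6, -, -⟩ := hc.t1 d u F t (s, 0) (-s, s) (Ioo 0 1) h.gs h.tI (ene hs)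
    (fun x hx => by rw [pt_ad]; exact memS hs h hx)
  simp only [ln_ad] at a6
  have hcont : Continuous (ad s) := by unfold ad; fun_prop
  obtain ⟨C, C0, hC⟩ := face hc h.gs h.tI (isCompact_Icc.image hcont)
    (show ad s '' Icc 0 1 ⊆ d.Sc from fun y hy => h.memSc hy
      (fun _ => by obtain ⟨b, hb, rfl⟩ := hy; exact mul_nonneg hs.le (sub_nonneg.2 hb.2))
      (fun _ => by obtain ⟨b, hb, rfl⟩ := hy; exact mul_nonneg hs.le hb.1))
  have hC' : ∀ x ∈ Ioo (0 : ℝ) 1,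
      |i11 u (t, ad s x) - s * (1 - x)| ≤ C * (s * (1 - x)) ^ 2 ∧
      |i12 u (t, ad s x)| ≤ C * (s * (1 - x) * (s * x)) ∧
      |i22 u (t, ad s x) - s * x| ≤ C * (s * x) ^ 2 := fun x hx => by
    have := hC _ ⟨x, Ioo_subset_Icc_self hx, rfl⟩ (memS hs h hx)
    rw [h.ty] at this
    exact this
  have si : 0 < s⁻¹ := inv_pos.2 hs
  -- the diagonal entries
  have diag : ∀ (n : ℝ × ℝ), n ≠ 0 → ∃ y' y'', C2On (fun x => s⁻¹ * iq u n (t, ad s x)) y' y''
      (Ioo 0 1) ∧ ∀ x ∈ Ioo (0 : ℝ) 1, |y'' x| ≤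
        s * F (t, ad s x) * (s⁻¹ * iq u n (t, ad s x)) * (Θ / (x * (1 - x))) := by
    intro n hn
    obtain ⟨z', z'', c1, c2⟩ := a6 n n
    refine ⟨_, _, c2_mul c1 s⁻¹, fun x hx => ?_⟩
    have p1 := (ha.hqp _ (hU x hx) n hn).2
    have p2 := h.F0 (memS hs h hx)
    have e := c2 x hx
    rw [Real.sqrt_mul_self p1.le] at e
    have e2 := e.trans (mul_le_mul_of_nonneg_left (hT x hx) (mul_nonneg p2 p1.le))
    rw [abs_mul, abs_of_pos si]
    refine (mul_le_mul_of_nonneg_left e2 si.le).trans (le_of_eq ?_)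
    ring
  have r2 : ∀ x ∈ Ioo (0 : ℝ) 1, |s⁻¹ * i22 u (t, ad s x) / x - 1| ≤ 10 * (Θ * ε) := by
    obtain ⟨y', y'', c1, c2⟩ := diag (0, 1) (by simp)
    rw [iq_e2] at c1 c2
    have hb : ∀ x ∈ Ioo (0 : ℝ) 1, |s⁻¹ * i22 u (t, ad s x) / x - 1| ≤ C * s * x := fun x hx => by
      have hx0 := hx.1
      have e : s⁻¹ * i22 u (t, ad s x) / x - 1 = (i22 u (t, ad s x) - s * x) / (s * x) := by
        field_simp
      rw [e, abs_div, abs_of_pos (mul_pos hs hx0), div_le_iff₀ (mul_pos hs hx0)]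
      refine (hC' x hx).2.2.trans (le_of_eq ?_)
      ring
    refine (hRig.1 _ y' y'' _ Θ ε (1 + C * s) Θ0 c1 hF Θε (fun x hx => ⟨mul_pos si
      (i22_pos hc h.gs (hU x hx)), ?_⟩) c2).1 (lim0 hb)
    have e := (abs_le.1 (hb x hx)).2
    have hx0 := hx.1
    have hx1 := hx.2
    have q : 0 ≤ C * s := mul_nonneg C0 hs.le
    rw [sub_le_iff_le_add, div_le_iff₀ hx0] at e
    have q2 : C * s * x ≤ C * s := mul_le_of_le_one_right q hx1.le
    nlinarith
  have r1 : ∀ x ∈ Ioo (0 : ℝ) 1, |s⁻¹ * i11 u (t, ad s x) / (1 - x) - 1| ≤ 10 * (Θ * ε) := by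
    obtain ⟨y', y'', c1, c2⟩ := diag (1, 0) (by simp)
    rw [iq_e1] at c1 c2
    have hb : ∀ x ∈ Ioo (0 : ℝ) 1, |s⁻¹ * i11 u (t, ad s x) / (1 - x) - 1| ≤ C * s * (1 - x) :=
      fun x hx => by
      have hx0 := sub_pos.2 hx.2
      have e : s⁻¹ * i11 u (t, ad s x) / (1 - x) - 1 =
          (i11 u (t, ad s x) - s * (1 - x)) / (s * (1 - x)) := by
        field_simp
      rw [e, abs_div, abs_of_pos (mul_pos hs hx0), div_le_iff₀ (mul_pos hs hx0)]
      refine (hC' x hx).1.trans (le_of_eq ?_)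
      ring
    refine (hRig.1 _ y' y'' _ Θ ε (1 + C * s) Θ0 c1 hF Θε (fun x hx => ⟨mul_pos si
      (i11_pos hc h.gs (hU x hx)), ?_⟩) c2).2 (lim1 hb)
    have e := (abs_le.1 (hb x hx)).2
    have hx0 := sub_pos.2 hx.2
    have hx1 : 1 - x ≤ 1 := by linarith [hx.1]
    have q : 0 ≤ C * s := mul_nonneg C0 hs.le
    rw [sub_le_iff_le_add, div_le_iff₀ hx0] at e
    have q2 : C * s * (1 - x) ≤ C * s := mul_le_of_le_one_right q hx1
    nlinarith
  have r3 : ∀ x ∈ Ioo (0 : ℝ) 1, |s⁻¹ * i12 u (t, ad s x)| ≤ √(x * (1 - x)) * (11 / 10 * Θ * ε) := by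
    obtain ⟨z', z'', c1, c2⟩ := a6 (1, 0) (0, 1)
    rw [ib_e12] at c1
    rw [iq_e1, iq_e2] at c2
    have hb : ∀ x ∈ Ioo (0 : ℝ) 1, |s⁻¹ * i12 u (t, ad s x) - 0| ≤ C * s * (x * (1 - x)) :=
      fun x hx => by
      rw [sub_zero, abs_mul, abs_of_pos si]
      refine (mul_le_mul_of_nonneg_left (hC' x hx).2.1 si.le).trans (le_of_eq ?_)
      field_simp
    have q : 0 ≤ C * s := mul_nonneg C0 hs.le
    refine hRig.2 _ _ _ _ (11 / 10 * Θ) ε (by positivity) (c2_mul c1 s⁻¹) hF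
      (lim0 (C := C * s) fun x hx => (hb x hx).trans (mul_le_mul_of_nonneg_left
        (mul_le_of_le_one_right hx.1.le (by linarith [hx.1])) q))
      (lim1 (C := C * s) fun x hx => (hb x hx).trans (mul_le_mul_of_nonneg_left
        (mul_le_of_le_one_left (sub_pos.2 hx.2).le hx.2.le) q)) fun x hx => ?_
    have hx0 := hx.1
    have hx1 := sub_pos.2 hx.2
    have p2 := h.F0 (memS hs h hx)
    have p3 : 0 < x * (1 - x) := mul_pos hx0 hx1
    have p4 : 0 < √(x * (1 - x)) := Real.sqrt_pos.2 p3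
    have e1 : i11 u (t, ad s x) ≤ 11 / 10 * s * (1 - x) := by
      have := (abs_le.1 (r1 x hx)).2
      rw [sub_le_iff_le_add, div_le_iff₀ hx1, inv_mul_le_iff₀ hs] at this
      have q3 : 10 * (Θ * ε) + 1 ≤ 11 / 10 := by linarith
      refine this.trans ?_
      have := mul_le_mul_of_nonneg_right q3 (mul_pos hs hx1).le
      linarith
    have e2 : i22 u (t, ad s x) ≤ 11 / 10 * s * x := by
      have := (abs_le.1 (r2 x hx)).2
      rw [sub_le_iff_le_add, div_le_iff₀ hx0, inv_mul_le_iff₀ hs] at this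
      have q3 : 10 * (Θ * ε) + 1 ≤ 11 / 10 := by linarith
      refine this.trans ?_
      have := mul_le_mul_of_nonneg_right q3 (mul_pos hs hx0).le
      linarith
    have e3 : √(i11 u (t, ad s x) * i22 u (t, ad s x)) ≤ 11 / 10 * s * √(x * (1 - x)) := by
      rw [Real.sqrt_le_left (by positivity), mul_pow, Real.sq_sqrt p3.le]
      refine (mul_le_mul e1 e2 (i22_pos hc h.gs (hU x hx)).le (by positivity)).trans (le_of_eq ?_)
      ring
    have p5 := (ha.hqp _ (hU x hx) _ (ene hs)).1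
    have e4 := (c2 x hx).trans (mul_le_mul (mul_le_mul_of_nonneg_left e3 p2) (hT x hx) p5.le
      (by positivity))
    rw [abs_mul, abs_of_pos si]
    refine (mul_le_mul_of_nonneg_left e4 si.le).trans (le_of_eq ?_)
    have e5 : x * (1 - x) = √(x * (1 - x)) * √(x * (1 - x)) := (Real.mul_self_sqrt p3.le).symm
    generalize √(x * (1 - x)) = w at e5 p4
    rw [e5]
    field_simp
  intro b hb
  have hb0 := hb.1
  have hb1 := sub_pos.2 hb.2
  have o1e : o1 d.τ (t, ad s b) = s * (1 - b) := by rw [h.ty]; rfl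
  have o2e : o2 d.τ (t, ad s b) = s * b := by rw [h.ty]; rfl
  have := ne_of_inv hc h.gs (δ := 10 * (Θ * ε)) (by linarith) (hU b hb)
    (by rw [o1e]; convert r1 b hb using 3; field_simp)
    (by rw [o2e]; convert r2 b hb using 3; field_simp)
    (by
      have e := r3 b hb
      rw [abs_mul, abs_of_pos si, inv_mul_le_iff₀ hs] at e
      have e2 : s * (1 - b) * (s * b) = s ^ 2 * (b * (1 - b)) := by ring
      rw [o1e, o2e, e2, Real.sqrt_mul (sq_nonneg s), Real.sqrt_sq hs.le]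
      refine e.trans ?_
      have q1 : 0 ≤ s * √(b * (1 - b)) := by positivity
      have q2 : 0 ≤ Θ * ε := mul_nonneg Θ0 ε0
      nlinarith [mul_nonneg q1 q2])
  rw [h.ty] at this
  refine this.mono (le_of_eq ?_)
  rw [hΘ]; ring

end Pool.Agent.P.MP_2cea5e_gt.I.S4
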