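import Pool.Agent.P.MP_2cea5e_gt.I.S.Tool2

/-!
Chapter I, section 2: oscillation near a vertex, drift in time.
-/

open scoped ContDiff Topology ENNReal
open MeasureTheory Set Filter

noncomputable section

set_option linter.dupNamespace false

namespace Pool.Agent.P.MP_2cea5e_gt.I.S4

namespace Dr1

theorem cmp {g g' : ℝ → ℝ} {a b : ℝ} (hg : ∀ x ∈ Icc (0 : ℝ) 1, HasDerivAt g (g' x) x)
    (hb : ∀ x ∈ Ioo (0 : ℝ) 1, g' x ≤ a * (b - Real.log x)) : g 1 - g 0 ≤ a * (b + 1) := by
  have := monotoneOn_of_hasDerivWithinAt_nonneg (convex_Icc (0 : ℝ) 1)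
    (f := fun x => a * ((b + 1) * x - x * Real.log x) - g x)
    (f' := fun x => a * ((b + 1) * 1 - (Real.log x + 1)) - g' x)
    ((continuous_const.mul ((continuous_const.mul continuous_id).sub
      Real.continuous_mul_log)).continuousOn.sub fun x hx =>
        (hg x hx).continuousAt.continuousWithinAt)
    (fun x hx => by
      rw [interior_Icc] at hx
      exact (((((hasDerivAt_id' x).const_mul _).sub (Real.hasDerivAt_mul_log hx.1.ne')).const_mul
        a).sub (hg x (Ioo_subset_Icc_self hx))).hasDerivWithinAt)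
    (fun x hx => by
      rw [interior_Icc] at hx
      linarith [hb x hx])
    (left_mem_Icc.2 zero_le_one) (right_mem_Icc.2 zero_le_one) zero_le_one
  simp only [mul_zero, zero_mul, sub_zero, mul_one, Real.log_one] at this
  linarith

end Dr1

theorem osc2_ok (hc : Core) : StOsc2 := fun Λ ρ d u F t hΛ hρ h hb y hy => by
  obtain ⟨⟨a1, a2⟩, a3, a4⟩ := hy
  set e : ℝ × ℝ := (ρ - y.1, ρ - y.2) with he
  have key : ∀ z, 0 < z → z < 2 * ρ → ∀ x ∈ Icc (0 : ℝ) 1,
      z + x * (ρ - z) ∈ Ioo 0 (2 * ρ) ∧ x * ρ ≤ z + x * (ρ - z) := fun z z0 z1 x hx => by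
    have b1 := mul_nonneg (sub_nonneg.2 hx.2) z0.le
    have b2 := mul_nonneg (sub_nonneg.2 hx.2) (sub_pos.2 z1).le
    have b3 := mul_nonneg hx.1 hρ.le
    refine ⟨⟨?_, ?_⟩, by linarith⟩ <;> rcases hx.1.eq_or_lt with rfl | c
    · linarith
    · linarith [mul_pos c hρ]
    · linarith
    · linarith [mul_pos c hρ]
  have mem : ∀ x ∈ Icc (0 : ℝ) 1, y + x • e ∈ qo (2 * ρ) := fun x hx =>
    ⟨(key _ a1 a2 x hx).1, (key _ a3 a4 x hx).1⟩
  have eq : ∀ x : ℝ, ((t, y) : X) + x • sv e = (t, y + x • e) := fun x => by simp [sv]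
  have hg : ∀ x ∈ Icc (0 : ℝ) 1,
      HasDerivAt (fun x : ℝ => u (t, y + x • e)) (D (sv e) u (t, y + x • e)) x := fun x hx => by
    have m := mem x hx
    simpa only [eq] using hasDerivAt_ln (f := u) (sv e) (t, y) (x := x) (by
      rw [eq]
      exact diffAt d.isOpen_U (h.api hc).sm (h.memU (h.memPP
        ⟨Ioo_subset_Icc_self m.1, Ioo_subset_Icc_self m.2⟩ m.1.1 m.2.1)))
  have bd : ∀ x ∈ Ioo (0 : ℝ) 1,
      |D (sv e) u (t, y + x • e)| ≤ 2 * Λ * ρ * (1 - Real.log ρ - Real.log x) := fun x hx => by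
    have hx' := Ioo_subset_Icc_self hx
    obtain ⟨b1, b2⟩ := hb _ (mem x hx')
    have b3 := Real.log_le_log (mul_pos hx.1 hρ)
      (le_min (key _ a1 a2 x hx').2 (key _ a3 a4 x hx').2)
    rw [Real.log_mul hx.1.ne' hρ.ne'] at b3
    have b4 : Λ * (1 - Real.log (min (y + x • e).1 (y + x • e).2)) ≤
        Λ * (1 - Real.log ρ - Real.log x) := mul_le_mul_of_nonneg_left
      (by rw [sub_sub, add_comm (Real.log ρ)]; exact sub_le_sub_left b3 1) hΛ
    have c1 := mul_le_mul (show |e.1| ≤ ρ from abs_le.2 ⟨by linarith, by linarith⟩) (b1.trans b4)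
      (abs_nonneg _) hρ.le
    have c2 := mul_le_mul (show |e.2| ≤ ρ from abs_le.2 ⟨by linarith, by linarith⟩) (b2.trans b4)
      (abs_nonneg _) hρ.le
    rw [D_sv]
    refine (abs_add_le _ _).trans ?_
    rw [abs_mul, abs_mul]
    linarith
  have r1 := Dr1.cmp hg fun x hx => (abs_le.1 (bd x hx)).2
  have r2 := Dr1.cmp (fun x hx => (hg x hx).fun_neg) fun x hx => neg_le.1 (abs_le.1 (bd x hx)).1
  have e1 : y + e = (ρ, ρ) := by ext <;> simp [he]
  simp only [one_smul, zero_smul, add_zero, e1] at r1 r2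
  have := mul_nonneg hΛ hρ.le
  exact abs_le.2 ⟨by linarith, by linarith⟩

theorem dr1_ok (hc : Core) : StDr1 := fun d u F A t t' s c hg hA hI hs => by
  have api := hc.api d u hg.toGS0
  have fzb := hc.fg.2.2 d
  have ht := hI right_mem_uIcc
  have ht' := hI left_mem_uIcc
  have bv := (bd_K c).mul (fzb _ s hs api.bt)
  have bG : Bd d (wv d.τ u - fz t' (wv d.τ u) - (fun p => p.1 - t') * (K c * fz s (D e0 u))) :=
    (hg.bd.sub (fzb _ t' ht' hg.bd)).sub ((bd_of_sm (contDiff_fst.sub contDiff_const)).mul bv)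
  set G := wv d.τ u - fz t' (wv d.τ u) - (fun p => p.1 - t') * (K c * fz s (D e0 u)) with hG
  have eG : ∀ r y, G (r, y) = u (r, y) - u (t', y) - (r - t') * (c * D e0 u (s, y)) :=
    fun r y => by simp [hG, wv, fz, u0]
  have ba := fzb _ t ht bG
  have bH := api.bt.sub bv
  set H := D e0 u - K c * fz s (D e0 u) with hH
  have eH : ∀ r y, H (r, y) = D e0 u (r, y) - c * D e0 u (s, y) := fun r y => rfl
  have dK : ∀ r ∈ d.I, HasDerivAt (fun r => ∫ y in A, (fz t G * G) (r, y))
      (∫ y in A, (fz t G * H) (r, y)) r := fun r hr => by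
    refine ((ba.mul bG).hasDerivAt_int hA hr).congr_deriv
      (setIntegral_congr_fun hA.ms fun y hy => ?_)
    have m : ((r, y) : X) ∈ d.U := ⟨hr, hA.sub hy⟩
    refine (hasDerivAt_t ((ba.mul bG).diffAt m)).unique ?_
    have := (((hasDerivAt_t (diffAt d.isOpen_U api.sm m)).sub_const (u (t', y))).sub
      (((hasDerivAt_id' r).sub_const t').mul_const (c * D e0 u (s, y)))).const_mul (G (t, y))
    simpa only [Pi.mul_apply, fz, eG, eH, one_mul, Pi.sub_apply] using this
  have i1 := (((ba.mul bH).lc.continuousOn_int hA).mono hI).intervalIntegrable (μ := volume)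
  have i2 := (((bH.lc.pow 2).continuousOn_int hA).mono hI).intervalIntegrable (μ := volume)
  have ftc := intervalIntegral.integral_eq_sub_of_hasDerivAt (fun r hr => dK r (hI hr)) i1
  have z0 : ∫ y in A, (fz t G * G) (t', y) = 0 := by simp [eG]
  have z1 : ∫ y in A, (fz t G * G) (t, y) = ∫ y in A, G (t, y) ^ 2 := by simp [fz, sq]
  rw [z0, z1, sub_zero] at ftc
  simp only [← eG, ← eH]
  set Φ := ∫ y in A, G (t, y) ^ 2 with hΦ
  have Q : ∀ r ∈ uIcc t' t, 2 * (t - t') * ∫ y in A, (fz t G * H) (r, y) ≤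
      Φ + (t - t') ^ 2 * ∫ y in A, H (r, y) ^ 2 := fun r hr => by
    have j1 := (bG.lc.pow 2).integrableOn hA ht
    have j2 := ((bH.lc.pow 2).integrableOn hA (hI hr)).const_mul ((t - t') ^ 2)
    rw [← integral_const_mul, ← integral_const_mul, hΦ, ← integral_add j1 j2]
    refine integral_mono (((ba.mul bH).lc.integrableOn hA (hI hr)).const_mul _) (j1.add j2)
      fun y => ?_
    simp only [Pi.mul_apply, fz]
    linarith [sq_nonneg (G (t, y) - (t - t') * H (r, y))]
  have k1 := i1.const_mul (2 * (t - t'))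
  have k2 := (intervalIntegrable_const (c := Φ) (μ := volume)).add (i2.const_mul ((t - t') ^ 2))
  have e1 := intervalIntegral.integral_const_mul (μ := volume) (a := t') (b := t) (2 * (t - t'))
    fun r => ∫ y in A, (fz t G * H) (r, y)
  have e2 := intervalIntegral.integral_add (intervalIntegrable_const (c := Φ))
    (i2.const_mul ((t - t') ^ 2))
  rw [ftc] at e1
  rw [intervalIntegral.integral_const, intervalIntegral.integral_const_mul, smul_eq_mul] at e2
  rw [← abs_mul]
  refine le_trans ?_ (le_abs_self _)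
  rcases lt_trichotomy t' t with l | rfl | l
  · have := intervalIntegral.integral_mono_on l.le k1 k2 fun r hr => Q r (Icc_subset_uIcc hr)
    rw [e1, e2] at this
    exact le_of_mul_le_mul_left (by linarith) (sub_pos.2 l)
  · simp [hΦ, eG]
  · have := intervalIntegral.integral_mono_on l.le k1.symm k2.symm
      fun r hr => Q r (Icc_subset_uIcc' hr)
    rw [intervalIntegral.integral_symm, intervalIntegral.integral_symm t' t, e1, e2] at this
    exact le_of_mul_le_mul_left (by linarith) (sub_pos.2 l)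

end Pool.Agent.P.MP_2cea5e_gt.I.S4
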