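import Pool.Agent.P.MP_2cea5e_gt.I.S.Tool2

/-!
Chapter I, section 2: the filling lemma.
-/

open scoped ContDiff Topology ENNReal
open MeasureTheory Set Filter

noncomputable section

set_option linter.dupNamespace false

namespace Pool.Agent.P.MP_2cea5e_gt.I.S4

namespace Fill

theorem osc {k' k'' : ℝ → ℝ} {p q δ η : ℝ} {G : Set ℝ}
    (hd : ∀ x ∈ Icc p q, HasDerivAt k' (k'' x) x) (hc : ContinuousOn k'' (Icc p q)) (hδ : 0 ≤ δ)
    (hη : 0 ≤ η) (h1 : ∀ x ∈ Icc p q, |k'' x| ≤ 1) (h2 : ∀ x ∈ Icc p q, x ∈ G → |k'' x| ≤ δ)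
    (hv : volume (Icc p q \ G) < ENNReal.ofReal η) :
    ∀ x ∈ Icc p q, ∀ x' ∈ Icc p q, |k' x - k' x'| ≤ δ * (q - p) + η := by
  have hB : IsOpen (Ioo p q ∩ k'' ⁻¹' {s | δ < |s|}) :=
    (hc.mono Ioo_subset_Icc_self).isOpen_inter_preimage isOpen_Ioo
      (isOpen_lt continuous_const continuous_abs)
  set B := Ioo p q ∩ k'' ⁻¹' {s | δ < |s|} with hBdef
  have hBs : B ⊆ Icc p q \ G := fun s hs =>
    ⟨Ioo_subset_Icc_self hs.1, fun hG => absurd (h2 s (Ioo_subset_Icc_self hs.1) hG) (not_le.2 hs.2)⟩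
  have hBv : volume B ≤ ENNReal.ofReal η := (measure_mono hBs).trans hv.le
  have key : ∀ x ∈ Icc p q, ∀ x' ∈ Icc p q, x' ≤ x → |k' x - k' x'| ≤ δ * (q - p) + η := by
    intro x hx x' hx' hle
    have hs : Icc x' x ⊆ Icc p q := Icc_subset_Icc hx'.1 hx.2
    rw [← LemK.ftc hle (fun s h => hd s (hs h)) (hc.mono hs)]
    have i1 : Integrable (fun _ : ℝ => δ) (volume.restrict (Ioo x' x)) := integrable_const _
    have i2 : Integrable (B.indicator (1 : ℝ → ℝ)) (volume.restrict (Ioo x' x)) :=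
      (integrable_const (1 : ℝ)).indicator hB.measurableSet
    have h3 := norm_integral_le_of_norm_le (f := k'') (i1.add i2) (by
      filter_upwards [ae_restrict_mem measurableSet_Ioo] with s h
      have hs' : s ∈ Ioo p q := ⟨hx'.1.trans_lt h.1, h.2.trans_le hx.2⟩
      rw [Real.norm_eq_abs, Pi.add_apply]
      by_cases hb : s ∈ B
      · rw [indicator_of_mem hb, Pi.one_apply]
        linarith [h1 s (Ioo_subset_Icc_self hs')]
      · rw [indicator_of_notMem hb, add_zero]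
        exact not_lt.1 fun h' => hb ⟨hs', h'⟩)
    rw [integral_add' i1 i2, integral_indicator_one hB.measurableSet, integral_const,
      Real.norm_eq_abs] at h3
    have h4 : (volume.restrict (Ioo x' x)).real B ≤ η :=
      ENNReal.toReal_le_of_le_ofReal hη ((Measure.restrict_apply_le _ _).trans hBv)
    have h5 : (volume.restrict (Ioo x' x)).real univ = x - x' := by
      simp [hle]
    rw [h5, smul_eq_mul] at h3
    have h6 : (x - x') * δ ≤ δ * (q - p) := by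
      rw [mul_comm]
      exact mul_le_mul_of_nonneg_left (by linarith [hx.2, hx'.1]) hδ
    linarith
  intro x hx x' hx'
  rcases le_total x' x with h | h
  · exact key x hx x' hx' h
  · rw [abs_sub_comm]
    exact key x' hx' x hx h

theorem mvt {f f' : ℝ → ℝ} {p q K P x x' : ℝ} (hd : ∀ s ∈ Icc p q, HasDerivAt f (f' s) s)
    (hb : ∀ s ∈ Icc p q, |f' s - P| ≤ K) (hx : x ∈ Icc p q) (hx' : x' ∈ Icc p q) :
    |f x - f x' - P * (x - x')| ≤ K * |x - x'| := by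
  have := (convex_Icc p q).norm_image_sub_le_of_norm_hasDerivWithin_le
    (f := fun s => f s - P * s) (f' := fun s => f' s - P) (C := K)
    (fun s hs => ((hd s hs).sub ((hasDerivAt_id s).const_mul P |>.congr_deriv (mul_one P))).hasDerivWithinAt)
    (fun s hs => hb s hs) hx' hx
  rw [Real.norm_eq_abs, Real.norm_eq_abs] at this
  convert this using 2
  ring

theorem three {φ φ' φ'' : ℝ → ℝ} {x a₁ a₂ K : ℝ} (h1 : x < a₁) (h2 : a₁ < a₂) (h3 : a₂ - x ≤ 3)
    (hc : C2On φ φ' φ'' (Icc x a₂)) (hK : 0 ≤ K)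
    (hb : ∀ s ∈ Ioo x a₂, (s - x) * |φ'' s| ≤ K) :
    |(a₂ - a₁) * φ x + (a₁ - x) * φ a₂ - (a₂ - x) * φ a₁| ≤ 9 * K := by
  have hx : x < a₂ := h1.trans h2
  have hm : a₁ ∈ Icc x a₂ := ⟨h1.le, h2.le⟩
  have e := green_ok φ φ' φ'' x a₂ a₁ hx hc hm
  have h4 := norm_setIntegral_le_of_norm_le_const (μ := volume) (s := Ioo x a₂)
    (f := fun s => green x a₂ a₁ s * φ'' s) (C := K) (by simp) (fun s hs => by
      have hs' := Ioo_subset_Icc_self hs
      rw [Real.norm_eq_abs, abs_mul, abs_of_nonneg (Green.green_nonneg hx hm hs')]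
      refine le_trans (mul_le_mul_of_nonneg_right ?_ (abs_nonneg _)) (hb s hs)
      exact (Green.green_le_left hx hm hs').trans (sub_le_sub_right (min_le_right _ _) _))
  rw [← e, Real.norm_eq_abs, Real.volume_real_Ioo_of_le hx.le] at h4
  have e2 : (a₂ - a₁) * φ x + (a₁ - x) * φ a₂ - (a₂ - x) * φ a₁ =
      (a₂ - x) * (chord φ x a₂ a₁ - φ a₁) := by
    have : a₂ - x ≠ 0 := by linarith
    unfold chord
    field_simp
  rw [e2, abs_mul, abs_of_pos (by linarith)]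
  have h5 : K * (a₂ - x) ≤ K * 3 := mul_le_mul_of_nonneg_left h3 hK
  have h6 := mul_le_mul h3 (h4.trans h5) (abs_nonneg _) (by norm_num)
  linarith

variable {b : Bool} {d : Dm} {u F : X → ℝ} {t δ : ℝ} {G : Set ℝ}

theorem memS (h : SK (b, false) (bxc (b, false) 2) d u F t) {x c : ℝ} (hx : x ∈ iv b 2)
    (hc : c ∈ Icc (-2 : ℝ) 2) : ((x, c) : ℝ × ℝ) ∈ d.S := by
  refine h.memS ⟨iv_subset_ivc _ _ hx, hc⟩ (fun e => ?_) (fun e => absurd e (by simp))
  simp only at e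
  subst e
  exact hx.1

theorem iv_seg {x a : ℝ} (hx : x ∈ iv b 1) (ha : a < 2) : Icc x a ⊆ iv b 2 := by
  intro s hs
  cases b
  · exact ⟨by linarith [hx.1, hs.1], by linarith [hs.2]⟩
  · exact ⟨hx.1.trans_le hs.1, by linarith [hs.2]⟩

theorem iv_12 {a : ℝ} (h1 : 1 ≤ a) (ha : a < 2) : a ∈ iv b 2 ∧ 1 ≤ om b a := by
  cases b
  · exact ⟨⟨by linarith, ha⟩, le_rfl⟩
  · exact ⟨⟨by linarith, by linarith⟩, h1⟩

theorem iv_bd {x : ℝ} (hx : x ∈ iv b 1) : -1 < x ∧ x < 1 ∧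
    ∀ s, x < s → s < 2 → 0 < om b s ∧ s - x ≤ 3 * om b s := by
  cases b
  · exact ⟨hx.1, hx.2, fun s _ h2 => ⟨one_pos, by
      show s - x ≤ 3 * 1
      linarith [hx.1]⟩⟩
  · have h0 : 0 < x := hx.1
    have h1 : x < 1 ^ 2 := hx.2
    exact ⟨by linarith, by linarith, fun s h2 _ => ⟨h0.trans h2, by
      show s - x ≤ 3 * s
      linarith⟩⟩

/-- The vertical derivative hardly varies on a cheap vertical line. -/
theorem vert (hc : Core) (h : SK (b, false) (bxc (b, false) 2) d u F t) (hδ : 0 < δ)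
    (hδ' : δ ≤ 1 / 10) (hv : volume (Ioo (-2 : ℝ) 2 \ G) < ENNReal.ofReal δ)
    (hG : ∀ c ∈ G, c ∈ Ioo (-2 : ℝ) 2 → ∀ x ∈ iv b 2, NE (b, false) u δ (t, x, c)) {a : ℝ}
    (ha : a ∈ iv b 2) (hch : Cheap (fun y => F (t, a, y)) (-2) 2 (1 / 100)) :
    ∀ c ∈ Icc (-(3 / 2) : ℝ) (3 / 2), ∀ c' ∈ Icc (-(3 / 2) : ℝ) (3 / 2),
      |D e2 (wv (b, false) u) (t, a, c) - D e2 (wv (b, false) u) (t, a, c')| ≤ 4 * δ := by
  obtain ⟨p, hp, hpG⟩ := exists_good (a := -2) hv (Ioo_subset_Ioo le_rfl (by linarith))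
  obtain ⟨q, hq, hqG⟩ := exists_good (a := 2 - δ) hv (Ioo_subset_Ioo (by linarith) (by linarith))
  have hp1 := hp.1
  have hp2 := hp.2
  have hq1 := hq.1
  have hq2 := hq.2
  have V := vl hc h.gs h.tI (a := a) (J := Icc (-2) 2) (fun c hc' => memS h ha hc')
  have h22p : ∀ c ∈ Icc (-2 : ℝ) 2, 0 < h22 u (t, a, c) := fun c hc' =>
    (h.api hc).p22 _ (h.memU (memS h ha hc'))
  have hne : ∀ c ∈ G, c ∈ Ioo (-2 : ℝ) 2 → |h22 u (t, a, c) - 1| ≤ δ := fun c h1 h2 => by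
    simpa [o2, om] using (hG c h1 h2 a ha).2.1
  have hinv : ∀ c ∈ G, c ∈ Ioo (-2 : ℝ) 2 → 9 / 10 ≤ (h22 u (t, a, c))⁻¹ := fun c h1 h2 => by
    rw [le_inv_comm₀ (by norm_num) (h22p c (Ioo_subset_Icc_self h2))]
    have := (abs_le.1 (hne c h1 h2)).2
    norm_num
    linarith
  obtain ⟨m', m'', hm, hm'⟩ := V.m
  have hs : Icc p q ⊆ Icc (-2 : ℝ) 2 := Icc_subset_Icc (by linarith) (by linarith)
  have h2 : ∀ c ∈ Icc (-(3 / 2) : ℝ) (3 / 2), h22 u (t, a, c) ≤ 2 := by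
    intro c hc'
    have hc1 := hc'.1
    have hc2 := hc'.2
    have h3 := conc_ok.1 _ m' m'' _ p q (1 / 100) c (by linarith) (Green.C2On_mono hm hs)
      (Green.cheap_mono hch (by linarith) (by linarith))
      (fun s hs' => hm' s (hs (Ioo_subset_Icc_self hs'))) ⟨by linarith, by linarith⟩
    have h4 : 9 / 10 ≤ chord (fun x => (h22 u (t, a, x))⁻¹) p q c := by
      unfold chord
      rw [le_div_iff₀ (by linarith)]
      have a1 := mul_le_mul_of_nonneg_left (hinv p hpG ⟨by linarith, by linarith⟩)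
        (show 0 ≤ q - c by linarith)
      have a2 := mul_le_mul_of_nonneg_left (hinv q hqG ⟨by linarith, by linarith⟩)
        (show 0 ≤ c - p by linarith)
      linarith
    have h5 : min (c - p) (q - c) ≤ 4 := (min_le_left _ _).trans (by linarith)
    have h6 : 2⁻¹ ≤ (h22 u (t, a, c))⁻¹ := by linarith
    exact (inv_le_inv₀ (by norm_num) (h22p c ⟨by linarith, by linarith⟩)).1 h6
  have hw := V.cw
  rw [h.ty] at hw
  have hs' : Icc (-(3 / 2) : ℝ) (3 / 2) ⊆ Ioo (-2 : ℝ) 2 := Icc_subset_Ioo (by norm_num) (by norm_num)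
  have hw' := Green.C2On_mono hw (hs'.trans Ioo_subset_Icc_self)
  intro c hc1 c' hc2
  have := osc (G := G) hw'.d2 hw'.c2 hδ.le hδ.le (fun s hs => by
    have a1 := h2 s hs
    have a2 := h22p s (Ioo_subset_Icc_self (hs' hs))
    simp only [om, Bool.false_eq_true, if_false, inv_one]
    exact abs_le.2 ⟨by linarith, by linarith⟩) (fun s hs hsG => by
    simpa [om] using hne s hsG (hs' hs))
    ((measure_mono (sdiff_subset_sdiff_left hs')).trans_lt hv) c hc1 c' hc2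
  linarith

end Fill

open Fill in
theorem fill_ok (hc : Core) : StFill := by
  intro ε hε
  refine ⟨min (1 / 10 ^ 6) (ε / 3000), lt_min (by norm_num) (by linarith), ?_⟩
  intro b d u F t G h hv hG hE
  have hδ1 : min (1 / 10 ^ 6) (ε / 3000) ≤ (1 / 10 ^ 6 : ℝ) := min_le_left _ _
  have hδ2 : min (1 / 10 ^ 6) (ε / 3000) ≤ ε / 3000 := min_le_right _ _
  have hδ : 0 < min (1 / 10 ^ 6) (ε / 3000) := lt_min (by norm_num) (by linarith)
  generalize min (1 / 10 ^ 6) (ε / 3000) = δ at *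
  have hch := cheb_v hc h.gs h.tI h.reg_bx (ε := 1 / 100) (a := -2) (a' := 2) (J := iv b 2) hE
    (isOpen_iv _ _).measurableSet (by norm_num) (by norm_num) Subset.rfl
  have hch' := hch.trans_lt ((ENNReal.ofReal_lt_ofReal_iff (by norm_num : (0 : ℝ) < 1 / 4)).2
    (by rw [div_lt_iff₀ (by norm_num)]; linarith))
  obtain ⟨a₁, ⟨p1, p2⟩, p3⟩ := fill1_ok.2 _ 1 _ hch'
  obtain ⟨a₂, ⟨q1, q2⟩, q3⟩ := fill1_ok.2 _ (3 / 2) _ hch'
  have m1 : a₁ ∈ iv b 2 := (iv_12 p1.le (by linarith)).1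
  have m2 : a₂ ∈ iv b 2 := (iv_12 (by linarith) (by linarith)).1
  have v1 := vert hc h hδ (by linarith) hv hG m1 (not_not.1 fun hn => p3 ⟨m1, hn⟩)
  have v2 := vert hc h hδ (by linarith) hv hG m2 (not_not.1 fun hn => q3 ⟨m2, hn⟩)
  obtain ⟨c₀, ⟨r1, r2⟩, r3⟩ := exists_good (a := 0) hv (Ioo_subset_Ioo (by norm_num) (by linarith))
  have hc₀ : c₀ ∈ Icc (-(3 / 2) : ℝ) (3 / 2) := ⟨by linarith, by linarith⟩
  have hs' : Icc (-(3 / 2) : ℝ) (3 / 2) ⊆ Ioo (-2 : ℝ) 2 := Icc_subset_Ioo (by norm_num) (by norm_num)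
  have hs'' : Icc (-(3 / 2) : ℝ) (3 / 2) ⊆ Icc (-2 : ℝ) 2 := hs'.trans Ioo_subset_Icc_self
  set w := wv (b, false) u with hwdef
  set P := D e2 w (t, a₁, c₀) with hP
  have hP2 : |D e2 w (t, a₂, c₀) - P| ≤ δ := by
    have hi : ∀ s ∈ Icc a₁ a₂, s ∈ iv b 2 ∧ 1 ≤ om b s := fun s hs =>
      iv_12 (by linarith [hs.1]) (by linarith [hs.2])
    have H := hl hc h.gs h.tI (b := c₀) (J := Icc a₁ a₂) (fun s hs => memS h (hi s hs).1 (hs'' hc₀))
    have h1 := mvt (P := 0) (K := δ) (x := a₂) (x' := a₁) H.d2 (fun s hs => by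
      have h2 := (hG c₀ r3 (hs' hc₀) s (hi s hs).1).2.2
      have h3 : 1 ≤ √(o1 (b, false) (t, s, c₀) * o2 (b, false) (t, s, c₀)) := by
        refine Real.le_sqrt_of_sq_le ?_
        simpa [o1, o2, om] using (hi s hs).2
      rw [sub_zero]
      exact (le_mul_of_one_le_left (abs_nonneg _) h3).trans h2) ⟨by linarith, le_rfl⟩
      ⟨le_rfl, by linarith⟩
    have e1 := (h.api hc).q2 _ (h.memU (memS h m1 (hs'' hc₀)))
    have e2 := (h.api hc).q2 _ (h.memU (memS h m2 (hs'' hc₀)))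
    rw [h.ty] at e1 e2
    simp only [Bool.false_eq_true, if_false] at e1 e2
    rw [e1, e2, abs_of_pos (show 0 < a₂ - a₁ by linarith)] at h1
    have h4 : δ * (a₂ - a₁) ≤ δ * 1 := mul_le_mul_of_nonneg_left (by linarith) hδ.le
    refine le_trans (le_of_eq ?_) (h1.trans (h4.trans (mul_one δ).le))
    congr 1
    ring
  have lin : ∀ a ∈ iv b 2, (∀ c ∈ Icc (-(3 / 2) : ℝ) (3 / 2), |D e2 w (t, a, c) - P| ≤ 5 * δ) →
      ∀ c ∈ Icc (-(3 / 2) : ℝ) (3 / 2), |w (t, a, c) - w (t, a, c₀) - P * (c - c₀)| ≤ 10 * δ := by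
    intro a ha hb c hc'
    have V := (vl hc h.gs h.tI (a := a) (J := Icc (-(3 / 2)) (3 / 2))
      (fun c hc' => memS h ha (hs'' hc'))).cw
    rw [h.ty] at V
    have h1 := mvt V.d1 hb hc' hc₀
    have h2 : |c - c₀| ≤ 2 := abs_le.2 ⟨by linarith [hc'.1], by linarith [hc'.2]⟩
    have h3 := mul_le_mul_of_nonneg_left h2 (show 0 ≤ 5 * δ by linarith)
    linarith
  have l1 := lin a₁ m1 fun c hc' => (v1 c hc' c₀ hc₀).trans (by linarith)
  have l2 := lin a₂ m2 fun c hc' => by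
    have := abs_sub_le (D e2 w (t, a₂, c)) (D e2 w (t, a₂, c₀)) P
    linarith [v2 c hc' c₀ hc₀]
  set α₁ := w (t, a₁, c₀) with hα₁
  set α₂ := w (t, a₂, c₀) with hα₂
  have ha0 : 0 < a₂ - a₁ := by linarith
  refine ⟨(a₂ * α₁ - a₁ * α₂) / (a₂ - a₁) - P * c₀, (α₂ - α₁) / (a₂ - a₁), P, ?_⟩
  rintro ⟨x, y⟩ ⟨hx, hy⟩
  simp only at hx hy
  obtain ⟨x1, x2, x3⟩ := iv_bd hx
  have hx2 : x ∈ iv b 2 := iv_seg hx (show x < 2 by linarith) ⟨le_rfl, le_rfl⟩
  set A := (a₂ * α₁ - a₁ * α₂) / (a₂ - a₁) - P * c₀ + (α₂ - α₁) / (a₂ - a₁) * x with hA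
  have good : ∀ c ∈ Icc (-(3 / 2) : ℝ) (3 / 2) ∩ G, |w (t, x, c) - (A + P * c)| ≤ 400 * δ := by
    rintro c ⟨hc1, hc2⟩
    have hi := iv_seg hx (show a₂ < 2 by linarith)
    have H := (hl hc h.gs h.tI (b := c) (J := Icc x a₂) (fun s hs => memS h (hi hs) (hs'' hc1))).cw
    rw [h.ty] at H
    have h1 := three (a₁ := a₁) (K := 3 * δ) (by linarith) (by linarith) (by linarith) H
      (by linarith) (fun s hs => by
      obtain ⟨o1', o2'⟩ := x3 s hs.1 (by linarith [hs.2])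
      have h2 : |om b s * h11 u (t, s, c) - 1| ≤ δ :=
        (hG c hc2 (hs' hc1) s (hi (Ioo_subset_Icc_self hs))).1
      have e : om b s * |h11 u (t, s, c) - (om b s)⁻¹| = |om b s * h11 u (t, s, c) - 1| := by
        rw [← abs_of_pos o1', ← abs_mul, abs_of_pos o1', mul_sub, mul_inv_cancel₀ o1'.ne']
      have h3 := mul_le_mul_of_nonneg_right o2' (abs_nonneg (h11 u (t, s, c) - (om b s)⁻¹))
      simp only
      linarith)
    have e : (a₂ - a₁) * (w (t, x, c) - (A + P * c)) =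
        ((a₂ - a₁) * w (t, x, c) + (a₁ - x) * w (t, a₂, c) - (a₂ - x) * w (t, a₁, c)) -
          (a₁ - x) * (w (t, a₂, c) - α₂ - P * (c - c₀)) +
          (a₂ - x) * (w (t, a₁, c) - α₁ - P * (c - c₀)) := by
      rw [hA]
      field_simp
      ring
    have b1 := abs_le.1 h1
    have b2 : |(a₁ - x) * (w (t, a₂, c) - α₂ - P * (c - c₀))| ≤ 3 * (10 * δ) := by
      rw [abs_mul]
      exact mul_le_mul (abs_le.2 ⟨by linarith, by linarith⟩) (l2 c hc1) (abs_nonneg _) (by norm_num)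
    have b3 : |(a₂ - x) * (w (t, a₁, c) - α₁ - P * (c - c₀))| ≤ 3 * (10 * δ) := by
      rw [abs_mul]
      exact mul_le_mul (abs_le.2 ⟨by linarith, by linarith⟩) (l1 c hc1) (abs_nonneg _) (by norm_num)
    have b4 : |(a₂ - a₁) * (w (t, x, c) - (A + P * c))| ≤ 100 * δ := by
      rw [e]
      have b2' := abs_le.1 b2
      have b3' := abs_le.1 b3
      exact abs_le.2 ⟨by linarith [b1.1, b2'.2, b3'.1], by linarith [b1.2, b2'.1, b3'.2]⟩
    rw [abs_mul, abs_of_pos ha0] at b4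
    have b5 := mul_le_mul_of_nonneg_right (show 1 / 4 ≤ a₂ - a₁ by linarith)
      (abs_nonneg (w (t, x, c) - (A + P * c)))
    linarith
  have hwe : ∀ c, w (t, x, c) = u (t, x, c) - (md b x + c ^ 2 / 2) := fun c => by
    simp [hwdef, wv, u0, md]
  have hcv := cvx_v hc h (x := x) (a := -(3 / 2)) (b := 3 / 2) (fun c hc' => memS h hx2 (hs'' hc'))
  have hy1 : -1 < y := hy.1
  have hy2 : y < 1 := hy.2
  have fin := fill1_ok.1 (fun c => u (t, x, c) - (md b x + A + P * c)) (fun c => c ^ 2 / 2) G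
    (-(3 / 2)) (3 / 2) δ (400 * δ) (5 * δ) hδ ⟨convex_Icc _ _, fun c hc1 c' hc2 r s hr hs hrs => by
      have h1 := hcv.2 hc1 hc2 hr hs hrs
      have h2 : md b x + A = r * (md b x + A) + s * (md b x + A) := by rw [← add_mul, hrs, one_mul]
      simp only [smul_eq_mul] at h1 ⊢
      linarith⟩ (fun c hc1 c' hc2 hd => by
      have e : c ^ 2 / 2 - c' ^ 2 / 2 = (c - c') * ((c + c') / 2) := by ring
      rw [e, abs_mul]
      have h1 : |(c + c') / 2| ≤ 3 / 2 :=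
        abs_le.2 ⟨by linarith [hc1.1, hc2.1], by linarith [hc1.2, hc2.2]⟩
      have h2 := mul_le_mul hd h1 (abs_nonneg _) (by linarith)
      linarith) ((measure_mono (sdiff_subset_sdiff_left hs')).trans_lt hv) (fun c hc' => by
      have := good c hc'
      rw [hwe] at this
      refine le_trans (le_of_eq ?_) this
      congr 1
      ring) y ⟨by linarith, by linarith⟩
  rw [hwe]
  refine le_trans (le_of_eq ?_) (fin.trans (by linarith))
  congr 1
  simp only [af, hA]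
  ring

end Pool.Agent.P.MP_2cea5e_gt.I.S4
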