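import Pool.Agent.P.MP_2cea5e_gt.I.S.Tool2

/-!
Chapter I, section 2: the good frame at an interior point.
-/

open scoped ContDiff Topology ENNReal
open MeasureTheory Set Filter

noncomputable section

set_option linter.dupNamespace false

namespace Pool.Agent.P.MP_2cea5e_gt.I.S4

theorem ll_ok (hc : Core) (h1 : StLLc) : StLL := by
  intro Λ r₀ ε hΛ r0 r1 hε
  have hΛ0 : 0 < Λ := one_pos.trans_le hΛ
  obtain ⟨η, e, η0, η1, he, k1⟩ := h1 Λ ε hΛ hε
  obtain ⟨J, hJ⟩ := exists_nat_gt (Λ / e)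
  rw [div_lt_iff₀ he] at hJ
  have rm0 : 0 < r₀ * η ^ J := by positivity
  obtain ⟨ρ₁, hρ₁, k2⟩ := k1 (Λ / (r₀ * η ^ J) ^ 3) (by positivity)
  refine ⟨√(r₀ * η ^ J) * ρ₁, by positivity, fun d u F t h hD hE hDt => ?_⟩
  have hle : ∀ i j : ℕ, i ≤ j → r₀ * η ^ j ≤ r₀ * η ^ i := fun i j hij =>
    mul_le_mul_of_nonneg_left (pow_le_pow_of_le_one η0.le η1.le hij) r0.le
  have hsum := En_sum (int_F2 h.gs h.tI h.reg_bx)
    (fun j => bx tLL (r₀ * η ^ j) \ bxc tLL (r₀ * η ^ (j + 1)))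
    (fun j => (isOpen_bx _ _).measurableSet.diff (isCompact_bxc _ _).measurableSet) 1
    (fun i j hij => disjoint_left.2 fun y a b => a.2 (bxc_mono _ (by positivity) (hle _ _ hij)
      (bx_subset_bxc _ _ b.1))) (Finset.range J)
    fun j _ => sdiff_subset.trans (bx_mono _ (by positivity) (by simpa using hle 0 j j.zero_le))
  obtain ⟨j, hj, hEj⟩ := Finset.exists_lt_of_sum_lt (s := Finset.range J) (g := fun _ => e)
    (hsum.trans_lt (by
      simp only [Nat.cast_one, one_mul, Finset.sum_const, Finset.card_range, nsmul_eq_mul]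
      linarith))
  have rm := hle j J (Finset.mem_range.1 hj).le
  have rr : r₀ * η ^ j ≤ r₀ := by simpa using hle 0 j j.zero_le
  have e1 : r₀ * η ^ (j + 1) = r₀ * η ^ j * η := by ring
  rw [e1] at hEj
  have hr : 0 < r₀ * η ^ j := by positivity
  generalize r₀ * η ^ j = r at rm rr hEj hr
  generalize r₀ * η ^ J = m at rm rm0 k2 ⊢
  have hρ : 0 < √r := Real.sqrt_pos.2 hr
  have hρ2 : √r ^ 2 = r := Real.sq_sqrt hr.le
  have hρ4 : √r ^ 4 = r ^ 2 := by rw [show √r ^ 4 = (√r ^ 2) ^ 2 by ring, hρ2]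
  set fr := dg t (√r) hρ 0 r r hr hr with hfr
  have hsp : ∀ y, fr.sp y = (r * y.1, r * y.2) := fun y => by simp [hfr, dg_sp]
  have hcp : fr.Cp tLL tLL := by simp [Fr.Cp]
  have ab : ∀ x : ℝ, |r * x| = r * |x| := fun x => by rw [abs_mul, abs_of_pos hr]
  have hm : MapsTo fr.sp (bxc tLL 1) (bxc tLL r₀) := fun y hy => by
    rw [mem_bxcLL] at hy ⊢
    simp only [hsp, ab]
    exact ⟨by nlinarith [hy.1], by nlinarith [hy.2]⟩
  have hm1 : fr.sp '' bx tLL 1 ⊆ bx tLL r := by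
    rintro _ ⟨y, hy, rfl⟩
    rw [mem_bxLL] at hy ⊢
    simp only [hsp, ab]
    exact ⟨by nlinarith [hy.1], by nlinarith [hy.2]⟩
  have hm2 : bx tLL r ⊆ bx tLL r₀ := bx_mono _ hr.le rr
  have hdet : |fr.det| = r * r := dg_det _ _ _ _ _ _ _ _
  have hone : fr.ρ ^ 4 / |fr.det| = 1 := by
    rw [hdet]; change √r ^ 4 / _ = 1; rw [hρ4]; field_simp
  obtain ⟨fr', f0, hg⟩ := k2 _ _ _ 0 (h.frame hc (fr := fr) rfl hcp hm)
    (fun y hy => by
      have a := (frame_pt hc h.gs h.tI (fr := fr) rfl (h.memLL (hm hy))).1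
      have a1 := a (1, 0)
      have a2 := a (0, 1)
      simp only [D_sv, hfr, dg, Fr.S, hρ2, mul_one, mul_zero, zero_mul, add_zero, zero_add,
        one_mul, sub_zero, mul_div_cancel_left₀ _ hr.ne'] at a1 a2
      exact ⟨a1 ▸ (hD _ (hm hy)).1, a2 ▸ (hD _ (hm hy)).2⟩)
    (by
      rw [En_frame0 hc fr (isOpen_bx _ _).measurableSet, hone, one_mul]
      exact (En_mono h.gs h.tI h.reg_bx (hm1.trans hm2)).trans hE)
    (by
      rw [En_frame0 hc fr ((isOpen_bx _ _).measurableSet.diff (isCompact_bxc _ _).measurableSet),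
        hone, one_mul]
      refine (En_mono h.gs h.tI (h.reg_bx.mono ((isOpen_bx _ _).measurableSet.diff
        (isCompact_bxc _ _).measurableSet) (sdiff_subset.trans hm2)) ?_).trans hEj.le
      rintro _ ⟨y, hy, rfl⟩
      refine ⟨hm1 (mem_image_of_mem _ hy.1), fun a => hy.2 ?_⟩
      rw [mem_bxcLL] at a ⊢
      simp only [hsp, ab] at a
      exact ⟨le_of_mul_le_mul_left a.1 hr, le_of_mul_le_mul_left a.2 hr⟩)
    (by
      rw [Dt_frame0 hc h.gs h.tI (fr := fr) rfl (isOpen_bx _ _).measurableSet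
        fun y hy => h.memLL (hm (bx_subset_bxc _ _ hy)), hdet, Real.sqrt_mul_self hr.le]
      have a1 := (Dt_mono hc h.gs h.tI h.reg_bx (hm1.trans hm2)).trans hDt
      have a2 : fr.ρ / (r * (r * r)) ≤ 1 / m ^ 3 :=
        div_le_div₀ zero_le_one (Real.sqrt_le_one.2 (rr.trans r1)) (by positivity)
          ((pow_le_pow_left₀ rm0.le rm 3).trans (le_of_eq (by ring)))
      calc _ ≤ 1 / m ^ 3 * Λ := mul_le_mul a2 a1 (integral_nonneg fun _ => dq_nonneg _ _)
            (by positivity)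
        _ = _ := by ring)
  refine ⟨fr.comp fr', comp_p f0, hg.comp hc rfl (by rw [h.ty]; exact hcp) hm
    (mul_le_mul_of_nonneg_right (Real.sqrt_le_sqrt rm) hρ₁.le)
    (mul_le_of_le_one_left hε.le (Real.sqrt_le_one.2 (rr.trans r1))) ?_ le_rfl⟩
  have hd : |fr.det| ≠ 0 := (abs_pos.2 fr.det_ne).ne'
  rw [div_eq_one_iff_eq hd] at hone
  rw [hone, mul_comm]

end Pool.Agent.P.MP_2cea5e_gt.I.S4
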