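import Pool.Agent.P.MP_2cea5e_gt.I.S.Tool2

/-!
Chapter I, section 2: comparison of the Hessians along a cheap cross.
-/

open scoped ContDiff Topology ENNReal
open MeasureTheory Set Filter

noncomputable section

set_option linter.dupNamespace false

namespace Pool.Agent.P.MP_2cea5e_gt.I.S4

namespace LLa

theorem line {g g' H F : ℝ → ℝ} {Λ θ : ℝ} (hΛ : 1 ≤ Λ) (hθ : θ ≤ 1 / 100)
    (hg : C2On g g' H (Icc (-1) 1)) (hH : ∀ x ∈ Icc (-1 : ℝ) 1, 0 < H x) (h1 : |g' 1| ≤ Λ)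
    (h2 : |g' (-1)| ≤ Λ)
    (hm : ∃ m' m'', C2On (fun x => (H x)⁻¹) m' m'' (Icc (-1) 1) ∧ ∀ x ∈ Icc (-1 : ℝ) 1, m'' x ≤ F x)
    (hF : Cheap F (-1) 1 (1 / (200 * Λ))) :
    (∀ x, |x| ≤ θ → H x ≤ 16 * Λ) ∧ ∀ y : ℝ → ℝ, (∀ x ∈ Icc (-1 : ℝ) 1, 0 < y x) →
      (∃ y' y'', C2On y y' y'' (Icc (-1) 1) ∧ ∀ x ∈ Icc (-1 : ℝ) 1, |y'' x| ≤ F x * y x * H x) →
      ∀ x x', |x| ≤ θ → |x'| ≤ θ → (1 - 8 * θ) * y x ≤ (1 + 8 * θ) * y x' := by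
  obtain ⟨m', m'', c1, c2⟩ := hm
  have e1 : (0 : ℝ) - 1 = -1 := by norm_num
  have e2 : (0 : ℝ) + 1 = 1 := by norm_num
  have hi : ∫ x in Ioo (-1 : ℝ) 1, H x = g' 1 - g' (-1) :=
    LemK.ftc (by norm_num) hg.d2 hg.c2
  obtain ⟨a1, a2⟩ := hLine (fun x => (H x)⁻¹) m' m'' F 0 1 (2 * Λ) (1 / (200 * Λ)) one_pos
    (by linarith) (by rwa [e1, e2]) (by
      rw [e1, e2]
      exact fun x hx => inv_pos.2 (hH x hx)) (by rwa [e1, e2]) (by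
      rw [e1, e2]
      exact fun x hx => c2 x (Ioo_subset_Icc_self hx)) (by
      rw [e1, e2]
      simp only [inv_inv]
      rw [hi]
      linarith [(abs_le.1 h1).2, (abs_le.1 h2).1]) (by
      have : Λ ≠ 0 := by linarith
      apply le_of_eq
      field_simp
      norm_num)
  have hmem : ∀ x : ℝ, |x| ≤ θ → x ∈ Icc ((0 : ℝ) - 1 / 2) (0 + 1 / 2) := fun x hx =>
    ⟨by linarith [(abs_le.1 hx).1], by linarith [(abs_le.1 hx).2]⟩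
  refine ⟨fun x hx => ?_, fun y hy ⟨y', y'', b1, b2⟩ x x' hx hx' => ?_⟩
  · have := a1 x (hmem x hx)
    simp only [inv_inv] at this
    linarith
  obtain ⟨a3, -⟩ := a2 y y' y'' (by rwa [e1, e2]) (by rwa [e1, e2]) (by
    rw [e1, e2]
    intro x hx
    simp only [inv_inv]
    exact b2 x (Ioo_subset_Icc_self hx))
  have y0 : 0 < y 0 := hy 0 ⟨by norm_num, by norm_num⟩
  have key : ∀ x, |x| ≤ θ → |y x - y 0| ≤ 8 * θ * y 0 := fun x hx => by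
    have := a3 x (hmem x hx)
    rw [sub_zero, div_one] at this
    exact this.trans (mul_le_mul_of_nonneg_right (by linarith) y0.le)
  have k1 := (abs_le.1 (key x hx)).2
  have k2 := (abs_le.1 (key x' hx')).1
  have t0 : 0 ≤ θ := (abs_nonneg x).trans hx
  calc (1 - 8 * θ) * y x ≤ (1 - 8 * θ) * ((1 + 8 * θ) * y 0) :=
        mul_le_mul_of_nonneg_left (by linarith) (by linarith)
    _ = (1 + 8 * θ) * ((1 - 8 * θ) * y 0) := by ring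
    _ ≤ (1 + 8 * θ) * y x' := mul_le_mul_of_nonneg_left (by linarith) (by linarith)

theorem two {θ p q r : ℝ} (h0 : 0 < θ) (hθ : θ ≤ 1 / 100) (hr : 0 ≤ r)
    (h1 : (1 - 8 * θ) * p ≤ (1 + 8 * θ) * q) (h2 : (1 - 8 * θ) * q ≤ (1 + 8 * θ) * r) :
    p ≤ (1 + 100 * θ) * r := by
  have a1 : 0 < 1 - 8 * θ := by linarith
  have a2 : (1 + 8 * θ) ^ 2 ≤ (1 - 8 * θ) ^ 2 * (1 + 100 * θ) := by
    nlinarith [mul_pos h0 h0, mul_pos h0 (mul_pos h0 h0), mul_le_mul_of_nonneg_left hθ h0.le]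
  refine le_of_mul_le_mul_left ?_ (pow_pos a1 2)
  calc (1 - 8 * θ) ^ 2 * p = (1 - 8 * θ) * ((1 - 8 * θ) * p) := by ring
    _ ≤ (1 - 8 * θ) * ((1 + 8 * θ) * q) := mul_le_mul_of_nonneg_left h1 a1.le
    _ = (1 + 8 * θ) * ((1 - 8 * θ) * q) := by ring
    _ ≤ (1 + 8 * θ) * ((1 + 8 * θ) * r) := mul_le_mul_of_nonneg_left h2 (by linarith)
    _ = (1 + 8 * θ) ^ 2 * r := by ring
    _ ≤ (1 - 8 * θ) ^ 2 * (1 + 100 * θ) * r := mul_le_mul_of_nonneg_right a2 hr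
    _ = _ := by ring

end LLa

theorem lla_ok (hc : Core) : StLLa := by
  intro Λ θ d u F t a₀ b₀ hΛ h0 hθ h hD ha₀ hb₀ cv ch
  have ha := h.api hc
  have hS : ∀ a b : ℝ, |a| ≤ 1 → |b| ≤ 1 → ((a, b) : ℝ × ℝ) ∈ d.S := fun a b h1 h2 =>
    h.memLL (mem_bxcLL.2 ⟨h1, h2⟩)
  have h1 : ∀ a : ℝ, |a| ≤ θ → |a| ≤ 1 := fun a h => by linarith
  have o1 : |(1 : ℝ)| ≤ 1 := by simp
  have o2 : |(-1 : ℝ)| ≤ 1 := by simp
  have H : ∀ b, |b| ≤ θ → Cheap (fun x => F (t, x, b)) (-1) 1 (1 / (200 * Λ)) →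
      (∀ x, |x| ≤ θ → h11 u (t, x, b) ≤ 16 * Λ) ∧ ∀ n, n ≠ 0 → ∀ x x', |x| ≤ θ → |x'| ≤ θ →
        (1 - 8 * θ) * iq u n (t, x, b) ≤ (1 + 8 * θ) * iq u n (t, x', b) := by
    intro b hb c
    have s : ∀ x ∈ Icc (-1 : ℝ) 1, ((x, b) : ℝ × ℝ) ∈ d.S := fun x hx =>
      hS x b (abs_le.2 hx) (h1 b hb)
    have l := hl hc h.gs h.tI s
    obtain ⟨a1, a2⟩ := LLa.line hΛ hθ l.cu (fun x hx => h.gs.p11 _ (h.memU (s x hx)))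
      (hD (1, b) (mem_bxcLL.2 ⟨o1, h1 b hb⟩)).1 (hD (-1, b) (mem_bxcLL.2 ⟨o2, h1 b hb⟩)).1 l.m c
    exact ⟨a1, fun n hn => a2 _ (fun x hx => (ha.hqp _ (h.memU (s x hx)) n hn).2) (l.q n hn)⟩
  have V : ∀ a, |a| ≤ θ → Cheap (fun x => F (t, a, x)) (-1) 1 (1 / (200 * Λ)) →
      (∀ x, |x| ≤ θ → h22 u (t, a, x) ≤ 16 * Λ) ∧ ∀ n, n ≠ 0 → ∀ x x', |x| ≤ θ → |x'| ≤ θ →
        (1 - 8 * θ) * iq u n (t, a, x) ≤ (1 + 8 * θ) * iq u n (t, a, x') := by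
    intro a hb c
    have s : ∀ x ∈ Icc (-1 : ℝ) 1, ((a, x) : ℝ × ℝ) ∈ d.S := fun x hx =>
      hS a x (h1 a hb) (abs_le.2 hx)
    have l := vl hc h.gs h.tI s
    obtain ⟨a1, a2⟩ := LLa.line hΛ hθ l.cu (fun x hx => ha.p22 _ (h.memU (s x hx)))
      (hD (a, 1) (mem_bxcLL.2 ⟨h1 a hb, o1⟩)).2 (hD (a, -1) (mem_bxcLL.2 ⟨h1 a hb, o2⟩)).2 l.m c
    exact ⟨a1, fun n hn => a2 _ (fun x hx => (ha.hqp _ (h.memU (s x hx)) n hn).2) (l.q n hn)⟩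
  refine ⟨(H b₀ hb₀ ch).1 a₀ ha₀, (V a₀ ha₀ cv).1 b₀ hb₀, fun a b ha' hb' hch => ?_⟩
  have U1 := h.memU (hS a b (h1 a ha') (h1 b hb'))
  have U0 := h.memU (hS a₀ b₀ (h1 a₀ ha₀) (h1 b₀ hb₀))
  have key : ∀ n, iq u n (t, a, b) ≤ (1 + 100 * θ) * iq u n (t, a₀, b₀) ∧
      iq u n (t, a₀, b₀) ≤ (1 + 100 * θ) * iq u n (t, a, b) := by
    intro n
    by_cases hn : n = 0
    · simp [hn, iq_eq]
    have p1 := (ha.hqp _ U1 n hn).2.le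
    have p0 := (ha.hqp _ U0 n hn).2.le
    rcases hch with c | c
    · exact ⟨LLa.two h0 hθ p0 ((H b hb' c).2 n hn a a₀ ha' ha₀)
          ((V a₀ ha₀ cv).2 n hn b b₀ hb' hb₀),
        LLa.two h0 hθ p1 ((V a₀ ha₀ cv).2 n hn b₀ b hb₀ hb') ((H b hb' c).2 n hn a₀ a ha₀ ha')⟩
    · exact ⟨LLa.two h0 hθ p0 ((V a ha' c).2 n hn b b₀ hb' hb₀)
          ((H b₀ hb₀ ch).2 n hn a a₀ ha' ha₀),
        LLa.two h0 hθ p1 ((H b₀ hb₀ ch).2 n hn a₀ a ha₀ ha') ((V a ha' c).2 n hn b₀ b hb₀ hb')⟩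
  have w1 := ha.pW _ U1
  have w0 := ha.pW _ U0
  rw [W_eq'] at w1 w0
  simp only [iq_qi] at key
  intro e
  rw [hq_qx, hq_qx]
  exact ⟨(alg_ok.2.2.1 _ _ _ _ _ _ _ (h.gs.p11 _ U0) w0 (h.gs.p11 _ U1) w1).1
      (fun n => (key n).2) e,
    (alg_ok.2.2.1 _ _ _ _ _ _ _ (h.gs.p11 _ U1) w1 (h.gs.p11 _ U0) w0).1 (fun n => (key n).1) e⟩

end Pool.Agent.P.MP_2cea5e_gt.I.S4
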