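import Pool.Agent.P.MP_2cea5e_gt.I.S.Tool2

/-!
Chapter I, section 2: a good frame at an interior point from almost constant Hessians.
-/

open scoped ContDiff Topology ENNReal
open MeasureTheory Set Filter

noncomputable section

set_option linter.dupNamespace false

namespace Pool.Agent.P.MP_2cea5e_gt.I.S4

namespace LLb

variable {d : Dm} {u F : X → ℝ} {t : ℝ}

/-- Comparison of determinants. -/
theorem W_le {p q : X} {μ : ℝ} (hp : 0 < h11 u p) (hq0 : 0 < h11 u q) (hW : 0 < W u q)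
    (hμ : 0 ≤ μ) (h : ∀ e, hq u e p ≤ μ * hq u e q) : W u p ≤ μ ^ 2 * W u q := by
  have a1 := h (1, 0)
  have a2 := h (-h12 u q / h11 u q, 1)
  rw [hq_e1] at a1
  have e2 : hq u (-h12 u q / h11 u q, 1) q = W u q / h11 u q := by
    rw [hq_eq, W_eq']; field_simp; ring
  rw [e2] at a2
  have a3 : W u p ≤ h11 u p * hq u (-h12 u q / h11 u q, 1) p := by
    rw [hq_eq, W_eq']
    nlinarith [sq_nonneg (h11 u p * (-h12 u q / h11 u q) + h12 u p)]
  calc W u p ≤ h11 u p * (μ * (W u q / h11 u q)) :=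
        a3.trans (mul_le_mul_of_nonneg_left a2 hp.le)
    _ ≤ μ * h11 u q * (μ * (W u q / h11 u q)) :=
        mul_le_mul_of_nonneg_right a1 (by positivity)
    _ = μ ^ 2 * W u q := by field_simp

/-- Almost Euclidean quadratic forms. -/
theorem ne_of {v : X → ℝ} {p : X} {x : ℝ} (hx : 0 ≤ x)
    (h : ∀ e : ℝ × ℝ, hq v e p ≤ (1 + x) * (e.1 ^ 2 + e.2 ^ 2) ∧
      e.1 ^ 2 + e.2 ^ 2 ≤ (1 + x) * hq v e p) : NE tLL v x p := by
  have key : ∀ a c : ℝ, 0 ≤ c → c ≤ (1 + x) * a → (1 - x) * c ≤ a := fun a c hc ha => by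
    have : (1 + x) * ((1 - x) * c) ≤ (1 + x) * a := by nlinarith [mul_nonneg (sq_nonneg x) hc]
    exact le_of_mul_le_mul_left this (by linarith)
  obtain ⟨a1, b1⟩ := h (1, 0)
  obtain ⟨a2, b2⟩ := h (0, 1)
  obtain ⟨a3, b3⟩ := h (1, 1)
  obtain ⟨a4, b4⟩ := h (1, -1)
  have c1 := key _ _ (by positivity) b1
  have c2 := key _ _ (by positivity) b2
  have c3 := key _ _ (by positivity) b3
  have c4 := key _ _ (by positivity) b4
  simp only [hq_eq] at a1 a2 a3 a4 c1 c2 c3 c4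
  have o : o1 tLL p = 1 := rfl
  have o' : o2 tLL p = 1 := rfl
  refine ⟨?_, ?_, ?_⟩ <;> simp only [o, o', one_mul, mul_one, Real.sqrt_one] <;>
    rw [abs_le] <;> constructor <;> nlinarith

/-- The lower bound of the determinant. -/
theorem W_ge (hc : Core) {θ D₀ w : ℝ} {G : Set ℝ} (hθ : 0 < θ) (hD : 0 < D₀) (hw : 0 < w)
    (h : SK tLL (bxc tLL θ) d u F t) (hd : Dt u t (bx tLL θ) ≤ D₀)
    (hG : volume (Ioo (-θ) θ \ G) < ENNReal.ofReal θ)
    (hW : ∀ y ∈ bx tLL θ, y.2 ∈ G → W u (t, y) ≤ w) : (2 * θ ^ 2 / D₀) ^ 4 ≤ w := by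
  have hR := h.reg_bx
  set m := (√(√w))⁻¹ with hm
  have s0 : 0 < √(√w) := Real.sqrt_pos.2 (Real.sqrt_pos.2 hw)
  have a1 := mul_meas_ge_le_integral_of_nonneg (μ := volume.restrict (bx tLL θ))
    (f := fun y => dq u (t, y)) (Eventually.of_forall fun _ => dq_nonneg _ _)
    (int_dq hc h.gs h.tI hR) m
  rw [Measure.real, Measure.restrict_apply' hR.ms] at a1
  set N := {y : ℝ × ℝ | m ≤ dq u (t, y)} ∩ bx tLL θ with hN
  have hs : bx tLL θ ⊆ N ∪ Ioo (-θ) θ ×ˢ (Ioo (-θ) θ \ G) := fun y hy => by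
    by_cases hy2 : y.2 ∈ G
    · refine Or.inl ⟨?_, hy⟩
      have p0 := (h.api hc).pW _ (h.memU (hR.sub hy))
      exact inv_anti₀ (Real.sqrt_pos.2 (Real.sqrt_pos.2 p0))
        (Real.sqrt_le_sqrt (Real.sqrt_le_sqrt (hW y hy hy2)))
    · exact Or.inr ⟨hy.1, hy.2, hy2⟩
  have hNf : volume N ≠ ⊤ := ne_top_of_le_ne_top hR.finite (measure_mono inter_subset_right)
  have v1 : volume (bx tLL θ) = ENNReal.ofReal (2 * θ) * ENNReal.ofReal (2 * θ) := by
    change volume (Ioo (-θ) θ ×ˢ Ioo (-θ) θ) = _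
    rw [Measure.volume_eq_prod, Measure.prod_prod, Real.volume_Ioo]
    congr 2 <;> ring
  have v2 : volume (Ioo (-θ) θ ×ˢ (Ioo (-θ) θ \ G)) ≤ ENNReal.ofReal (2 * θ) * ENNReal.ofReal θ := by
    rw [Measure.volume_eq_prod, Measure.prod_prod, Real.volume_Ioo,
      show θ - -θ = 2 * θ by ring]
    gcongr
  have v3 := (measure_mono (μ := volume) hs).trans ((measure_union_le _ _).trans
    (add_le_add le_rfl v2))
  rw [v1, ← ENNReal.ofReal_mul (by positivity), ← ENNReal.ofReal_mul (by positivity),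
    ← ENNReal.ofReal_toReal hNf, ← ENNReal.ofReal_add ENNReal.toReal_nonneg (by positivity),
    ENNReal.ofReal_le_ofReal_iff (by positivity)] at v3
  have a2 : m * (2 * θ ^ 2) ≤ D₀ :=
    (mul_le_mul_of_nonneg_left (by nlinarith) (inv_pos.2 s0).le).trans (a1.trans hd)
  have a3 : 2 * θ ^ 2 / D₀ ≤ √(√w) := by
    rw [div_le_iff₀ hD]
    rwa [hm, inv_mul_le_iff₀ s0] at a2
  calc (2 * θ ^ 2 / D₀) ^ 4 ≤ √(√w) ^ 4 := by gcongr
    _ = w := by
      rw [show (4 : ℕ) = 2 * 2 from rfl, pow_mul, Real.sq_sqrt (Real.sqrt_nonneg _),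
        Real.sq_sqrt hw.le]

theorem le2 {a b : ℝ} (_ha : 0 < a) (hb : 0 < b) (h : a ^ 2 ≤ b ^ 2) : a ≤ b :=
  (le_abs_self a).trans (abs_le_of_sq_le_sq h hb.le)

/-- The triangular frame. -/
def tf (t ρ : ℝ) (hρ : 0 < ρ) (a b e : ℝ) (ha : 0 < a) (he : 0 < e) : Fr :=
  ⟨t, ρ, 0, a, b, 0, e, 0, 0, 0, hρ, by simp [ha.ne', he.ne']⟩

end LLb

open LLb in
theorem llb_ok (hc : Core) (h : StFill) : StLLb := by
  intro Λ ε hΛ hε
  obtain ⟨δ, hδ, hF⟩ := h ε hε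
  have hΛ0 : 0 < Λ := by linarith
  obtain ⟨θ, hθ, t1, t2, t3, t4⟩ : ∃ θ : ℝ, 0 < θ ∧ θ ≤ 1 / 100 ∧ 100 * θ ≤ δ ∧
      16 * Λ ^ 3 * θ ≤ δ ∧ 16 * Λ ^ 2 * θ ≤ ε := by
    refine ⟨min (min (1 / 100) (δ / 100)) (min (δ / (16 * Λ ^ 3)) (ε / (16 * Λ ^ 2))),
      by positivity, (min_le_left _ _).trans (min_le_left _ _), ?_, ?_, ?_⟩
    · rw [← le_div_iff₀' (by positivity)]; exact (min_le_left _ _).trans (min_le_right _ _)
    · rw [← le_div_iff₀' (by positivity)]; exact (min_le_right _ _).trans (min_le_left _ _)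
    · rw [← le_div_iff₀' (by positivity)]; exact (min_le_right _ _).trans (min_le_right _ _)
  refine ⟨θ, min θ (δ * (θ / 4)), hθ, t1, by positivity, fun D₀ hD =>
    ⟨θ / 4 * ((2 * θ ^ 2 / D₀) ^ 2 / (8 * Λ)), by positivity, ?_⟩⟩
  intro d u F t y₀ G hk hE hDt hy₀ h21 h16 hG hQ
  have ha := hk.api hc
  have hU := hk.memU (hk.memLL hy₀)
  have pA := hk.gs.p11 _ hU
  have pC := ha.p22 _ hU
  have pW := ha.pW _ hU
  have eW := W_eq' u (t, y₀)
  have hw : (2 * θ ^ 2 / D₀) ^ 4 ≤ 4 * W u (t, y₀) := by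
    refine W_ge hc hθ hD (by positivity) hk hDt
      (hG.trans_le (ENNReal.ofReal_le_ofReal (min_le_left _ _))) fun y hy hy2 => ?_
    have hy' := mem_bxLL.1 hy
    have := W_le (μ := 1 + 100 * θ) (hk.gs.p11 _ (hk.memU (hk.reg_bx.sub hy))) pA pW
      (by positivity) fun e => (hQ y.2 hy2 hy'.2.le y.1 hy'.1.le e).1
    refine this.trans (mul_le_mul_of_nonneg_right (by nlinarith only [hθ, t1]) pW.le)
  set A := h11 u (t, y₀) with hA
  set B := h12 u (t, y₀) with hB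
  set C := h22 u (t, y₀) with hC
  set w := W u (t, y₀) with hw0
  obtain ⟨l, hl⟩ : ∃ l, l = θ / 4 := ⟨_, rfl⟩
  have pl : 0 < l := by rw [hl]; positivity
  obtain ⟨s, ps, hs⟩ : ∃ s : ℝ, 0 < s ∧ s ^ 2 = w / A :=
    ⟨√(w / A), Real.sqrt_pos.2 (by positivity), Real.sq_sqrt (by positivity)⟩
  obtain ⟨r, pr, hr⟩ : ∃ r : ℝ, 0 < r ∧ r ^ 2 = A := ⟨√A, Real.sqrt_pos.2 pA, Real.sq_sqrt pA.le⟩
  have hsr : s ≤ r := by
    refine le2 ps pr ?_
    rw [hs, hr, div_le_iff₀ pA]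
    linarith only [sq_nonneg B, eW, mul_le_mul_of_nonneg_left h21 pA.le]
  have hBA : |B / A| ≤ 1 := by
    rw [abs_div, abs_of_pos pA, div_le_one pA]
    exact abs_le_of_sq_le_sq
      (by linarith only [pW, eW, mul_le_mul_of_nonneg_left h21 pA.le]) pA.le
  have hr4 : r ≤ 4 * Λ := by
    refine le2 pr (by positivity) ?_
    linarith only [hr, h16, mul_le_mul_of_nonneg_left hΛ hΛ0.le]
  set fr := tf t (l * s) (by positivity) (l * (s / r)) (-(l * (B / A))) l (by positivity) pl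
    with hfr
  have eS : ∀ e : ℝ × ℝ, fr.S e = (l * (s / r) * e.1 - l * (B / A) * e.2, l * e.2) := fun e => by
    ext <;> simp [hfr, tf, Fr.S]; ring
  have esp : ∀ e : ℝ × ℝ, fr.sp e = (l * (s / r) * e.1 - l * (B / A) * e.2, l * e.2) := fun e => by
    rw [Fr.sp, eS]; simp [hfr, tf]
  have eρ : fr.ρ = l * s := rfl
  have edet : |fr.det| = l * (s / r) * l := by
    have : fr.det = l * (s / r) * l := by simp [hfr, tf, Fr.det]
    rw [this, abs_of_pos (by positivity)]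
  have b1 : ∀ e : ℝ × ℝ, |(fr.sp e).1| ≤ l * |e.1| + l * |e.2| := fun e => by
    rw [esp]
    refine (abs_sub _ _).trans (add_le_add ?_ ?_)
    · rw [abs_mul, abs_mul, abs_of_pos pl, abs_of_pos (div_pos ps pr)]
      exact mul_le_mul_of_nonneg_right (mul_le_of_le_one_right pl.le ((div_le_one pr).2 hsr))
        (abs_nonneg _)
    · rw [abs_mul, abs_mul, abs_of_pos pl]
      exact mul_le_mul_of_nonneg_right (mul_le_of_le_one_right pl.le hBA) (abs_nonneg _)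
  have b2 : ∀ e : ℝ × ℝ, |(fr.sp e).2| = l * |e.2| := fun e => by
    rw [esp, abs_mul, abs_of_pos pl]
  have m1 : MapsTo fr.sp (bxc tLL 2) (bxc tLL θ) := fun y hy => by
    have := mem_bxcLL.1 hy
    have c1 := mul_le_mul_of_nonneg_left this.1 pl.le
    have c2 := mul_le_mul_of_nonneg_left this.2 pl.le
    refine mem_bxcLL.2 ⟨(b1 y).trans ?_, (b2 y).trans_le ?_⟩ <;> linarith only [c1, c2, hl, pl]
  have m2 : MapsTo fr.sp (bx tLL 2) (bx tLL θ) := fun y hy => by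
    have := mem_bxLL.1 hy
    have c1 := mul_lt_mul_of_pos_left this.1 pl
    have c2 := mul_lt_mul_of_pos_left this.2 pl
    refine mem_bxLL.2 ⟨(b1 y).trans_lt ?_, (b2 y).trans_lt ?_⟩ <;> linarith only [c1, c2, hl, pl]
  have hcp : fr.Cp tLL tLL := ⟨by simp, by simp⟩
  have eq0 : ∀ e : ℝ × ℝ, hq u (fr.S e) (t, y₀) = (l * s) ^ 2 * (e.1 ^ 2 + e.2 ^ 2) := fun e => by
    have e1 : C = s ^ 2 + B ^ 2 / A := by rw [hs, eW]; field_simp; ring
    rw [hq_eq, eS, ← hA, ← hB, ← hC, e1, ← hr]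
    field_simp
    ring
  have fac : fr.ρ ^ 4 / |fr.det| ≤ 16 * Λ ^ 2 * θ ^ 2 := by
    have e1 : fr.ρ ^ 4 / |fr.det| = l ^ 2 * (s ^ 3 * r) := by rw [eρ, edet]; field_simp
    have e2 : s ^ 3 * r ≤ (16 * Λ) ^ 2 :=
      calc s ^ 3 * r ≤ r ^ 3 * r := by gcongr
        _ = A ^ 2 := by rw [← hr]; ring
        _ ≤ _ := by gcongr
    rw [e1, hl]
    exact (mul_le_mul_of_nonneg_left e2 (sq_nonneg _)).trans_eq (by ring)
  have hk' := hk.frame hc (fr := fr) rfl hcp m1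
  obtain ⟨l₀, l₁, l₂, hz⟩ := hF false _ _ _ 0 {c | l * c ∈ G} hk' (by
      have := vol_scale (J' := Ioo (-2 : ℝ) 2) pl hG fun c hc' =>
        ⟨by linarith only [mul_lt_mul_of_pos_left hc'.1 pl, hl, pl],
          by linarith only [mul_lt_mul_of_pos_left hc'.2 pl, hl, pl]⟩
      refine this.trans_le (ENNReal.ofReal_le_ofReal ?_)
      rw [div_le_iff₀ pl, hl]; exact min_le_right _ _)
    (fun c hcG hc2 x hx => by
      have hm : ((x, c) : ℝ × ℝ) ∈ bxc tLL 2 := bx_subset_bxc _ _ ⟨hx, hc2⟩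
      have hm' := mem_bxcLL.1 (m1 hm)
      refine (ne_of (x := 100 * θ) (by positivity) fun e => ?_).mono t2
      have r1 := (frame_pt hc hk.gs hk.tI (fr := fr) rfl (hk.memLL (m1 hm))).2.1 e e
      have r2 := hQ (fr.sp (x, c)).2 (by rw [esp]; exact hcG) hm'.2 (fr.sp (x, c)).1 hm'.1 (fr.S e)
      rw [eq0] at r2
      change hq (fr.pull u) e (0, x, c) = hq u (fr.S e) (t, fr.sp (x, c)) / (l * s) ^ 2 at r1
      have p2 : 0 < (l * s) ^ 2 := by positivity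
      rw [r1, div_le_iff₀ p2, ← mul_div_assoc, le_div_iff₀ p2]
      exact ⟨r2.1.trans_eq (by ring), (le_of_eq (by ring)).trans r2.2⟩)
    (by
      rw [En_frame0 hc fr (isOpen_bx _ _).measurableSet]
      have := (En_mono hk.gs hk.tI hk.reg_bx m2.image_subset).trans hE
      calc _ ≤ 16 * Λ ^ 2 * θ ^ 2 * Λ :=
            mul_le_mul fac this (En_nonneg _ _ _) (by positivity)
        _ = 16 * Λ ^ 3 * θ * θ := by ring
        _ ≤ δ := (mul_le_of_le_one_right (by positivity) (by linarith)).trans t3)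
  refine ⟨setl fr l₀ l₁ l₂, rfl, good_of_fill rfl (by rw [hk.ty]; exact hcp) ?_ ?_ ?_
    (m1.mono_left (bxc_mono _ zero_le_one one_le_two)) hz⟩
  · rw [eρ, hl]
    refine mul_le_mul_of_nonneg_left (le2 (by positivity) ps ?_)
      (by positivity)
    rw [hs, div_pow, ← pow_mul, div_le_div_iff₀ (by positivity) pA]
    calc (2 * θ ^ 2 / D₀) ^ (2 * 2) * A ≤ 4 * w * (16 * Λ) := by gcongr
      _ ≤ w * (8 * Λ) ^ 2 := by
          linarith only [mul_le_mul_of_nonneg_left hΛ (mul_pos pW hΛ0).le]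
  · rw [eρ, hl]
    calc θ / 4 * s ≤ θ / 4 * (4 * Λ) := by gcongr; exact hsr.trans hr4
      _ ≤ 16 * Λ ^ 2 * θ := by
          linarith only [mul_le_mul_of_nonneg_left hΛ (mul_pos hθ hΛ0).le, mul_pos hθ hΛ0]
      _ ≤ ε := t4
  · refine (div_le_iff₀ (show 0 < |fr.det| from abs_pos.2 fr.det_ne)).1 ?_
    calc _ ≤ 16 * Λ ^ 2 * θ * θ := fac.trans_eq (by ring)
      _ ≤ ε := (mul_le_of_le_one_right (by positivity) (by linarith)).trans t4

end Pool.Agent.P.MP_2cea5e_gt.I.S4
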