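import Pool.Agent.P.MP_2cea5e_gt.I.S.Tool2

/-!
Chapter I, section 2: the good frame at an edge point.
-/

open scoped ContDiff Topology ENNReal
open MeasureTheory Set Filter

noncomputable section

set_option linter.dupNamespace false

namespace Pool.Agent.P.MP_2cea5e_gt.I.S4

theorem pl_ok (hc : Core) (h1 : StStrict) (h2 : StPLa) (h3 : StPLb) : StPL := by
  intro a₀ L₀ Λ ε a0 a1 l0 l1 hΛ hε
  have hΛ0 : 0 < Λ := one_pos.trans_le hΛ
  obtain ⟨c, hc0, k1⟩ := h1 a₀ L₀ Λ a0 a1 l0 l1 hΛ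
  obtain ⟨V, hV, k2⟩ := h2 a₀ L₀ Λ c a0 a1 l0 l1 hΛ hc0
  obtain ⟨σ, e, ρ₁, hσ, he, hρ₁, k3⟩ := h3 V (4 * Λ * Λ) (ε / (4 * Λ)) hV (by nlinarith)
    (by positivity)
  obtain ⟨zm, hzm, k4⟩ := k2 σ (e / (4 * Λ)) hσ (by positivity)
  refine ⟨√zm * ρ₁, by positivity, fun d u F t h hD hE hDt => ?_⟩
  obtain ⟨z, L, z1, z2, L1, L2, zL, b1, ⟨x₀, hx₀, b2⟩, b3, b4⟩ := k4 d u F t h hD hE
    (k1 d u F t h (fun y hy => (hD y hy).1) hE hDt)
  have z0 : 0 < z := hzm.trans_le z1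
  have hρ : 0 < √z := Real.sqrt_pos.2 z0
  have hρ2 : √z ^ 2 = z := Real.sq_sqrt z0.le
  have hρ4 : √z ^ 4 = z ^ 2 := by rw [show √z ^ 4 = (√z ^ 2) ^ 2 by ring, hρ2]
  set fr := dg t (√z) hρ 0 z L z0 L1 with hfr
  have hsp : ∀ y, fr.sp y = (z * y.1, L * y.2) := fun y => by simp [hfr, dg_sp]
  have hcp : fr.Cp tPL tPL := by simp [Fr.Cp, hfr, dg, hρ2]
  have hm : MapsTo fr.sp (rc 1 1) (rc a₀ L₀) := fun y hy => by
    rw [hsp]
    exact ⟨⟨mul_nonneg z0.le hy.1.1, by nlinarith [hy.1.2]⟩, by nlinarith [hy.2.1],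
      by nlinarith [hy.2.2]⟩
  have hpull : ∀ x y, fr.pull u (0, x, y) = u (t, z * x, L * y) / z := fun x y => by
    rw [Fr.pull, fm_zero, hsp]
    simp [hfr, dg, af, hρ2]
  have hTT : ∀ x y, TT (fr.pull u) 0 x y = TT u t (z * x) (L * y) / z := fun x y => by
    simp only [TT, hpull, mul_neg, mul_zero]; ring
  have hdet : |fr.det| = z * L := dg_det _ _ _ _ _ _ _ _
  have hfac : fr.ρ ^ 4 / |fr.det| ≤ 4 * Λ := by
    rw [hdet]; change √z ^ 4 / _ ≤ _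
    rw [hρ4, div_le_iff₀ (by positivity)]; nlinarith
  have hEn : ∀ a : ℝ, 0 ≤ a → En (fr.pullF F) 0 (ro a 1 1) ≤ 4 * Λ * En F t (ro (a * z) z L₀) :=
    fun a ha => by
      rw [En_frame0 hc fr (isOpen_ro _ _ _).measurableSet]
      refine mul_le_mul hfac (En_mono h.gs h.tI (h.reg_ro (by positivity) z2 le_rfl) ?_)
        (En_nonneg _ _ _) (by positivity)
      rintro _ ⟨y, hy, rfl⟩
      rw [hsp]
      exact ⟨⟨by nlinarith [hy.1.1], by nlinarith [hy.1.2]⟩, by nlinarith [hy.2.1],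
        by nlinarith [hy.2.2]⟩
  obtain ⟨fr', f0, hg⟩ := k3 _ _ _ 0 (h.frame hc (fr := fr) rfl hcp hm)
    (fun x hx => by
      rw [hTT, mul_one, div_le_one z0]
      exact b1 _ ⟨mul_pos z0 hx.1, by nlinarith [hx.2]⟩)
    ⟨x₀ / z, ⟨div_pos hx₀.1 z0, by rw [div_le_iff₀ z0]; exact hx₀.2⟩, by
      rw [hTT, mul_div_cancel₀ _ z0.ne', lt_div_iff₀ z0, mul_one_div]; exact b2⟩
    (by
      have : N3 (fr.pull u) 0 1 0 = N3 u t z 0 / z := by
        simp only [N3, hpull, mul_zero, mul_one, mul_one_div]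
        rw [show z * (3 / 4) = 3 * z / 4 by ring]; ring
      rw [this, div_le_iff₀ z0]; exact b3)
    ((hEn 0 le_rfl).trans (mul_le_mul_of_nonneg_left ((En_mono h.gs h.tI
      (h.reg_ro le_rfl le_rfl le_rfl) (by
        rw [zero_mul]; exact prod_mono (Ioo_subset_Ioo_right z2) Subset.rfl)).trans hE)
      (by positivity)))
    ((hEn σ hσ.le).trans (by
      rw [← le_div_iff₀' (by positivity)]; exact b4))
  have hz1 : √z ≤ 1 := Real.sqrt_le_one.2 (z2.trans a1)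
  have hε1 : ε / (4 * Λ) ≤ ε := div_le_self hε.le (by linarith)
  refine ⟨fr.comp fr', comp_p f0, hg.comp hc rfl (by rw [h.ty]; exact hcp) hm
    (mul_le_mul_of_nonneg_right (Real.sqrt_le_sqrt z1) hρ₁.le) ?_ ?_ hε1⟩
  · exact (mul_le_of_le_one_left (by positivity) hz1).trans hε1
  · have hd : 0 < |fr.det| := abs_pos.2 fr.det_ne
    rw [div_le_iff₀ hd] at hfac
    calc fr.ρ ^ 4 * (ε / (4 * Λ)) ≤ 4 * Λ * |fr.det| * (ε / (4 * Λ)) :=
          mul_le_mul_of_nonneg_right hfac (by positivity)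
      _ = ε * |fr.det| := by field_simp

end Pool.Agent.P.MP_2cea5e_gt.I.S4
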