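import Pool.Agent.P.MP_2cea5e_gt.I.S.Tool2

/-!
Chapter I, section 2: the choice of the scale at an edge point.
-/

open scoped ContDiff Topology
open MeasureTheory Set Filter

noncomputable section

set_option linter.dupNamespace false

namespace Pool.Agent.P.MP_2cea5e_gt.I.S4

namespace PLa

theorem mu_pos : 0 < mu0 := pow_pos (by norm_num) _

theorem mu_le : mu0 ≤ 1 / 4 :=
  (pow_le_pow_of_le_one (by norm_num) (by norm_num) (by norm_num : 2 ≤ 200)).trans (by norm_num)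

theorem mu_pow (j : ℕ) : mu0 ^ j = (2 ^ (200 * j))⁻¹ := by
  rw [mu0, ← pow_mul, one_div, inv_pow]

theorem log_mu : -200 ≤ Real.log mu0 := by
  rw [mu0, Real.log_pow, one_div, Real.log_inv]
  have := Real.log_two_lt_d9
  push_cast
  linarith

theorem pick (J : ℕ) (hJ : 0 < J) (i : ℕ → ℕ) (N E : ℕ → ℝ) (hN : ∀ j, 0 ≤ N j)
    (hE : ∀ j, 0 ≤ E j) (hi : ∀ j, i (j + 1) ≤ i j + 200)
    (h : 4 * (J : ℝ) + ∑ j ∈ Finset.range J, N j + ∑ j ∈ Finset.range J, E j ≤ (i J : ℝ) - i 0) :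
    ∃ j < J, i j + 4 ≤ i (j + 1) ∧ N j ≤ 200 ∧ E j ≤ 200 := by
  rw [← Finset.sum_range_sub (fun j => (i j : ℝ))] at h
  obtain ⟨j, hj, h1⟩ := Finset.exists_le_of_sum_le (s := Finset.range J)
    (f := fun j => 4 + N j + E j) (g := fun j => (i (j + 1) : ℝ) - i j)
    (Finset.nonempty_range_iff.2 hJ.ne')
    (by simpa [Finset.sum_add_distrib, mul_comm] using h)
  have h2 : (i (j + 1) : ℝ) ≤ i j + 200 := by exact_mod_cast hi j
  have h3 := hN j
  have h4 := hE j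
  refine ⟨j, Finset.mem_range.1 hj, ?_, by linarith, by linarith⟩
  have : (i j : ℝ) + 4 ≤ i (j + 1) := by linarith
  exact_mod_cast this

variable {d : Dm} {u F : X → ℝ} {t a₀ L₀ Λ : ℝ}

theorem tang (hc : Core) (h : SK tPL (rc a₀ L₀) d u F t) (hL : 0 < L₀) {x y : ℝ} (hx : 0 < x)
    (hxy : x < y) (hy : y ≤ a₀) :
    D e1 u (t, x, 0) * (y - x) ≤ u (t, y, 0) - u (t, x, 0) ∧
      u (t, y, 0) - u (t, x, 0) ≤ D e1 u (t, y, 0) * (y - x) := by
  have hs : ∀ s ∈ Icc x y, ((s, 0) : ℝ × ℝ) ∈ d.S := fun s hs =>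
    h.memPL ⟨⟨(hx.trans_le hs.1).le, hs.2.trans hy⟩, by linarith, hL.le⟩ (hx.trans_le hs.1)
  have c := cvx_h hc h hs
  have c1 := (hl hc h.gs h.tI hs).cu.d1
  have mx : x ∈ Icc x y := left_mem_Icc.2 hxy.le
  have my : y ∈ Icc x y := right_mem_Icc.2 hxy.le
  have a1 := c.le_slope_of_hasDerivAt mx my hxy (c1 x mx)
  have a2 := c.slope_le_of_hasDerivAt mx my hxy (c1 y my)
  rw [slope_def_field, le_div_iff₀ (sub_pos.2 hxy)] at a1
  rw [slope_def_field, div_le_iff₀ (sub_pos.2 hxy)] at a2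
  exact ⟨a1, a2⟩

theorem g_mono (hc : Core) (h : SK tPL (rc a₀ L₀) d u F t) (hL : 0 < L₀) {x y : ℝ} (hx : 0 < x)
    (hxy : x ≤ y) (hy : y ≤ a₀) : D e1 u (t, x, 0) ≤ D e1 u (t, y, 0) := by
  rcases hxy.eq_or_lt with rfl | hxy
  · exact le_rfl
  obtain ⟨a1, a2⟩ := tang hc h hL hx hxy hy
  exact le_of_mul_le_mul_right (a1.trans a2) (sub_pos.2 hxy)

theorem N3_bd (hc : Core) (h : SK tPL (rc a₀ L₀) d u F t) (hL : 0 < L₀) {z : ℝ} (hz : 0 < z)
    (ha : z ≤ a₀) : 0 ≤ N3 u t z 0 ∧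
      N3 u t z 0 ≤ z / 4 * (D e1 u (t, 3 * z / 4, 0) - D e1 u (t, z / 4, 0)) := by
  obtain ⟨a1, a2⟩ := tang hc h hL (x := z / 4) (y := z / 2) (by linarith) (by linarith)
    (by linarith)
  obtain ⟨a3, a4⟩ := tang hc h hL (x := z / 2) (y := 3 * z / 4) (by linarith) (by linarith)
    (by linarith)
  rw [show z / 2 - z / 4 = z / 4 by ring] at a1 a2
  rw [show 3 * z / 4 - z / 2 = z / 4 by ring] at a3 a4
  unfold N3
  constructor <;> linarith

theorem TT_le (hc : Core) (h : SK tPL (rc a₀ L₀) d u F t)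
    (hg : ∀ y ∈ ro 0 a₀ L₀, |D e2 u (t, y)| ≤ Λ) {x L : ℝ} (hx : x ∈ Ioo 0 a₀) (hL : 0 < L)
    (hL' : L ≤ L₀) : TT u t x L ≤ 2 * Λ * L := by
  have hs : ∀ s ∈ Icc (-L) L, ((x, s) : ℝ × ℝ) ∈ d.S := fun s hs =>
    h.memPL ⟨⟨hx.1.le, hx.2.le⟩, by linarith [hs.1], hs.2.trans hL'⟩ hx.1
  have c1 := (vl hc h.gs h.tI hs).cu.d1
  have s1 : Icc 0 L ⊆ Icc (-L) L := Icc_subset_Icc_left (by linarith)
  have s2 : Icc (-L) 0 ⊆ Icc (-L) L := Icc_subset_Icc_right hL.le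
  obtain ⟨p, hp, e1⟩ := exists_hasDerivAt_eq_slope (fun s => u (t, x, s))
    (fun s => D e2 u (t, x, s)) hL (fun s hs => (c1 s (s1 hs)).continuousAt.continuousWithinAt)
    fun s hs => c1 s (s1 (Ioo_subset_Icc_self hs))
  obtain ⟨q, hq, e2⟩ := exists_hasDerivAt_eq_slope (fun s => u (t, x, s))
    (fun s => D e2 u (t, x, s)) (by linarith : -L < 0)
    (fun s hs => (c1 s (s2 hs)).continuousAt.continuousWithinAt)
    fun s hs => c1 s (s2 (Ioo_subset_Icc_self hs))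
  have b1 := (abs_le.1 (hg (x, p) ⟨hx, by linarith [hp.1], hp.2.trans_le hL'⟩)).2
  have b2 := (abs_le.1 (hg (x, q) ⟨hx, by linarith [hq.1], by linarith [hq.2]⟩)).1
  rw [e1, sub_zero, div_le_iff₀ hL] at b1
  rw [e2, zero_sub, neg_neg, le_div_iff₀ hL] at b2
  unfold TT
  linarith

end PLa

open PLa in
theorem pla_ok (hc : Core) : StPLa := by
  classical
  intro a₀ L₀ Λ c ha0 ha1 hL0 hL1 hΛ hc0
  refine ⟨10000 * Λ, by positivity, fun σ e hσ he => ?_⟩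
  obtain ⟨z₀, z0p, z0a, z0L⟩ : ∃ z₀ : ℝ, 0 < z₀ ∧ z₀ ≤ a₀ / 2 ∧ z₀ ≤ Λ * L₀ :=
    ⟨min (a₀ / 2) (Λ * L₀), by positivity, min_le_left _ _, min_le_right _ _⟩
  have m0 := mu_pos
  have m1 := mu_le
  obtain ⟨s, hs⟩ := exists_pow_lt_of_lt_one hσ (by linarith : mu0 < 1)
  obtain ⟨C, hC⟩ := pow_unbounded_of_one_lt (z₀ / (c * L₀ ^ 20)) (one_lt_two (α := ℝ))
  obtain ⟨C', hC'⟩ := pow_unbounded_of_one_lt (2 * Λ * L₀ / z₀) (one_lt_two (α := ℝ))
  obtain ⟨J, hJ⟩ := exists_nat_gt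
    (|(C : ℝ) + C' + (1 - Real.log (3 * z₀ / 4)) + 200 * (s * Λ) / e|)
  have hJ0 : 0 < J := by exact_mod_cast (abs_nonneg _).trans_lt hJ
  have hJ' := (le_abs_self _).trans_lt hJ
  refine ⟨z₀ * mu0 ^ J, by positivity, fun d u F t h hg hE hS => ?_⟩
  obtain ⟨z, hz⟩ : ∃ z : ℕ → ℝ, ∀ j, z j = z₀ * mu0 ^ j := ⟨_, fun _ => rfl⟩
  have zp : ∀ j, 0 < z j := fun j => by rw [hz]; positivity
  have zs : ∀ j, z (j + 1) = mu0 * z j := fun j => by rw [hz, hz]; ring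
  have zanti : ∀ i j, i ≤ j → z j ≤ z i := fun i j hij => by
    rw [hz, hz]
    exact mul_le_mul_of_nonneg_left (pow_le_pow_of_le_one m0.le (by linarith) hij) z0p.le
  have z00 : z 0 = z₀ := by rw [hz, pow_zero, mul_one]
  have z0 : ∀ j, z j ≤ z₀ := fun j => z00 ▸ zanti 0 j (Nat.zero_le j)
  have za : ∀ j, z j < a₀ := fun j => by linarith [z0 j]
  have Lp : ∀ i : ℕ, 0 < L₀ / 2 ^ i := fun i => by positivity
  have Ll : ∀ i : ℕ, L₀ / 2 ^ i ≤ L₀ := fun i => div_le_self hL0.le (one_le_pow₀ one_le_two)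
  have hT : ∀ j (i : ℕ), ∀ x ∈ Ioc 0 (z j), TT u t x (L₀ / 2 ^ i) ≤ 2 * Λ * (L₀ / 2 ^ i) :=
    fun j i x hx => TT_le hc h (fun y hy => (hg y hy).2) ⟨hx.1, hx.2.trans_lt (za j)⟩ (Lp i) (Ll i)
  have hsuf : ∀ j (i : ℕ), 2 * Λ * L₀ / z j < 2 ^ i →
      ∀ x ∈ Ioc 0 (z j), TT u t x (L₀ / 2 ^ i) ≤ z j := fun j i hi x hx => by
    refine (hT j i x hx).trans ?_
    rw [div_lt_iff₀ (zp j)] at hi
    rw [← mul_div_assoc, div_le_iff₀ (by positivity)]
    linarith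
  have ex : ∀ j, ∃ i : ℕ, ∀ x ∈ Ioc 0 (z j), TT u t x (L₀ / 2 ^ i) ≤ z j := fun j =>
    let ⟨i, hi⟩ := pow_unbounded_of_one_lt (2 * Λ * L₀ / z j) (one_lt_two (α := ℝ))
    ⟨i, hsuf j i hi⟩
  obtain ⟨I, I1, I2⟩ : ∃ I : ℕ → ℕ, (∀ j, ∀ x ∈ Ioc 0 (z j), TT u t x (L₀ / 2 ^ I j) ≤ z j) ∧
      ∀ j i, i < I j → ∃ x ∈ Ioc 0 (z j), z j < TT u t x (L₀ / 2 ^ i) :=
    ⟨fun j => Nat.find (ex j), fun j => Nat.find_spec (ex j), fun j i hi => by
      have := Nat.find_min (ex j) hi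
      push Not at this
      exact this⟩
  have I3 : ∀ j i, (∀ x ∈ Ioc 0 (z j), TT u t x (L₀ / 2 ^ i) ≤ z j) → I j ≤ i := fun j i hi =>
    not_lt.1 fun hlt => let ⟨x, hx, h1⟩ := I2 j i hlt; absurd (hi x hx) (not_le.2 h1)
  have Istep : ∀ j, I (j + 1) ≤ I j + 200 := fun j => I3 _ _ fun x hx => by
    have hx' : x ∈ Ioc 0 (z j) := ⟨hx.1, hx.2.trans (zanti j _ (Nat.le_succ j))⟩
    have e1 : L₀ / 2 ^ (I j + 200) = mu0 * (L₀ / 2 ^ I j) := by
      rw [mu0, pow_add, one_div, inv_pow, div_mul_eq_div_div, div_eq_inv_mul]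
    rw [e1, zs]
    exact (TT_scale hc h ⟨hx.1, hx'.2.trans (za j).le⟩ ⟨(Lp _).le, Ll _⟩ m0.le (by linarith)).trans
      (mul_le_mul_of_nonneg_left (I1 j x hx') m0.le)
  have I0 : I 0 ≤ C' := I3 _ _ (hsuf 0 C' (by rw [z00]; exact hC'))
  have IJ : 200 * J ≤ C + 20 * I J := by
    have xp : 0 < min (z J) (c * (L₀ / 2 ^ I J) ^ 2) := lt_min (zp J) (by have := Lp (I J); positivity)
    have h1 := (hS _ ⟨Lp (I J), Ll (I J)⟩ _ xp (min_le_right _ _)).trans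
      (I1 J _ ⟨xp, min_le_left _ _⟩)
    rw [hz, mu_pow, div_pow, ← pow_mul, ← mul_div_assoc, ← div_eq_mul_inv,
      div_le_div_iff₀ (by positivity) (by positivity)] at h1
    have cp : 0 < c * L₀ ^ 20 := by positivity
    rw [div_lt_iff₀ cp] at hC
    have h2 : c * L₀ ^ 20 * 2 ^ (200 * J) ≤ c * L₀ ^ 20 * 2 ^ (C + 20 * I J) := by
      refine h1.trans ?_
      rw [pow_add, mul_comm 20, ← mul_assoc, mul_comm (c * L₀ ^ 20)]
      exact mul_le_mul_of_nonneg_right hC.le (by positivity)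
    exact (pow_le_pow_iff_right₀ (one_lt_two (α := ℝ))).1 (le_of_mul_le_mul_left h2 cp)
  have gb : ∀ x ∈ Ioo 0 a₀, |D e1 u (t, x, 0)| ≤ Λ * (1 - Real.log x) := fun x hx =>
    (hg (x, 0) ⟨hx, by linarith, hL0⟩).1
  have hN : ∀ j, N3 u t (z j) 0 / (50 * Λ * z j) ≤
      (D e1 u (t, 3 * z j / 4, 0) - D e1 u (t, 3 * z (j + 1) / 4, 0)) / (200 * Λ) := fun j => by
    have p1 := zp j
    have p2 := zp (j + 1)
    have a1 := (N3_bd hc h hL0 p1 (za j).le).2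
    have a2 := g_mono hc h hL0 (x := 3 * z (j + 1) / 4) (y := z j / 4) (by linarith)
      (by rw [zs]; nlinarith) (by linarith [za j])
    rw [div_le_div_iff₀ (by positivity) (by positivity)]
    have a3 := mul_le_mul_of_nonneg_left a2 (by positivity : 0 ≤ 50 * Λ * z j)
    have a4 := mul_le_mul_of_nonneg_left a1 (by positivity : 0 ≤ 200 * Λ)
    linarith
  have sN : ∑ j ∈ Finset.range J, N3 u t (z j) 0 / (50 * Λ * z j) ≤
      |1 - Real.log (3 * z₀ / 4)| + J := by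
    refine (Finset.sum_le_sum fun j _ => hN j).trans ?_
    rw [← Finset.sum_div, Finset.sum_range_sub' (fun j => D e1 u (t, 3 * z j / 4, 0)),
      div_le_iff₀ (by positivity)]
    have b1 := (abs_le.1 (gb (3 * z 0 / 4) ⟨by linarith [zp 0], by linarith [za 0, zp 0]⟩)).2
    have b2 := (abs_le.1 (gb (3 * z J / 4) ⟨by linarith [zp J], by linarith [za J, zp J]⟩)).1
    have e1 : Real.log (3 * z J / 4) = Real.log (3 * z₀ / 4) + J * Real.log mu0 := by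
      rw [← Real.log_pow, ← Real.log_mul (by positivity) (by positivity), hz]
      congr 1
      ring
    rw [e1] at b2
    rw [z00] at b1 ⊢
    have b3 := le_abs_self (1 - Real.log (3 * z₀ / 4))
    have b4 := abs_nonneg (1 - Real.log (3 * z₀ / 4))
    have b5 := mul_le_mul_of_nonneg_left log_mu (by positivity : 0 ≤ Λ * J)
    have b6 := mul_le_mul_of_nonneg_left b3 (by positivity : 0 ≤ Λ)
    have b7 := mul_nonneg (by positivity : 0 ≤ Λ) b4
    linarith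
  have sE : ∑ j ∈ Finset.range J, 200 * En F t (ro (σ * z j) (z j) L₀) / e ≤ 200 * (s * Λ) / e := by
    rw [← Finset.sum_div, ← Finset.mul_sum]
    refine div_le_div_of_nonneg_right (mul_le_mul_of_nonneg_left ?_ (by norm_num)) he.le
    refine (En_sum (int_F2 h.gs h.tI (h.reg_ro le_rfl le_rfl le_rfl))
      (fun j => ro (σ * z j) (z j) L₀) (fun j => (isOpen_ro _ _ _).measurableSet) s
      (fun i j hij => ?_) _ fun j _ => ?_).trans (mul_le_mul_of_nonneg_left hE (Nat.cast_nonneg s))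
    · refine disjoint_left.2 fun y h1 h2 => ?_
      have a1 := zanti _ _ hij
      have a2 : z (i + s) = mu0 ^ s * z i := by rw [hz, hz]; ring
      have a3 := mul_le_mul_of_nonneg_right hs.le (zp i).le
      linarith [h1.1.1, h2.1.2]
    · exact prod_mono (Ioo_subset_Ioo (mul_pos hσ (zp j)).le (za j).le) Subset.rfl
  have lp : 0 ≤ 1 - Real.log (3 * z₀ / 4) := by
    have := Real.log_nonpos (x := 3 * z₀ / 4) (by positivity) (by linarith)
    linarith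
  rw [abs_of_nonneg lp] at sN
  obtain ⟨j, hj, k1, k2, k3⟩ := pick J hJ0 I (fun j => N3 u t (z j) 0 / (50 * Λ * z j))
    (fun j => 200 * En F t (ro (σ * z j) (z j) L₀) / e)
    (fun j => div_nonneg (N3_bd hc h hL0 (zp j) (za j).le).1 (by have := zp j; positivity))
    (fun j => div_nonneg (mul_nonneg (by norm_num) (En_nonneg _ _ _)) he.le) Istep (by
      have c1 : (I 0 : ℝ) ≤ C' := by exact_mod_cast I0
      have c2 : (200 * J : ℝ) ≤ C + 20 * I J := by exact_mod_cast IJ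
      have c3 : (0 : ℝ) ≤ C := Nat.cast_nonneg C
      have c4 : (0 : ℝ) ≤ J := Nat.cast_nonneg J
      linarith)
  have pj := zp j
  refine ⟨z j, L₀ / 2 ^ I j, by rw [← hz]; exact zanti _ _ hj.le, (za j).le, Lp _, Ll _, ?_, I1 j,
    ?_, ?_, ?_⟩
  · rcases Nat.eq_zero_or_pos (I j) with e0 | e0
    · rw [e0, pow_zero, div_one]
      have := mul_pos (by linarith : 0 < Λ) hL0
      linarith [z0 j]
    · obtain ⟨i, hi⟩ := Nat.exists_eq_succ_of_ne_zero e0.ne'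
      obtain ⟨x, hx, h1⟩ := I2 j i (by omega)
      have h2 := hT j i x hx
      have e1 : 4 * Λ * (L₀ / 2 ^ I j) = 2 * Λ * (L₀ / 2 ^ i) := by
        rw [hi, pow_succ]; field_simp; ring
      linarith
  · obtain ⟨x, hx, h1⟩ := I2 (j + 1) (I j + 3) (by omega)
    rw [zs] at hx h1
    refine ⟨x, hx, ?_⟩
    rwa [pow_add, ← div_div, show (2 : ℝ) ^ 3 = 8 by norm_num] at h1
  · rw [div_le_iff₀ (by positivity)] at k2
    linarith
  · rw [div_le_iff₀ he] at k3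
    linarith

end Pool.Agent.P.MP_2cea5e_gt.I.S4
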