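import Pool.Agent.P.MP_2cea5e_gt.I.S.Tool2

/-!
Chapter I, section 2: the edge point after normalisation.
-/

open scoped ContDiff Topology ENNReal
open MeasureTheory Set Filter

noncomputable section

set_option linter.dupNamespace false

namespace Pool.Agent.P.MP_2cea5e_gt.I.S4

namespace PLb

variable {d : Dm} {u F : X → ℝ} {t : ℝ}

/-- Most horizontal lines are cheap. -/
theorem good_h (hc : Core) (h : SK tPL (rc 1 1) d u F t) {Λ σ e k : ℝ} (hΛ : 0 < Λ) (hσ : 0 < σ)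
    (hσ1 : σ ≤ 1) (he : 0 < e) (hk : 0 < k) (a1 : σ ≤ k ^ 3 / (16 * Λ)) (a2 : e ≤ k ^ 3 / 16)
    (E1 : En F t (ro 0 1 1) ≤ Λ) (E2 : En F t (ro σ 1 1) ≤ e) :
    volume (Ioo (-1 : ℝ) 1 \ {b | Cheap (fun x => F (t, x, b)) 0 1 k}) < ENNReal.ofReal k := by
  have c1 := cheb_h hc h.gs h.tI (h.reg_ro le_rfl le_rfl le_rfl) (J := Ioo (-1) 1) (a := 0) (a' := σ)
    E1 measurableSet_Ioo (half_pos hk) hσ.le (prod_mono (Ioo_subset_Ioo le_rfl hσ1) Subset.rfl)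
  have c2 := cheb_h hc h.gs h.tI (h.reg_ro hσ.le le_rfl le_rfl) (J := Ioo (-1) 1) (a := σ) (a' := 1)
    E2 measurableSet_Ioo (half_pos hk) hσ1 Subset.rfl
  refine vol_lt_of_cover (fun b hb => ?_) (by positivity)
    (div_nonneg (mul_nonneg (sub_nonneg.2 hσ1) he.le) (sq_nonneg _)) c1 c2 ?_
  · by_contra hn
    simp only [mem_union, mem_ofPred_eq, not_or, not_and, not_not] at hn
    refine hb.2 ?_
    have := cheap_add hσ.le hσ1 (fun x hx => h.F0 (h.memPL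
      ⟨⟨hx.1.le, hx.2.le⟩, hb.1.1.le, hb.1.2.le⟩ hx.1)) (hn.1 hb.1) (hn.2 hb.1)
    rwa [add_halves] at this
  · have b1 : (σ - 0) * Λ / (k / 2) ^ 2 ≤ k / 4 := by
      rw [div_le_iff₀ (by positivity)]
      rw [le_div_iff₀ (by positivity)] at a1
      nlinarith
    have b2 : (1 - σ) * e / (k / 2) ^ 2 ≤ k / 4 := by
      rw [div_le_iff₀ (by positivity)]
      nlinarith [mul_pos hσ he]
    linarith

/-- Most vertical lines are cheap. -/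
theorem good_v (hc : Core) (h : SK tPL (rc 1 1) d u F t) {σ e k : ℝ} (hσ : 0 < σ) (hk : 0 < k)
    (a : e ≤ k / 160000) (E2 : En F t (ro σ 1 1) ≤ e) :
    volume (Ioo σ 1 \ {x | Cheap (fun y => F (t, x, y)) (-1) 1 (1 / 200)}) < ENNReal.ofReal k := by
  have c := cheb_v hc h.gs h.tI (h.reg_ro hσ.le le_rfl le_rfl) (J := Ioo σ 1) (a := -1) (a' := 1)
    (ε := 1 / 200) E2 measurableSet_Ioo (by norm_num) (by norm_num) Subset.rfl
  refine lt_of_le_of_lt c ((ENNReal.ofReal_lt_ofReal_iff hk).2 ?_)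
  rw [div_lt_iff₀ (by norm_num)]
  linarith

end PLb

theorem plb_ok (hc : Core) (h1 : StPLb1) (h2 : StPLb2) (h3 : StPLb3) : StPLb := by
  intro V Λ ε hV hΛ hε
  have hΘ : (1 : ℝ) ≤ 64 * (2 * V + 4) := by linarith
  obtain ⟨s₀, C₂, hs0, hs1, hC, H2⟩ := h2 _ hΘ
  obtain ⟨ρ, δ, hρ, hρ1, hδ, H3⟩ := h3 _ C₂ Λ ε hΘ hC hΛ hε
  set Θ : ℝ := 64 * (2 * V + 4) with hΘe
  have hΘ0 : 0 < Θ := by linarith
  obtain ⟨k, hk, k1, k2, k3, k4⟩ : ∃ k : ℝ, 0 < k ∧ k ≤ δ ∧ Θ * k ≤ s₀ / 2 ∧ Θ * k ≤ 1 / 10 ∧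
      k ≤ 1 / 16 := by
    refine ⟨min δ (s₀ / (2 * Θ)), lt_min hδ (by positivity), min_le_left _ _, ?_, ?_, ?_⟩
    all_goals
      have e : Θ * min δ (s₀ / (2 * Θ)) ≤ s₀ / 2 :=
        (mul_le_mul_of_nonneg_left (min_le_right _ _) hΘ0.le).trans (le_of_eq (by field_simp))
    · exact e
    · linarith
    · have := le_mul_of_one_le_left (lt_min hδ (show 0 < s₀ / (2 * Θ) by positivity)).le hΘ
      linarith
  obtain ⟨m, hm, m1, m2⟩ : ∃ m : ℝ, 0 < m ∧ m ≤ s₀ / 2 ∧ m ≤ ρ ^ 2 :=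
    ⟨min (s₀ / 2) (ρ ^ 2), lt_min (by positivity) (by positivity), min_le_left _ _, min_le_right _ _⟩
  have hΛ0 : 0 < Λ := by linarith
  have hσ : 0 < min m (k ^ 3 / (16 * Λ)) := lt_min hm (by positivity)
  have he : 0 < min (m / 160000) (k ^ 3 / 16) := lt_min (by positivity) (by positivity)
  refine ⟨_, _, ρ, hσ, he, hρ, fun d u F t h hT hx hN E1 E2 => ?_⟩
  have s1 : min m (k ^ 3 / (16 * Λ)) ≤ m := min_le_left _ _
  have vG := PLb.good_h hc h hΛ0 hσ (by linarith) he hk (min_le_right _ _) (min_le_right _ _) E1 E2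
  have vH := PLb.good_v hc h hσ hm (min_le_left _ _) E2
  have g1 : ∀ b, Cheap (fun x => F (t, x, b)) 0 1 k → b ∈ Ioo (-1 : ℝ) 1 →
      ∀ x ∈ Ioc (0 : ℝ) (1 / 4), h11 u (t, x, b) ≤ Θ / x ∧
        |i11 u (t, x, b) / x - 1| ≤ 2 * (Θ * k) := fun b hb hb1 =>
    h1 V d u F t b k hV.le h hT hN (abs_le.2 ⟨hb1.1.le, hb1.2.le⟩) hb k3
  have g2 := H2 d u F t k _ {x | Cheap (fun y => F (t, x, y)) (-1) 1 (1 / 200)} h hx
    (vG.trans_le (ENNReal.ofReal_le_ofReal k4))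
    (fun b hb hb1 => ⟨hb, fun x hx => ⟨(g1 b hb hb1 x hx).1, by
      have := (abs_le.1 (g1 b hb hb1 x hx).2).2
      have h5 : i11 u (t, x, b) / x ≤ 2 := by linarith
      rwa [div_le_iff₀ hx.1] at h5⟩⟩) k2
    (lt_of_le_of_lt (measure_mono (sdiff_subset_sdiff_left (Ioo_subset_Ioo (by linarith) le_rfl)))
      (vH.trans_le (ENNReal.ofReal_le_ofReal m1)))
    (fun x hx _ => cheap_le hx (by norm_num))
  have r2 : ρ ^ 2 ≤ 1 / 64 := by nlinarith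
  obtain ⟨x₂, x1, x2⟩ := exists_good (a := ρ ^ 2) (vH.trans_le (ENNReal.ofReal_le_ofReal m2))
    (Ioo_subset_Ioo (by linarith) (by linarith))
  have r0 : 0 < ρ ^ 2 := by positivity
  exact H3 d u F t x₂ _ h E1 ⟨x1.1.le, by linarith [x1.2]⟩
    (hT x₂ ⟨r0.trans x1.1, by linarith [x1.2]⟩) x2 (vG.trans_le (ENNReal.ofReal_le_ofReal k1))
    fun b hb hb1 => ⟨cheap_le hb k1, fun x hx => ⟨(g1 b hb hb1 x hx).1,
      (g1 b hb hb1 x hx).2.trans (by nlinarith), g2 b hb hb1 x hx⟩⟩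

end Pool.Agent.P.MP_2cea5e_gt.I.S4
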