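import Pool.Agent.P.MP_2cea5e_gt.I.S.Tool2

/-!
Chapter I, section 2: the normal second derivative on a cheap line.
-/

open scoped ContDiff Topology ENNReal
open MeasureTheory Set Filter

noncomputable section

set_option linter.dupNamespace false

namespace Pool.Agent.P.MP_2cea5e_gt.I.S4

namespace PLb1

theorem mvt2 {f f' f'' : ℝ → ℝ} (h : C2On f f' f'' (Ioc 0 1)) :
    ∃ x ∈ Ioo (1 / 4 : ℝ) (3 / 4), f'' x = 16 * (f (1 / 4) - 2 * f (1 / 2) + f (3 / 4)) := by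
  have d1 : ∀ x ∈ Icc (1 / 4 : ℝ) (1 / 2),
      HasDerivAt (fun x => f (x + 1 / 4) - f x) (f' (x + 1 / 4) - f' x) x := fun x hx =>
    (HasDerivAt.comp_add_const x (1 / 4)
      (h.d1 _ ⟨by linarith [hx.1], by linarith [hx.2]⟩)).sub
      (h.d1 x ⟨by linarith [hx.1], by linarith [hx.2]⟩)
  obtain ⟨c, hc, e1⟩ := exists_hasDerivAt_eq_slope (fun x => f (x + 1 / 4) - f x)
    (fun x => f' (x + 1 / 4) - f' x) (by norm_num : (1 / 4 : ℝ) < 1 / 2)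
    (fun x hx => (d1 x hx).continuousAt.continuousWithinAt) fun x hx => d1 x (Ioo_subset_Icc_self hx)
  have d2 : ∀ x ∈ Icc c (c + 1 / 4), HasDerivAt f' (f'' x) x := fun x hx =>
    h.d2 x ⟨by linarith [hx.1, hc.1], by linarith [hx.2, hc.2]⟩
  obtain ⟨x, hx, e2⟩ := exists_hasDerivAt_eq_slope f' f'' (by linarith : c < c + 1 / 4)
    (fun x hx => (d2 x hx).continuousAt.continuousWithinAt) fun x hx => d2 x (Ioo_subset_Icc_self hx)
  refine ⟨x, ⟨by linarith [hx.1, hc.1], by linarith [hx.2, hc.2]⟩, ?_⟩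
  rw [e2, e1]
  norm_num
  ring

end PLb1

open PLb1 in
theorem plb1_ok (hc : Core) : StPLb1 := by
  intro V d u F t b ε hV h hT hN hb hF hε
  set Θ := 64 * (2 * V + 4) with hΘ
  have hΘ0 : 0 < Θ := by positivity
  have mem : ∀ c : ℝ, |c| ≤ 1 → ∀ x ∈ Ioc (0 : ℝ) 1, ((x, c) : ℝ × ℝ) ∈ d.S := fun c hc x hx =>
    h.memPL ⟨⟨hx.1.le, hx.2⟩, abs_le.mp hc⟩ hx.1
  have L := hl hc h.gs h.tI (mem b hb)
  have hb' : |-b| ≤ 1 := by rwa [abs_neg]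
  obtain ⟨x₀, hx₀, e₀⟩ := mvt2 L.cu
  obtain ⟨x₁, hx₁, e₁⟩ := mvt2 (hl hc h.gs h.tI (mem _ hb')).cu
  have p₁ := h.gs.p11 _ (h.memU (mem _ hb' x₁ ⟨by linarith [hx₁.1], by linarith [hx₁.2]⟩))
  have p11 : ∀ x ∈ Ioc (0 : ℝ) 1, 0 < h11 u (t, x, b) := fun x hx =>
    h.gs.p11 _ (h.memU (mem b hb x hx))
  have sy : ∀ x, TT u t x |b| = u (t, x, b) + u (t, x, -b) - 2 * u (t, x, 0) := fun x => by
    rcases abs_cases b with e | e <;> simp only [TT, e.1, neg_neg]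
    ring
  have tb : ∀ x ∈ Ioc (0 : ℝ) 1, TT u t x |b| ≤ 1 := fun x hx =>
    (TT_mono hc h hx (abs_nonneg _) hb le_rfl).trans (hT x hx)
  have t1 := tb (1 / 4) (by norm_num)
  have t3 := tb (3 / 4) (by norm_num)
  have t2 := TT_nonneg hc h (x := 1 / 2) (by norm_num) ⟨abs_nonneg b, hb⟩
  rw [sy] at t1 t2 t3
  have hN' : u (t, 1 / 4, 0) - 2 * u (t, 1 / 2, 0) + u (t, 3 / 4, 0) ≤ V := by
    simpa only [N3, mul_one] using hN
  have b₀ : h11 u (t, x₀, b) ≤ Θ / 4 := by linarith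
  have hx0 : x₀ ∈ Ioc (0 : ℝ) 1 := ⟨by linarith [hx₀.1], by linarith [hx₀.2]⟩
  have sub : Ioc 0 x₀ ⊆ Ioc (0 : ℝ) 1 := Ioc_subset_Ioc le_rfl hx0.2
  obtain ⟨m', m'', hm, hm2⟩ := L.m
  have key : ∀ x ∈ Ioc (0 : ℝ) (1 / 4), h11 u (t, x, b) ≤ Θ / x := fun x hx => by
    have hx' : x ∈ Ioc 0 x₀ := ⟨hx.1, by linarith [hx.2, hx₀.1]⟩
    have k := conc_ok.2.1 _ m' m'' _ 0 x₀ ε x hx0.1 (Green.C2On_mono hm sub)
      (Green.cheap_mono hF le_rfl hx0.2) (fun s hs => hm2 s (sub (Ioo_subset_Ioc_self hs)))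
      (fun s hs => (inv_pos.2 (p11 s (sub (Ioo_subset_Ioc_self hs)))).le) hx'
    simp only [sub_zero] at k
    have k1 : (Θ / 4)⁻¹ ≤ (h11 u (t, x₀, b))⁻¹ := inv_anti₀ (p11 _ hx0) b₀
    have k2 : (h11 u (t, x₀, b))⁻¹ ≤ (h11 u (t, x₀, b))⁻¹ / x₀ :=
      le_div_self (inv_pos.2 (p11 _ hx0)).le hx0.1 hx0.2
    have k3 : ε ≤ Θ⁻¹ := by
      rw [inv_eq_one_div, le_div_iff₀ hΘ0]
      linarith
    have k4 : (Θ / 4)⁻¹ = 4 * Θ⁻¹ := by field_simp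
    have k5 : 0 < Θ⁻¹ := inv_pos.2 hΘ0
    have k6 : x * Θ⁻¹ ≤ (h11 u (t, x, b))⁻¹ :=
      (mul_le_mul_of_nonneg_left (by linarith) hx.1.le).trans k
    have k7 := inv_anti₀ (mul_pos hx.1 k5) k6
    rw [inv_inv] at k7
    refine k7.trans_eq ?_
    field_simp
  have s4 : Ioc 0 (1 / 4) ⊆ Ioc (0 : ℝ) 1 := Ioc_subset_Ioc le_rfl (by norm_num)
  obtain ⟨y', y'', hy, hy2⟩ := L.q (1, 0) (by simp)
  rw [iq_e1] at hy hy2
  obtain ⟨C, hC0, hC⟩ := face hc h.gs h.tI (isCompact_rc 1 1)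
    fun y hy => h.memSc hy (fun _ => hy.1.1) (by simp)
  have fc : ∀ x ∈ Ioc (0 : ℝ) 1, |i11 u (t, x, b) - x| ≤ C * x ^ 2 := fun x hx => by
    have := (hC (x, b) ⟨⟨hx.1.le, hx.2⟩, abs_le.mp hb⟩ (mem b hb x hx)).1
    simpa only [h.ty, om, if_true] using this
  have ip : ∀ x ∈ Ioc (0 : ℝ) 1, 0 < i11 u (t, x, b) := fun x hx =>
    i11_pos hc h.gs (h.memU (mem b hb x hx))
  have lim : Tendsto (fun x => i11 u (t, x, b) / x) (𝓝[>] 0) (𝓝 1) := by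
    rw [tendsto_iff_norm_sub_tendsto_zero]
    have l1 : Tendsto (fun x : ℝ => C * x) (𝓝[>] 0) (𝓝 0) := by
      have : Tendsto (fun x : ℝ => C * x) (𝓝 0) (𝓝 (C * 0)) :=
        (continuous_const.mul continuous_id).tendsto 0
      rw [mul_zero] at this
      exact this.mono_left nhdsWithin_le_nhds
    refine squeeze_zero' (Eventually.of_forall fun _ => norm_nonneg _) ?_ l1
    filter_upwards [Ioc_mem_nhdsGT (zero_lt_one' ℝ)] with x hx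
    have e : i11 u (t, x, b) / x - 1 = (i11 u (t, x, b) - x) / x := by
      have := hx.1.ne'
      field_simp
    rw [Real.norm_eq_abs, e, abs_div, abs_of_pos hx.1, div_le_iff₀ hx.1]
    exact (fc x hx).trans_eq (by ring)
  have r := (hNorm.1 _ y' y'' _ (1 / 4) Θ ε (1 + C) (by norm_num) hΘ0.le (Green.C2On_mono hy s4)
    (Green.cheap_mono hF le_rfl (by norm_num)) hε
    (fun x hx => ⟨ip x (s4 hx), by
      have a1 := (abs_le.mp (fc x (s4 hx))).2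
      have a2 : x ^ 2 ≤ 1 := pow_le_one₀ hx.1.le (s4 hx).2
      nlinarith [(s4 hx).2]⟩)
    (fun x hx => (hy2 x (s4 (Ioo_subset_Ioc_self hx))).trans (mul_le_mul_of_nonneg_left
      (key x (Ioo_subset_Ioc_self hx)) (mul_nonneg
        (h.F0 (mem b hb x (s4 (Ioo_subset_Ioc_self hx))))
        (ip x (s4 (Ioo_subset_Ioc_self hx))).le)))).2.2 lim
  exact fun x hx => ⟨key x hx, (r x hx).1⟩

end Pool.Agent.P.MP_2cea5e_gt.I.S4
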