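import Pool.Agent.P.MP_2cea5e_gt.I.S.Tool2

/-!
Chapter I, section 2: the bound for `i22` near an edge.
-/

open scoped ContDiff Topology ENNReal
open MeasureTheory Set Filter

noncomputable section

set_option linter.dupNamespace false

namespace Pool.Agent.P.MP_2cea5e_gt.I.S4

namespace PLb2

theorem le_chord {f : ℝ → ℝ} {s : Set ℝ} (hf : ConvexOn ℝ s f) {a b x : ℝ} (ha : a ∈ s)
    (hb : b ∈ s) (h1 : a < x) (h2 : x < b) : f x ≤ chord f a b x := by
  unfold chord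
  rw [le_div_iff₀ (by linarith)]
  have := hf.secant_mono_aux1 ha hb h1 h2
  linarith

/-- The defect of the chord at a point near the centre. -/
theorem defect {f : ℝ → ℝ} (hf : ConvexOn ℝ (Icc (-1) 1) f) {a b c μ : ℝ}
    (ha : a ∈ Ioo (-(3 / 16) : ℝ) (-(1 / 8))) (hb : b ∈ Ioo (1 / 8 : ℝ) (3 / 16))
    (hc : c ∈ Ioo (0 : ℝ) (1 / 16)) (h0 : 0 < μ) (hμ : μ < f (1 / 8) + f (-(1 / 8)) - 2 * f 0) :
    μ / 4 ≤ chord f a b c - f c := by
  have ma : a ∈ Icc (-1 : ℝ) 1 := ⟨by linarith [ha.1], by linarith [ha.2]⟩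
  have mb : b ∈ Icc (-1 : ℝ) 1 := ⟨by linarith [hb.1], by linarith [hb.2]⟩
  have hab : 0 < b - a := by linarith [ha.2, hb.1]
  have hb0 : 0 < b := by linarith [hb.1]
  have k1 := le_chord hf ma mb (x := 1 / 8) (by linarith [ha.2]) hb.1
  have k2 := le_chord hf ma mb (x := -(1 / 8)) ha.2 (by linarith [hb.1])
  have k3 := le_chord hf (a := 0) ⟨by norm_num, by norm_num⟩ mb hc.1 (by linarith [hc.2, hb.1])
  have e1 : chord f a b (1 / 8) + chord f a b (-(1 / 8)) = 2 * chord f a b 0 := by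
    unfold chord; field_simp; ring
  have e2 : chord f a b c - chord f 0 b c = (b - c) / b * (chord f a b 0 - f 0) := by
    have n1 := hb0.ne'
    have n2 := hab.ne'
    simp only [chord, sub_zero]
    field_simp
    ring
  have k4 : 1 / 2 ≤ (b - c) / b := by
    rw [le_div_iff₀ hb0]; linarith [hc.2, hb.1]
  have k5 : μ / 2 ≤ chord f a b 0 - f 0 := by linarith
  have k6 : 1 / 2 * (μ / 2) ≤ (b - c) / b * (chord f a b 0 - f 0) :=
    mul_le_mul k4 k5 (by linarith) (by linarith)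
  linarith

/-- Moving away from the edge. -/
theorem move {y y' y'' : ℝ → ℝ} {a x Θ r : ℝ} (ha : 0 < a) (hax : a < x) (hx : x ≤ 1 / 8)
    (hΘ : 0 ≤ Θ) (hr : 0 ≤ r) (hxr : x - a ≤ r ^ 2) (h : C2On y y' y'' (Icc a (1 / 4)))
    (h2 : ∀ s ∈ Ioo a (1 / 4), y'' s ≤ Θ / s) (h0 : 0 ≤ y a) (h1 : 0 ≤ y (1 / 4)) :
    y a / 2 - Θ * r ≤ y x := by
  have hab : a < 1 / 4 := by linarith
  have hxm : x ∈ Icc a (1 / 4) := ⟨hax.le, by linarith⟩
  have e := green_ok y y' y'' a (1 / 4) x hab h hxm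
  have hd : ∀ s ∈ Icc a (1 / 4), HasDerivAt (fun s => Θ * r * (2 * √s)) (Θ * r * (√s)⁻¹) s := by
    intro s hs
    have hs0 : 0 < s := ha.trans_le hs.1
    have := ((Real.hasDerivAt_sqrt hs0.ne').const_mul 2).const_mul (Θ * r)
    have hq := (Real.sqrt_pos.2 hs0).ne'
    have e : (2 : ℝ) * (1 / (2 * √s)) = (√s)⁻¹ := by field_simp
    rwa [e] at this
  have hc : ContinuousOn (fun s => Θ * r * (√s)⁻¹) (Icc a (1 / 4)) :=
    continuousOn_const.mul (Real.continuous_sqrt.continuousOn.inv₀ fun s hs =>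
      (Real.sqrt_pos.2 (ha.trans_le hs.1)).ne')
  have e2 := LemK.ftc hab.le hd hc
  have hi : ∫ s in Ioo a (1 / 4), green a (1 / 4) x s * y'' s ≤
      ∫ s in Ioo a (1 / 4), Θ * r * (√s)⁻¹ := by
    refine setIntegral_mono_on ?_ ?_ measurableSet_Ioo fun s hs => ?_
    · exact (((Green.green_cont _ _ _).continuousOn.mul h.c2).integrableOn_Icc).mono_set
        Ioo_subset_Icc_self
    · exact hc.integrableOn_Icc.mono_set Ioo_subset_Icc_self
    · have hs0 : 0 < s := ha.trans hs.1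
      have hq : 0 < √s := Real.sqrt_pos.2 hs0
      have hss : √s * √s = s := Real.mul_self_sqrt hs0.le
      have g0 := Green.green_nonneg hab hxm (Ioo_subset_Icc_self hs)
      have g1 := Green.green_le_left hab hxm (Ioo_subset_Icc_self hs)
      have g2 : green a (1 / 4) x s ≤ r * √s := by
        have m1 := min_le_left x s
        have m2 := min_le_right x s
        rcases le_total r (√s) with c | c
        · nlinarith
        · nlinarith
      calc green a (1 / 4) x s * y'' s ≤ green a (1 / 4) x s * (Θ / s) :=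
            mul_le_mul_of_nonneg_left (h2 s hs) g0
        _ ≤ r * √s * (Θ / s) := mul_le_mul_of_nonneg_right g2 (div_nonneg hΘ hs0.le)
        _ = Θ * r * (√s)⁻¹ := by
            rw [← hss, Real.sqrt_mul_self hq.le]; field_simp
  have s4 : √(1 / 4 : ℝ) = 1 / 2 := by
    rw [show (1 / 4 : ℝ) = (1 / 2) ^ 2 by norm_num, Real.sqrt_sq (by norm_num)]
  have k1 : 0 ≤ Θ * r * (2 * √a) := by positivity
  have k2 : y a / 2 ≤ chord y a (1 / 4) x := by
    unfold chord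
    rw [le_div_iff₀ (by linarith)]
    have := mul_nonneg (sub_nonneg.2 hax.le) h1
    have := mul_nonneg (show 0 ≤ 1 / 8 - x + a / 2 by linarith) h0
    nlinarith
  rw [s4] at e2
  linarith

/-- A large defect forces a large second derivative. -/
theorem large {y y' y'' : ℝ → ℝ} {a b c μ : ℝ} (ha : a ∈ Ioo (-(3 / 16) : ℝ) (-(1 / 8)))
    (hb : b ∈ Ioo (1 / 8 : ℝ) (3 / 16)) (hc : c ∈ Ioo (0 : ℝ) (1 / 16)) (h0 : 0 < μ)
    (h : C2On y y' y'' (Icc a b)) (hμ : μ / 16 ≤ chord y a b c - y c) :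
    ∃ s ∈ Icc a b, μ / 2 < y'' s := by
  by_contra hn
  push Not at hn
  have hab : a < b := by linarith [ha.2, hb.1]
  have hch : Cheap (fun _ => μ / 2) a b (3 / 8 * (μ / 2)) := by
    refine ⟨fun _ _ => by linarith, integrableOn_const (by simp), ?_⟩
    rw [setIntegral_const, Real.volume_real_Ioo_of_le hab.le, smul_eq_mul]
    exact mul_le_mul_of_nonneg_right (by linarith [ha.1, hb.2]) (by linarith)
  have k := conc_ok.1 y y' y'' _ a b _ c hab h hch (fun s hs => hn s (Ioo_subset_Icc_self hs))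
    ⟨by linarith [ha.2, hc.1], by linarith [hb.1, hc.2]⟩
  have k1 : min (c - a) (b - c) ≤ 3 / 16 := (min_le_right _ _).trans (by linarith [hb.2, hc.1])
  have k2 := mul_le_mul_of_nonneg_right k1 (show 0 ≤ 3 / 8 * (μ / 2) by linarith)
  linarith

/-- An almost concave positive function that is small at one inner point. -/
theorem upper {m m' m'' F : ℝ → ℝ} {s b M : ℝ} (h : C2On m m' m'' (Icc (-1) 1))
    (hF : Cheap F (-1) 1 1) (h2 : ∀ x ∈ Icc (-1 : ℝ) 1, m'' x ≤ F x)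
    (h0 : ∀ x ∈ Icc (-1 : ℝ) 1, 0 ≤ m x) (hs : s ∈ Icc (-(3 / 16) : ℝ) (3 / 16))
    (hb : b ∈ Ioo (-1 : ℝ) 1) (hM : m s ≤ M) : m b ≤ 8 / 3 * M + 2 := by
  have hM0 : 0 ≤ M := (h0 s ⟨by linarith [hs.1], by linarith [hs.2]⟩).trans hM
  have hb0 := h0 b (Ioo_subset_Icc_self hb)
  have fin : ∀ p q : ℝ, 3 / 4 ≤ p → 0 < q → q ≤ 2 → p * (m b / q - 1) ≤ m s →
      m b ≤ 8 / 3 * M + 2 := by
    intro p q hp hq hq2 k
    have k1 : m b / q - 1 ≤ 4 / 3 * M := by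
      by_contra hn
      push Not at hn
      have := mul_le_mul_of_nonneg_right hp (show 0 ≤ m b / q - 1 by linarith)
      linarith
    have k2 : m b ≤ (4 / 3 * M + 1) * q := by
      rw [← div_le_iff₀ hq]; linarith
    have := mul_le_mul_of_nonneg_left hq2 (show 0 ≤ 4 / 3 * M + 1 by linarith)
    linarith
  rcases le_total s b with c | c
  · have sub : Ioc (-1 : ℝ) b ⊆ Icc (-1) 1 := fun x hx => ⟨hx.1.le, hx.2.trans hb.2.le⟩
    have k := conc_ok.2.1 m m' m'' F (-1) b 1 s hb.1 (Green.C2On_mono h sub)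
      (Green.cheap_mono hF le_rfl hb.2.le) (fun x hx => h2 x (sub (Ioo_subset_Ioc_self hx)))
      (fun x hx => h0 x (sub (Ioo_subset_Ioc_self hx))) ⟨by linarith [hs.1], c⟩
    exact fin _ _ (by linarith [hs.1]) (by linarith [hb.1]) (by linarith [hb.2]) k
  · have sub : Ico b (1 : ℝ) ⊆ Icc (-1) 1 := fun x hx => ⟨hb.1.le.trans hx.1, hx.2.le⟩
    have k := conc_ok.2.2 m m' m'' F b 1 1 s hb.2 (Green.C2On_mono h sub)
      (Green.cheap_mono hF hb.1.le le_rfl) (fun x hx => h2 x (sub (Ioo_subset_Ico_self hx)))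
      (fun x hx => h0 x (sub (Ioo_subset_Ico_self hx))) ⟨c, by linarith [hs.2]⟩
    exact fin _ _ (by linarith [hs.2]) (by linarith [hb.2]) (by linarith [hb.1]) k

theorem mu0_pos : 0 < mu0 := by unfold mu0; positivity

theorem mu0_le : mu0 ≤ 1 / 16 := by
  unfold mu0
  calc ((1 / 2 : ℝ)) ^ 200 ≤ (1 / 2) ^ 4 :=
        pow_le_pow_of_le_one (by norm_num) (by norm_num) (by norm_num)
    _ = 1 / 16 := by norm_num

end PLb2

open PLb2

theorem plb2_ok (hc : Core) : StPLb2 := by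
  intro Θ hΘ
  have hμ := mu0_pos
  have hμ' := mu0_le
  set μ := mu0 with hμd
  clear_value μ
  set r := μ / (16 * Θ) with hr
  have hΘ0 : 0 < Θ := by linarith
  have r0 : 0 < r := by positivity
  have rΘ : Θ * r = μ / 16 := by rw [hr]; field_simp
  have r1 : r ≤ 1 / 16 := by nlinarith
  have s0 : 0 < r ^ 2 := by positivity
  have s1 : r ^ 2 ≤ 1 / 16 := by nlinarith
  refine ⟨r ^ 2, 12 * Θ / (μ * r ^ 2), s0, s1, ?_, ?_⟩
  · rw [le_div_iff₀ (by positivity)]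
    nlinarith
  intro d u F t ε G H h ⟨xs, hxs, hT⟩ hG hGg hε hH hHg
  have hS : ∀ x ∈ Ioc (0 : ℝ) 1, ∀ b ∈ Icc (-1 : ℝ) 1, ((x, b) : ℝ × ℝ) ∈ d.S :=
    fun x hx b hb => h.memPL ⟨⟨hx.1.le, hx.2⟩, hb⟩ hx.1
  obtain ⟨bm, hbm, gm⟩ := exists_good (a := -(3 / 16)) hG
    fun x hx => ⟨by linarith [hx.1], by linarith [hx.2]⟩
  obtain ⟨b0, hb0, g0⟩ := exists_good (a := 0) hG
    fun x hx => ⟨by linarith [hx.1], by linarith [hx.2]⟩
  obtain ⟨bp, hbp, gp⟩ := exists_good (a := 1 / 8) hG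
    fun x hx => ⟨by linarith [hx.1], by linarith [hx.2]⟩
  have hbm' : bm ∈ Ioo (-(3 / 16) : ℝ) (-(1 / 8)) := ⟨hbm.1, by linarith [hbm.2]⟩
  have hb0' : b0 ∈ Ioo (0 : ℝ) (1 / 16) := ⟨hb0.1, by linarith [hb0.2]⟩
  have hbp' : bp ∈ Ioo (1 / 8 : ℝ) (3 / 16) := ⟨hbp.1, by linarith [hbp.2]⟩
  have im : bm ∈ Ioo (-1 : ℝ) 1 := ⟨by linarith [hbm'.1], by linarith [hbm'.2]⟩
  have i0 : b0 ∈ Ioo (-1 : ℝ) 1 := ⟨by linarith [hb0'.1], by linarith [hb0'.2]⟩
  have ip : bp ∈ Ioo (-1 : ℝ) 1 := ⟨by linarith [hbp'.1], by linarith [hbp'.2]⟩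
  have mx1 := le_max_left xs (r ^ 2 / 2)
  have mx2 := le_max_right xs (r ^ 2 / 2)
  have mx3 : max xs (r ^ 2 / 2) ≤ xs + r ^ 2 / 2 :=
    max_le (by linarith) (by linarith [hxs.1])
  obtain ⟨x1, hx1, gx⟩ := exists_good (a := max xs (r ^ 2 / 2)) hH
    fun x hx => ⟨by linarith [hx.1], by linarith [hx.2, hxs.2]⟩
  have x1a : xs < x1 := by linarith [hx1.1]
  have x1b : x1 - xs ≤ r ^ 2 := by linarith [hx1.2]
  have x1c : x1 ≤ 1 / 8 := by linarith [hxs.2]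
  have x1d : r ^ 2 / 2 < x1 := by linarith [hx1.1]
  have x10 : 0 < x1 := by linarith
  have cvx : ∀ x ∈ Ioc (0 : ℝ) 1, ConvexOn ℝ (Icc (-1) 1) fun y => u (t, x, y) :=
    fun x hx => cvx_v hc h (hS x hx)
  have hw : 0 < bp - bm := by linarith [hbm'.2, hbp'.1]
  have sub : ∀ x ∈ Icc xs (1 / 4), x ∈ Ioc (0 : ℝ) 1 :=
    fun x hx => ⟨hxs.1.trans_le hx.1, by linarith [hx.2]⟩
  have Lm := (hl hc h.gs h.tI fun x hx => hS x (sub x hx) bm (Ioo_subset_Icc_self im)).cu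
  have L0 := (hl hc h.gs h.tI fun x hx => hS x (sub x hx) b0 (Ioo_subset_Icc_self i0)).cu
  have Lp := (hl hc h.gs h.tI fun x hx => hS x (sub x hx) bp (Ioo_subset_Icc_self ip)).cu
  have c2 : C2On (fun x => chord (fun y => u (t, x, y)) bm bp b0 - u (t, x, b0))
      (fun x => ((bp - b0) * D e1 u (t, x, bm) + (b0 - bm) * D e1 u (t, x, bp)) / (bp - bm) -
        D e1 u (t, x, b0))
      (fun x => ((bp - b0) * h11 u (t, x, bm) + (b0 - bm) * h11 u (t, x, bp)) / (bp - bm) -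
        h11 u (t, x, b0)) (Icc xs (1 / 4)) :=
    ⟨fun x hx => ((((Lm.d1 x hx).const_mul _).add ((Lp.d1 x hx).const_mul _)).div_const _).sub
        (L0.d1 x hx),
      fun x hx => ((((Lm.d2 x hx).const_mul _).add ((Lp.d2 x hx).const_mul _)).div_const _).sub
        (L0.d2 x hx),
      (((continuousOn_const.mul Lm.c2).add (continuousOn_const.mul Lp.c2)).div_const _).sub L0.c2⟩
  have dfs : μ / 4 ≤ chord (fun y => u (t, xs, y)) bm bp b0 - u (t, xs, b0) :=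
    defect (cvx xs ⟨hxs.1, by linarith [hxs.2]⟩) hbm' hbp' hb0' hμ hT
  have df4 : 0 ≤ chord (fun y => u (t, 1 / 4, y)) bm bp b0 - u (t, 1 / 4, b0) :=
    sub_nonneg.2 (le_chord (cvx (1 / 4) ⟨by norm_num, by norm_num⟩) (Ioo_subset_Icc_self im)
      (Ioo_subset_Icc_self ip) (by linarith [hbm'.2, hb0'.1]) (by linarith [hbp'.1, hb0'.2]))
  have mv := move hxs.1 x1a x1c hΘ0.le r0.le x1b c2 (fun s hs => by
    have hs' : s ∈ Ioc (0 : ℝ) (1 / 4) := ⟨hxs.1.trans hs.1, hs.2.le⟩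
    have k1 := ((hGg bm gm im).2 s hs').1
    have k2 := ((hGg bp gp ip).2 s hs').1
    have k3 := h.gs.p11 _ (h.memU (hS s ⟨hs'.1, by linarith [hs'.2]⟩ b0 (Ioo_subset_Icc_self i0)))
    have k4 : ((bp - b0) * h11 u (t, s, bm) + (b0 - bm) * h11 u (t, s, bp)) / (bp - bm) ≤
        Θ / s := by
      rw [div_le_iff₀ hw]
      have a1 := mul_le_mul_of_nonneg_left k1 (show 0 ≤ bp - b0 by linarith [hbp'.1, hb0'.2])
      have a2 := mul_le_mul_of_nonneg_left k2 (show 0 ≤ b0 - bm by linarith [hbm'.2, hb0'.1])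
      linarith
    linarith) (by linarith) df4
  have V := vl hc h.gs h.tI (hS x1 ⟨x10, by linarith⟩)
  have subv : Icc bm bp ⊆ Icc (-1 : ℝ) 1 := Icc_subset_Icc im.1.le ip.2.le
  obtain ⟨bs, hbs, hbs'⟩ := large hbm' hbp' hb0' hμ (Green.C2On_mono V.cu subv) (by linarith)
  obtain ⟨m', m'', cm, hm⟩ := V.m
  have p22 : ∀ y ∈ Icc (-1 : ℝ) 1, 0 < h22 u (t, x1, y) :=
    fun y hy => (h.api hc).p22 _ (h.memU (hS x1 ⟨x10, by linarith⟩ y hy))
  intro b gb hb x hx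
  have up := upper (s := bs) (M := 2 / μ) cm (hHg x1 gx ⟨x1d, by linarith⟩) hm
    (fun y hy => (inv_pos.2 (p22 y hy)).le)
    ⟨by linarith [hbs.1, hbm'.1], by linarith [hbs.2, hbp'.2]⟩ hb
    ((inv_anti₀ (by linarith) hbs'.le).trans_eq (inv_div μ 2))
  have up' : (h22 u (t, x1, b))⁻¹ ≤ 6 / μ := by
    refine up.trans ?_
    rw [le_div_iff₀ hμ]
    have : (8 / 3 * (2 / μ) + 2) * μ = 16 / 3 + 2 * μ := by field_simp; ring
    linarith
  obtain ⟨chb, hb2⟩ := hGg b gb hb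
  have hU := h.memU (hS x1 ⟨x10, by linarith⟩ b (Ioo_subset_Icc_self hb))
  have i22x : i22 u (t, x1, b) ≤ 12 * Θ / μ := by
    obtain ⟨k1, k2⟩ := hb2 x1 ⟨x10, by linarith⟩
    have e : i22 u (t, x1, b) =
        h11 u (t, x1, b) * i11 u (t, x1, b) * (h22 u (t, x1, b))⁻¹ := by
      have := (p22 b (Ioo_subset_Icc_self hb)).ne'
      rw [i22_eq, i11_eq]; field_simp
    have k3 : h11 u (t, x1, b) * i11 u (t, x1, b) ≤ Θ / x1 * (2 * x1) :=
      mul_le_mul k1 k2 (i11_pos hc h.gs hU).le (by positivity)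
    have k4 : Θ / x1 * (2 * x1) = 2 * Θ := by field_simp
    rw [e]
    calc _ ≤ 2 * Θ * (6 / μ) := mul_le_mul (k4 ▸ k3) up'
          (inv_pos.2 (p22 b (Ioo_subset_Icc_self hb))).le (by positivity)
      _ = 12 * Θ / μ := by ring
  have hS4 : ∀ x ∈ Ioc (0 : ℝ) (1 / 4), ((x, b) : ℝ × ℝ) ∈ d.S :=
    fun x hx => hS x ⟨hx.1, by linarith [hx.2]⟩ b (Ioo_subset_Icc_self hb)
  obtain ⟨y', y'', cy, hy⟩ := (hl hc h.gs h.tI hS4).q (0, 1) (by simp)
  rw [iq_e2] at cy hy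
  obtain ⟨C, hC0, hC⟩ := face hc h.gs h.tI (isCompact_rc 1 1)
    fun y hy => h.memSc hy (fun _ => hy.1.1) (by simp)
  have nrm := (hNorm.1 _ y' y'' (fun x => F (t, x, b)) (1 / 4) Θ ε (1 + C) (by norm_num) hΘ0.le cy
    (Green.cheap_mono chb le_rfl (by norm_num)) (by linarith)
    (fun x hx => ⟨i22_pos hc h.gs (h.memU (hS4 x hx)), by
      have k := (hC (x, b) ⟨⟨hx.1.le, by linarith [hx.2]⟩, Ioo_subset_Icc_self hb⟩
        (hS4 x hx)).2.2
      rw [h.ty] at k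
      simp only [om, Bool.false_eq_true, if_false, one_pow, mul_one] at k
      linarith [(abs_le.1 k).2]⟩)
    (fun x hx => (hy x (Ioo_subset_Ioc_self hx)).trans (mul_le_mul_of_nonneg_left
      (hb2 x (Ioo_subset_Ioc_self hx)).1 (mul_nonneg (h.F0 (hS4 x (Ioo_subset_Ioc_self hx)))
        (i22_pos hc h.gs (h.memU (hS4 x (Ioo_subset_Ioc_self hx)))).le)))).2.1
    (2 * r ^ 2) (by positivity) (by linarith) x1 ⟨by linarith, by linarith⟩ x hx
  calc i22 u (t, x, b) ≤ 2 / (2 * r ^ 2) * i22 u (t, x1, b) := nrm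
    _ ≤ 2 / (2 * r ^ 2) * (12 * Θ / μ) := mul_le_mul_of_nonneg_left i22x (by positivity)
    _ = 12 * Θ / (μ * r ^ 2) := by field_simp

end Pool.Agent.P.MP_2cea5e_gt.I.S4
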