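import Pool.Agent.P.MP_2cea5e_gt.I.S.Tool2

/-!
Chapter I, section 2: the good frame at an edge point, last step.
-/

open scoped ContDiff Topology ENNReal
open MeasureTheory Set Filter

noncomputable section

set_option linter.dupNamespace false

namespace Pool.Agent.P.MP_2cea5e_gt.I.S4

namespace PLb3

variable {d : Dm} {u F : X → ℝ} {t : ℝ}

theorem small {a b a' b' : ℝ} (ha : 0 < a) (hb : 0 < b) (ha' : 0 < a') (hb' : 0 < b') :
    ∃ r, 0 < r ∧ a * r ≤ b ∧ a' * r ≤ b' :=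
  ⟨min (b / a) (b' / a'), by positivity, (le_div_iff₀' ha).1 (min_le_left _ _),
    (le_div_iff₀' ha').1 (min_le_right _ _)⟩

/-- The vertical line. -/
theorem vert (hc : Core) (h : SK tPL (rc 1 1) d u F t) {x : ℝ} (hx : x ∈ Ioc (0 : ℝ) 1)
    (hT : TT u t x 1 ≤ 1) (hF : Cheap (fun y => F (t, x, y)) (-1) 1 (1 / 200)) :
    1 / 32 ≤ i22 u (t, x, 0) ∧ ∀ b : ℝ, |b| ≤ 1 / 4 →
      |i22 u (t, x, b) - i22 u (t, x, 0)| ≤ 16 * |b| * i22 u (t, x, 0) := by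
  have hS : ∀ y ∈ Icc (-1 : ℝ) 1, ((x, y) : ℝ × ℝ) ∈ d.S :=
    fun y hy => h.memPL ⟨⟨hx.1.le, hx.2⟩, hy⟩ hx.1
  have sub : Icc (0 - 1 / 2 : ℝ) (0 + 1 / 2) ⊆ Icc (-1) 1 :=
    Icc_subset_Icc (by norm_num) (by norm_num)
  have v := vl hc h.gs h.tI hS
  have cv := cvx_v hc h hS
  have p22 : ∀ y ∈ Icc (-1 : ℝ) 1, 0 < h22 u (t, x, y) :=
    fun y hy => (h.api hc).p22 _ (h.memU (hS y hy))
  obtain ⟨m', m'', c1, c2⟩ := v.m
  obtain ⟨y', y'', c3, c4⟩ := v.q (0, 1) (by simp)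
  rw [iq_e2] at c3 c4
  have t0 := TT_nonneg hc h hx (L := 1 / 2) ⟨by norm_num, by norm_num⟩
  have m1 : (1 / 2 : ℝ) ∈ Icc (-1 : ℝ) 1 := ⟨by norm_num, by norm_num⟩
  have m2 : (-(1 / 2) : ℝ) ∈ Icc (-1 : ℝ) 1 := ⟨by norm_num, by norm_num⟩
  have s1 := cv.le_slope_of_hasDerivAt m1 (y := 1) ⟨by norm_num, le_rfl⟩ (by norm_num)
    (v.cu.d1 _ m1)
  have s2 := cv.slope_le_of_hasDerivAt (x := -1) ⟨le_rfl, by norm_num⟩ m2 (by norm_num)
    (v.cu.d1 _ m2)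
  rw [slope_def_field, le_div_iff₀ (by norm_num)] at s1
  rw [slope_def_field, div_le_iff₀ (by norm_num)] at s2
  have e := LemK.ftc (a := 0 - 1 / 2) (b := 0 + 1 / 2) (by norm_num)
    (fun y hy => v.cu.d2 y (sub hy)) (v.cu.c2.mono sub)
  obtain ⟨r1, r2⟩ := hLine _ m' m'' _ 0 (1 / 2) 2 (1 / 200) (by norm_num) (by norm_num)
    (Green.C2On_mono c1 sub) (fun y hy => inv_pos.2 (p22 y (sub hy)))
    (Green.cheap_mono hF (by norm_num) (by norm_num))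
    (fun y hy => c2 y (sub (Ioo_subset_Icc_self hy)))
    (by
      simp only [inv_inv]
      rw [e, zero_add, zero_sub]
      simp only [TT] at hT t0
      linarith) (by norm_num)
  have z : (0 : ℝ) ∈ Icc (-1 : ℝ) 1 := ⟨by norm_num, by norm_num⟩
  have a1 := r1 0 ⟨by norm_num, by norm_num⟩
  have a2 := one_le_h22_i22 hc h.gs (h.memU (hS 0 z))
  have a3 := i22_pos hc h.gs (h.memU (hS 0 z))
  rw [inv_inv] at a1
  refine ⟨by nlinarith, fun b hb => ?_⟩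
  have a4 := (r2 _ y' y'' (Green.C2On_mono c3 sub)
    (fun y hy => i22_pos hc h.gs (h.memU (hS y (sub hy))))
    fun y hy => by rw [inv_inv]; exact c4 y (sub (Ioo_subset_Icc_self hy))).1 b
    ⟨by linarith [(abs_le.1 hb).1], by linarith [(abs_le.1 hb).2]⟩
  rw [sub_zero] at a4
  exact a4.trans_eq (by ring)

/-- A good horizontal line. -/
theorem hor (hc : Core) (h : SK tPL (rc 1 1) d u F t) {b Θ C δ : ℝ} (hb : b ∈ Ioo (-1 : ℝ) 1)
    (hΘ : 1 ≤ Θ) (hC : 1 ≤ C) (hδ : Θ * δ ≤ 1 / 10) (hF : Cheap (fun x => F (t, x, b)) 0 1 δ)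
    (hG : ∀ x ∈ Ioc (0 : ℝ) (1 / 4), h11 u (t, x, b) ≤ Θ / x ∧
      |i11 u (t, x, b) / x - 1| ≤ 2 * (Θ * δ) ∧ i22 u (t, x, b) ≤ C) :
    ∀ x ∈ Ioc (0 : ℝ) (1 / 4), |i12 u (t, x, b)| ≤ 4 * C * x + √x * (2 * C * (Θ * δ)) ∧
      ∀ x' ∈ Ioc (0 : ℝ) (1 / 4),
        |i22 u (t, x, b) - i22 u (t, x', b)| ≤ C * (4 * |x - x'| + 2 * (Θ * δ)) := by
  have hS : ∀ x ∈ Ioc (0 : ℝ) (1 / 4), ((x, b) : ℝ × ℝ) ∈ d.S :=
    fun x hx => h.memPL ⟨⟨hx.1.le, by linarith [hx.2]⟩, hb.1.le, hb.2.le⟩ hx.1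
  have v := hl hc h.gs h.tI hS
  have hF' := Green.cheap_mono hF (c := 0) (d := 1 / 4) le_rfl (by norm_num)
  obtain ⟨y', y'', c1, c2⟩ := v.q (0, 1) (by simp)
  obtain ⟨z', z'', c3, c4⟩ := v.z
  rw [iq_e2] at c1 c2
  have p2 := fun x hx => i22_pos hc h.gs (h.memU (hS x hx))
  have b0 : ∀ x ∈ Ioc (0 : ℝ) (1 / 4), i11 u (t, x, b) * i22 u (t, x, b) ≤ 2 * x * C :=
    fun x hx => by
      have a1 := (abs_le.1 (hG x hx).2.1).2
      have a2 : i11 u (t, x, b) ≤ 2 * x := (div_le_iff₀ hx.1).1 (by linarith)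
      exact mul_le_mul a2 (hG x hx).2.2 (p2 x hx).le (by linarith [hx.1])
  have b1 : ∀ x ∈ Ioc (0 : ℝ) (1 / 4), √(i11 u (t, x, b) * i22 u (t, x, b)) ≤ 2 * C * √x :=
    fun x hx => by
      refine Real.sqrt_le_iff.2 ⟨by positivity, (b0 x hx).trans ?_⟩
      rw [mul_pow, Real.sq_sqrt hx.1.le]
      nlinarith [mul_nonneg hx.1.le (show 0 ≤ C by linarith)]
  have b2 : ∀ x ∈ Ioc (0 : ℝ) (1 / 4), |i12 u (t, x, b)| ≤ 2 * C * √x := fun x hx =>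
    (Real.abs_le_sqrt (i12_sq hc h.gs (h.memU (hS x hx)))).trans (b1 x hx)
  have r1 := (hNorm.1 _ y' y'' _ (1 / 4) Θ δ C (by norm_num) (by linarith) c1 hF' hδ
    (fun x hx => ⟨p2 x hx, (hG x hx).2.2⟩) fun x hx =>
      have m := Ioo_subset_Ioc_self hx
      (c2 x m).trans (mul_le_mul_of_nonneg_left (hG x m).1
        (mul_nonneg (hF'.nn x hx) (p2 x m).le))).1
  have r2 := hNorm.2 _ z' z'' _ (1 / 4) (2 * C * Θ) δ (by norm_num) (by positivity) c3 hF'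
    (by
      refine squeeze_zero_norm' (a := fun x => 2 * C * √x) ?_ ?_
      · filter_upwards [Ioc_mem_nhdsGT (show (0 : ℝ) < 1 / 4 by norm_num)] with x hx
        exact b2 x hx
      · have : Continuous fun x : ℝ => 2 * C * √x := by fun_prop
        simpa using (this.tendsto 0).mono_left nhdsWithin_le_nhds)
    fun x hx => by
      have m := Ioo_subset_Ioc_self hx
      have q := Real.sqrt_pos.2 hx.1
      refine (c4 x m).trans ?_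
      rw [mul_assoc]
      refine mul_le_mul_of_nonneg_left ((mul_le_mul (b1 x m) (hG x m).1
        (h.gs.p11 _ (h.memU (hS x m))).le (by positivity)).trans_eq ?_) (hF'.nn x hx)
      nth_rewrite 2 [← Real.mul_self_sqrt hx.1.le]
      field_simp
  intro x hx
  refine ⟨?_, fun x' hx' => (r1 x hx x' hx').trans_eq (by ring)⟩
  have m : (1 / 4 : ℝ) ∈ Ioc (0 : ℝ) (1 / 4) := ⟨by norm_num, le_rfl⟩
  have a1 := b2 _ m
  rw [show √(1 / 4 : ℝ) = 1 / 2 from Real.sqrt_eq_iff_mul_self_eq_of_pos (by norm_num) |>.2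
    (by norm_num)] at a1
  have a2 := abs_sub_abs_le_abs_sub (i12 u (t, x, b)) (x / (1 / 4) * i12 u (t, 1 / 4, b))
  have a3 := r2 x hx
  have a4 := mul_le_mul_of_nonneg_left a1 hx.1.le
  rw [abs_mul, abs_of_pos (div_pos hx.1 m.1)] at a2
  linarith

/-- The inverse Hessian in a diagonal frame. -/
theorem dg_inv (hc : Core) (hg : GS d u F) (ht : t ∈ d.I) {ρ s x c : ℝ} (hρ : 0 < ρ) (hs : 0 < s)
    (hy : ((ρ ^ 2 * x, s * c) : ℝ × ℝ) ∈ d.S) :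
    let v := (dg t ρ hρ 0 (ρ ^ 2) s (pow_pos hρ 2) hs).pull u
    i11 v (0, x, c) = i11 u (t, ρ ^ 2 * x, s * c) / ρ ^ 2 ∧
      i12 v (0, x, c) = i12 u (t, ρ ^ 2 * x, s * c) / s ∧
      i22 v (0, x, c) = ρ ^ 2 * i22 u (t, ρ ^ 2 * x, s * c) / s ^ 2 := by
  intro v
  have e : (dg t ρ hρ 0 (ρ ^ 2) s (pow_pos hρ 2) hs).sp (x, c) = (ρ ^ 2 * x, s * c) := by
    simp [dg_sp]
  have a := (frame_pt hc hg ht (fr := dg t ρ hρ 0 (ρ ^ 2) s (pow_pos hρ 2) hs) rfl (y := (x, c))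
    (by rwa [e])).2.2.2.1
  rw [e] at a
  have a1 := a (1, 0) (1, 0)
  have a2 := a (1, 0) (0, 1)
  have a3 := a (0, 1) (0, 1)
  simp only [ib_eq] at a1 a2 a3
  simp only [Fr.St, dg] at a1 a2 a3
  refine ⟨?_, ?_, ?_⟩
  · rw [eq_div_iff (by positivity)]
    refine mul_left_cancel₀ (pow_pos hρ 2).ne' ?_
    simp only [v, dg]
    linarith
  · rw [eq_div_iff hs.ne']
    refine mul_left_cancel₀ (pow_pos hρ 2).ne' ?_
    simp only [v, dg]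
    linarith
  · rw [eq_div_iff (by positivity)]
    simp only [v, dg]
    linarith

end PLb3

open PLb3 in
theorem plb3_ok (hc : Core) (h : StFill) : StPLb3 := by
  intro Θ C Λ ε hΘ hC hΛ hε
  obtain ⟨δ₀, hδ₀, hfill⟩ := h ε hε
  obtain ⟨κ, κ0, κ1, κ2⟩ := small (a := 4) (a' := 10) (by norm_num) hδ₀ (by norm_num) one_pos
  obtain ⟨ρ', ρ0', ρ1', ρ2'⟩ := small (a := 256 * C) (a' := 6 * Λ) (by positivity) κ0
    (by positivity) hδ₀
  obtain ⟨ρ, ρ0, ρ4, ρ3⟩ := small (a := 1) (a' := 6) one_pos ρ0' (by norm_num) hε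
  rw [one_mul] at ρ4
  have ρ1 : 256 * C * ρ ≤ κ := (mul_le_mul_of_nonneg_left ρ4 (by positivity)).trans ρ1'
  have ρ2 : 6 * Λ * ρ ≤ δ₀ := (mul_le_mul_of_nonneg_left ρ4 (by positivity)).trans ρ2'
  obtain ⟨δ, δ0, δ1, δ2⟩ := small (a := 128 * C * Θ) (a' := 6) (by positivity) κ0 (by norm_num)
    (mul_pos ρ0 hδ₀)
  have n1 : ρ ≤ C * ρ := le_mul_of_one_le_left ρ0.le hC
  have n2 : δ ≤ Θ * δ := le_mul_of_one_le_left δ0.le hΘ
  have n3 : Θ * δ ≤ C * (Θ * δ) := le_mul_of_one_le_left (by positivity) hC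
  have n4 : ρ ^ 2 ≤ ρ / 8 := by nlinarith
  have n5 : 0 < ρ ^ 2 := by positivity
  refine ⟨ρ, δ, ρ0, by linarith, δ0, fun d u F t x₂ G hk hE hx hT hF hv hG => ?_⟩
  have x1 : x₂ ∈ Ioc (0 : ℝ) (1 / 4) := ⟨n5.trans_le hx.1, by linarith [hx.2]⟩
  obtain ⟨A1, A2⟩ := vert hc hk ⟨x1.1, by linarith [x1.2]⟩ hT hF
  obtain ⟨r, r0, rA⟩ : ∃ r, 0 ≤ r ∧ i22 u (t, x₂, 0) = r ^ 2 :=
    ⟨_, Real.sqrt_nonneg _, (Real.sq_sqrt (by linarith)).symm⟩
  rw [rA] at A1 A2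
  have r1 : 1 / 6 ≤ r := abs_le_of_sq_le_sq' (by linarith) r0 |>.2
  have r2 : r ≤ 2 * C := by
    obtain ⟨b, hb, bG⟩ := exists_good hv (a := 0) (Ioo_subset_Ioo (by norm_num) (by linarith))
    have a1 := ((hG b bG ⟨by linarith [hb.1], by linarith [hb.2]⟩).2 x₂ x1).2.2
    have a2 := A2 b (by rw [abs_of_pos hb.1]; linarith [hb.2])
    rw [abs_of_pos hb.1] at a2
    have a3 := mul_le_mul_of_nonneg_right (show b ≤ 1 / 32 by linarith [hb.2]) (sq_nonneg r)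
    exact (abs_le_of_sq_le_sq' (by nlinarith [(abs_le.1 a2).1]) (by linarith)).2
  have rp : 0 < r := by linarith
  have s0 : 0 < ρ * r := mul_pos ρ0 rp
  have s1 : ρ * r ≤ 2 * (C * ρ) := (mul_le_mul_of_nonneg_left r2 ρ0.le).trans_eq (by ring)
  have s2 : ρ / 6 ≤ ρ * r := (mul_le_mul_of_nonneg_left r1 ρ0.le).trans_eq' (by ring)
  have hb : ∀ c ∈ Icc (-2 : ℝ) 2, |ρ * r * c| ≤ 4 * (C * ρ) := fun c hc => by
    rw [abs_mul, abs_of_pos s0]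
    exact (mul_le_mul s1 (abs_le.2 hc) (abs_nonneg _) (by positivity)).trans_eq (by ring)
  have hb' : ∀ c ∈ Icc (-2 : ℝ) 2, ρ * r * c ∈ Ioo (-1 : ℝ) 1 := fun c hc =>
    abs_lt.1 ((hb c hc).trans_lt (by linarith))
  obtain ⟨fr, hfr⟩ : ∃ fr, fr = dg t ρ ρ0 0 (ρ ^ 2) (ρ * r) (pow_pos ρ0 2) s0 := ⟨_, rfl⟩
  have f1 : fr.t1 = t := by rw [hfr]; rfl
  have f2 : fr.Cp tPL tPL := by rw [hfr]; simp [Fr.Cp, dg]
  have f3 : fr.ρ = ρ := by rw [hfr]; rfl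
  have f4 : |fr.det| = ρ ^ 2 * (ρ * r) := by rw [hfr, dg_det]
  have f5 : ∀ y, fr.sp y = (ρ ^ 2 * y.1, ρ * r * y.2) := fun y => by rw [hfr]; simp [dg_sp]
  have f6 : MapsTo fr.sp (bxc tPL 2) (rc 1 1) := fun y hy => by
    rw [f5]
    exact ⟨⟨mul_nonneg n5.le hy.1.1, by nlinarith [hy.1.2]⟩, Ioo_subset_Icc_self (hb' _ hy.2)⟩
  have f7 : fr.sp '' bx tPL 2 ⊆ ro 0 1 1 := by
    rintro _ ⟨y, hy, rfl⟩
    rw [f5]
    exact ⟨⟨mul_pos n5 hy.1.1, by nlinarith [hy.1.2]⟩, hb' _ (Ioo_subset_Icc_self hy.2)⟩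
  have k2 := hk.frame hc f1 f2 f6
  obtain ⟨l₀, l₁, l₂, hl⟩ := hfill true _ _ _ 0 {c | ρ * r * c ∈ G} k2
    ((vol_scale s0 hv fun c hc => hb' c (Ioo_subset_Icc_self hc)).trans_le
      (ENNReal.ofReal_le_ofReal ((div_le_iff₀ s0).2 (by nlinarith))))
    (fun c cG cI x xI => by
      have cI' := Ioo_subset_Icc_self cI
      have x0 : 0 < x := xI.1
      have x4 : x < 2 ^ 2 := xI.2
      have m0 : ρ ^ 2 * x ≤ 4 * ρ ^ 2 := by nlinarith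
      have m : ρ ^ 2 * x ∈ Ioc (0 : ℝ) (1 / 4) := ⟨mul_pos n5 x0, by linarith⟩
      obtain ⟨g1, g2⟩ := hG _ cG (hb' c cI')
      obtain ⟨g3, g4⟩ := hor hc hk (hb' c cI') hΘ hC (by linarith) g1 g2 _ m
      have g5 := g4 x₂ x1
      have g6 := A2 _ ((hb c cI').trans (by linarith))
      have mS : ((ρ ^ 2 * x, ρ * r * c) : ℝ × ℝ) ∈ d.S :=
        hk.memPL ⟨⟨m.1.le, by linarith [m.2]⟩, Ioo_subset_Icc_self (hb' c cI')⟩ m.1
      obtain ⟨e1, e2, e3⟩ := dg_inv hc hk.gs hk.tI ρ0 s0 mS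
      rw [← hfr] at e1 e2 e3
      refine (ne_of_inv hc k2.gs (δ := κ) (by linarith)
        (k2.memU (k2.memPL (y := (x, c)) ⟨⟨x0.le, x4.le⟩, cI'⟩ x0)) ?_ ?_ ?_).mono κ1
      · change |_ / x - 1| ≤ κ
        rw [e1, div_div]
        exact (g2 _ m).2.1.trans (by linarith)
      · change |_ / 1 - 1| ≤ κ
        have e : ρ ^ 2 * i22 u (t, ρ ^ 2 * x, ρ * r * c) / (ρ * r) ^ 2 / 1 - 1 =
            (i22 u (t, ρ ^ 2 * x, ρ * r * c) - r ^ 2) / r ^ 2 := by field_simp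
        rw [e3, e, abs_div, abs_of_pos (pow_pos rp 2), div_le_iff₀ (pow_pos rp 2)]
        have a1 : |ρ ^ 2 * x - x₂| ≤ ρ / 2 :=
          abs_le.2 ⟨by linarith [hx.2, m.1], by linarith [x1.1]⟩
        have a2 := mul_le_mul_of_nonneg_left a1 (show 0 ≤ C by linarith)
        have a3 := mul_le_mul_of_nonneg_right (hb c cI') (sq_nonneg r)
        have a4 := mul_le_mul_of_nonneg_left A1 (show 0 ≤ C * ρ + C * (Θ * δ) by positivity)
        have a5 := mul_le_mul_of_nonneg_right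
          (show 128 * (C * ρ) + 64 * (C * (Θ * δ)) ≤ κ by linarith) (sq_nonneg r)
        refine (abs_sub_le _ (i22 u (t, x₂, ρ * r * c)) _).trans ?_
        linarith
      · change _ ≤ κ * √(x * 1)
        rw [e2, mul_one, abs_div, abs_of_pos s0, div_le_iff₀ s0]
        obtain ⟨q, q0, rfl⟩ : ∃ q, 0 ≤ q ∧ x = q ^ 2 :=
          ⟨_, Real.sqrt_nonneg _, (Real.sq_sqrt x0.le).symm⟩
        rw [← mul_pow, Real.sqrt_sq (mul_nonneg ρ0.le q0)] at g3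
        rw [Real.sqrt_sq q0, ← mul_pow]
        have q2 : q ≤ 2 := (abs_le_of_sq_le_sq' x4.le (by norm_num)).2
        have a1 := mul_le_mul_of_nonneg_left q2 (show 0 ≤ C * ρ by positivity)
        have a2 := mul_le_mul_of_nonneg_left r1 κ0.le
        have a3 := mul_le_mul_of_nonneg_left
          (show 4 * (C * ρ * q) + 2 * (C * (Θ * δ)) ≤ κ * r by linarith) (mul_nonneg ρ0.le q0)
        linarith)
    (by
      rw [En_frame0 hc fr (isOpen_bx _ _).measurableSet, f1, f3, f4]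
      have a1 := (En_mono hk.gs hk.tI (hk.reg_ro le_rfl le_rfl le_rfl) f7).trans hE
      have a2 : ρ ^ 4 / (ρ ^ 2 * (ρ * r)) ≤ 6 * ρ := by
        rw [div_le_iff₀ (by positivity)]
        nlinarith [mul_le_mul_of_nonneg_left r1 (pow_pos ρ0 4).le]
      exact (mul_le_mul a2 a1 (En_nonneg _ _ _) (by positivity)).trans (by linarith))
  refine ⟨setl fr l₀ l₁ l₂, by rw [hfr]; rfl, good_of_fill f1 (by rw [hk.ty]; exact f2) f3.ge
    (by linarith) ?_ (f6.mono_left (bxc_mono _ zero_le_one one_le_two)) hl⟩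
  rw [f3, f4]
  have a1 := mul_le_mul ρ3 r1 (by norm_num) hε.le
  nlinarith [mul_le_mul_of_nonneg_left a1 (pow_pos ρ0 3).le]

end Pool.Agent.P.MP_2cea5e_gt.I.S4
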