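import Pool.Agent.P.MP_2cea5e_gt.I.S.Tool2

/-!
Chapter I, section 2: the vertex at unit scale (`StPP1`).
-/

open scoped ContDiff Topology ENNReal
open MeasureTheory Set Filter

noncomputable section

set_option linter.dupNamespace false

namespace Pool.Agent.P.MP_2cea5e_gt.I.S4

namespace PP1

variable {d : Dm} {u F : X → ℝ} {t : ℝ}

theorem cont (hc : Core) (h : SK tPP (trc 4) d u F t) :
    ContinuousOn (fun q : ℝ × ℝ => rad u t q.1 q.2) (Ioo (0 : ℝ) 4 ×ˢ Ioo (1 / 4 : ℝ) (3 / 4)) :=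
  (cont_rad hc h).mono (prod_mono Ioo_subset_Ioc_self (Ioo_subset_Ioo (by norm_num) (by norm_num)))

theorem vi_le {V : ℝ} (hV : Vi u t 1 ≤ ENNReal.ofReal V) :
    ∫⁻ q in Ioo (0 : ℝ) 4 ×ˢ Ioo (1 / 4 : ℝ) (3 / 4), ENNReal.ofReal (rad u t q.1 q.2) ≤
      ENNReal.ofReal V := by
  simpa only [Vi, one_mul] using hV

/-- A ray with bounded radial second derivative. -/
theorem ray (hc : Core) (h : SK tPP (trc 4) d u F t) {V : ℝ} (hV0 : 0 < V)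
    (hV : Vi u t 1 ≤ ENNReal.ofReal V) : ∃ b₀ ∈ Ioo (0 : ℝ) 1,
    ∫⁻ s in Ioo (0 : ℝ) 4, ENNReal.ofReal (rad u t s b₀) ≤ ENNReal.ofReal (3 * V) := by
  have h1 := mk_h (g := fun q : ℝ × ℝ => rad u t q.1 q.2) (κ := 3 * V) measurableSet_Ioo
    measurableSet_Ioo (cont hc h) (by positivity) (vi_le hV)
  have h2 : volume (Ioo (1 / 4 : ℝ) (3 / 4) \
      {b | ∫⁻ s in Ioo (0 : ℝ) 4, ENNReal.ofReal (rad u t s b) ≤ ENNReal.ofReal (3 * V)}) <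
      ENNReal.ofReal (1 / 2) := by
    refine lt_of_le_of_lt (le_trans (measure_mono fun b hb => ?_) h1) ?_
    · exact ⟨hb.1, not_le.1 hb.2⟩
    · rw [ENNReal.ofReal_lt_ofReal_iff (by norm_num), div_lt_iff₀ (by positivity)]
      linarith
  obtain ⟨b, hb, hG⟩ := exists_good (a := 1 / 4) h2 (by norm_num)
  exact ⟨b, ⟨by linarith [hb.1], by linarith [hb.2]⟩, hG⟩

/-- A cheap vertical segment near the face. -/
theorem vert (hc : Core) (h : SK tPP (trc 4) d u F t) {η e : ℝ} (hη : 0 < η) (hη1 : η ≤ 1 / 100)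
    (he : 14 * e < η) (hE : En F t (tri η 4) ≤ e) :
    ∃ x ∈ Icc η (2 * η), Cheap (fun y => F (t, x, y)) 0 (7 / 2) (1 / 2) := by
  have h1 := cheb_v hc h.gs h.tI h.reg_tri (a := 0) (a' := 7 / 2) (ε := 1 / 2)
    (J := Ioo η (η + η)) hE measurableSet_Ioo (by norm_num) (by norm_num)
    (fun y hy => ⟨hη.trans hy.1.1, hy.2.1, by linarith [hy.1.1, hy.2.1],
      by linarith [hy.1.2, hy.2.2]⟩)
  have h2 : volume (Ioo η (η + η) \ {x | Cheap (fun y => F (t, x, y)) 0 (7 / 2) (1 / 2)}) <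
      ENNReal.ofReal η := by
    refine lt_of_le_of_lt (le_trans (measure_mono fun b hb => ?_) h1) ?_
    · exact ⟨hb.1, hb.2⟩
    · rw [ENNReal.ofReal_lt_ofReal_iff hη, div_lt_iff₀ (by norm_num)]
      linarith
  obtain ⟨b, hb, hG⟩ := exists_good h2 Subset.rfl
  exact ⟨b, ⟨hb.1.le, by linarith [hb.2]⟩, hG⟩

/-- A cheap horizontal segment near the face. -/
theorem hor (hc : Core) (h : SK tPP (trc 4) d u F t) {η e : ℝ} (hη : 0 < η) (hη1 : η ≤ 1 / 100)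
    (he : 14 * e < η) (hE : En F t (tri η 4) ≤ e) :
    ∃ y ∈ Icc η (2 * η), Cheap (fun x => F (t, x, y)) 0 (7 / 2) (1 / 2) := by
  have h1 := cheb_h hc h.gs h.tI h.reg_tri (a := 0) (a' := 7 / 2) (ε := 1 / 2)
    (J := Ioo η (η + η)) hE measurableSet_Ioo (by norm_num) (by norm_num)
    (fun y hy => ⟨hy.1.1, hη.trans hy.2.1, by linarith [hy.1.1, hy.2.1],
      by linarith [hy.1.2, hy.2.2]⟩)
  have h2 : volume (Ioo η (η + η) \ {y | Cheap (fun x => F (t, x, y)) 0 (7 / 2) (1 / 2)}) <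
      ENNReal.ofReal η := by
    refine lt_of_le_of_lt (le_trans (measure_mono fun b hb => ?_) h1) ?_
    · exact ⟨hb.1, hb.2⟩
    · rw [ENNReal.ofReal_lt_ofReal_iff hη, div_lt_iff₀ (by norm_num)]
      linarith
  obtain ⟨b, hb, hG⟩ := exists_good h2 Subset.rfl
  exact ⟨b, ⟨hb.1.le, by linarith [hb.2]⟩, hG⟩

/-- Most antidiagonals are good. -/
theorem anti (hc : Core) (h1 : StAnti) {V η k : ℝ} (hV0 : 0 < V) (hη : 0 < η) (hk : 0 < k) :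
    ∃ e : ℝ, 0 < e ∧ ∀ (d : Dm) (u F : X → ℝ) (t : ℝ), SK tPP (trc 4) d u F t →
      Vi u t 1 ≤ ENNReal.ofReal V → En F t (tri η 4) ≤ e →
      ∃ G : Set ℝ, volume (Ioo η 4 \ G) < ENNReal.ofReal k ∧
        ∀ s ∈ G, s ∈ Ioo η 4 → ∀ b ∈ Ioo (0 : ℝ) 1, NE tPP u k (t, ad s b) := by
  obtain ⟨V1, hV1, hV2⟩ : ∃ V1 : ℝ, 1 ≤ V1 ∧ 4 * V / k ≤ V1 :=
    ⟨max 1 (4 * V / k), le_max_left _ _, le_max_right _ _⟩
  have hV3 : 0 < V1 := one_pos.trans_le hV1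
  obtain ⟨e2, he2, he3, he4⟩ : ∃ e2 : ℝ, 0 < e2 ∧ e2 ≤ 1 / 10 ^ 6 / V1 ∧ e2 ≤ k / 400000 / V1 :=
    ⟨min (1 / 10 ^ 6 / V1) (k / 400000 / V1), by positivity, min_le_left _ _, min_le_right _ _⟩
  rw [le_div_iff₀' hV3] at he3 he4
  refine ⟨k * e2 ^ 2 / 8, by positivity, fun d u F t h hV hE => ⟨{s |
    Cheap (fun b => s * F (t, ad s b)) 0 1 e2 ∧
      ∫⁻ b in Ioo (1 / 4 : ℝ) (3 / 4), ENNReal.ofReal (rad u t s b) ≤ ENNReal.ofReal V1}, ?_, ?_⟩⟩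
  · have a1 := cheb_ad hc h hη.le (by norm_num) hE he2
    have a2 := mk_v (g := fun q : ℝ × ℝ => rad u t q.1 q.2) (κ := V1) measurableSet_Ioo
      measurableSet_Ioo (cont hc h) hV3 (vi_le hV)
    refine vol_lt_of_cover (fun s hs => ?_) (by positivity) (by positivity) a1 a2 ?_
    · by_cases hcp : Cheap (fun b => s * F (t, ad s b)) 0 1 e2
      · exact Or.inr ⟨⟨hη.trans hs.1.1, hs.1.2⟩, not_le.1 fun h3 => hs.2 ⟨hcp, h3⟩⟩
      · exact Or.inl ⟨hs.1, hcp⟩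
    · have b1 : 4 * (k * e2 ^ 2 / 8) / e2 ^ 2 = k / 2 := by field_simp; ring
      have b2 : V / V1 ≤ k / 4 := by
        rw [div_le_iff₀ hk] at hV2
        rw [div_le_iff₀ hV3]; linarith
      linarith
  · intro s hs hs' b hb
    have h0 : 0 < s := hη.trans hs'.1
    refine (h1 d u F t s V1 e2 h0 hV1 (h.mono ?_) hs.1 hs.2 he3 b hb).mono (by linarith)
    rintro _ ⟨c, hc', rfl⟩
    exact ad_mem_trc ⟨h0.le, hs'.2.le⟩ hc'

end PP1

theorem pp1_ok (hc : Core) (h1 : StAnti) (h2 : StPPg) (h3 : StPPf) : StPP1 := by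
  intro V ε hV hε
  obtain ⟨η, δ, hη, hη1, hδ, H3⟩ := h3 (3 * V) ε (by positivity) hε
  obtain ⟨γ, hγ, H2⟩ := h2 η δ hη hη1 hδ
  obtain ⟨e, he, H1⟩ := PP1.anti hc h1 hV hη (lt_min hγ hδ)
  refine ⟨η, min e (η / 15), hη, hη1, by positivity, fun d u F t h hVi hE => ?_⟩
  obtain ⟨G, hG, hN⟩ := H1 d u F t h hVi (hE.trans (min_le_left _ _))
  have hE2 : En F t (tri η 4) ≤ η / 15 := hE.trans (min_le_right _ _)
  obtain ⟨x, hx, cx⟩ := PP1.vert hc h hη hη1 (by linarith) hE2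
  obtain ⟨y, hy, cy⟩ := PP1.hor hc h hη hη1 (by linarith) hE2
  obtain ⟨b₀, hb, cb⟩ := PP1.ray hc h hV hVi
  obtain ⟨l₀, l₁, l₂, hl⟩ := H2 d u F t x y G h
    (hG.trans_le (ENNReal.ofReal_le_ofReal (min_le_left _ _)))
    (fun s hs hs' b hb => (hN s hs hs' b hb).mono (min_le_left _ _)) hx hy cx cy
  exact ⟨l₀, l₁, l₂, H3 d u F t l₀ l₁ l₂ b₀ G h
    (hG.trans_le (ENNReal.ofReal_le_ofReal (min_le_right _ _))) hl hb cb⟩

end Pool.Agent.P.MP_2cea5e_gt.I.S4
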