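import Pool.Agent.P.MP_2cea5e_gt.I.S.Tool2

/-!
Chapter I, section 2: the drift in time on a square at the vertex.
-/

open scoped ContDiff Topology ENNReal
open MeasureTheory Set Filter

noncomputable section

set_option linter.dupNamespace false

namespace Pool.Agent.P.MP_2cea5e_gt.I.S4

namespace PPd

variable {d : Dm} {u F f : X → ℝ} {T₀ T Λ : ℝ} {A : Set (ℝ × ℝ)}

theorem lc_fz (hf : Lc d f) {s : ℝ} (hs : s ∈ d.I) : Lc d (fz s f) := by
  have c : Continuous fun p : X => ((s, p.2) : X) := continuous_const.prodMk continuous_snd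
  refine ⟨hf.cont.comp c.continuousOn fun p hp => ⟨hs, hp.2⟩, fun K h1 h2 => ?_⟩
  obtain ⟨C, hC⟩ := hf.bd _ (h1.image c) (by rintro _ ⟨p, hp, rfl⟩; exact ⟨hs, (h2 hp).2⟩)
  exact ⟨C, fun p hp hU => hC _ ⟨p, hp, rfl⟩ ⟨hs, hU.2⟩⟩

theorem lc_u (hg : GS d u F) : Lc d u := ⟨hg.cont.mono d.U_subset, bd0_of_cont hg.cont⟩

theorem int_S (hc : Core) (cs : CS d u F T₀ T Λ) {a s : ℝ} (ha : a ∈ d.I) (hs : s ∈ d.I) :
    IntegrableOn (fun y => (D e0 u (a, y) - D e0 u (s, y)) ^ 2) d.S := by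
  have lv := (hc.api d u cs.gs.toGS0).bt.lc
  refine Integrable.mono' (((cs.en a ha).1.const_mul 2).add ((cs.en s hs).1.const_mul 2))
    ((((lv.slice ha).sub (lv.slice hs)).pow 2).aestronglyMeasurable d.isOpen_S.measurableSet)
    ((ae_restrict_iff' d.isOpen_S.measurableSet).2 (Eventually.of_forall fun y hy => ?_))
  have h1 := sq_le_sq' (abs_le.1 (cs.gs.f2 (a, y) ⟨ha, hy⟩)).1 (abs_le.1 (cs.gs.f2 (a, y) ⟨ha, hy⟩)).2
  have h2 := sq_le_sq' (abs_le.1 (cs.gs.f2 (s, y) ⟨hs, hy⟩)).1 (abs_le.1 (cs.gs.f2 (s, y) ⟨hs, hy⟩)).2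
  rw [Real.norm_of_nonneg (sq_nonneg _), Pi.add_apply]
  nlinarith [sq_nonneg (D e0 u (a, y) + D e0 u (s, y))]

/-- The time integral of the deviation of the velocity. -/
theorem dev (hc : Core) (cs : CS d u F T₀ T Λ) (hA : Reg d A) {s t t' γ : ℝ} (hs : s ∈ d.I)
    (ht : t ∈ Ioo s T) (ht' : t' ∈ Ioo s T)
    (hγ : ∀ a ∈ Ioo s T, (∫ y in d.S, D e0 u (s, y) ^ 2) - ∫ y in d.S, D e0 u (a, y) ^ 2 ≤ γ) :
    0 ≤ γ ∧ |∫ a in t'..t, ∫ y in A, (D e0 u (a, y) - D e0 u (s, y)) ^ 2| ≤ (T - s) * γ := by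
  have lv := (hc.api d u cs.gs.toGS0).bt.lc
  have hm : max t t' ∈ Ioo s T := ⟨lt_max_of_lt_left ht.1, max_lt ht.2 ht'.2⟩
  have sub : Icc s (max t t') ⊆ d.I := fun a ha => by
    rw [cs.tI] at hs ⊢; exact ⟨hs.1.trans_le ha.1, ha.2.trans_lt hm.2⟩
  have sub' : uIcc s (max t t') ⊆ d.I := by rwa [uIcc_of_le hm.1.le]
  have iA : IntervalIntegrable (fun a => ∫ y in A, (D e0 u (a, y) - D e0 u (s, y)) ^ 2) volume s
      (max t t') :=
    ((((lv.sub (lc_fz lv hs)).pow 2).continuousOn_int hA).mono sub').intervalIntegrable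
  have iS := ((cs.vc s hs).mono sub').intervalIntegrable (μ := volume)
  have p : ∀ (B : Set (ℝ × ℝ)) (a : ℝ), 0 ≤ ∫ y in B, (D e0 u (a, y) - D e0 u (s, y)) ^ 2 :=
    fun B a => integral_nonneg fun _ => sq_nonneg _
  have h1 := (cs.soft s hs _ hm).trans
    (mul_le_mul_of_nonneg_left (hγ _ hm) (sub_nonneg.2 hm.1.le))
  have h0 : 0 ≤ γ := nonneg_of_mul_nonneg_right
    ((intervalIntegral.integral_nonneg_of_forall hm.1.le (p _)).trans h1) (sub_pos.2 hm.1)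
  refine ⟨h0, (intervalIntegral.abs_integral_mono_interval ?_ (Eventually.of_forall (p A))
    iA).trans ?_⟩
  · rw [uIoc_of_le hm.1.le]
    exact Ioc_subset_Ioc (le_min ht'.1.le ht.1.le) (max_comm t' t).le
  · rw [abs_of_nonneg (intervalIntegral.integral_nonneg_of_forall hm.1.le (p _))]
    refine (intervalIntegral.integral_mono_on hm.1.le iA iS fun a ha => ?_).trans
      (h1.trans (mul_le_mul_of_nonneg_right (by linarith [hm.2]) h0))
    exact setIntegral_mono_set (int_S hc cs (sub ha) hs) (Eventually.of_forall fun _ => sq_nonneg _)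
      hA.sub.eventuallyLE

/-- The drift on a region where the velocity is controlled. -/
theorem far (hc : Core) (h2 : StDr1) (cs : CS d u F T₀ T Λ) (hA : Reg d A) {s t t' α γ : ℝ}
    (hs : s ∈ d.I) (ht : t ∈ Ioo s T) (ht' : t' ∈ Ioo s T)
    (hα : ∫ y in A, D e0 u (s, y) ^ 2 ≤ α)
    (hγ : ∀ a ∈ Ioo s T, (∫ y in d.S, D e0 u (s, y) ^ 2) - ∫ y in d.S, D e0 u (a, y) ^ 2 ≤ γ) :
    ∫ y in A, (u (t, y) - u (t', y)) ^ 2 ≤ 2 * (T - s) ^ 2 * (α + γ) := by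
  have lv := (hc.api d u cs.gs.toGS0).bt.lc
  have lu := lc_u cs.gs
  have sub : Ioo s T ⊆ d.I := fun a ha => by
    rw [cs.tI] at hs ⊢; exact ⟨hs.1.trans ha.1, ha.2⟩
  obtain ⟨h0, h1⟩ := dev hc cs hA hs ht ht' hγ
  have h3 := h2 d u F A t t' s 1 cs.gs hA ((ordConnected_Ioo.uIcc_subset ht' ht).trans sub) hs
  simp only [one_mul] at h3
  have h4 : |t - t'| ≤ T - s := abs_le.2 ⟨by linarith [ht.1, ht'.2], by linarith [ht.2, ht'.1]⟩
  have h5 := h3.trans (mul_le_mul h4 h1 (abs_nonneg _) ((abs_nonneg _).trans h4))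
  have h6 : (t - t') ^ 2 ≤ (T - s) ^ 2 := sq_le_sq' (abs_le.1 h4).1 (abs_le.1 h4).2
  have i1 : IntegrableOn (fun y => (u (t, y) - u (t', y) - (t - t') * D e0 u (s, y)) ^ 2) A :=
    (((lu.sub (lc_fz lu (sub ht'))).sub ((lc_of_cont (f := fun _ => t - t') continuous_const).mul
      (lc_fz lv hs))).pow 2).integrableOn hA (sub ht)
  have i2 : IntegrableOn (fun y => D e0 u (s, y) ^ 2) A := (lv.pow 2).integrableOn hA hs
  have h7 : ∫ y in A, (u (t, y) - u (t', y)) ^ 2 ≤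
      ∫ y in A, (2 * (u (t, y) - u (t', y) - (t - t') * D e0 u (s, y)) ^ 2 +
        2 * (T - s) ^ 2 * D e0 u (s, y) ^ 2) := by
    refine integral_mono_of_nonneg (Eventually.of_forall fun _ => sq_nonneg _)
      ((i1.const_mul _).add (i2.const_mul _)) (Eventually.of_forall fun y => ?_)
    have := mul_le_mul_of_nonneg_right h6 (sq_nonneg (D e0 u (s, y)))
    nlinarith [sq_nonneg (u (t, y) - u (t', y) - 2 * ((t - t') * D e0 u (s, y)))]
  rw [integral_add (i1.const_mul _) (i2.const_mul _), integral_const_mul, integral_const_mul] at h7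
  nlinarith [mul_le_mul_of_nonneg_left hα (sq_nonneg (T - s))]

theorem osc (h1 : StOsc2) (cs : CS d u F T₀ T Λ) {r ρ t : ℝ} (hρ : 0 < ρ) (hr : 2 * ρ ≤ r)
    (hr' : r ≤ 1 / 2) (hO : qc (2 * r) ⊆ d.O) (ht : t ∈ d.I) :
    ∀ y ∈ qo (2 * ρ), |u (t, y) - u (t, ρ, ρ)| ≤ 2 * Λ * ρ * (5 - Real.log ρ) := by
  have k : SK tPP (qc (2 * r)) d u F t := ⟨cs.gs, ht, cs.ty, hO⟩
  have s : Icc 0 (2 * ρ) ⊆ Icc 0 (2 * r) := Icc_subset_Icc_right (by linarith)
  refine h1 Λ ρ d u F t (zero_le_one.trans cs.one) hρ (k.mono (prod_mono s s)) fun y hy => ?_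
  have m1 := min_le_left y.1 y.2
  have m2 := min_le_right y.1 y.2
  refine cs.lg t ht y _ (lt_min hy.1.1 hy.2.1) (by linarith [hy.1.2]) fun z hz => ?_
  rw [Metric.mem_ball, Prod.dist_eq, max_lt_iff, Real.dist_eq, Real.dist_eq, abs_lt, abs_lt] at hz
  have a1 : 0 < z.1 := by linarith [hz.1.1]
  have a2 : 0 < z.2 := by linarith [hz.2.1]
  exact k.memPP ⟨⟨a1.le, by linarith [hz.1.2, hy.1.2]⟩, a2.le, by linarith [hz.2.2, hy.2.2]⟩ a1 a2

theorem vol_qo {ρ : ℝ} (hρ : 0 < ρ) : (volume : Measure (ℝ × ℝ)).real (qo ρ) = ρ ^ 2 := by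
  rw [qo, Measure.volume_eq_prod, measureReal_prod_prod, Real.volume_real_Ioo_of_le hρ.le]
  ring

/-- The small square is controlled by its translate. -/
theorem near {g : ℝ × ℝ → ℝ} {r ρ w : ℝ} (hρ : 0 < ρ) (hr : 2 * ρ ≤ r)
    (hi : IntegrableOn (fun y => g y ^ 2) (qo r))
    (ho : ∀ y ∈ qo (2 * ρ), ∀ y' ∈ qo (2 * ρ), |g y - g y'| ≤ w) :
    ∫ y in qo ρ, g y ^ 2 ≤ 2 * (∫ y in qo r \ qo ρ, g y ^ 2) + 2 * w ^ 2 * ρ ^ 2 := by
  set B : Set (ℝ × ℝ) := Ioo ρ (2 * ρ) ×ˢ Ioo ρ (2 * ρ) with hB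
  have e : (fun y : ℝ × ℝ => y + (ρ, ρ)) ⁻¹' B = qo ρ := by
    ext y
    simp only [hB, qo, mem_preimage, mem_prod, mem_Ioo, Prod.fst_add, Prod.snd_add]
    constructor <;> rintro ⟨⟨a, b⟩, c, e⟩ <;> refine ⟨⟨?_, ?_⟩, ?_, ?_⟩ <;> linarith
  have sB : B ⊆ qo r \ qo ρ := fun y hy =>
    ⟨⟨⟨hρ.trans hy.1.1, hy.1.2.trans_le hr⟩, hρ.trans hy.2.1, hy.2.2.trans_le hr⟩,
      fun c => lt_asymm c.1.2 hy.1.1⟩
  have mp := measurePreserving_add_right (volume : Measure (ℝ × ℝ)) (ρ, ρ)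
  have me := measurableEmbedding_addRight ((ρ, ρ) : ℝ × ℝ)
  have i0 := hi.mono_set (sdiff_subset (t := qo ρ))
  have i1 : IntegrableOn (fun y => g (y + (ρ, ρ)) ^ 2) (qo ρ) := by
    rw [← e]
    exact (mp.integrableOn_comp_preimage me).2 (i0.mono_set sB)
  have i2 : IntegrableOn (fun _ => 2 * w ^ 2) (qo ρ) := integrableOn_const
    ((measure_mono (Set.prod_mono Ioo_subset_Icc_self Ioo_subset_Icc_self)).trans_lt
      (isCompact_qc ρ).measure_lt_top).ne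
  have h1 : ∫ y in qo ρ, g (y + (ρ, ρ)) ^ 2 ≤ ∫ y in qo r \ qo ρ, g y ^ 2 := by
    rw [← e, mp.setIntegral_preimage_emb me (fun y => g y ^ 2), e]
    exact setIntegral_mono_set i0 (Eventually.of_forall fun _ => sq_nonneg _) sB.eventuallyLE
  have h2 : ∫ y in qo ρ, g y ^ 2 ≤ ∫ y in qo ρ, (2 * g (y + (ρ, ρ)) ^ 2 + 2 * w ^ 2) := by
    refine integral_mono_of_nonneg (Eventually.of_forall fun _ => sq_nonneg _)
      ((i1.const_mul _).add i2) ((ae_restrict_iff' (isOpen_qo ρ).measurableSet).2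
        (Eventually.of_forall fun y hy => ?_))
    have a := abs_le.1 (ho y ⟨⟨hy.1.1, by linarith [hy.1.2]⟩, hy.2.1, by linarith [hy.2.2]⟩
      (y + (ρ, ρ)) ⟨⟨add_pos hy.1.1 hρ, by rw [two_mul]; exact add_lt_add_left hy.1.2 _⟩,
        add_pos hy.2.1 hρ, by rw [two_mul]; exact add_lt_add_left hy.2.2 _⟩)
    have b := sq_le_sq' a.1 a.2
    show g y ^ 2 ≤ _
    nlinarith [sq_nonneg (g y - 2 * g (y + (ρ, ρ)))]
  rw [integral_add (i1.const_mul _) i2, integral_const_mul, setIntegral_const, vol_qo hρ,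
    smul_eq_mul] at h2
  linarith

end PPd

open PPd in
theorem ppd_ok (hc : Core) (h1 : StOsc2) (h2 : StDr1) : StPPd := by
  intro d u F T₀ T Λ r ρ t t' α γ cs hρ hr hr' hO hs ht ht' hα hγ
  have sub : Ioo (T - r ^ 2) T ⊆ d.I := fun a ha => by
    rw [cs.tI] at hs ⊢; exact ⟨hs.1.trans ha.1, ha.2⟩
  have k : SK tPP (qc (2 * r)) d u F t := ⟨cs.gs, sub ht, cs.ty, hO⟩
  have s : Icc 0 r ⊆ Icc 0 (2 * r) := Icc_subset_Icc_right (by linarith)
  have R : Reg d (qo r) := (k.mono (B := qc r) (prod_mono s s)).reg_qo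
  have lu := lc_u cs.gs
  have hi : IntegrableOn (fun y => (u (t, y) - u (t', y)) ^ 2) (qo r) :=
    ((lu.sub (lc_fz lu (sub ht'))).pow 2).integrableOn R (sub ht)
  have a := far hc h2 cs (R.mono ((isOpen_qo r).measurableSet.diff (isOpen_qo ρ).measurableSet)
    sdiff_subset) hs ht ht' hα hγ
  have o := osc h1 cs hρ hr hr' hO (sub ht)
  have o' := osc h1 cs hρ hr hr' hO (sub ht')
  have b := near (g := fun y => u (t, y) - u (t', y)) (w := 4 * (2 * Λ * ρ * (5 - Real.log ρ)))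
    hρ hr hi fun y hy y' hy' => by
      have a1 := abs_le.1 (o y hy)
      have a2 := abs_le.1 (o y' hy')
      have a3 := abs_le.1 (o' y hy)
      have a4 := abs_le.1 (o' y' hy')
      exact abs_le.2 ⟨by linarith, by linarith⟩
  have s' : Ioo 0 ρ ⊆ Ioo 0 r := Ioo_subset_Ioo_right (by linarith)
  have c := setIntegral_sdiff (isOpen_qo ρ).measurableSet hi (prod_mono s' s')
  rw [sub_sub_cancel] at a
  linarith

end Pool.Agent.P.MP_2cea5e_gt.I.S4
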