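import Pool.Agent.P.MP_2cea5e_gt.I.S.Tool2

/-!
Chapter I, section 2: from the good antidiagonals to an integral bound at the vertex.
-/

open scoped ContDiff Topology ENNReal
open MeasureTheory Set Filter

noncomputable section

set_option linter.dupNamespace false

namespace Pool.Agent.P.MP_2cea5e_gt.I.S4

namespace PPf

variable {d : Dm} {u F : X → ℝ} {t : ℝ}

/-- The model as a function of the space variables. -/
def mm (y : ℝ × ℝ) : ℝ := y.1 * Real.log y.1 + y.2 * Real.log y.2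

theorem cont_mm : Continuous mm :=
  (Real.continuous_mul_log.comp continuous_fst).add (Real.continuous_mul_log.comp continuous_snd)

theorem wv_eq (u : X → ℝ) (t : ℝ) (y : ℝ × ℝ) : wv tPP u (t, y) = u (t, y) - mm y := by
  simp [wv, u0, md, mm]

theorem dist_ad {s s' b : ℝ} (hb : b ∈ Ioo (0 : ℝ) 1) : dist (ad s b) (ad s' b) ≤ |s - s'| := by
  rw [Prod.dist_eq, Real.dist_eq, Real.dist_eq]
  simp only [ad]
  rw [← sub_mul, ← sub_mul, abs_mul, abs_mul, abs_of_pos (sub_pos.2 hb.2), abs_of_pos hb.1]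
  have := abs_nonneg (s - s')
  refine max_le ?_ ?_ <;> nlinarith [hb.1, hb.2]

theorem memSc (h : SK tPP (trc 4) d u F t) {y : ℝ × ℝ} (hy : y ∈ trc 4) : y ∈ d.Sc :=
  h.memSc hy (fun _ => hy.1) fun _ => hy.2.1

theorem cvx_ray (hc : Core) (h : SK tPP (trc 4) d u F t) (l₀ l₁ l₂ : ℝ) {b : ℝ}
    (hb : b ∈ Ioo (0 : ℝ) 1) :
    ConvexOn ℝ (Icc (0 : ℝ) 4) fun s => u (t, ad s b) - af l₀ l₁ l₂ (t, ad s b) := by
  have c := (h.api hc).cvx t h.tI (trc 4) (convex_trc 4) (fun y hy => memSc h hy)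
    ⟨(1, 1), by norm_num [trc], h.memPP (by norm_num [trc]) one_pos one_pos⟩
  refine ⟨convex_Icc _ _, fun x hx y hy p q hp hq hpq => ?_⟩
  have k := c.2 (ad_mem_trc hx (Ioo_subset_Icc_self hb)) (ad_mem_trc hy (Ioo_subset_Icc_self hb))
    hp hq hpq
  have e : p • ad x b + q • ad y b = ad (p • x + q • y) b := by
    ext <;> simp [ad] <;> ring
  rw [e] at k
  have e2 : af l₀ l₁ l₂ (t, ad (p • x + q • y) b) =
      p * af l₀ l₁ l₂ (t, ad x b) + q * af l₀ l₁ l₂ (t, ad y b) := by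
    obtain rfl : q = 1 - p := by linarith
    simp only [af, ad, smul_eq_mul]; ring
  simp only [smul_eq_mul] at k e2 ⊢
  rw [e2]
  linarith

/-- The value at the vertex is bounded through one ray. -/
theorem vertex (hc : Core) (h : SK tPP (trc 4) d u F t) (l₀ l₁ l₂ : ℝ) {b V M : ℝ}
    (hb : b ∈ Ioo (0 : ℝ) 1) (hV : 0 ≤ V)
    (hI : ∫⁻ s in Ioo (0 : ℝ) 4, ENNReal.ofReal (rad u t s b) ≤ ENNReal.ofReal V)
    (h1 : |u (t, ad 1 b) - af l₀ l₁ l₂ (t, ad 1 b)| ≤ M)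
    (h2 : |u (t, ad (1 / 2) b) - af l₀ l₁ l₂ (t, ad (1 / 2) b)| ≤ M) :
    u (t, ad 0 b) - af l₀ l₁ l₂ (t, ad 0 b) ≤ 2 * V + 3 * M := by
  have hM : 0 ≤ M := (abs_nonneg _).trans h1
  have he : ((1 - b, b) : ℝ × ℝ) ≠ 0 := fun e => hb.1.ne' (congrArg Prod.snd e)
  have hS : ∀ s : ℝ, 0 < s → s ≤ 4 → ad s b ∈ d.S := fun s h0 h4 =>
    h.memPP (ad_mem_trc ⟨h0.le, h4⟩ (Ioo_subset_Icc_self hb)) (mul_pos h0 (sub_pos.2 hb.2))
      (mul_pos h0 hb.1)
  have key : ∀ τ ∈ Ioo (0 : ℝ) (1 / 2),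
      u (t, ad τ b) - af l₀ l₁ l₂ (t, ad τ b) ≤ 2 * V + 3 * M := by
    intro τ hτ
    have hτ1 : τ < 1 := by linarith [hτ.2]
    obtain ⟨a1, -⟩ := hc.t1 d u F t 0 (1 - b, b) (Icc τ 1) h.gs h.tI he fun x hx => by
      rw [pt_ray]; exact hS x (hτ.1.trans_le hx.1) (by linarith [hx.2])
    simp only [ln_ray] at a1
    have g := green_ok _ _ _ τ 1 (1 / 2) hτ1 a1 ⟨hτ.2.le, by norm_num⟩
    have q0 : ∀ s ∈ Ioo τ 1, 0 ≤ hq u (1 - b, b) (t, ad s b) := fun s hs =>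
      ((h.api hc).hqp _ (h.memU (hS s (hτ.1.trans hs.1) (by linarith [hs.2]))) _ he).1.le
    have i1 : IntegrableOn (fun s => rad u t s b) (Ioo τ 1) :=
      ((continuousOn_id.mul a1.c2).integrableOn_Icc).mono_set Ioo_subset_Icc_self
    have r0 : ∀ s ∈ Ioo τ 1, 0 ≤ rad u t s b := fun s hs =>
      mul_nonneg (hτ.1.trans hs.1).le (q0 s hs)
    have i2 : ∫ s in Ioo τ 1, rad u t s b ≤ V :=
      int_le_of_lint i1 ((ae_restrict_iff' measurableSet_Ioo).2 (Eventually.of_forall r0)) hV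
        ((lintegral_mono_set (Ioo_subset_Ioo hτ.1.le (by norm_num))).trans hI)
    have i3 : ∫ s in Ioo τ 1, green τ 1 (1 / 2) s * hq u (1 - b, b) (t, ad s b) ≤
        ∫ s in Ioo τ 1, rad u t s b := by
      refine integral_mono_of_nonneg ((ae_restrict_iff' measurableSet_Ioo).2
        (Eventually.of_forall fun s hs => mul_nonneg ?_ (q0 s hs))) i1
        ((ae_restrict_iff' measurableSet_Ioo).2 (Eventually.of_forall fun s hs =>
          mul_le_mul_of_nonneg_right ?_ (q0 s hs)))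
      · exact div_nonneg (mul_nonneg (sub_nonneg.2 (le_min hτ.2.le hs.1.le))
          (sub_nonneg.2 (max_le (by norm_num) hs.2.le))) (sub_pos.2 hτ1).le
      · rw [green, div_le_iff₀ (sub_pos.2 hτ1)]
        have m1 : min (1 / 2) s ≤ s := min_le_right _ _
        have m2 : s ≤ max (1 / 2) s := le_max_right _ _
        have m3 : τ ≤ min (1 / 2) s := le_min hτ.2.le hs.1.le
        have m4 : max (1 / 2) s ≤ 1 := max_le (by norm_num) hs.2.le
        exact mul_le_mul (by linarith [hτ.1]) (by linarith [hs.1]) (by linarith)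
          (hτ.1.trans hs.1).le
    have g2 := (g.le.trans i3).trans i2
    rw [chord, sub_le_iff_le_add, div_le_iff₀ (sub_pos.2 hτ1)] at g2
    have e : (1 - 1 / 2) * af l₀ l₁ l₂ (t, ad τ b) + (1 / 2 - τ) * af l₀ l₁ l₂ (t, ad 1 b) =
        af l₀ l₁ l₂ (t, ad (1 / 2) b) * (1 - τ) := by
      simp only [af, ad]; ring
    obtain ⟨p1, -⟩ := abs_le.1 h1
    obtain ⟨-, p2⟩ := abs_le.1 h2
    have := hτ.1
    have := hτ.2
    nlinarith [mul_nonneg (show 0 ≤ 1 / 2 - τ by linarith)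
        (show 0 ≤ u (t, ad 1 b) - af l₀ l₁ l₂ (t, ad 1 b) + M by linarith),
      mul_nonneg (show 0 ≤ 1 - τ by linarith)
        (show 0 ≤ M - (u (t, ad (1 / 2) b) - af l₀ l₁ l₂ (t, ad (1 / 2) b)) by linarith),
      mul_nonneg hτ.1.le hV, mul_nonneg hτ.1.le hM]
  have cad : Continuous fun s : ℝ => ((t, ad s b) : X) := by unfold ad; fun_prop
  have c1 : ContinuousOn (fun s : ℝ => u (t, ad s b) - af l₀ l₁ l₂ (t, ad s b)) (Icc 0 (1 / 2)) := by
    refine (h.gs.cont.comp cad.continuousOn fun s hs => ⟨h.tI, memSc h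
      (ad_mem_trc ⟨hs.1, by linarith [hs.2]⟩ (Ioo_subset_Icc_self hb))⟩).sub ?_
    unfold af ad; fun_prop
  have cl : (0 : ℝ) ∈ closure (Ioo (0 : ℝ) (1 / 2)) := by
    rw [closure_Ioo (by norm_num)]; exact ⟨le_rfl, by norm_num⟩
  exact le_on_closure key (by rwa [closure_Ioo (by norm_num)]) continuousOn_const cl

end PPf

open PPf in
theorem ppf_ok (hc : Core) : StPPf := by
  intro V ε hV hε
  obtain ⟨M₀, hM₀⟩ := (isCompact_trc 4).exists_bound_of_continuousOn cont_mm.continuousOn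
  have hM0 : 0 ≤ M₀ := (norm_nonneg _).trans (hM₀ 0 (by norm_num [trc]))
  obtain ⟨e, he0, he1, he2⟩ : ∃ e : ℝ, 0 < e ∧ e ≤ 1 ∧ e ≤ ε / 2 :=
    ⟨min 1 (ε / 2), lt_min one_pos (half_pos hε), min_le_left _ _, min_le_right _ _⟩
  obtain ⟨κ, hκ, hu⟩ := Metric.uniformContinuousOn_iff_le.1
    ((isCompact_trc 4).uniformContinuousOn_of_continuous cont_mm.continuousOn) (e / 8)
    (by positivity)
  obtain ⟨B, hB⟩ : ∃ B, B = 2 * V + 4 * (M₀ + 1) := ⟨_, rfl⟩
  have hB0 : 0 < B := by rw [hB]; positivity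
  obtain ⟨η, η0, η1, η2⟩ : ∃ η : ℝ, 0 < η ∧ η ≤ 1 / 100 ∧ η ≤ ε / (32 * B ^ 2) :=
    ⟨min (1 / 100) (ε / (32 * B ^ 2)), lt_min (by norm_num) (by positivity), min_le_left _ _,
      min_le_right _ _⟩
  obtain ⟨δ, δ0, δ1, δ2, δ3⟩ : ∃ δ : ℝ, 0 < δ ∧ δ ≤ η ∧ δ ≤ e / 8 ∧ δ ≤ κ / 3 :=
    ⟨min η (min (e / 8) (κ / 3)), lt_min η0 (lt_min (by positivity) (by positivity)),
      min_le_left _ _, (min_le_right _ _).trans (min_le_left _ _),
      (min_le_right _ _).trans (min_le_right _ _)⟩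
  refine ⟨η, δ, η0, η1, δ0, fun d u F t l₀ l₁ l₂ b₀ G h hG hg hb₀ hI => ?_⟩
  have sub3 : Icc (3 * η) 3 ⊆ Icc (0 : ℝ) 4 := Icc_subset_Icc (by positivity) (by norm_num)
  have near : ∀ b ∈ Ioo (0 : ℝ) 1, ∀ s ∈ Icc (4 * η) (5 / 2),
      |u (t, ad s b) - af l₀ l₁ l₂ (t, ad s b) - mm (ad s b)| ≤ e := by
    intro b hb s hs
    have := fill1_ok.1 _ (fun s => mm (ad s b)) G (3 * η) 3 δ δ (e / 8) δ0
      ((cvx_ray hc h l₀ l₁ l₂ hb).subset sub3 (convex_Icc _ _))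
      (fun x hx x' hx' hd => by
        rw [← Real.dist_eq]
        exact hu _ (ad_mem_trc (sub3 hx) (Ioo_subset_Icc_self hb)) _
          (ad_mem_trc (sub3 hx') (Ioo_subset_Icc_self hb)) ((dist_ad hb).trans (by linarith)))
      ((measure_mono (sdiff_subset_sdiff_left fun x hx =>
        (⟨by linarith [hx.1], by linarith [hx.2]⟩ : x ∈ Ioo η 4))).trans_lt hG)
      (fun x hx => by
        have := hg x hx.2 hx.1 b hb
        rw [wv_eq] at this
        rwa [sub_right_comm])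
      s ⟨by linarith [hs.1], by linarith [hs.2]⟩
    linarith
  have bd : ∀ b ∈ Ioo (0 : ℝ) 1, ∀ s ∈ Icc (4 * η) (5 / 2),
      |u (t, ad s b) - af l₀ l₁ l₂ (t, ad s b)| ≤ M₀ + 1 := by
    intro b hb s hs
    have a1 := abs_le.1 (near b hb s hs)
    have a2 := abs_le.1 (hM₀ _ (ad_mem_trc (R := 4) (s := s) ⟨by linarith [hs.1], by linarith [hs.2]⟩
      (Ioo_subset_Icc_self hb)))
    rw [abs_le]; constructor <;> linarith [a1.1, a1.2, a2.1, a2.2]
  have m1 : (1 : ℝ) ∈ Icc (4 * η) (5 / 2) := ⟨by linarith, by norm_num⟩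
  have m2 : (2 : ℝ) ∈ Icc (4 * η) (5 / 2) := ⟨by linarith, by norm_num⟩
  have m3 : (1 / 2 : ℝ) ∈ Icc (4 * η) (5 / 2) := ⟨by linarith, by norm_num⟩
  have v0 := vertex hc h l₀ l₁ l₂ hb₀ hV.le hI (bd b₀ hb₀ 1 m1) (bd b₀ hb₀ _ m3)
  have small : ∀ b ∈ Ioo (0 : ℝ) 1, ∀ s ∈ Icc (0 : ℝ) 1,
      |u (t, ad s b) - af l₀ l₁ l₂ (t, ad s b)| ≤ 2 * V + 3 * (M₀ + 1) := by
    intro b hb s hs
    have c := cvx_ray hc h l₀ l₁ l₂ hb
    have a1 := abs_le.1 (bd b hb 1 m1)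
    have a2 := abs_le.1 (bd b hb 2 m2)
    have e0 : ad 0 b = ad 0 b₀ := by simp [ad]
    have up := c.le_max_of_mem_Icc (x := 0) (y := 1) (z := s) ⟨le_rfl, by norm_num⟩
      ⟨by norm_num, by norm_num⟩ hs
    have h2 : 0 < 2 - s := by linarith [hs.2]
    have lo := c.2 (show s ∈ Icc (0 : ℝ) 4 from ⟨hs.1, by linarith [hs.2]⟩)
      (show (2 : ℝ) ∈ Icc (0 : ℝ) 4 from ⟨by norm_num, by norm_num⟩)
      (show (0 : ℝ) ≤ 1 / (2 - s) by positivity)
      (show (0 : ℝ) ≤ (1 - s) / (2 - s) from div_nonneg (by linarith [hs.2]) h2.le)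
      (by field_simp; ring)
    have e1 : (1 / (2 - s)) • s + ((1 - s) / (2 - s)) • (2 : ℝ) = 1 := by
      simp only [smul_eq_mul]; field_simp; ring
    rw [e1] at lo
    simp only [smul_eq_mul] at lo
    rw [div_mul_eq_mul_div, div_mul_eq_mul_div, ← add_div, le_div_iff₀ h2] at lo
    rw [abs_le]
    constructor
    · nlinarith [mul_nonneg h2.le (show 0 ≤ u (t, ad 1 b) - af l₀ l₁ l₂ (t, ad 1 b) + (M₀ + 1) by
          linarith [a1.1]),
        mul_nonneg (show 0 ≤ 1 - s by linarith [hs.2])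
          (show 0 ≤ M₀ + 1 - (u (t, ad 2 b) - af l₀ l₁ l₂ (t, ad 2 b)) by linarith [a2.2]),
        mul_nonneg hs.1 hM0, hs.1]
    · refine up.trans (max_le ?_ (by linarith [a1.2]))
      show u (t, ad 0 b) - af l₀ l₁ l₂ (t, ad 0 b) ≤ _
      rw [e0]; exact v0
  have mq : ∀ r, MeasurableSet (qo r) := fun r => (isOpen_qo r).measurableSet
  have vq : ∀ r : ℝ, 0 ≤ r → volume.real (qo r) = r * r := fun r hr => by
    rw [qo, Measure.volume_eq_prod, measureReal_prod_prod, Real.volume_real_Ioo_of_le hr, sub_zero]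
  have fq : ∀ r, volume (qo r) ≠ ⊤ := fun r =>
    ((measure_mono (Set.prod_mono Ioo_subset_Icc_self Ioo_subset_Icc_self)).trans_lt
      (isCompact_qc r).measure_lt_top).ne
  rw [bxPP, one_pow]
  have ic : ∀ c : ℝ, IntegrableOn (fun _ : ℝ × ℝ => c) (qo 1) := fun c => integrableOn_const (fq 1)
  have pt : ∀ y ∈ qo 1, (wv tPP u (t, y) - af l₀ l₁ l₂ (t, y)) ^ 2 ≤
      ε / 2 + (qo (4 * η)).indicator (fun _ => B ^ 2) y := by
    intro y hy
    have s0 : 0 < y.1 + y.2 := add_pos hy.1.1 hy.2.1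
    have hb : y.2 / (y.1 + y.2) ∈ Ioo (0 : ℝ) 1 :=
      ⟨div_pos hy.2.1 s0, (div_lt_one s0).2 (by linarith [hy.1.1])⟩
    have ey : ad (y.1 + y.2) (y.2 / (y.1 + y.2)) = y := by
      ext <;> simp only [ad] <;> field_simp
      ring
    rw [wv_eq, sub_right_comm]
    rcases le_or_gt (4 * η) (y.1 + y.2) with k | k
    · have a := near _ hb _ ⟨k, by linarith [hy.1.2, hy.2.2]⟩
      rw [ey] at a
      have a2 := pow_le_pow_left₀ (abs_nonneg _) a 2
      rw [sq_abs] at a2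
      have : 0 ≤ (qo (4 * η)).indicator (fun _ => B ^ 2) y :=
        indicator_nonneg (fun _ _ => sq_nonneg _) _
      nlinarith
    · have hy' : y ∈ qo (4 * η) :=
        ⟨⟨hy.1.1, by linarith [hy.2.1]⟩, hy.2.1, by linarith [hy.1.1]⟩
      rw [indicator_of_mem hy']
      have a := small _ hb _ ⟨s0.le, by linarith⟩
      rw [ey] at a
      have a1 := abs_le.1 a
      have a2 := abs_le.1 (hM₀ y ⟨hy.1.1.le, hy.2.1.le, by linarith⟩)
      have a3 : |u (t, y) - af l₀ l₁ l₂ (t, y) - mm y| ≤ B := by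
        rw [abs_le, hB]; constructor <;> linarith [a1.1, a1.2, a2.1, a2.2]
      have a4 := pow_le_pow_left₀ (abs_nonneg _) a3 2
      rw [sq_abs] at a4
      linarith
  refine (integral_mono_of_nonneg (Eventually.of_forall fun _ => sq_nonneg _)
    ((ic _).add ((ic _).indicator (mq _)))
    ((ae_restrict_iff' (mq 1)).2 (Eventually.of_forall pt))).trans ?_
  rw [integral_add' (ic _) ((ic _).indicator (mq _)), setIntegral_const,
    integral_indicator_const _ (mq _), vq 1 zero_le_one, measureReal_restrict_apply (mq _)]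
  have k1 : volume.real (qo (4 * η) ∩ qo 1) ≤ 4 * η * (4 * η) := by
    rw [← vq _ (by positivity)]
    exact measureReal_mono inter_subset_left (fq _)
  have k2 : η * (32 * B ^ 2) ≤ ε := (le_div_iff₀ (by positivity)).1 η2
  simp only [smul_eq_mul]
  have k3 := mul_le_mul_of_nonneg_right k1 (sq_nonneg B)
  nlinarith [mul_nonneg η0.le (sq_nonneg B)]

end Pool.Agent.P.MP_2cea5e_gt.I.S4
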