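import Pool.Agent.P.MP_2cea5e_gt.I.S.Tool2

/-!
Chapter I, section 2: on the good antidiagonals the difference to the model is almost affine.
-/

open scoped ContDiff Topology ENNReal
open MeasureTheory Set Filter

noncomputable section

set_option linter.dupNamespace false

namespace Pool.Agent.P.MP_2cea5e_gt.I.S4

namespace PPg

/-- A derivative that is small off a small set and bounded everywhere. -/
theorem bad {f f' : ℝ → ℝ} {G : Set ℝ} {a b ε M γ : ℝ} (hε : 0 ≤ ε) (hM : 0 ≤ M) (hγ : 0 ≤ γ)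
    (hd : ∀ x ∈ Icc a b, HasDerivAt f (f' x) x) (hc : ContinuousOn f' (Icc a b))
    (h1 : ∀ x ∈ Icc a b, |f' x| ≤ M) (h2 : ∀ x ∈ Icc a b, x ∈ G → |f' x| ≤ ε)
    (hv : volume (Icc a b \ G) ≤ ENNReal.ofReal γ) {x : ℝ} (hx : x ∈ Icc a b) :
    |f x - f a| ≤ ε * (b - a) + M * γ := by
  set B := toMeasurable volume (Icc a b \ G) with hB
  have mB : MeasurableSet B := measurableSet_toMeasurable _ _
  have vB : volume B ≤ ENNReal.ofReal γ := by rw [hB, measure_toMeasurable]; exact hv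
  have fB : volume B ≠ ⊤ := (vB.trans_lt ENNReal.ofReal_lt_top).ne
  have hs : Icc a x ⊆ Icc a b := Icc_subset_Icc le_rfl hx.2
  have i1 : IntervalIntegrable f' volume a x := (hc.mono hs).intervalIntegrable_of_Icc hx.1
  have e := intervalIntegral.integral_eq_sub_of_hasDerivAt (f := f) (f' := f') (a := a) (b := x)
    (fun y hy => hd y (hs (by rwa [uIcc_of_le hx.1] at hy))) i1
  have iB : Integrable (B.indicator fun _ : ℝ => M) volume :=
    (integrable_indicator_iff mB).2 (integrableOn_const fB)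
  have i2 : IntervalIntegrable (fun y => ε + B.indicator (fun _ : ℝ => M) y) volume a x :=
    intervalIntegrable_const.add iB.intervalIntegrable
  have b1 : ‖∫ y in a..x, f' y‖ ≤ ∫ y in a..x, (ε + B.indicator (fun _ : ℝ => M) y) := by
    refine intervalIntegral.norm_integral_le_of_norm_le hx.1 (Eventually.of_forall fun y hy => ?_) i2
    have hy' : y ∈ Icc a b := hs ⟨hy.1.le, hy.2⟩
    rw [Real.norm_eq_abs]
    by_cases hG : y ∈ G
    · have := h2 y hy' hG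
      have h0 : 0 ≤ B.indicator (fun _ : ℝ => M) y := indicator_nonneg (fun _ _ => hM) y
      linarith
    · have hyB : y ∈ B := subset_toMeasurable _ _ ⟨hy', hG⟩
      rw [indicator_of_mem hyB]
      linarith [h1 y hy']
  have b2 : ∫ y in a..x, B.indicator (fun _ : ℝ => M) y ≤ M * γ := by
    rw [intervalIntegral.integral_of_le hx.1]
    have h3 : ∫ y in Ioc a x, B.indicator (fun _ : ℝ => M) y ≤
        ∫ y, B.indicator (fun _ : ℝ => M) y :=
      setIntegral_le_integral iB (Eventually.of_forall (indicator_nonneg fun _ _ => hM))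
    refine h3.trans ?_
    rw [integral_indicator_const _ mB, smul_eq_mul, mul_comm]
    refine mul_le_mul_of_nonneg_left ?_ hM
    exact ENNReal.toReal_le_of_le_ofReal hγ vB
  rw [intervalIntegral.integral_add intervalIntegrable_const iB.intervalIntegrable,
    intervalIntegral.integral_const, smul_eq_mul, e, Real.norm_eq_abs] at b1
  have b3 : (x - a) * ε ≤ ε * (b - a) := by nlinarith [hx.2]
  linarith

/-- The first derivative along a cheap line parallel to an edge. -/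
theorem line1 {h m' m'' Fl f : ℝ → ℝ} {G : Set ℝ} {η γ c : ℝ} (hη : 0 < η) (hη1 : η ≤ 1 / 100)
    (hγ : 0 < γ) (hγ1 : γ ≤ 1 / 3) (hc : c ∈ Icc η (2 * η))
    (hp : ∀ x ∈ Ioc (0 : ℝ) (7 / 2), 0 < h x)
    (hm : C2On (fun x => (h x)⁻¹) m' m'' (Ioc 0 (7 / 2)))
    (hF : ∀ x ∈ Ioc (0 : ℝ) (7 / 2), m'' x ≤ Fl x) (hch : Cheap Fl 0 (7 / 2) (1 / 2))
    (hv : volume (Ioo η 4 \ G) < ENNReal.ofReal γ)
    (hg : ∀ x ∈ Ioc (0 : ℝ) (7 / 2), x + c ∈ G → |x * h x - 1| ≤ γ)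
    (hd : ∀ x ∈ Ioc (0 : ℝ) (7 / 2), HasDerivAt f (h x - x⁻¹) x)
    (hcn : ContinuousOn (fun x => h x - x⁻¹) (Ioc 0 (7 / 2))) :
    ∀ x ∈ Icc η 3, |f x - f η| ≤ 6 * (γ / η) := by
  obtain ⟨s₀, hs₀, hG⟩ := exists_good (a := 3 + c) hv
    (fun x hx => ⟨by linarith [hx.1, hc.1], by linarith [hx.2, hc.2]⟩)
  set x₀ := s₀ - c with hx₀
  have a1 : 3 < x₀ := by linarith [hs₀.1]
  have a2 : x₀ ≤ 7 / 2 := by linarith [hs₀.2]
  have m0 : x₀ ∈ Ioc (0 : ℝ) (7 / 2) := ⟨by linarith, a2⟩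
  have sub : Ioc (0 : ℝ) x₀ ⊆ Ioc 0 (7 / 2) := Ioc_subset_Ioc le_rfl a2
  have g0 := abs_le.1 (hg x₀ m0 (by rw [hx₀, sub_add_cancel]; exact hG))
  have p0 := hp x₀ m0
  have up : ∀ x ∈ Ioc (0 : ℝ) x₀, h x ≤ 4 / x := fun x hx => by
    have k := conc_ok.2.1 _ m' m'' Fl 0 x₀ (1 / 2) x m0.1 (Line.c2_mono hm sub)
      (Line.cheap_mono hch le_rfl a2) (fun s hs => hF s (sub ⟨hs.1, hs.2.le⟩))
      (fun s hs => (inv_pos.2 (hp s (sub ⟨hs.1, hs.2.le⟩))).le) hx
    simp only [sub_zero] at k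
    have k1 : 3 / 4 ≤ (h x₀)⁻¹ / x₀ := by
      rw [le_div_iff₀ m0.1, le_inv_comm₀ (by linarith) p0, inv_eq_one_div,
        le_div_iff₀ (by linarith)]
      linarith [g0.2]
    have k2 : x / 4 ≤ (h x)⁻¹ := by nlinarith [hx.1]
    have px := hp x (sub hx)
    rw [le_inv_comm₀ (by linarith [hx.1]) px, inv_div] at k2
    exact k2
  have sub2 : Icc η 3 ⊆ Ioc (0 : ℝ) x₀ := fun x hx => ⟨hη.trans_le hx.1, hx.2.trans a1.le⟩
  intro x hx
  have k := bad (f := f) (f' := fun x => h x - x⁻¹) (G := (fun y => y + c) ⁻¹' G) (a := η) (b := 3)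
    (ε := γ / η) (M := 3 / η) (γ := γ) (by positivity) (by positivity) hγ.le
    (fun y hy => hd y (sub (sub2 hy))) (hcn.mono (sub2.trans sub))
    (fun y hy => by
      have y0 : 0 < y := (sub2 hy).1
      have u1 := up y (sub2 hy)
      have u2 := hp y (sub (sub2 hy))
      have u3 : y⁻¹ ≤ η⁻¹ := inv_anti₀ hη hy.1
      have u4 : 0 < y⁻¹ := inv_pos.2 y0
      rw [div_eq_mul_inv] at u1 ⊢
      rw [abs_le]; constructor <;> linarith)
    (fun y hy hyG => by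
      have y0 : 0 < y := (sub2 hy).1
      have u1 := hg y (sub (sub2 hy)) hyG
      have e : h y - y⁻¹ = (y * h y - 1) / y := by field_simp
      rw [e, abs_div, abs_of_pos y0]
      exact div_le_div₀ hγ.le u1 hη hy.1)
    (by
      have s : Icc η 3 \ (fun y => y + c) ⁻¹' G ⊆ (fun y => y + c) ⁻¹' (Ioo η 4 \ G) :=
        fun y hy => ⟨⟨by linarith [hy.1.1, hc.1], by linarith [hy.1.2, hc.2]⟩, hy.2⟩
      refine (measure_mono s).trans ?_
      rw [measure_preimage_add_right]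
      exact hv.le) hx
  have k1 : 0 < γ / η := by positivity
  have k2 : 3 / η * γ = 3 * (γ / η) := by ring
  nlinarith

/-- The mean value inequality on a segment of length at most `L`. -/
theorem mv {f f' : ℝ → ℝ} {a b C L : ℝ} (hC : 0 ≤ C) (hL : |b - a| ≤ L)
    (hd : ∀ x ∈ uIcc a b, HasDerivAt f (f' x) x) (hb : ∀ x ∈ uIcc a b, |f' x| ≤ C) :
    |f b - f a| ≤ C * L := by
  have := (convex_uIcc a b).norm_image_sub_le_of_norm_hasDerivWithin_le (f := f) (f' := f') (C := C)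
    (fun x hx => (hd x hx).hasDerivWithinAt) (fun x hx => hb x hx) left_mem_uIcc right_mem_uIcc
  exact this.trans (mul_le_mul_of_nonneg_left hL hC)

/-- Taylor expansion on `(0,1)` with a second derivative that blows up at the ends. -/
theorem tay {k k' k'' : ℝ → ℝ} {c β b₁ b : ℝ} (hc : 0 ≤ c) (hβ : 0 < β) (h1 : β ≤ b₁)
    (h2 : b₁ ≤ 1 - β) (hb : b ∈ Ioo (0 : ℝ) 1) (hk : C2On k k' k'' (Ioo 0 1))
    (hb2 : ∀ x ∈ Ioo (0 : ℝ) 1, |k'' x| ≤ c * (x⁻¹ + (1 - x)⁻¹)) :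
    |k b| ≤ |k b₁| + |k' b₁| + c * (1 + β⁻¹) := by
  have hb₁ : b₁ ∈ Ioo (0 : ℝ) 1 := ⟨by linarith, by linarith⟩
  have sub : uIcc b₁ b ⊆ Ioo 0 1 := ordConnected_Ioo.uIcc_subset hb₁ hb
  have l1 : |b - b₁| ≤ 1 := by
    rw [abs_le]; constructor <;> linarith [hb.1, hb.2, hb₁.1, hb₁.2]
  have pβ : 0 < β⁻¹ := inv_pos.2 hβ
  have k1 := mv (f := fun x => k x + k' x * (b - x)) (f' := fun x => k'' x * (b - x))
    (a := b₁) (b := b) (C := c * (1 + β⁻¹)) (L := 1) (by positivity) l1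
    (fun x hx => by
      have : HasDerivAt (fun x => k x + k' x * (b - x)) (k' x + (k'' x * (b - x) + k' x * -1)) x :=
        (hk.d1 x (sub hx)).add ((hk.d2 x (sub hx)).mul ((hasDerivAt_id x).const_sub b))
      exact this.congr_deriv (by ring))
    (fun x hx => by
      have hx' := sub hx
      have x0 := hx'.1
      have x1 : 0 < 1 - x := sub_pos.2 hx'.2
      have key : (x⁻¹ + (1 - x)⁻¹) * |b - x| ≤ 1 + β⁻¹ := by
        rcases le_total b₁ b with hl | hl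
        · rw [uIcc_of_le hl] at hx
          rw [abs_of_nonneg (sub_nonneg.2 hx.2), add_mul, add_comm]
          refine add_le_add ?_ ?_
          · rw [inv_mul_le_iff₀ x1]; linarith [hb.2]
          · have : x⁻¹ ≤ β⁻¹ := inv_anti₀ hβ (h1.trans hx.1)
            have h3 : b - x ≤ 1 := by linarith [hb.2]
            calc x⁻¹ * (b - x) ≤ x⁻¹ * 1 := mul_le_mul_of_nonneg_left h3 (inv_pos.2 x0).le
              _ ≤ β⁻¹ := by linarith
        · rw [uIcc_of_ge hl] at hx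
          rw [abs_of_nonpos (sub_nonpos.2 hx.1), add_mul]
          refine add_le_add ?_ ?_
          · rw [inv_mul_le_iff₀ x0]; linarith [hb.1]
          · have : (1 - x)⁻¹ ≤ β⁻¹ := inv_anti₀ hβ (by linarith [hx.2])
            have h3 : -(b - x) ≤ 1 := by linarith [hb.1, hx'.2]
            calc (1 - x)⁻¹ * -(b - x) ≤ (1 - x)⁻¹ * 1 :=
                mul_le_mul_of_nonneg_left h3 (inv_pos.2 x1).le
              _ ≤ β⁻¹ := by linarith
      rw [abs_mul]
      calc |k'' x| * |b - x| ≤ c * (x⁻¹ + (1 - x)⁻¹) * |b - x| :=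
          mul_le_mul_of_nonneg_right (hb2 x hx') (abs_nonneg _)
        _ = c * ((x⁻¹ + (1 - x)⁻¹) * |b - x|) := by ring
        _ ≤ _ := mul_le_mul_of_nonneg_left key hc)
  simp only [sub_self, mul_zero, add_zero, mul_one] at k1
  have k2 : |k' b₁ * (b - b₁)| ≤ |k' b₁| := by
    rw [abs_mul]; exact mul_le_of_le_one_right (abs_nonneg _) l1
  have k3 := abs_add_le (k b₁) (k' b₁ * (b - b₁))
  have k4 := abs_add_le (k b - (k b₁ + k' b₁ * (b - b₁))) (k b₁ + k' b₁ * (b - b₁))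
  rw [sub_add_cancel] at k4
  linarith

variable {d : Dm} {u F : X → ℝ} {t : ℝ}

theorem ad_memS (h : SK tPP (trc 4) d u F t) {s b : ℝ} (h0 : 0 < s) (h4 : s ≤ 4)
    (hb : b ∈ Ioo (0 : ℝ) 1) : ad s b ∈ d.S :=
  h.memPP (ad_mem_trc ⟨h0.le, h4⟩ ⟨hb.1.le, hb.2.le⟩) (mul_pos h0 (sub_pos.2 hb.2))
    (mul_pos h0 hb.1)

/-- The second partial derivative of `w` along the middle part of a good antidiagonal. -/
theorem anti2 (hc : Core) (h : SK tPP (trc 4) d u F t) {s η γ : ℝ} (hη : 0 < η) (hγ : 0 < γ)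
    (h0 : 0 < s) (h3 : s ≤ 3) (hn : ∀ b ∈ Ioo (0 : ℝ) 1, NE tPP u γ (t, ad s b)) {b b' : ℝ}
    (hb : η ≤ s * b ∧ η ≤ s * (1 - b)) (hb' : η ≤ s * b' ∧ η ≤ s * (1 - b')) :
    |D e2 (wv tPP u) (t, ad s b') - D e2 (wv tPP u) (t, ad s b)| ≤ 6 * (γ / η) := by
  have ha := h.api hc
  have io : ∀ x : ℝ, η ≤ s * x ∧ η ≤ s * (1 - x) → x ∈ Ioo (0 : ℝ) 1 := fun x hx =>
    ⟨(mul_pos_iff_of_pos_left h0).1 (hη.trans_le hx.1),
      sub_pos.1 ((mul_pos_iff_of_pos_left h0).1 (hη.trans_le hx.2))⟩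
  have mid : ∀ x ∈ uIcc b b', η ≤ s * x ∧ η ≤ s * (1 - x) := fun x hx => by
    rcases le_total b b' with hl | hl
    · rw [uIcc_of_le hl] at hx
      constructor <;> nlinarith [hx.1, hx.2, hb.1, hb'.2]
    · rw [uIcc_of_ge hl] at hx
      constructor <;> nlinarith [hx.1, hx.2, hb.2, hb'.1]
  obtain ⟨-, -, a3, -⟩ := hc.t1 d u F t (s, 0) (-s, s) (Ioo 0 1) h.gs h.tI
    (fun e => h0.ne' (congrArg Prod.snd e)) (fun x hx => by
      rw [pt_ad]; exact ad_memS h h0 (by linarith) hx)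
  simp only [ln_ad] at a3
  have q : ∀ x ∈ Ioo (0 : ℝ) 1, D e2 (wv tPP u) (t, ad s x) =
      D e2 u (t, ad s x) - (Real.log (s * x) + 1) := fun x hx => by
    have := ha.q2 _ (h.memU (ad_memS h h0 (by linarith) hx))
    rw [h.ty] at this
    rw [this]; simp [ad]
  have l1 : |b' - b| ≤ 1 := by
    rw [abs_le]; constructor <;> linarith [(io b hb).1, (io b hb).2, (io b' hb').1, (io b' hb').2]
  have k := mv (f := fun x => D e2 u (t, ad s x) - (Real.log (s * x) + 1))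
    (f' := fun x => I.hb u (-s, s) (0, 1) (t, ad s x) - s / (s * x)) (a := b) (b := b')
    (C := 6 * (γ / η)) (L := 1) (by positivity) l1
    (fun x hx => by
      have hx' := io x (mid x hx)
      have d1 : HasDerivAt (fun x => s * x) s x := by simpa using (hasDerivAt_id x).const_mul s
      exact (a3 (0, 1) x hx').sub ((d1.log (mul_pos h0 hx'.1).ne').add_const 1))
    (fun x hx => by
      have hm := mid x hx
      have hx' := io x hm
      obtain ⟨-, n2, n3⟩ := hn x hx'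
      have e1 : o1 tPP (t, ad s x) = s * (1 - x) := rfl
      have e2 : o2 tPP (t, ad s x) = s * x := rfl
      rw [e1, e2] at n3
      rw [e2] at n2
      have r1 : η ≤ √(s * (1 - x) * (s * x)) := by
        refine Real.le_sqrt_of_sq_le ?_
        rw [sq]; exact mul_le_mul hm.2 hm.1 hη.le (hη.le.trans hm.2)
      have r2 : |h12 u (t, ad s x)| ≤ γ / η := by
        rw [le_div_iff₀ hη, mul_comm]
        exact (mul_le_mul_of_nonneg_right r1 (abs_nonneg _)).trans n3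
      have y0 : 0 < s * x := mul_pos h0 hx'.1
      have r3 : |h22 u (t, ad s x) - (s * x)⁻¹| ≤ γ / η := by
        have e : h22 u (t, ad s x) - (s * x)⁻¹ = (s * x * h22 u (t, ad s x) - 1) / (s * x) := by
          rw [sub_div, mul_div_cancel_left₀ _ y0.ne', one_div]
        rw [e, abs_div, abs_of_pos y0]
        exact div_le_div₀ hγ.le n2 hη hm.1
      have e : I.hb u (-s, s) (0, 1) (t, ad s x) - s / (s * x) =
          s * ((h22 u (t, ad s x) - (s * x)⁻¹) - h12 u (t, ad s x)) := by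
        rw [hb_eq, div_eq_mul_inv]; ring
      rw [e, abs_mul, abs_of_pos h0]
      have r4 := abs_sub (h22 u (t, ad s x) - (s * x)⁻¹) (h12 u (t, ad s x))
      have r5 : 0 < γ / η := by positivity
      calc s * |h22 u (t, ad s x) - (s * x)⁻¹ - h12 u (t, ad s x)| ≤ 3 * (2 * (γ / η)) :=
          mul_le_mul h3 (by linarith) (abs_nonneg _) (by norm_num)
        _ = _ := by ring)
  rw [q b (io b hb), q b' (io b' hb')]
  simpa using k

/-- The function `w` along a good antidiagonal. -/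
theorem anti0 (hc : Core) (h : SK tPP (trc 4) d u F t) {s γ : ℝ}
    (h0 : 0 < s) (h3 : s ≤ 3) (hn : ∀ b ∈ Ioo (0 : ℝ) 1, NE tPP u γ (t, ad s b)) :
    ∃ k'' : ℝ → ℝ, C2On (fun b => wv tPP u (t, ad s b))
      (fun b => s * (D e2 (wv tPP u) (t, ad s b) - D e1 (wv tPP u) (t, ad s b))) k'' (Ioo 0 1) ∧
      ∀ x ∈ Ioo (0 : ℝ) 1, |k'' x| ≤ 6 * γ * (x⁻¹ + (1 - x)⁻¹) := by
  obtain ⟨-, a2, -⟩ := hc.t1 d u F t (s, 0) (-s, s) (Ioo 0 1) h.gs h.tI
    (fun e => h0.ne' (congrArg Prod.snd e)) (fun x hx => by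
      rw [pt_ad]; exact ad_memS h h0 (by linarith) hx)
  simp only [ln_ad, h.ty] at a2
  have e0 : (fun b => D (sv (-s, s)) (wv tPP u) (t, ad s b)) =
      fun b => s * (D e2 (wv tPP u) (t, ad s b) - D e1 (wv tPP u) (t, ad s b)) := by
    funext b; rw [D_sv]; ring
  rw [e0] at a2
  refine ⟨_, a2, fun x hx => ?_⟩
  obtain ⟨n1, n2, n3⟩ := hn x hx
  have e1 : o1 tPP (t, ad s x) = s * (1 - x) := rfl
  have e2 : o2 tPP (t, ad s x) = s * x := rfl
  have x0 := hx.1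
  have x1 : 0 < 1 - x := sub_pos.2 hx.2
  rw [hq_eq, hq0, e1, e2]
  rw [e1] at n1 n3
  rw [e2] at n2 n3
  set A := h11 u (t, ad s x)
  set B := h12 u (t, ad s x)
  set C := h22 u (t, ad s x)
  have e : A * (-s) ^ 2 + 2 * B * -s * s + C * s ^ 2 - ((-s) ^ 2 / (s * (1 - x)) + s ^ 2 / (s * x)) =
      s * ((s * (1 - x) * A - 1) * (1 - x)⁻¹ + (s * x * C - 1) * x⁻¹ - 2 * s * B) := by
    field_simp; ring
  change |A * (-s) ^ 2 + 2 * B * -s * s + C * s ^ 2 -
    ((-s) ^ 2 / (s * (1 - x)) + s ^ 2 / (s * x))| ≤ _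
  rw [e, abs_mul, abs_of_pos h0]
  have i0 := inv_pos.2 x0
  have i1 := inv_pos.2 x1
  have r1 : |(s * (1 - x) * A - 1) * (1 - x)⁻¹| ≤ γ * (1 - x)⁻¹ := by
    rw [abs_mul, abs_of_pos i1]; exact mul_le_mul_of_nonneg_right n1 i1.le
  have r2 : |(s * x * C - 1) * x⁻¹| ≤ γ * x⁻¹ := by
    rw [abs_mul, abs_of_pos i0]; exact mul_le_mul_of_nonneg_right n2 i0.le
  have r3 : |2 * s * B| ≤ γ * (x⁻¹ + (1 - x)⁻¹) := by
    have p : 0 < s * (1 - x) * (s * x) := by positivity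
    have q1 : 2 * s * (x * (1 - x)) ≤ √(s * (1 - x) * (s * x)) := by
      refine Real.le_sqrt_of_sq_le ?_
      have : 4 * (x * (1 - x)) ≤ 1 := by nlinarith [sq_nonneg (2 * x - 1)]
      have p2 : 0 ≤ s ^ 2 * (x * (1 - x)) := by positivity
      nlinarith
    have q2 : x⁻¹ + (1 - x)⁻¹ = (x * (1 - x))⁻¹ := by field_simp; ring
    rw [q2, ← div_eq_mul_inv, le_div_iff₀ (mul_pos x0 x1), abs_mul, abs_of_pos (by positivity)]
    calc 2 * s * |B| * (x * (1 - x)) = 2 * s * (x * (1 - x)) * |B| := by ring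
      _ ≤ _ := (mul_le_mul_of_nonneg_right q1 (abs_nonneg _)).trans n3
  have r4 := abs_sub ((s * (1 - x) * A - 1) * (1 - x)⁻¹ + (s * x * C - 1) * x⁻¹) (2 * s * B)
  have r5 := abs_add_le ((s * (1 - x) * A - 1) * (1 - x)⁻¹) ((s * x * C - 1) * x⁻¹)
  calc _ ≤ 3 * (2 * (γ * (x⁻¹ + (1 - x)⁻¹))) :=
      mul_le_mul h3 (by linarith) (abs_nonneg _) (by norm_num)
    _ = _ := by ring

theorem ad_h {x c : ℝ} (h : x + c ≠ 0) : ad (x + c) (c / (x + c)) = (x, c) := by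
  ext <;> simp only [ad] <;> field_simp
  ring
theorem ad_v {x c : ℝ} (h : x + c ≠ 0) : ad (x + c) (x / (x + c)) = (c, x) := by
  ext <;> simp only [ad] <;> field_simp
  ring

end PPg

open PPg

theorem ppg_ok (hc : Core) : StPPg := by
  intro η δ hη hη1 hδ
  refine ⟨min (δ * η / 100) (1 / 3), by positivity, ?_⟩
  set γ := min (δ * η / 100) (1 / 3) with hγd
  have hγ : 0 < γ := by positivity
  have hγ1 : γ ≤ 1 / 3 := min_le_right _ _
  have hγ2 : γ / η ≤ δ / 100 := by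
    rw [div_le_iff₀ hη]
    exact (min_le_left _ _).trans (le_of_eq (by ring))
  intro d u F t h₁ h₂ G h hv hn m1 m2 c1 c2
  have p1 : 0 < h₁ := hη.trans_le m1.1
  have p2 : 0 < h₂ := hη.trans_le m2.1
  have s1 : ∀ x ∈ Ioc (0 : ℝ) (7 / 2), ((x, h₂) : ℝ × ℝ) ∈ d.S := fun x hx =>
    h.memPP ⟨hx.1.le, p2.le, by linarith [hx.2, m2.2]⟩ hx.1 p2
  have s2 : ∀ x ∈ Ioc (0 : ℝ) (7 / 2), ((h₁, x) : ℝ × ℝ) ∈ d.S := fun x hx =>
    h.memPP ⟨p1.le, hx.1.le, by linarith [hx.2, m1.2]⟩ p1 hx.1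
  have H := hl hc h.gs h.tI s1
  have V := vl hc h.gs h.tI s2
  have Hw := H.cw
  have Vw := V.cw
  rw [h.ty] at Hw Vw
  obtain ⟨m', m'', a1, a2⟩ := H.m
  obtain ⟨n', n'', b1, b2⟩ := V.m
  have k1 := line1 (f := fun x => D e1 (wv tPP u) (t, x, h₂)) hη hη1 hγ hγ1 m2
    (fun x hx => h.gs.p11 _ (h.memU (s1 x hx))) a1 a2 c2 hv
    (fun x hx hG => by
      have p : 0 < x + h₂ := by linarith [hx.1]
      have := (hn _ hG ⟨by linarith [hx.1, m2.1], by linarith [hx.2, m2.2]⟩ (h₂ / (x + h₂))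
        ⟨by positivity, (div_lt_one p).2 (by linarith [hx.1])⟩).1
      rw [ad_h p.ne'] at this
      exact this) Hw.d2 Hw.c2
  have k2 := line1 (f := fun x => D e2 (wv tPP u) (t, h₁, x)) hη hη1 hγ hγ1 m1
    (fun x hx => (h.api hc).p22 _ (h.memU (s2 x hx))) b1 b2 c1 hv
    (fun x hx hG => by
      have p : 0 < x + h₁ := by linarith [hx.1]
      have := (hn _ hG ⟨by linarith [hx.1, m1.1], by linarith [hx.2, m1.2]⟩ (x / (x + h₁))
        ⟨div_pos hx.1 p, (div_lt_one p).2 (by linarith)⟩).2.1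
      rw [ad_v p.ne'] at this
      exact this) Vw.d2 Vw.c2
  set l₁ := D e1 (wv tPP u) (t, η, h₂)
  set l₂ := D e2 (wv tPP u) (t, h₁, η)
  set κ := γ / η with hκ
  have κ0 : 0 < κ := by positivity
  have k3 : ∀ x ∈ Icc η 3,
      |wv tPP u (t, x, h₂) - l₁ * x - (wv tPP u (t, η, h₂) - l₁ * η)| ≤ 6 * κ * 3 := fun x hx => by
    have sub : uIcc η x ⊆ Icc η 3 := by rw [uIcc_of_le hx.1]; exact Icc_subset_Icc le_rfl hx.2
    refine PPg.mv (f := fun x => wv tPP u (t, x, h₂) - l₁ * x)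
      (f' := fun x => D e1 (wv tPP u) (t, x, h₂) - l₁) (by positivity)
      (by rw [abs_of_nonneg (sub_nonneg.2 hx.1)]; linarith [hx.2]) (fun y hy => ?_)
      fun y hy => k1 y (sub hy)
    have d1 : HasDerivAt (fun x => l₁ * x) l₁ y := by simpa using (hasDerivAt_id y).const_mul l₁
    exact (Hw.d1 y ⟨hη.trans_le (sub hy).1, by linarith [(sub hy).2]⟩).sub d1
  refine ⟨wv tPP u (t, η, h₂) - l₁ * η - l₂ * h₂, l₁, l₂, fun s hG hs b hb => ?_⟩
  have s0 : 0 < s := by linarith [hs.1]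
  have hns := hn s hG ⟨by linarith [hs.1], by linarith [hs.2]⟩
  have eP : ad s (h₂ / s) = (s - h₂, h₂) := by
    have := ad_h (x := s - h₂) (c := h₂) (by rw [sub_add_cancel]; exact s0.ne')
    rwa [sub_add_cancel] at this
  have eQ : ad s ((s - h₁) / s) = (h₁, s - h₁) := by
    have := ad_v (x := s - h₁) (c := h₁) (by rw [sub_add_cancel]; exact s0.ne')
    rwa [sub_add_cancel] at this
  have mP : s - h₂ ∈ Icc η 3 := ⟨by linarith [hs.1, m2.2], by linarith [hs.2]⟩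
  have mQ : s - h₁ ∈ Icc η 3 := ⟨by linarith [hs.1, m1.2], by linarith [hs.2]⟩
  have f1 : s * (h₂ / s) = h₂ := by field_simp
  have f2 : s * (1 - h₂ / s) = s - h₂ := by field_simp
  have f3 : s * ((s - h₁) / s) = s - h₁ := by field_simp
  have f4 : s * (1 - (s - h₁) / s) = h₁ := by field_simp; ring
  have k4 := anti2 hc h hη hγ s0 hs.2 hns (b := (s - h₁) / s) (b' := h₂ / s)
    ⟨by rw [f3]; exact mQ.1, by rw [f4]; exact m1.1⟩ ⟨by rw [f1]; exact m2.1, by rw [f2]; exact mP.1⟩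
  rw [eP, eQ] at k4
  obtain ⟨k'', c3, c4⟩ := anti0 hc h s0 hs.2 hns
  set l₀ := wv tPP u (t, η, h₂) - l₁ * η - l₂ * h₂ with hl₀
  have c5 : C2On (fun b => wv tPP u (t, ad s b) - af l₀ l₁ l₂ (t, ad s b))
      (fun b => s * (D e2 (wv tPP u) (t, ad s b) - D e1 (wv tPP u) (t, ad s b)) - s * (l₂ - l₁))
      k'' (Ioo 0 1) := by
    refine ⟨fun x hx => (c3.d1 x hx).sub ?_, fun x hx => (c3.d2 x hx).sub_const _, c3.c2⟩
    have d1 : HasDerivAt (fun b : ℝ => l₀ + l₁ * (s * (1 - b)) + l₂ * (s * b))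
        (l₁ * (s * -1) + l₂ * (s * 1)) x :=
      (((((hasDerivAt_id x).const_sub 1).const_mul s).const_mul l₁).const_add l₀).add
        (((hasDerivAt_id x).const_mul s).const_mul l₂)
    exact d1.congr_deriv (by ring)
  have k5 := tay (c := 6 * γ) (β := η / 3) (b₁ := h₂ / s) (by positivity) (by positivity)
    (div_le_div₀ p2.le m2.1 s0 hs.2)
    (by
      have : η / 3 ≤ (s - h₂) / s := div_le_div₀ (by linarith [mP.1]) mP.1 s0 hs.2
      rw [sub_div, div_self s0.ne'] at this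
      linarith) hb c5 c4
  rw [eP] at k5
  have k6 : |wv tPP u (t, s - h₂, h₂) - af l₀ l₁ l₂ (t, s - h₂, h₂)| ≤ 6 * κ * 3 := by
    have := k3 _ mP
    convert this using 2
    simp only [af, hl₀]; ring
  have k7 : |s * (D e2 (wv tPP u) (t, s - h₂, h₂) - D e1 (wv tPP u) (t, s - h₂, h₂)) -
      s * (l₂ - l₁)| ≤ 3 * (18 * κ) := by
    rw [← mul_sub, abs_mul, abs_of_pos s0]
    refine mul_le_mul hs.2 ?_ (abs_nonneg _) (by norm_num)
    have u1 := abs_le.1 (k1 _ mP)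
    have u2 := abs_le.1 (k2 _ mQ)
    have u3 := abs_le.1 k4
    rw [abs_le]; constructor <;> linarith [u1.1, u1.2, u2.1, u2.2, u3.1, u3.2]
  have k8 : 6 * γ * (1 + (η / 3)⁻¹) ≤ 24 * κ := by
    have e : 6 * γ * (1 + (η / 3)⁻¹) = 6 * γ + 18 * κ := by rw [hκ]; field_simp; ring
    have : γ ≤ κ := by rw [hκ, le_div_iff₀ hη]; nlinarith
    linarith
  linarith

end Pool.Agent.P.MP_2cea5e_gt.I.S4
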