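import Pool.Agent.P.MP_2cea5e_gt.I.S.Tool2

/-!
Chapter I, section 2: the radial second derivatives at the vertex are small on average over the
dyadic scales.
-/

open scoped ContDiff Topology ENNReal
open MeasureTheory Set Filter

noncomputable section

set_option linter.dupNamespace false

namespace Pool.Agent.P.MP_2cea5e_gt.I.S4

namespace PPv

/-- A convex function on `[0, R]` whose derivative has at most a logarithmic singularity at `0`. -/
structure Ray (g g' g'' : ℝ → ℝ) (R Λ : ℝ) : Prop where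
  ct : ContinuousOn g (Icc 0 R)
  c2 : C2On g g' g'' (Ioo 0 R)
  nn : ∀ x ∈ Ioo 0 R, 0 ≤ g'' x
  lg : ∀ x ∈ Ioo 0 R, |g' x| ≤ Λ * (1 - Real.log (x / 4))

variable {g g' g'' : ℝ → ℝ} {R Λ r : ℝ}

theorem Ray.cvx (h : Ray g g' g'' R Λ) : ConvexOn ℝ (Icc 0 R) g := by
  refine convexOn_of_hasDerivWithinAt2_nonneg (f' := g') (f'' := g'') (convex_Icc 0 R) h.ct
    (fun x hx => ?_) (fun x hx => ?_) fun x hx => ?_ <;> rw [interior_Icc] at hx
  · exact (h.c2.d1 x hx).hasDerivWithinAt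
  · exact (h.c2.d2 x hx).hasDerivWithinAt
  · exact h.nn x hx

theorem Ray.tendsto (h : Ray g g' g'' R Λ) (hr : 0 < r) (hR : 4 * r < R) :
    ContinuousWithinAt (fun s => s * g' (r * s)) (Icc 0 4) 0 := by
  have h1 : Continuous fun s : ℝ => Λ * (s - s * Real.log (r / 4) - s * Real.log s) :=
    continuous_const.mul ((continuous_id.sub (continuous_id.mul continuous_const)).sub
      Real.continuous_mul_log)
  have h2 : Tendsto (fun s : ℝ => Λ * (s - s * Real.log (r / 4) - s * Real.log s))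
      (𝓝[Icc 0 4] 0) (𝓝 0) := by
    have := (h1.tendsto 0).mono_left (nhdsWithin_le_nhds (s := Icc 0 4))
    simpa using this
  have h3 : Tendsto (fun s => s * g' (r * s)) (𝓝[Icc 0 4] 0) (𝓝 0) := by
    refine squeeze_zero_norm' ?_ h2
    filter_upwards [self_mem_nhdsWithin] with s hs
    rcases hs.1.eq_or_lt with e | e
    · simp [← e]
    · have h4 := h.lg (r * s) ⟨mul_pos hr e, by nlinarith [hs.2]⟩
      rw [show r * s / 4 = r / 4 * s by ring, Real.log_mul (by positivity) e.ne'] at h4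
      rw [Real.norm_eq_abs, abs_mul, abs_of_pos e]
      nlinarith [mul_le_mul_of_nonneg_left h4 e.le]
  simpa [ContinuousWithinAt] using h3

/-- The integral at one scale. -/
theorem Ray.one (h : Ray g g' g'' R Λ) (hr : 0 < r) (hR : 8 * r ≤ R) :
    ∃ x, 0 ≤ x ∧ x ≤ 8 * ((g (8 * r) - g 0) / (8 * r) - (g (4 * r) - g 0) / (4 * r)) ∧
      ∫⁻ s in Ioo (0 : ℝ) 4, ENNReal.ofReal (r * s * g'' (r * s)) = ENNReal.ofReal x := by
  have hm : ∀ s ∈ Ioc (0 : ℝ) 4, r * s ∈ Ioo 0 R := fun s hs =>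
    ⟨mul_pos hr hs.1, by nlinarith [hs.2]⟩
  have hd : ∀ s ∈ Ioc (0 : ℝ) 4, HasDerivAt (fun s => s * g' (r * s) - g (r * s) / r)
      (r * s * g'' (r * s)) s := fun s hs => by
    have a0 : HasDerivAt (fun s : ℝ => r * s) r s := by simpa using (hasDerivAt_id s).const_mul r
    have a1 := (h.c2.d1 _ (hm s hs)).comp s a0
    have a2 := (h.c2.d2 _ (hm s hs)).comp s a0
    have a3 := ((hasDerivAt_id s).mul a2).sub (a1.div_const r)
    refine HasDerivAt.congr_deriv a3 ?_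
    simp only [id, Function.comp]
    field_simp
    ring
  have hc : ContinuousOn (fun s => s * g' (r * s) - g (r * s) / r) (Icc 0 4) := fun s hs => by
    rcases hs.1.eq_or_lt with e | e
    · subst e
      refine (h.tendsto hr (by linarith)).sub (ContinuousWithinAt.div_const ?_ r)
      have a1 : ContinuousOn (fun s : ℝ => g (r * s)) (Icc 0 4) :=
        h.ct.comp (continuous_const.mul continuous_id).continuousOn fun s hs =>
          ⟨mul_nonneg hr.le hs.1, by nlinarith [hs.2]⟩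
      exact a1 0 hs
    · exact (hd s ⟨e, hs.2⟩).continuousAt.continuousWithinAt
  have h0 : ∀ s ∈ Ioo (0 : ℝ) 4, 0 ≤ r * s * g'' (r * s) := fun s hs =>
    mul_nonneg (mul_pos hr hs.1).le (h.nn _ (hm s ⟨hs.1, hs.2.le⟩))
  have hi := intervalIntegral.integrableOn_deriv_of_nonneg hc
    (fun s hs => hd s ⟨hs.1, hs.2.le⟩) h0
  have he := intervalIntegral.integral_eq_sub_of_hasDerivAt_of_le (by norm_num) hc
    (fun s hs => hd s ⟨hs.1, hs.2.le⟩)
    ((intervalIntegrable_iff_integrableOn_Ioc_of_le (by norm_num)).2 hi)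
  rw [intervalIntegral.integral_of_le (by norm_num), integral_Ioc_eq_integral_Ioo] at he
  have h0' : 0 ≤ᵐ[volume.restrict (Ioo (0 : ℝ) 4)] fun s => r * s * g'' (r * s) :=
    (ae_restrict_iff' measurableSet_Ioo).2 (Eventually.of_forall h0)
  refine ⟨∫ s in Ioo (0 : ℝ) 4, r * s * g'' (r * s), integral_nonneg_of_ae h0', ?_,
    (ofReal_integral_eq_lintegral_ofReal (hi.mono_set Ioo_subset_Ioc_self) h0').symm⟩
  have a1 := h.cvx.le_slope_of_hasDerivAt (x := 4 * r) (y := 8 * r)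
    ⟨by positivity, by linarith⟩ ⟨by positivity, hR⟩ (by linarith)
    (h.c2.d1 _ ⟨by positivity, by linarith⟩)
  rw [slope_def_field, le_div_iff₀ (by linarith)] at a1
  rw [he, mul_comm r 4, mul_zero, zero_mul]
  have a2 : 8 * ((g (8 * r) - g 0) / (8 * r) - (g (4 * r) - g 0) / (4 * r)) -
      (4 * g' (4 * r) - g (4 * r) / r - (0 - g 0 / r)) =
      (g (8 * r) - g (4 * r) - g' (4 * r) * (8 * r - 4 * r)) / r := by
    field_simp
    ring
  have a3 : 0 ≤ (g (8 * r) - g (4 * r) - g' (4 * r) * (8 * r - 4 * r)) / r :=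
    div_nonneg (by linarith) hr.le
  linarith

theorem Ray.upper (h : Ray g g' g'' R Λ) {x : ℝ} (hx : x ∈ Ioo 0 R) :
    (g x - g 0) / x ≤ Λ * (1 - Real.log (x / 4)) := by
  have a1 := h.cvx.slope_le_of_hasDerivAt (x := 0) (y := x) ⟨le_rfl, (hx.1.trans hx.2).le⟩
    ⟨hx.1.le, hx.2.le⟩ hx.1 (h.c2.d1 _ hx)
  rw [slope_def_field, sub_zero] at a1
  exact a1.trans ((le_abs_self _).trans (h.lg x hx))

theorem Ray.lower (h : Ray g g' g'' R Λ) {x : ℝ} (hx : x ∈ Ioo 0 R) :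
    -(Λ * (2 - Real.log (x / 4))) ≤ (g x - g 0) / x := by
  have hm : MonotoneOn (fun s => g s + Λ * (2 * s + s * Real.log 4 - s * Real.log s))
      (Icc 0 R) := by
    refine monotoneOn_of_hasDerivWithinAt_nonneg
      (f' := fun s => g' s + Λ * (1 - Real.log (s / 4))) (convex_Icc 0 R)
      (h.ct.add (continuous_const.mul (((continuous_const.mul continuous_id).add
        (continuous_id.mul continuous_const)).sub Real.continuous_mul_log)).continuousOn)
      (fun s hs => ?_) fun s hs => ?_ <;> rw [interior_Icc] at hs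
    · have a1 := (h.c2.d1 s hs).add (((((hasDerivAt_id s).const_mul 2).add
        ((hasDerivAt_id s).mul_const (Real.log 4))).sub
          (Real.hasDerivAt_mul_log hs.1.ne')).const_mul Λ)
      refine HasDerivAt.hasDerivWithinAt (HasDerivAt.congr_deriv a1 ?_)
      rw [Real.log_div hs.1.ne' (by norm_num)]
      ring
    · linarith [neg_abs_le (g' s), h.lg s hs]
  have a1 := hm (a := 0) (b := x) ⟨le_rfl, (hx.1.trans hx.2).le⟩ ⟨hx.1.le, hx.2.le⟩ hx.1.le
  simp only [mul_zero, zero_mul, add_zero, sub_zero] at a1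
  rw [le_div_iff₀ hx.1, Real.log_div hx.1.ne' (by norm_num)]
  linarith

theorem log_pow (m : ℕ) : -Real.log (8 * (1 / 2) ^ m / 4) ≤ m := by
  have h1 : Real.log 2 ≤ 1 := by
    have := Real.log_le_sub_one_of_pos (x := 2) (by norm_num)
    linarith
  have h2 : 0 ≤ Real.log 2 := Real.log_nonneg (by norm_num)
  rw [show (8 : ℝ) * (1 / 2) ^ m / 4 = 2 * (2 ^ m)⁻¹ by rw [one_div, inv_pow]; ring,
    Real.log_mul (by norm_num) (by positivity), Real.log_inv, Real.log_pow]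
  have h3 : (0 : ℝ) ≤ m := Nat.cast_nonneg m
  nlinarith

/-- The sum over the scales, on one ray. -/
theorem Ray.sum {n : ℕ} (h : Ray g g' g'' (16 * (1 / 2) ^ n) Λ) (hΛ : 0 ≤ Λ) (hn : 4 ≤ n) :
    ∑ j ∈ Finset.Ico n (2 * n), ∫⁻ s in Ioo (0 : ℝ) 4,
      ENNReal.ofReal ((1 / 2) ^ j * s * g'' ((1 / 2) ^ j * s)) ≤ ENNReal.ofReal (40 * Λ * n) := by
  have hp : ∀ j, n ≤ j → ((1 / 2 : ℝ)) ^ j ≤ (1 / 2) ^ n := fun j hj =>
    pow_le_pow_of_le_one (by norm_num) (by norm_num) hj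
  have hq : ∀ j : ℕ, (0 : ℝ) < (1 / 2) ^ j := fun j => by positivity
  set B : ℕ → ℝ := fun j => (g (8 * (1 / 2) ^ j) - g 0) / (8 * (1 / 2) ^ j) with hB
  have h1 : ∀ j ∈ Finset.Ico n (2 * n), ∃ x, 0 ≤ x ∧ x ≤ 8 * (B j - B (j + 1)) ∧
      ∫⁻ s in Ioo (0 : ℝ) 4, ENNReal.ofReal ((1 / 2) ^ j * s * g'' ((1 / 2) ^ j * s)) =
        ENNReal.ofReal x := fun j hj => by
    obtain ⟨x, a1, a2, a3⟩ := h.one (r := (1 / 2) ^ j) (hq j)
      (by linarith [hp j (Finset.mem_Ico.1 hj).1, hq n])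
    refine ⟨x, a1, ?_, a3⟩
    simp only [hB]
    rwa [show (8 : ℝ) * (1 / 2) ^ (j + 1) = 4 * (1 / 2) ^ j by ring]
  choose! x x0 x1 x2 using h1
  rw [Finset.sum_congr rfl x2, ← ENNReal.ofReal_sum_of_nonneg x0]
  refine ENNReal.ofReal_le_ofReal ((Finset.sum_le_sum x1).trans ?_)
  rw [← Finset.mul_sum, Finset.sum_Ico_eq_sum_range]
  have h2 := Finset.sum_range_sub' (fun i => B (n + i)) (2 * n - n)
  simp only [← add_assoc, add_zero] at h2
  rw [h2, show n + (2 * n - n) = 2 * n by omega]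
  have h3 := h.upper (x := 8 * (1 / 2) ^ n) ⟨by positivity, by linarith [hq n]⟩
  have h4 := h.lower (x := 8 * (1 / 2) ^ (2 * n))
    ⟨by positivity, by linarith [hq n, hp (2 * n) (by omega)]⟩
  have h5 := mul_le_mul_of_nonneg_left (log_pow n) hΛ
  have h6 := mul_le_mul_of_nonneg_left (log_pow (2 * n)) hΛ
  have h7 : Λ * 4 ≤ Λ * n := mul_le_mul_of_nonneg_left (by exact_mod_cast hn) hΛ
  push_cast at h6
  simp only [hB]
  nlinarith

variable {d : Dm} {u F : X → ℝ} {t b : ℝ}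

theorem ray (hc : Core) (hΛ : 0 ≤ Λ) (h : SK tPP (trc R) d u F t)
    (hg : ∀ y ∈ tri 0 R, |D e1 u (t, y)| ≤ Λ * (1 - Real.log (min y.1 y.2)) ∧
      |D e2 u (t, y)| ≤ Λ * (1 - Real.log (min y.1 y.2))) (hb : b ∈ Ioo (1 / 4 : ℝ) (3 / 4)) :
    Ray (fun s => u (t, ad s b)) (fun s => D (sv (1 - b, b)) u (t, ad s b))
      (fun s => hq u (1 - b, b) (t, ad s b)) R Λ := by
  have hb' : b ∈ Ioo (0 : ℝ) 1 := ⟨by linarith [hb.1], by linarith [hb.2]⟩
  have he : ((1 - b, b) : ℝ × ℝ) ≠ 0 := fun e => hb'.1.ne' (congrArg Prod.snd e)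
  have hT : ∀ s ∈ Ioo 0 R, ad s b ∈ tri 0 R := fun s hs => ad_mem_tri hs.1 hs hb'
  have hS : ∀ s ∈ Ioo 0 R, ad s b ∈ d.S := fun s hs =>
    h.memPP (tri_subset _ _ (hT s hs)) (hT s hs).1 (hT s hs).2.1
  refine ⟨?_, ?_, fun s hs => ((h.api hc).hqp _ (h.memU (hS s hs)) _ he).1.le, fun s hs => ?_⟩
  · have h0 : Continuous fun s : ℝ => ((t, ad s b) : X) := by unfold ad; fun_prop
    refine h.gs.cont.comp h0.continuousOn fun s hs => ⟨h.tI, ?_⟩
    have := ad_mem_trc hs ⟨hb'.1.le, hb'.2.le⟩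
    exact h.memSc this (fun _ => this.1) fun _ => this.2.1
  · have := (hc.t1 d u F t 0 (1 - b, b) (Ioo 0 R) h.gs h.tI he
      fun s hs => by rw [pt_ray]; exact hS s hs).1
    simpa only [ln_ray] using this
  · obtain ⟨a1, a2⟩ := hg _ (hT s hs)
    have a3 : s / 4 ≤ min (ad s b).1 (ad s b).2 := by
      refine le_min ?_ ?_ <;> simp only [ad] <;> nlinarith [hs.1, hb.1, hb.2]
    have a4 := mul_le_mul_of_nonneg_left
      (sub_le_sub_left (Real.log_le_log (by linarith [hs.1]) a3) 1) hΛ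
    have a5 := a1.trans a4
    have a6 := a2.trans a4
    rw [D_sv]
    refine (abs_add_le _ _).trans ?_
    rw [abs_mul, abs_mul, abs_of_pos (sub_pos.2 hb'.2), abs_of_pos hb'.1]
    nlinarith [mul_le_mul_of_nonneg_left a5 (sub_pos.2 hb'.2).le,
      mul_le_mul_of_nonneg_left a6 hb'.1.le]

end PPv

theorem ppv_ok (hc : Core) : StPPv := by
  refine ⟨40, by norm_num, fun Λ n d u F t hΛ hn h hg => ?_⟩
  have hm : ∀ j ∈ Finset.Ico n (2 * n), AEMeasurable
      (fun q : ℝ × ℝ => ENNReal.ofReal (rad u t ((1 / 2) ^ j * q.1) q.2))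
      ((volume.restrict (Ioo (0 : ℝ) 4)).prod (volume.restrict (Ioo (1 / 4 : ℝ) (3 / 4)))) :=
    fun j hj => by
    rw [Measure.prod_restrict]
    refine AEMeasurable.ennreal_ofReal
      (ContinuousOn.aemeasurable ?_ (measurableSet_Ioo.prod measurableSet_Ioo))
    have hp : ((1 / 2 : ℝ)) ^ j ≤ (1 / 2) ^ n :=
      pow_le_pow_of_le_one (by norm_num) (by norm_num) (Finset.mem_Ico.1 hj).1
    have hq : (0 : ℝ) < (1 / 2) ^ j := by positivity
    refine (cont_rad hc h).comp (f := fun q : ℝ × ℝ => (((1 / 2) ^ j * q.1, q.2) : ℝ × ℝ))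
      (by fun_prop) fun q hq' => ⟨⟨mul_pos hq hq'.1.1, ?_⟩, ?_, ?_⟩
    · have := hq'.1.2
      change (1 / 2 : ℝ) ^ j * q.1 ≤ _
      nlinarith
    · exact lt_trans (by norm_num) hq'.2.1
    · exact lt_trans hq'.2.2 (by norm_num)
  have h1 : ∀ j ∈ Finset.Ico n (2 * n), Vi u t ((1 / 2) ^ j) =
      ∫⁻ b in Ioo (1 / 4 : ℝ) (3 / 4), ∫⁻ s in Ioo (0 : ℝ) 4,
        ENNReal.ofReal (rad u t ((1 / 2) ^ j * s) b) := fun j hj => by
    rw [Vi, Measure.volume_eq_prod, ← Measure.prod_restrict, lintegral_prod_symm _ (hm j hj)]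
  rw [Finset.sum_congr rfl h1, ← lintegral_finsetSum' _ fun j hj => (hm j hj).lintegral_prod_left']
  calc _ ≤ ∫⁻ _ in Ioo (1 / 4 : ℝ) (3 / 4), ENNReal.ofReal (40 * Λ * n) :=
        setLIntegral_mono' measurableSet_Ioo fun b hb => (PPv.ray hc hΛ h hg hb).sum hΛ hn
    _ ≤ _ := by
      rw [setLIntegral_const, Real.volume_Ioo]
      exact mul_le_of_le_one_right' (ENNReal.ofReal_le_one.2 (by norm_num))

end Pool.Agent.P.MP_2cea5e_gt.I.S4
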