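import Pool.Agent.P.MP_2cea5e_gt.I.S.Tool2

/-!
Chapter I, section 2: frames at interior points and at edge points.
-/

open scoped ContDiff Topology ENNReal
open MeasureTheory Set Filter

noncomputable section

set_option linter.dupNamespace false

namespace Pool.Agent.P.MP_2cea5e_gt.I.S4

namespace StartA

variable {d : Dm} {u F : X → ℝ} {T₀ T Λ : ℝ}

theorem exists_time {ρ : ℝ} (cs : CS d u F T₀ T Λ) (hρ : 0 < ρ) :
    ∃ t' ∈ d.I, T - t' < ρ ^ 4 := by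
  have h1 : max T₀ (T - ρ ^ 4) < T := max_lt cs.lt (by linarith [pow_pos hρ 4])
  obtain ⟨t', a, b⟩ := exists_between h1
  refine ⟨t', by rw [cs.tI]; exact ⟨(le_max_left _ _).trans_lt a, b⟩, ?_⟩
  linarith [(le_max_right _ _).trans_lt a]

/-- The translation. -/
def tr (t : ℝ) (p : ℝ × ℝ) : Fr := dg t 1 one_pos p 1 1 one_pos one_pos

theorem tr_sp (t : ℝ) (p y : ℝ × ℝ) : (tr t p).sp y = p + y := by
  rw [tr, dg_sp]; ext <;> simp

theorem tr_det (t : ℝ) (p : ℝ × ℝ) : |(tr t p).det| = 1 := by rw [tr, dg_det, one_mul]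

theorem tr_D (hc : Core) (cs : CS d u F T₀ T Λ) {t : ℝ} (ht : t ∈ d.I) {p y : ℝ × ℝ}
    (hy : p + y ∈ d.S) : D e1 ((tr t p).pull u) (0, y) = D e1 u (t, p + y) ∧
      D e2 ((tr t p).pull u) (0, y) = D e2 u (t, p + y) := by
  have h := (frame_pt hc cs.gs ht (fr := tr t p) rfl (y := y) (by rwa [tr_sp])).1
  have h1 := h (1, 0)
  have h2 := h (0, 1)
  rw [tr_sp] at h1 h2
  constructor
  · simpa [tr, dg, Fr.S, sv_e1] using h1
  · simpa [tr, dg, Fr.S, sv_e2] using h2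

theorem tr_int (hc : Core) (cs : CS d u F T₀ T Λ) {t : ℝ} (ht : t ∈ d.I) {p : ℝ × ℝ}
    {A : Set (ℝ × ℝ)} (hA : MeasurableSet A) (hs : ∀ y ∈ A, p + y ∈ d.S) :
    En ((tr t p).pullF F) 0 A ≤ Λ ∧ Dt ((tr t p).pull u) 0 A ≤ Λ := by
  have hm : MapsTo (tr t p).sp A d.S := fun y hy => by rw [tr_sp]; exact hs y hy
  constructor
  · rw [En_frame0 hc _ hA, tr_det]
    have := (En_mono' (cs.en t ht).1 hm.image_subset).trans (cs.en t ht).2
    simpa [tr, dg] using this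
  · rw [Dt_frame0 hc cs.gs ht rfl hA hm, tr_det]
    have := (Dt_mono' (cs.dt t ht).1 hm.image_subset).trans (cs.dt t ht).2
    simpa [tr, dg] using this

theorem memS (cs : CS d u F T₀ T Λ) {y : ℝ × ℝ} (h : y ∈ d.O) (h1 : 0 < y.1) (h2 : 0 < y.2) :
    y ∈ d.S := ⟨h, by simpa [cs.ty, ok] using h1, by simpa [cs.ty, ok] using h2⟩

theorem finish (hc : Core) (cs : CS d u F T₀ T Λ) {τ : Ty} {t ρ₀ ε : ℝ} {p : ℝ × ℝ}
    {A : Set (ℝ × ℝ)} {fr : Fr} (hcp : (tr t p).Cp d.τ τ) (hA : A ⊆ ((tr t p).dm d τ).O)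
    (h0 : fr.p = 0) (hg : Good ((tr t p).dm d τ) ((tr t p).pull u) 0 τ A ρ₀ ε fr) :
    ((tr t p).comp fr).p = p ∧ bxc τ 1 ⊆ (((tr t p).comp fr).dm d τ).O ∧
      Good d u t τ univ ρ₀ ε ((tr t p).comp fr) := by
  refine ⟨comp_p h0, fun y hy => ?_, hg.comp hc rfl hcp (mapsTo_univ _ _) ?_ ?_ ?_ le_rfl⟩
  · have := hA (hg.mp hy)
    simp only [Fr.dm, mem_preimage] at this ⊢
    rw [Fr.comp_sp]
    exact this
  · simp [tr, dg]
  · simp [tr, dg]
  · rw [tr_det]; simp [tr, dg]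

end StartA

open StartA

theorem startLL_ok (hc : Core) (h1 : StLL) (h2 : StTime) : StStartLL := by
  intro d u F T₀ T Λ ε p cs hε hp p1 p2
  obtain ⟨ε', hε', h3⟩ := h2 d u F T₀ T Λ ε cs hε
  obtain ⟨R, hR, hb⟩ := Metric.isOpen_iff.1 d.isOpen_S p (memS cs hp p1 p2)
  set r := min (R / 3) 1 with hr
  have r0 : 0 < r := lt_min (by positivity) one_pos
  have r1 : r ≤ 1 := min_le_right _ _
  have r2 : r ≤ R / 3 := min_le_left _ _
  have hl : Real.log r ≤ 0 := Real.log_nonpos r0.le r1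
  have hΛ : Λ ≤ Λ * (1 - Real.log r) := by nlinarith [cs.one]
  obtain ⟨ρ₀, hρ₀, h4⟩ := h1 (Λ * (1 - Real.log r)) r ε' (cs.one.trans hΛ) r0 r1 hε'
  obtain ⟨t, ht, htT⟩ := exists_time cs hρ₀
  have hn : ∀ y ∈ bxc tLL r, ‖y‖ ≤ r := fun y hy => by
    rw [mem_bxcLL] at hy
    exact norm_prod_le_iff.2 hy
  have hball : ∀ y ∈ bxc tLL r, Metric.ball (p + y) r ⊆ d.S := fun y hy z hz => hb (by
    rw [Metric.mem_ball, dist_eq_norm] at hz ⊢
    have : z - p = z - (p + y) + y := by abel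
    rw [this]
    linarith [norm_add_le (z - (p + y)) y, hn y hy])
  have hS : ∀ y ∈ bxc tLL r, p + y ∈ d.S := fun y hy => hball y hy (Metric.mem_ball_self r0)
  have hcp : (tr t p).Cp d.τ tLL := by simp [Fr.Cp]
  have hA : bxc tLL r ⊆ ((tr t p).dm d tLL).O := fun y hy => by
    have := hS y hy
    rw [← tr_sp t] at this
    exact ⟨this.1, this.2⟩
  have hi := tr_int hc cs ht (isOpen_bx tLL r).measurableSet
    fun y hy => hS y (bx_subset_bxc _ _ hy)
  obtain ⟨fr, f0, hg⟩ := h4 _ _ _ 0 (sk_frame hc cs.gs ht rfl hcp hA) (fun y hy => by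
    rw [(tr_D hc cs ht (hS y hy)).1, (tr_D hc cs ht (hS y hy)).2]
    exact cs.lg t ht _ r r0 r1 (hball y hy)) (hi.1.trans hΛ) (hi.2.trans hΛ)
  obtain ⟨g1, g2, g3⟩ := finish hc cs hcp hA f0 hg
  exact ⟨((tr t p).comp fr).atT T, g1, h3 tLL _ ρ₀ t univ hρ₀ ht htT g2 g3⟩

theorem startPL_ok (hc : Core) (h1 : StPL) (h2 : StTime) : StStartPL := by
  intro d u F T₀ T Λ ε p cs hε hp p1 p2
  obtain ⟨ε', hε', h3⟩ := h2 d u F T₀ T Λ ε cs hε
  obtain ⟨R, hR, hb⟩ := Metric.isOpen_iff.1 d.oO p hp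
  set r := min (min (R / 3) (p.2 / 3)) 1 with hr
  have r0 : 0 < r := lt_min (lt_min (by positivity) (by positivity)) one_pos
  have r1 : r ≤ 1 := min_le_right _ _
  have r2 : r ≤ R / 3 := (min_le_left _ _).trans (min_le_left _ _)
  have r3 : r ≤ p.2 / 3 := (min_le_left _ _).trans (min_le_right _ _)
  have hΛ0 : 0 < Λ := one_pos.trans_le cs.one
  have hΛ : Λ ≤ 2 * Λ / r := by rw [le_div_iff₀ r0]; nlinarith
  obtain ⟨ρ₀, hρ₀, h4⟩ := h1 r r (2 * Λ / r) ε' r0 r1 r0 r1 (cs.one.trans hΛ) hε'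
  obtain ⟨t, ht, htT⟩ := exists_time cs hρ₀
  have hO : ∀ z : ℝ × ℝ, |z.1| ≤ 2 * r → |z.2 - p.2| ≤ 2 * r → z ∈ d.O ∧ 0 < z.2 :=
    fun z a b => ⟨hb (by
      rw [Metric.mem_ball, dist_eq_norm]
      refine lt_of_le_of_lt (norm_prod_le_iff.2 ⟨?_, b⟩) (by linarith : 2 * r < R)
      simpa [p1] using a), by linarith [(abs_le.1 b).1]⟩
  have hS : ∀ z : ℝ × ℝ, 0 < z.1 → z.1 ≤ 2 * r → |z.2 - p.2| ≤ 2 * r → z ∈ d.S :=
    fun z a a' b =>
      have := hO z (by rwa [abs_of_pos a]) b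
      memS cs this.1 a this.2
  have hS1 : ∀ y ∈ ro 0 r r, p + y ∈ d.S := fun y hy => hS _ (by simpa [p1] using hy.1.1)
    (by simp only [Prod.fst_add, p1]; linarith [hy.1.2])
    (by simp only [Prod.snd_add, add_sub_cancel_left]
        exact abs_le.2 ⟨by linarith [hy.2.1], by linarith [hy.2.2]⟩)
  have hcp : (tr t p).Cp d.τ tPL := by simp [Fr.Cp, tr, dg, cs.ty, p1]
  have hA : rc r r ⊆ ((tr t p).dm d tPL).O := fun y hy => by
    have := hO (p + y)
      (by simp only [Prod.fst_add, p1, zero_add]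
          exact abs_le.2 ⟨by linarith [hy.1.1], by linarith [hy.1.2]⟩)
      (by simp only [Prod.snd_add, add_sub_cancel_left]
          exact abs_le.2 ⟨by linarith [hy.2.1], by linarith [hy.2.2]⟩)
    rw [← tr_sp t] at this
    exact mem_dmO this.1 (by simp) fun _ _ => this.2
  have hi := tr_int hc cs ht (isOpen_ro 0 r r).measurableSet hS1
  obtain ⟨fr, f0, hg⟩ := h4 _ _ _ 0 (sk_frame hc cs.gs ht rfl hcp hA) (fun y hy => by
    rw [(tr_D hc cs ht (hS1 y hy)).1, (tr_D hc cs ht (hS1 y hy)).2]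
    have y1 := hy.1.1
    have y2 := hy.1.2
    have y3 := hy.2.1
    have y4 := hy.2.2
    constructor
    · have hl : Real.log y.1 ≤ 0 := Real.log_nonpos y1.le (by linarith)
      refine (cs.lg t ht _ y.1 y1 (by linarith) fun z hz => ?_).1.trans
        (mul_le_mul_of_nonneg_right hΛ (by linarith))
      rw [Metric.mem_ball, dist_eq_norm, Prod.norm_def, max_lt_iff] at hz
      have z1 := abs_lt.1 hz.1
      have z2 := abs_lt.1 hz.2
      simp only [Prod.fst_sub, Prod.fst_add, Prod.snd_sub, Prod.snd_add, p1] at z1 z2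
      exact hS z (by linarith [z1.1]) (by linarith [z1.2])
        (abs_le.2 ⟨by linarith [z2.1], by linarith [z2.2]⟩)
    · have key : ∀ s : ℝ, |s| ≤ r → s * D e2 u (t, p + y) ≤ 2 * Λ := fun s hs => by
        have hs' := abs_le.1 hs
        have hz : ∀ θ ∈ Icc (0 : ℝ) 1, p + y + θ • ((0, s) : ℝ × ℝ) ∈ d.S := fun θ hθ => by
          refine hS _ (by simpa [p1] using y1) (by simp [p1]; linarith) ?_
          simp only [Prod.snd_add, Prod.smul_snd, smul_eq_mul]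
          exact abs_le.2 ⟨by nlinarith [hθ.1, hθ.2], by nlinarith [hθ.1, hθ.2]⟩
        have a1 := (hc.api d u cs.gs.toGS0).tan t ht _ (hS1 y hy) (p + y + (0, s)) (by
          rw [segment_eq_image']
          rintro _ ⟨θ, hθ, rfl⟩
          simpa using d.S_subset (hz θ hθ))
        rw [add_sub_cancel_left, D_sv] at a1
        have a2 := abs_le.1 (cs.c0 (t, p + y) ⟨ht, hS1 y hy⟩)
        have a3 := abs_le.1 (cs.c0 (t, p + y + (0, s)) ⟨ht, by
          simpa using hz 1 ⟨zero_le_one, le_rfl⟩⟩)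
        simp only [zero_mul, zero_add] at a1
        linarith [a2.1, a3.2]
      have k1 := key r (by rw [abs_of_pos r0])
      have k2 := key (-r) (by rw [abs_neg, abs_of_pos r0])
      rw [le_div_iff₀ r0, ← abs_of_pos r0, ← abs_mul]
      exact abs_le.2 ⟨by linarith, by linarith⟩) (hi.1.trans hΛ) (hi.2.trans hΛ)
  obtain ⟨g1, g2, g3⟩ := finish hc cs hcp hA f0 hg
  exact ⟨((tr t p).comp fr).atT T, g1, h3 tPL _ ρ₀ t univ hρ₀ ht htT g2 g3⟩

end Pool.Agent.P.MP_2cea5e_gt.I.S4
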