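import Pool.Agent.P.MP_2cea5e_gt.I.S.Tool2

/-!
Chapter I, section 2: the vertex frame and the final assembly.
-/

open scoped ContDiff Topology ENNReal
open MeasureTheory Set Filter

noncomputable section

set_option linter.dupNamespace false

namespace Pool.Agent.P.MP_2cea5e_gt.I.S4

namespace StartB

variable {d : Dm} {u F : X → ℝ} {T₀ T Λ : ℝ}

theorem image_smul {t ρ r : ℝ} (hρ : 0 < ρ) (hr : 0 < r) (A B : Set (ℝ × ℝ))
    (h : ∀ y : ℝ × ℝ, y ∈ A ↔ ((r * y.1, r * y.2) : ℝ × ℝ) ∈ B) :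
    (dg t ρ hρ 0 r r hr hr).sp '' A = B := by
  ext z
  constructor
  · rintro ⟨y, hy, rfl⟩
    simpa [dg_sp] using (h y).1 hy
  · intro hz
    refine ⟨(z.1 / r, z.2 / r), (h _).2 ?_, ?_⟩
    · simpa [mul_div_cancel₀ _ hr.ne'] using hz
    · simp [dg_sp, mul_div_cancel₀ _ hr.ne']

theorem sq_add_le {μ : Measure (ℝ × ℝ)} {f g : ℝ × ℝ → ℝ} (hf : Integrable (fun y => f y ^ 2) μ)
    (hg : Integrable (fun y => g y ^ 2) μ) :
    ∫ y, (f y + g y) ^ 2 ∂μ ≤ 2 * ∫ y, f y ^ 2 ∂μ + 2 * ∫ y, g y ^ 2 ∂μ := by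
  rw [← integral_const_mul, ← integral_const_mul, ← integral_add (hf.const_mul _) (hg.const_mul _)]
  exact integral_mono_of_nonneg (Eventually.of_forall fun _ => sq_nonneg _)
    ((hf.const_mul _).add (hg.const_mul _))
    (Eventually.of_forall fun y => by nlinarith [sq_nonneg (f y - g y)])

/-- The frame with both sets of coordinates exchanged. -/
def cj (fr : Fr) : Fr :=
  ⟨fr.t1, fr.ρ, fr.p.swap, fr.e, fr.c, fr.b, fr.a, fr.l0, fr.l2, fr.l1, fr.ρ_pos, by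
    have := fr.det_ne
    intro h; apply this; linarith⟩

theorem cj_sp (fr : Fr) (y : ℝ × ℝ) : (cj fr).sp y = (fr.sp y.swap).swap := by
  ext <;> simp [cj, Fr.sp, Fr.S] <;> ring

theorem cj_fm (fr : Fr) (s : ℝ) (y : ℝ × ℝ) : (cj fr).fm (s, y) = sw (fr.fm (s, y.swap)) := by
  simp only [Fr.fm, cj_sp]; rfl

theorem fin_swap (hc : Core) {ε : ℝ} {fr : Fr} (hty : d.τ = (true, true))
    (h : Fin d.swap (u ∘ sw) (F ∘ sw) T₀ T Λ ε tPL fr) :
    Fin d u F T₀ T Λ ε (false, true) (cj fr) := by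
  obtain ⟨h1, h2, h3, h4, h5⟩ := h
  have hs := (hc.swap d u F).2.2.2.2.2.2.2.2
  have e : bx (false, true) 1 = Prod.swap ⁻¹' bx tPL 1 := by
    ext y; exact ⟨fun h => ⟨h.2, h.1⟩, fun h => ⟨h.2, h.1⟩⟩
  refine ⟨h1, ⟨by simp, fun _ => ?_⟩, fun y hy => ?_, h4, fun s hs' => ⟨?_, ?_⟩⟩
  · obtain ⟨-, b1, b2, b3, b4⟩ := h2.1 rfl
    exact ⟨by rw [hty], b1, b2, b4, b3⟩
  · have := h3 (a := y.swap) ⟨hy.2, hy.1⟩
    refine mem_dmO ?_ (fun _ _ => ?_) (by simp)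
    · rw [cj_sp]; exact this.1
    · rw [cj_sp]
      have h6 := this.2.2
      simpa [Dm.swap, hty, ok] using h6
  · rw [e]
    refine le_trans (le_of_eq ?_) (h5 s hs').1
    rw [← hs (fun y => fr.pullF (F ∘ sw) (s, y) ^ 2) (bx tPL 1)]
    simp only [Fr.pullF, cj_fm]
    rfl
  · rw [e]
    refine le_trans (le_of_eq ?_) (h5 s hs').2
    rw [← hs (fun y => wv tPL (fr.pull (u ∘ sw)) (s, y) ^ 2) (bx tPL 1)]
    congr 1
    funext y
    simp only [wv, Pi.sub_apply, Fr.pull, cj_fm, u0, af]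
    simp only [cj, Function.comp_apply, Prod.fst_swap, Prod.snd_swap]
    ring

end StartB

open StartB

theorem startPP_ok (hc : Core) (h1 : StPP1) (h2 : StPPj) : StStartPP := by
  intro d u F T₀ T Λ ε cs hε h0
  obtain ⟨V, hV, h3⟩ := h2 d u F T₀ T Λ cs h0
  obtain ⟨η, e, hη, -, he, h4⟩ := h1 V (ε ^ 2 / 4) hV (by positivity)
  obtain ⟨r, t', hr, hO, hT, ht', hVi, hEn, hdr⟩ := h3 η e (ε ^ 2 / 4) hη he (by positivity)
  have hρ : 0 < √r := Real.sqrt_pos.2 hr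
  have hρ2 : √r ^ 2 = r := Real.sq_sqrt hr.le
  have hρ4 : √r ^ 4 = r ^ 2 := by rw [show √r ^ 4 = (√r ^ 2) ^ 2 by ring, hρ2]
  have hI : ∀ t ∈ Ioo (T - r ^ 2) T, t ∈ d.I := fun t ht => by
    rw [cs.tI]; exact ⟨hT.trans ht.1, ht.2⟩
  set fr := dg t' (√r) hρ 0 r r hr hr with hfr
  have hsp : ∀ y, fr.sp y = (r * y.1, r * y.2) := fun y => by simp [hfr, dg_sp]
  have hcp : fr.Cp tPP tPP := by simp [Fr.Cp, hfr, dg, hρ2]
  have hsk : SK tPP (trc (4 * r)) d u F t' := ⟨cs.gs, hI _ ht', cs.ty, hO⟩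
  have hm : MapsTo fr.sp (trc 4) (trc (4 * r)) := fun y hy => by
    rw [hsp]
    exact ⟨mul_nonneg hr.le hy.1, mul_nonneg hr.le hy.2.1, by
      have := hy.2.2; change r * y.1 + r * y.2 ≤ 4 * r; nlinarith⟩
  have hsk' := hsk.frame hc (fr := fr) rfl hcp hm
  have hdet : |fr.det| = r * r := dg_det _ _ _ _ _ _ _ _
  have hVi' : Vi (fr.pull u) 0 1 = Vi u t' r := by
    refine setLIntegral_congr_fun (measurableSet_Ioo.prod measurableSet_Ioo) fun q hq => ?_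
    have e1 : fr.sp (ad (1 * q.1) q.2) = ad (r * q.1) q.2 := by
      rw [hsp]; ext <;> simp [ad] <;> ring
    have hS : fr.sp (ad (1 * q.1) q.2) ∈ d.S := by
      rw [e1]
      have a1 := mul_pos hr hq.1.1
      exact hsk.memPP (ad_mem_trc ⟨a1.le, by nlinarith [hq.1.2]⟩
        ⟨by linarith [hq.2.1], by linarith [hq.2.2]⟩) (mul_pos a1 (by linarith [hq.2.2]))
        (mul_pos a1 (by linarith [hq.2.1]))
    have := (frame_pt hc cs.gs hsk.tI (fr := fr) rfl hS).2.1 (1 - q.2, q.2) (1 - q.2, q.2)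
    rw [e1] at this
    simp only [rad, I.hq, this]
    congr 1
    simp only [hb_eq, hfr, dg, Fr.S, hρ2]
    field_simp
    ring
  have him : fr.sp '' tri η 4 = tri (η * r) (4 * r) := image_smul hρ hr _ _ fun y => by
    simp only [tri, mem_ofPred_eq, mul_pos_iff_of_pos_left hr, ← mul_add]
    rw [mul_comm η r, mul_comm 4 r, mul_lt_mul_iff_right₀ hr, mul_lt_mul_iff_right₀ hr]
  have himq : fr.sp '' bx tPP 1 = qo r := image_smul hρ hr _ _ fun y => by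
    simp only [bxPP, qo, mem_prod, mem_Ioo, mul_pos_iff_of_pos_left hr, one_pow,
      mul_lt_iff_lt_one_right hr]
  have hone : fr.ρ ^ 4 / |fr.det| = 1 := by
    rw [hdet]; change √r ^ 4 / _ = 1; rw [hρ4]; field_simp
  obtain ⟨l₀, l₁, l₂, hl⟩ := h4 _ _ _ 0 hsk' (by rw [hVi']; exact hVi) (by
    rw [En_frame0 hc fr (isOpen_tri _ _).measurableSet, him, hone, one_mul]; exact hEn)
  have hsub : bxc tPP 1 ⊆ trc 4 := fun y hy => by
    rw [bxcPP, one_pow] at hy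
    exact ⟨hy.1.1, hy.2.1, by linarith [hy.1.2, hy.2.2]⟩
  have hq : qc r ⊆ d.O := fun y hy => hO ⟨hy.1.1, hy.2.1, by linarith [hy.1.2, hy.2.2]⟩
  refine ⟨(setl fr l₀ l₁ l₂).atT T, rfl, rfl, by rw [cs.ty]; exact hcp,
    fun y hy => hsk'.sub (hsub hy), ?_, fun s hs => ⟨?_, ?_⟩⟩
  · change T₀ ≤ T - √r ^ 4
    rw [hρ4]; exact hT.le
  all_goals
    have htm : ((setl fr l₀ l₁ l₂).atT T).tm s = T + r ^ 2 * s := by
      change T + √r ^ 4 * s = _
      rw [hρ4]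
    have ht : T + r ^ 2 * s ∈ Ioo (T - r ^ 2) T :=
      ⟨by nlinarith [hs.1, sq_pos_of_pos hr], by nlinarith [hs.2, sq_pos_of_pos hr]⟩
  · have := En_frame hc ((setl fr l₀ l₁ l₂).atT T) (isOpen_bx tPP 1).measurableSet F s
    rw [htm] at this
    refine this.le.trans ?_
    change fr.ρ ^ 4 / |fr.det| * En F _ (fr.sp '' bx tPP 1) ≤ Λ
    rw [hone, one_mul, himq]
    exact (En_mono' (cs.en _ (hI _ ht)).1
      (SK.reg_qo (t := t') ⟨cs.gs, hsk.tI, cs.ty, hq⟩).sub).trans (cs.en _ (hI _ ht)).2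
  · have e1 : ∀ y, wv tPP (((setl fr l₀ l₁ l₂).atT T).pull u) (s, y) =
        (wv tPP (fr.pull u) (0, y) - af l₀ l₁ l₂ (0, y)) +
          (u (T + r ^ 2 * s, fr.sp y) - u (t', fr.sp y)) / r := fun y => by
      rw [← wv_setl]
      simp only [wv, Pi.sub_apply, Fr.pull, Fr.fm, htm]
      have e2 : (setl fr l₀ l₁ l₂).tm 0 = t' := by simp [Fr.tm, setl, hfr, dg]
      rw [e2]
      change (u (_, fr.sp y) - af _ _ _ (0, y)) / √r ^ 2 - u0 tPP (0, y) =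
        (u (_, fr.sp y) - af _ _ _ (0, y)) / √r ^ 2 - u0 tPP (0, y) + _
      rw [hρ2]
      simp only [Fr.atT]
      ring
    have hreg : Reg d (qo r) := SK.reg_qo (t := t') ⟨cs.gs, hsk.tI, cs.ty, hq⟩
    have hu : Lc d u := ⟨cs.gs.cont.mono d.U_subset, fun K _ _ => ⟨Λ, fun p _ hp => cs.c0 p hp⟩⟩
    have i0 : IntegrableOn (fun y => (u (T + r ^ 2 * s, y) - u (t', y)) ^ 2) (qo r) := by
      have a1 := (hu.pow 2).integrableOn hreg (hI _ ht)
      have a2 := (hu.pow 2).integrableOn hreg hsk.tI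
      refine Integrable.mono' ((a1.const_mul 2).add (a2.const_mul 2))
        (((hu.meas hreg (hI _ ht)).sub (hu.meas hreg hsk.tI)).pow 2)
        (Eventually.of_forall fun y => ?_)
      rw [Real.norm_of_nonneg (sq_nonneg _)]
      simp only [Pi.add_apply]
      nlinarith [sq_nonneg (u (T + r ^ 2 * s, y) + u (t', y))]
    have i1 : IntegrableOn (fun y => (wv tPP (fr.pull u) (0, y) - af l₀ l₁ l₂ (0, y)) ^ 2)
        (bx tPP 1) :=
      ((hsk'.gs.bd.lc.sub (lc_of_cont (f := af l₀ l₁ l₂) (by unfold af; fun_prop))).pow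
        2).integrableOn (hsk'.mono hsub).reg_bx hsk'.tI
    have i2 := ((hc.fi fr _ (isOpen_bx tPP 1).measurableSet).2.1
      fun y => (u (T + r ^ 2 * s, y) - u (t', y)) ^ 2)
    rw [himq, hdet] at i2
    have i3 := i2.1.2 i0
    simp only [e1]
    refine (sq_add_le i1 (by simpa only [div_pow] using i3.div_const (r ^ 2))).trans ?_
    simp only [div_pow]
    rw [integral_div, i2.2]
    have a3 := hdr _ ht
    have a4 : (r * r)⁻¹ * (∫ y in qo r, (u (T + r ^ 2 * s, y) - u (t', y)) ^ 2) / r ^ 2 ≤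
        ε ^ 2 / 4 := by
      rw [div_le_iff₀ (by positivity), inv_mul_le_iff₀ (by positivity)]
      nlinarith
    linarith

theorem start_ok (hc : Core) (h1 : StStartLL) (h2 : StStartPL) (h3 : StStartPP) : StStart := by
  intro d u F T₀ T Λ cs p hp ε hε
  have p1 : 0 ≤ p.1 := by simpa [cs.ty, okc] using hp.2.1
  have p2 : 0 ≤ p.2 := by simpa [cs.ty, okc] using hp.2.2
  rcases p1.eq_or_lt with a | a <;> rcases p2.eq_or_lt with b | b
  · have e : p = 0 := Prod.ext a.symm b.symm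
    obtain ⟨fr, f1, f2, f3, f4, f5, f6⟩ := h3 d u F T₀ T Λ ε cs hε (e ▸ hp.1)
    exact ⟨fr, tPP, f1.trans e.symm, f2, f3, by simp [a], by simp [b], f4, f5, f6⟩
  · obtain ⟨fr, f1, f2, f3, f4, f5, f6⟩ := h2 d u F T₀ T Λ ε p cs hε hp.1 a.symm b
    exact ⟨fr, tPL, f1, f2, f3, by simp [a], by simp [b.ne'], f4, f5, f6⟩
  · obtain ⟨fr, f1, f0⟩ := h2 d.swap (u ∘ sw) (F ∘ sw) T₀ T Λ ε p.swap
      ((hc.swap d u F).2.2.2.2.2.2.1 T₀ T Λ cs) hε hp.1 b.symm a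
    obtain ⟨f2, f3, f4, f5, f6⟩ := fin_swap hc cs.ty f0
    exact ⟨cj fr, (false, true), by simp [cj, f1], f2, f3, by simp [a.ne'], by simp [b], f4, f5, f6⟩
  · obtain ⟨fr, f1, f2, f3, f4, f5, f6⟩ := h1 d u F T₀ T Λ ε p cs hε hp.1 a b
    exact ⟨fr, tLL, f1, f2, f3, by simp [a.ne'], by simp [b.ne'], f4, f5, f6⟩

end Pool.Agent.P.MP_2cea5e_gt.I.S4
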