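import Pool.Agent.P.MP_2cea5e_gt.I.S.Tool2

/-!
Chapter I, section 2: the tangential second derivative on a cheap normal segment.
-/

open scoped ContDiff Topology ENNReal
open MeasureTheory Set Filter

noncomputable section

set_option linter.dupNamespace false

namespace Pool.Agent.P.MP_2cea5e_gt.I.S4

namespace StrA

theorem exists_le {f : ℝ → ℝ} {a b κ : ℝ} (hab : a < b) (hκ : 0 ≤ κ)
    (hf : ContinuousOn f (Ioo a b))
    (h : ∫⁻ x in Ioo a b, ENNReal.ofReal (f x) ≤ ENNReal.ofReal κ) :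
    ∃ x ∈ Ioo a b, f x ≤ κ / (b - a) := by
  have hv : volume (Ioo a b) = ENNReal.ofReal (b - a) := Real.volume_Ioo
  have hp : 0 < b - a := sub_pos.2 hab
  obtain ⟨x, hx, h1⟩ := exists_le_setLAverage (μ := volume) (s := Ioo a b)
    (f := fun x => ENNReal.ofReal (f x)) (by rw [hv]; simpa using hab)
    (by rw [hv]; exact ENNReal.ofReal_ne_top)
    ((hf.aemeasurable measurableSet_Ioo).ennreal_ofReal)
  refine ⟨x, hx, ?_⟩
  rw [setLAverage_eq, hv] at h1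
  have h2 := h1.trans (ENNReal.div_le_div_right h _)
  rw [← ENNReal.ofReal_div_of_pos hp] at h2
  exact (ENNReal.ofReal_le_ofReal_iff (div_nonneg hκ hp.le)).1 h2

end StrA

open StrA

theorem strA_ok (hc : Core) : StStrA := by
  intro d u F t a b Θ ε κ ha hΘ hκ h hD hch hΘε hint x hx
  have hJ : ∀ x ∈ Ioc 0 (2 * a), ((x, b) : ℝ × ℝ) ∈ d.S := fun x hx =>
    h.memPL ⟨⟨hx.1.le, hx.2⟩, rfl⟩ hx.1
  have hU : ∀ x ∈ Ioc 0 (2 * a), ((t, x, b) : X) ∈ d.U := fun x hx => h.memU (hJ x hx)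
  have L := hl hc h.gs h.tI hJ
  have p11 : ∀ x ∈ Ioc 0 (2 * a), 0 < h11 u (t, x, b) := fun x hx => h.gs.p11 _ (hU x hx)
  have s1 : Icc a (2 * a) ⊆ Ioc 0 (2 * a) := fun y hy => ⟨ha.trans_le hy.1, hy.2⟩
  obtain ⟨x₀, hx₀, e₀⟩ := exists_hasDerivAt_eq_slope (fun x => D e1 u (t, x, b))
    (fun x => h11 u (t, x, b)) (show a < 2 * a by linarith)
    (fun y hy => (L.cu.d2 y (s1 hy)).continuousAt.continuousWithinAt)
    fun y hy => L.cu.d2 y (s1 (Ioo_subset_Icc_self hy))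
  have x0 : 0 < x₀ := ha.trans hx₀.1
  have s2 : Ioc 0 x₀ ⊆ Ioc 0 (2 * a) := Ioc_subset_Ioc_right hx₀.2.le
  have m0 : x₀ ∈ Ioc 0 (2 * a) := ⟨x0, hx₀.2.le⟩
  have b0 : 2 / Θ ≤ (h11 u (t, x₀, b))⁻¹ / (x₀ - 0) := by
    have q := p11 x₀ m0
    have e1 : h11 u (t, x₀, b) * a ≤ Θ / 4 := by
      rw [e₀, show 2 * a - a = a by ring, div_mul_cancel₀ _ ha.ne']; exact hD
    rw [sub_zero, div_le_div_iff₀ hΘ x0, inv_mul_eq_div, le_div_iff₀ q]
    nlinarith [hx₀.2]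
  obtain ⟨m', m'', cm, hm⟩ := L.m
  have hh : ∀ y ∈ Ioc 0 a, h11 u (t, y, b) ≤ Θ / y := by
    intro y hy
    have q := p11 y ⟨hy.1, by linarith [hy.2]⟩
    have := conc_ok.2.1 _ m' m'' _ 0 x₀ ε y x0 (Green.C2On_mono cm s2)
      (Green.cheap_mono hch le_rfl hx₀.2.le) (fun s hs => hm s (s2 (Ioo_subset_Ioc_self hs)))
      (fun s hs => (inv_pos.2 (p11 s (s2 (Ioo_subset_Ioc_self hs)))).le)
      ⟨hy.1, hy.2.trans hx₀.1.le⟩
    have e1 : ε ≤ 1 / Θ := by rw [le_div_iff₀ hΘ]; linarith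
    have e2 : y * (1 / Θ) ≤ (h11 u (t, y, b))⁻¹ := by
      refine le_trans ?_ this
      rw [sub_zero y]
      refine mul_le_mul_of_nonneg_left ?_ hy.1.le
      have : 2 / Θ = 1 / Θ + 1 / Θ := by ring
      linarith
    rw [le_div_iff₀ hy.1]
    rw [mul_one_div, div_le_iff₀ hΘ, inv_mul_eq_div, le_div_iff₀ q] at e2
    linarith
  obtain ⟨C, C0, hC⟩ := face hc h.gs h.tI (A := Icc 0 (2 * a) ×ˢ {b})
    (isCompact_Icc.prod isCompact_singleton)
    fun y hy => h.memSc hy (fun _ => hy.1.1) (by simp)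
  obtain ⟨y', y'', cy, hy⟩ := L.q (0, 1) (by simp)
  rw [iq_e2] at cy hy
  have s3 : Ioc 0 a ⊆ Ioc 0 (2 * a) := Ioc_subset_Ioc_right (by linarith)
  have p22 : ∀ x ∈ Ioc 0 (2 * a), 0 < i22 u (t, x, b) := fun x hx => i22_pos hc h.gs (hU x hx)
  have N := (hNorm.1 _ y' y'' _ a Θ ε (C + 1) ha hΘ.le (Green.C2On_mono cy s3)
    (Green.cheap_mono hch le_rfl (by linarith)) (by linarith)
    (fun x hx => ⟨p22 x (s3 hx), by
      have := (hC (x, b) ⟨⟨hx.1.le, (s3 hx).2⟩, rfl⟩ (hJ x (s3 hx))).2.2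
      rw [h.ty] at this
      simp only [om, Bool.false_eq_true, if_false, one_pow, mul_one] at this
      linarith [(abs_le.1 this).2]⟩)
    fun x hx => by
      have hx' := s3 (Ioo_subset_Ioc_self hx)
      exact (hy x hx').trans (mul_le_mul_of_nonneg_left (hh x (Ioo_subset_Ioc_self hx))
        (mul_nonneg (h.F0 (hJ x hx')) (p22 x hx').le))).2.1 (1 / 4) (by norm_num) (by linarith)
  have s4 : Ioo (a / 4) (a / 2) ⊆ Ioc 0 a := fun y hy => ⟨by linarith [hy.1], by linarith [hy.2]⟩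
  obtain ⟨x₁, hx₁, e₁⟩ := exists_le (f := fun x => dq u (t, x, b)) (by linarith) hκ.le
    ((lc_dq hc h.gs).cont.comp (by fun_prop) fun y hy => hU y (s3 (s4 hy))) hint
  have n1 := N x₁ ⟨by linarith [hx₁.1], hx₁.2.le⟩ x hx
  have u1 := hU x₁ (s3 (s4 hx₁))
  have n2 : i22 u (t, x₁, b) ≤ 4 * Θ / a * (4 * κ / a) ^ 4 := by
    rw [i22_eq, div_eq_mul_inv, ← dq_pow hc h.gs u1]
    refine mul_le_mul ((hh x₁ (s4 hx₁)).trans ?_) (pow_le_pow_left₀ (dq_nonneg _ _) ?_ 4)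
      (pow_nonneg (dq_nonneg _ _) 4) (by positivity)
    · rw [div_le_div_iff₀ (s4 hx₁).1 ha]; nlinarith [hx₁.1]
    · refine e₁.trans (le_of_eq ?_)
      field_simp
      ring
  have n3 := one_le_h22_i22 hc h.gs (hU x (s3 hx))
  have q := (h.api hc).p22 _ (hU x (s3 hx))
  have n4 : i22 u (t, x, b) ≤ 32 * Θ / a * (4 * κ / a) ^ 4 := by
    have : 32 * Θ / a * (4 * κ / a) ^ 4 = 2 / (1 / 4) * (4 * Θ / a * (4 * κ / a) ^ 4) := by ring
    rw [this]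
    exact n1.trans (mul_le_mul_of_nonneg_left n2 (by norm_num))
  nlinarith [mul_le_mul_of_nonneg_left n4 q.le]

end Pool.Agent.P.MP_2cea5e_gt.I.S4
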