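import Pool.Agent.P.MP_2cea5e_gt.I.S.Tool2

/-!
Chapter I, section 2: quantitative strict convexity along an edge.
-/

open scoped ContDiff Topology ENNReal
open MeasureTheory Set Filter

noncomputable section

set_option linter.dupNamespace false

namespace Pool.Agent.P.MP_2cea5e_gt.I.S4

namespace Strict

/-- A second derivative that is large on most of the middle half gives a large second
difference. -/
theorem green_low {y y' y'' : ℝ → ℝ} {L μ : ℝ} {B : Set ℝ} (hL : 0 < L) (hμ : 0 ≤ μ)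
    (h : C2On y y' y'' (Icc (-L) L)) (h0 : ∀ s ∈ Icc (-L) L, 0 ≤ y'' s)
    (hB : volume B ≤ ENNReal.ofReal (L / 2))
    (hg : ∀ s ∈ Ioo (-(L / 2)) (L / 2), s ∉ B → μ ≤ y'' s) :
    L ^ 2 * μ / 4 ≤ y L + y (-L) - 2 * y 0 := by
  have hab : -L < L := by linarith
  have hx : (0 : ℝ) ∈ Icc (-L) L := ⟨by linarith, hL.le⟩
  have e1 := green_ok y y' y'' (-L) L 0 hab h hx
  have hsub : Icc (-(L / 2)) (L / 2) ⊆ Ioo (-L) L := Icc_subset_Ioo (by linarith) (by linarith)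
  have hcl : IsClosed (Icc (-(L / 2)) (L / 2) ∩ y'' ⁻¹' Ici μ) :=
    (h.c2.mono (hsub.trans Ioo_subset_Icc_self)).preimage_isClosed_of_isClosed isClosed_Icc
      isClosed_Ici
  set S := Icc (-(L / 2)) (L / 2) ∩ y'' ⁻¹' Ici μ with hS
  have hfin : volume S ≠ ⊤ :=
    ((measure_mono inter_subset_left).trans_lt measure_Icc_lt_top).ne
  have e2 : L / 2 ≤ volume.real S := by
    have c1 : Ioo (-(L / 2)) (L / 2) ⊆ S ∪ B := fun s hs => by
      by_cases hb : s ∈ B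
      · exact Or.inr hb
      · exact Or.inl ⟨Ioo_subset_Icc_self hs, hg s hs hb⟩
    have c2 := ((measure_mono c1).trans (measure_union_le S B)).trans
      (add_le_add le_rfl hB)
    rw [Real.volume_Ioo, ← ofReal_measureReal hfin,
      ← ENNReal.ofReal_add measureReal_nonneg (by linarith),
      ENNReal.ofReal_le_ofReal_iff (add_nonneg measureReal_nonneg (by linarith))] at c2
    linarith
  have hint := Green.int_green 0 h
  have hS' : S ⊆ Ioo (-L) L := inter_subset_left.trans hsub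
  have e3 : L / 4 * μ * volume.real S ≤ ∫ s in S, green (-L) L 0 s * y'' s := by
    refine setIntegral_ge_of_const_le_real hcl.measurableSet hfin (fun s hs => ?_)
      (hint.mono_set hS')
    refine mul_le_mul ?_ hs.2 hμ (Green.green_nonneg hab hx (Ioo_subset_Icc_self (hS' hs)))
    obtain ⟨s1, s2⟩ := hs.1
    rw [green, le_div_iff₀ (by linarith)]
    rcases le_total 0 s with k | k
    · rw [min_eq_left k, max_eq_right k]; nlinarith
    · rw [min_eq_right k, max_eq_left k]; nlinarith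
  have e4 : ∫ s in S, green (-L) L 0 s * y'' s ≤ ∫ s in Ioo (-L) L, green (-L) L 0 s * y'' s :=
    setIntegral_mono_set hint
      ((ae_restrict_iff' measurableSet_Ioo).2 (Eventually.of_forall fun s hs =>
        mul_nonneg (Green.green_nonneg hab hx (Ioo_subset_Icc_self hs))
          (h0 s (Ioo_subset_Icc_self hs)))) hS'.eventuallyLE
  have e5 : chord y (-L) L 0 = (y L + y (-L)) / 2 := by
    rw [chord]; field_simp; ring
  have e6 := mul_le_mul_of_nonneg_left e2 (show 0 ≤ L / 4 * μ by positivity)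
  nlinarith

theorem log_bound {q : ℝ} (hq : 0 < q) : 1 - Real.log (q ^ 4) ≤ 4 / q := by
  have h := Real.log_le_sub_one_of_pos (inv_pos.2 hq)
  rw [Real.log_inv] at h
  rw [Real.log_pow, div_eq_mul_inv]
  push_cast
  linarith

end Strict

open Strict

theorem strict_ok (hc : Core) (h : StStrA) : StStrict := by
  intro a₀ L₀ Λ ha₀ ha1 hL₀ hL1 hΛ
  have hΛ0 : 0 < Λ := by linarith
  obtain ⟨σ, hσ, hσ1, hσ2⟩ : ∃ σ : ℝ, 0 < σ ∧ σ ≤ a₀ / 4 ∧ σ * (2048 * Λ ^ 2) ≤ 1 := by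
    have hd : 0 < 2048 * Λ ^ 2 := by positivity
    refine ⟨min (a₀ / 4) (2048 * Λ ^ 2)⁻¹, lt_min (by linarith) (inv_pos.2 hd), min_le_left _ _, ?_⟩
    calc _ ≤ (2048 * Λ ^ 2)⁻¹ * (2048 * Λ ^ 2) := mul_le_mul_of_nonneg_right (min_le_right _ _) hd.le
      _ = 1 := inv_mul_cancel₀ hd.ne'
  have hσ3 : σ ≤ 1 := by linarith
  refine ⟨min (σ ^ 4) (σ ^ 21 / (2 ^ 28 * Λ ^ 5)), lt_min (by positivity) (by positivity), ?_⟩
  intro d u F t hS hD hE hT L hL x hx0 hx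
  obtain ⟨l, hl0, rfl⟩ : ∃ l : ℝ, 0 < l ∧ L = l ^ 2 :=
    ⟨√L, Real.sqrt_pos.2 hL.1, (Real.sq_sqrt hL.1.le).symm⟩
  have hl2 : l ^ 2 ≤ 1 := hL.2.trans hL1
  have hl1 : l ≤ 1 := by nlinarith
  have hq : 0 < σ * l := by positivity
  have ha : 0 < (σ * l) ^ 4 := by positivity
  have hxa : x ≤ (σ * l) ^ 4 := by
    have := hx.trans (mul_le_mul_of_nonneg_right (min_le_left _ _) (by positivity))
    calc x ≤ σ ^ 4 * (l ^ 2) ^ 2 := this
      _ = (σ * l) ^ 4 := by ring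
  have haa : (σ * l) ^ 4 ≤ a₀ / 4 := by
    have e1 : σ * l ≤ σ := by nlinarith
    have e2 : (σ * l) ^ 4 ≤ σ * l := pow_le_of_le_one hq.le (by linarith) (by norm_num)
    linarith
  generalize hqq : σ * l = q at hq ha hxa haa
  have hreg : Reg d (ro 0 a₀ L₀) := hS.reg_ro le_rfl le_rfl le_rfl
  have hJ : Ioo (-(l ^ 2 / 2)) (l ^ 2 / 2) ⊆ Ioo (-L₀) L₀ :=
    Ioo_subset_Ioo (by linarith [hL.1, hL.2]) (by linarith [hL.1, hL.2])
  have b1 := cheb_h hc hS.gs hS.tI hreg hE (a := 0) (a' := 2 * q ^ 4) (ε := q / (512 * Λ))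
    (J := Ioo (-(l ^ 2 / 2)) (l ^ 2 / 2)) measurableSet_Ioo (by positivity) (by positivity)
    (prod_mono (Ioo_subset_Ioo le_rfl (by linarith)) hJ)
  have hsub : Ioo (q ^ 4 / 4) (q ^ 4 / 2) ×ˢ Ioo (-(l ^ 2 / 2)) (l ^ 2 / 2) ⊆ ro 0 a₀ L₀ :=
    prod_mono (Ioo_subset_Ioo (by positivity) (by linarith)) hJ
  have b2 := mk_h (g := fun y => dq u (t, y)) (κ := 4 * Λ / l ^ 2) (Λ := Λ) measurableSet_Ioo
    measurableSet_Ioo (((lc_dq hc hS.gs).slice hS.tI).mono (hsub.trans hreg.sub)) (by positivity)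
    (lint_le ((int_dq hc hS.gs hS.tI hreg).mono_set hsub)
      (Eventually.of_forall fun _ => dq_nonneg _ _)
      ((Dt_mono hc hS.gs hS.tI hreg hsub).trans hT))
  have n1 : (2 * q ^ 4 - 0) * Λ / (q / (512 * Λ)) ^ 2 ≤ l ^ 2 / 4 := by
    have e1 : (2 * q ^ 4 - 0) * Λ / (q / (512 * Λ)) ^ 2 = 2 * 512 ^ 2 * (σ ^ 2 * Λ ^ 3) * l ^ 2 := by
      rw [← hqq]; field_simp; ring
    have e2 : (σ * (2048 * Λ ^ 2)) ^ 2 ≤ 1 := pow_le_one₀ (by positivity) hσ2
    have e3 : σ ^ 2 * Λ ^ 3 * 1 ≤ σ ^ 2 * Λ ^ 3 * Λ := mul_le_mul_of_nonneg_left hΛ (by positivity)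
    have e4 : 2 * 512 ^ 2 * (σ ^ 2 * Λ ^ 3) ≤ 1 / 4 := by nlinarith
    rw [e1]
    nlinarith [hL.1]
  have n2 : Λ / (4 * Λ / l ^ 2) = l ^ 2 / 4 := by field_simp
  have hB := (measure_union_le _ _).trans (add_le_add (b1.trans (ENNReal.ofReal_le_ofReal n1))
    (b2.trans (ENNReal.ofReal_le_ofReal n2.le)))
  rw [← ENNReal.ofReal_add (by positivity) (by positivity),
    show l ^ 2 / 4 + l ^ 2 / 4 = l ^ 2 / 2 by ring] at hB
  have hmem : ∀ s ∈ Icc (-(l ^ 2)) (l ^ 2), ((x, s) : ℝ × ℝ) ∈ d.S := fun s hs =>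
    hS.memPL ⟨⟨hx0.le, by linarith⟩, by linarith [hs.1, hL.2], hs.2.trans hL.2⟩ hx0
  have hpos : ∀ s ∈ Icc (-(l ^ 2)) (l ^ 2), 0 ≤ h22 u (t, x, s) := fun s hs => by
    have e1 := one_le_h22_i22 hc hS.gs (hS.memU (hmem s hs))
    have e2 := i22_pos hc hS.gs (hS.memU (hmem s hs))
    by_contra k
    nlinarith [mul_pos (neg_pos.2 (not_le.1 k)) e2]
  have key := green_low (μ := q ^ 21 * l ^ 8 / (2 ^ 26 * Λ ^ 5)) hL.1 (by positivity)
    (vl hc hS.gs hS.tI hmem).cu hpos hB fun b hb hbad => by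
      rw [mem_union, not_or] at hbad
      have g1 : Cheap (fun x => F (t, x, b)) 0 (2 * q ^ 4) (q / (512 * Λ)) := by
        by_contra k; exact hbad.1 ⟨hb, k⟩
      have g2 := not_lt.1 fun k => hbad.2 ⟨hb, k⟩
      have hb' := hJ hb
      have d1 := abs_le.1 (hD (2 * q ^ 4, b) ⟨⟨by positivity, by linarith⟩, hb'⟩)
      have d2 := abs_le.1 (hD (q ^ 4, b) ⟨⟨ha, by linarith⟩, hb'⟩)
      have d3 := mul_le_mul_of_nonneg_left (log_bound hq) hΛ0.le
      have d4 : Λ * (1 - Real.log (2 * q ^ 4)) ≤ Λ * (1 - Real.log (q ^ 4)) :=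
        mul_le_mul_of_nonneg_left
          (sub_le_sub_left (Real.log_le_log ha (by linarith)) 1) hΛ0.le
      have g3 := h d u F t (q ^ 4) b (32 * Λ / q) (q / (512 * Λ)) (4 * Λ / l ^ 2) ha
        (by positivity) (by positivity)
        (hS.mono (prod_mono (Icc_subset_Icc le_rfl (by linarith))
          (singleton_subset_iff.2 (Ioo_subset_Icc_self hb'))))
        (by
          have : 32 * Λ / q / 4 = 2 * (Λ * (4 / q)) := by ring
          rw [this]
          linarith [d1.2, d2.1])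
        g1 (le_of_eq (by field_simp; norm_num)) g2 x ⟨hx0, hxa⟩
      have e1 : 32 * (32 * Λ / q) / q ^ 4 * (4 * (4 * Λ / l ^ 2) / q ^ 4) ^ 4 =
          2 ^ 26 * Λ ^ 5 / (q ^ 21 * l ^ 8) := by field_simp; norm_num
      rw [e1, div_mul_eq_mul_div, one_le_div (by positivity)] at g3
      rw [div_le_iff₀ (by positivity)]
      linarith
  refine le_trans ?_ key
  calc min (σ ^ 4) (σ ^ 21 / (2 ^ 28 * Λ ^ 5)) * (l ^ 2) ^ 20
      ≤ σ ^ 21 / (2 ^ 28 * Λ ^ 5) * l ^ 33 := by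
        refine mul_le_mul (min_le_right _ _) ?_ (by positivity) (by positivity)
        rw [← pow_mul]
        exact pow_le_pow_of_le_one hl0.le hl1 (by norm_num)
    _ = (l ^ 2) ^ 2 * (q ^ 21 * l ^ 8 / (2 ^ 26 * Λ ^ 5)) / 4 := by
        rw [← hqq]; field_simp; ring

end Pool.Agent.P.MP_2cea5e_gt.I.S4
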