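import Pool.Agent.P.MP_2cea5e_gt.I.S.Tool2

/-!
Chapter I, section 2: from one time to the cylinder below the final time.
-/

open scoped ContDiff Topology ENNReal
open MeasureTheory Set Filter

noncomputable section

set_option linter.dupNamespace false

namespace Pool.Agent.P.MP_2cea5e_gt.I.S4

namespace Time

theorem vol_iv (b : Bool) : volume (iv b 1) ≤ 2 := by
  cases b
  · simp only [iv, Bool.false_eq_true, if_false, Real.volume_Ioo]
    norm_num
  · simp only [iv, if_true, Real.volume_Ioo]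
    norm_num

theorem vol_bx (τ : Ty) : volume (bx τ 1) ≤ ENNReal.ofReal 4 := by
  rw [bx, Measure.volume_eq_prod, Measure.prod_prod]
  refine (mul_le_mul' (vol_iv _) (vol_iv _)).trans ?_
  norm_num

end Time

theorem time_ok (hc : Core) (h : StDr1) : StTime := by
  intro d u F T₀ T Λ ε cs hε
  have hΛ := cs.one
  have hT := cs.lt
  have e0' : 0 < min 1 (min (T - T₀) (ε ^ 2 / (10 * Λ))) :=
    lt_min one_pos (lt_min (by linarith) (by positivity))
  have e1' : min 1 (min (T - T₀) (ε ^ 2 / (10 * Λ))) ≤ 1 := min_le_left _ _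
  have e2' : min 1 (min (T - T₀) (ε ^ 2 / (10 * Λ))) ≤ T - T₀ :=
    (min_le_right _ _).trans (min_le_left _ _)
  have e3' : min 1 (min (T - T₀) (ε ^ 2 / (10 * Λ))) * (10 * Λ) ≤ ε ^ 2 :=
    (le_div_iff₀ (by positivity)).1 ((min_le_right _ _).trans (min_le_right _ _))
  refine ⟨_, e0', ?_⟩
  generalize min 1 (min (T - T₀) (ε ^ 2 / (10 * Λ))) = ε' at *
  intro τ fr ρ₀ t' A hρ₀ ht' hlt hO hg
  have hρ := fr.ρ_pos
  have hdet : 0 < |fr.det| := abs_pos.2 fr.det_ne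
  have hρ4 : fr.ρ ^ 4 ≤ T - T₀ :=
    (pow_le_of_le_one hρ.le (hg.hi.trans e1') (by norm_num)).trans (hg.hi.trans e2')
  have hρ04 : ρ₀ ^ 4 ≤ fr.ρ ^ 4 := pow_le_pow_left₀ hρ₀.le hg.lo 4
  have hfac : fr.ρ ^ 4 / |fr.det| ≤ ε' := (div_le_iff₀ hdet).2 hg.fac
  have hreg : Reg d (fr.sp '' bx τ 1) :=
    (hc.fg.1 fr d τ hg.cp).2.2.2.2.2.1 _ (reg_bx (d := fr.dm d τ) hO)
  have hbm : MeasurableSet (bx τ 1) := (isOpen_bx τ 1).measurableSet
  have hEn : ∀ r ∈ d.I, En F r (fr.sp '' bx τ 1) ≤ Λ := fun r hr =>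
    (En_mono' (cs.en r hr).1 hreg.sub).trans (cs.en r hr).2
  refine ⟨rfl, hg.cp, hO, by show T₀ ≤ T - fr.ρ ^ 4; linarith, fun s hs => ?_⟩
  have hp : 0 < fr.ρ ^ 4 := by positivity
  have a1 : -fr.ρ ^ 4 < fr.ρ ^ 4 * s := by nlinarith [hs.1]
  have a2 : fr.ρ ^ 4 * s < 0 := mul_neg_of_pos_of_neg hp hs.2
  set t := T + fr.ρ ^ 4 * s with htdef
  have ht : t ∈ d.I := by
    rw [cs.tI]
    exact ⟨by linarith, by linarith⟩
  have ht'' := ht'
  rw [cs.tI] at ht''
  have habs : |t - t'| ≤ fr.ρ ^ 4 := abs_le.2 ⟨by linarith [ht''.2], by linarith⟩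
  constructor
  · have e := En_frame hc (fr.atT T) hbm F s
    refine le_trans (le_of_eq e) ?_
    change fr.ρ ^ 4 / |fr.det| * En F t (fr.sp '' bx τ 1) ≤ Λ
    have := mul_le_mul (hfac.trans e1') (hEn t ht) (En_nonneg _ _ _) zero_le_one
    linarith
  · have huI : uIcc t' t ⊆ d.I := by
      rw [cs.tI] at ht ⊢
      exact ordConnected_Ioo.uIcc_subset ht'' ht
    have h1 := h d u F _ t t' t 0 cs.gs hreg huI ht
    have h2 := intervalIntegral.norm_integral_le_of_norm_le_const (a := t') (b := t) (C := Λ)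
      (f := fun r => ∫ y in fr.sp '' bx τ 1, (D e0 u (r, y) - 0 * D e0 u (t, y)) ^ 2)
      (fun r hr => by
        have hr' := huI (uIoc_subset_uIcc hr)
        rw [Real.norm_eq_abs, abs_of_nonneg (integral_nonneg fun _ => sq_nonneg _)]
        refine le_trans ?_ (hEn r hr')
        refine integral_mono_of_nonneg (Eventually.of_forall fun _ => sq_nonneg _)
          (int_F2 cs.gs hr' hreg) ?_
        filter_upwards [ae_restrict_mem hreg.ms] with y hy
        rw [zero_mul, sub_zero, ← sq_abs]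
        exact pow_le_pow_left₀ (abs_nonneg _) (cs.gs.f2 _ ⟨hr', hreg.sub hy⟩) 2)
    rw [Real.norm_eq_abs] at h2
    simp only [zero_mul, mul_zero, sub_zero] at h1 h2
    have h3 : ∫ y in fr.sp '' bx τ 1, (u (t, y) - u (t', y)) ^ 2 ≤ fr.ρ ^ 4 * (Λ * fr.ρ ^ 4) :=
      h1.trans (mul_le_mul habs (h2.trans (mul_le_mul_of_nonneg_left habs (by linarith)))
        (abs_nonneg _) hp.le)
    have hi : IntegrableOn (fun y => (u (t, y) - u (t', y)) ^ 2) (fr.sp '' bx τ 1) := by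
      obtain ⟨K, k1, k2, k3⟩ := hreg.cpt
      have c : ∀ r ∈ d.I, ContinuousOn (fun y => u (r, y)) K := fun r hr =>
        cs.gs.cont.comp (continuous_const.prodMk continuous_id).continuousOn
          fun _ hy => ⟨hr, k3 hy⟩
      exact ((((c t ht).sub (c t' ht')).pow 2).integrableOn_compact k1).mono_set k2
    have hi' := ((hc.fi fr _ hbm).2.1 _).1.2 hi
    have h4 := int_frame hc fr hbm fun y => (u (t, y) - u (t', y)) ^ 2
    have hfin : volume (bx τ 1) ≠ ⊤ := ((Time.vol_bx τ).trans_lt ENNReal.ofReal_lt_top).ne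
    have ic : IntegrableOn (fun _ : ℝ × ℝ => 2 * ε' ^ 2) (bx τ 1) := integrableOn_const hfin
    have h5 := integral_mono_of_nonneg (μ := volume.restrict (bx τ 1))
      (f := fun y => wv τ ((fr.atT T).pull u) (s, y) ^ 2)
      (Eventually.of_forall fun _ => sq_nonneg _) (ic.add (hi'.const_mul (2 / fr.ρ ^ 4))) (by
      filter_upwards [ae_restrict_mem hbm] with y hy
      have e : wv τ ((fr.atT T).pull u) (s, y) =
          wv τ (fr.pull u) (0, y) + (u (t, fr.sp y) - u (t', fr.sp y)) / fr.ρ ^ 2 := by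
        have e1 : (fr.atT T).pull u (s, y) =
          (u (t, fr.sp y) - af fr.l0 fr.l1 fr.l2 (0, y)) / fr.ρ ^ 2 := rfl
        have e2 : fr.pull u (0, y) =
            (u (t', fr.sp y) - af fr.l0 fr.l1 fr.l2 (0, y)) / fr.ρ ^ 2 := by
          simp only [Fr.pull, fm_zero, hg.t1]
        have e3 : u0 τ (s, y) = u0 τ (0, y) := rfl
        simp only [wv, Pi.sub_apply, e1, e2, e3]
        ring
      have b1 : wv τ (fr.pull u) (0, y) ^ 2 ≤ ε' ^ 2 := by
        rw [← sq_abs]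
        exact pow_le_pow_left₀ (abs_nonneg _) (hg.cl y hy) 2
      have e' : 2 / fr.ρ ^ 4 * (u (t, fr.sp y) - u (t', fr.sp y)) ^ 2 =
          2 * ((u (t, fr.sp y) - u (t', fr.sp y)) / fr.ρ ^ 2) ^ 2 := by ring
      simp only [Pi.add_apply]
      rw [e, e']
      nlinarith [sq_nonneg (wv τ (fr.pull u) (0, y) -
        (u (t, fr.sp y) - u (t', fr.sp y)) / fr.ρ ^ 2)])
    refine h5.trans ?_
    rw [integral_add' ic (hi'.const_mul _), integral_const_mul (2 / fr.ρ ^ 4), h4, setIntegral_const,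
      smul_eq_mul]
    have h6 : volume.real (bx τ 1) ≤ 4 :=
      ENNReal.toReal_le_of_le_ofReal (by norm_num) (Time.vol_bx τ)
    have h7 := mul_le_mul_of_nonneg_right h6 (show 0 ≤ 2 * ε' ^ 2 by positivity)
    have h8 : 2 / fr.ρ ^ 4 * (|fr.det|⁻¹ * ∫ y in fr.sp '' bx τ 1, (u (t, y) - u (t', y)) ^ 2) ≤
        2 / fr.ρ ^ 4 * (|fr.det|⁻¹ * (fr.ρ ^ 4 * (Λ * fr.ρ ^ 4))) := by gcongr
    have h9 : 2 / fr.ρ ^ 4 * (|fr.det|⁻¹ * (fr.ρ ^ 4 * (Λ * fr.ρ ^ 4))) =
        2 * Λ * (fr.ρ ^ 4 / |fr.det|) := by field_simp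
    have h10 := mul_le_mul_of_nonneg_left hfac (show 0 ≤ 2 * Λ by linarith)
    have h11' : ε' * ε' ≤ ε' * Λ := mul_le_mul_of_nonneg_left (e1'.trans hΛ) e0'.le
    nlinarith

end Pool.Agent.P.MP_2cea5e_gt.I.S4
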