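import Pool.Agent.P.MP_2cea5e_gt.I.S.Tool2

/-!
Chapter I, section 2: an interior point with a cheap annulus.
-/

open scoped ContDiff Topology ENNReal
open MeasureTheory Set Filter

noncomputable section

set_option linter.dupNamespace false

namespace Pool.Agent.P.MP_2cea5e_gt.I.S4

namespace LLc

variable {d : Dm} {u F : X → ℝ} {t : ℝ}

theorem bad_lt {P : ℝ → Prop} {θ k : ℝ} (hk : 0 < k)
    (h : volume {b ∈ {b : ℝ | k / 8 < |b| ∧ |b| < θ} | ¬P b} ≤ ENNReal.ofReal (k / 2)) :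
    volume (Ioo (-θ) θ \ {b | P b}) < ENNReal.ofReal k := by
  refine vol_lt_of_cover (S₁ := Icc (-(k / 8)) (k / 8)) (a := k / 4) (fun b hb => ?_)
    (by positivity) (by positivity) ?_ h (by linarith)
  · by_cases h1 : |b| ≤ k / 8
    · exact Or.inl (abs_le.1 h1)
    · exact Or.inr ⟨⟨not_le.1 h1, abs_lt.2 hb.1⟩, hb.2⟩
  · rw [Real.volume_Icc]
    exact ENNReal.ofReal_le_ofReal (by linarith)

theorem ms (a θ : ℝ) : MeasurableSet {b : ℝ | a < |b| ∧ |b| < θ} :=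
  ((isOpen_lt continuous_const continuous_abs).inter
    (isOpen_lt continuous_abs continuous_const)).measurableSet

theorem hq_swf (hc : Core) (hg : GS d u F) (ht : t ∈ d.I) {y : ℝ × ℝ} (hy : y.swap ∈ d.S)
    (e : ℝ × ℝ) : hq ((swf t).pull u) e (0, y) = hq u e.swap (t, y.swap) := by
  have h := (frame_pt hc hg ht (fr := swf t) rfl (y := y) (by rwa [swf_sp])).2.1 e e
  have e1 : (swf t).S e = e.swap := by simp [swf, Fr.S, Prod.swap]
  have e2 : (swf t).ρ = 1 := rfl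
  rw [e1, e2, swf_sp, one_pow, div_one] at h
  exact h

theorem det_swf (t : ℝ) : |(swf t).det| = 1 := by simp [swf, Fr.det]

end LLc

open LLc

theorem llc_ok (hc : Core) (h1 : StLLa) (h2 : StLLb) : StLLc := by
  intro Λ ε hΛ hε
  obtain ⟨θ, η', θ0, θ1, η0, H⟩ := h2 Λ ε hΛ hε
  obtain ⟨k, k0, k1, k2⟩ : ∃ k : ℝ, 0 < k ∧ k ≤ η' ∧ k ≤ θ :=
    ⟨min η' θ, lt_min η0 θ0, min_le_left _ _, min_le_right _ _⟩
  have hΛ0 : 0 < Λ := by linarith
  refine ⟨k / 8, k / (4 * (200 * Λ) ^ 2), by positivity, by linarith, by positivity,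
    fun D₀ hD => ?_⟩
  obtain ⟨ρ₀, ρ0, H⟩ := H D₀ hD
  refine ⟨ρ₀, ρ0, fun d u F t h hgr hE he hDt => ?_⟩
  have hR : Reg d (bx tLL 1) := h.reg_bx
  have hA : Reg d (bx tLL 1 \ bxc tLL (k / 8)) :=
    hR.mono (hR.ms.diff (isCompact_bxc _ _).measurableSet) sdiff_subset
  have hcalc : (1 - -1) * (k / (4 * (200 * Λ) ^ 2)) / (1 / (200 * Λ)) ^ 2 = k / 2 := by
    field_simp
    norm_num
  have b1 := cheb_h hc h.gs h.tI hA he (ms (k / 8) θ) (ε := 1 / (200 * Λ)) (a := -1) (a' := 1)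
    (by positivity) (by norm_num) (fun y hy => ⟨mem_bxLL.2 ⟨abs_lt.2 hy.1, by linarith [hy.2.2]⟩,
      fun H => absurd (mem_bxcLL.1 H).2 (not_le.2 hy.2.1)⟩)
  have b2 := cheb_v hc h.gs h.tI hA he (ms (k / 8) θ) (ε := 1 / (200 * Λ)) (a := -1) (a' := 1)
    (by positivity) (by norm_num) (fun y hy => ⟨mem_bxLL.2 ⟨by linarith [hy.1.2], abs_lt.2 hy.2⟩,
      fun H => absurd (mem_bxcLL.1 H).1 (not_le.2 hy.1.1)⟩)
  rw [hcalc] at b1 b2
  have c1 := bad_lt k0 b1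
  have c2 := bad_lt k0 b2
  have hs : Ioo (-θ) (-θ + k) ⊆ Ioo (-θ) θ := Ioo_subset_Ioo le_rfl (by linarith)
  obtain ⟨b₀, m1, g1⟩ := exists_good c1 hs
  obtain ⟨a₀, m2, g2⟩ := exists_good c2 hs
  have n1 : |b₀| ≤ θ := (abs_lt.2 (hs m1)).le
  have n2 : |a₀| ≤ θ := (abs_lt.2 (hs m2)).le
  obtain ⟨p1, p2, p3⟩ := h1 Λ θ d u F t a₀ b₀ hΛ θ0 θ1 h hgr n2 n1 g2 g1
  have s1 : bxc tLL θ ⊆ bxc tLL 1 := bxc_mono _ θ0.le (by linarith)
  have s2 : bx tLL θ ⊆ bx tLL 1 := bx_mono _ θ0.le (by linarith)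
  have hk : ENNReal.ofReal k ≤ ENNReal.ofReal η' := ENNReal.ofReal_le_ofReal k1
  rcases le_total (h22 u (t, a₀, b₀)) (h11 u (t, a₀, b₀)) with hle | hle
  · obtain ⟨fr, f1, f2⟩ := H d u F t (a₀, b₀) _ (h.mono s1)
      ((En_mono h.gs h.tI hR s2).trans hE) ((Dt_mono hc h.gs h.tI hR s2).trans hDt)
      (mem_bxcLL.2 ⟨n2, n1⟩) hle p1 (c1.trans_le hk)
      (fun b hb q1 a q2 => p3 a b q2 q1 (Or.inl hb))
    exact ⟨fr, f1, f2.mono s1⟩
  · have cp : (swf t).Cp tLL tLL := ⟨fun H => absurd H (by simp), fun H => absurd H (by simp)⟩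
    have mp : MapsTo (swf t).sp (bxc tLL θ) (bxc tLL 1) := fun y hy => by
      rw [swf_sp]
      exact s1 (mem_bxcLL.2 (mem_bxcLL.1 hy).symm)
    have im : (swf t).sp '' bx tLL θ ⊆ bx tLL 1 := by
      rintro _ ⟨y, hy, rfl⟩
      rw [swf_sp]
      exact s2 (mem_bxLL.2 (mem_bxLL.1 hy).symm)
    have ρ1 : (swf t).ρ = 1 := rfl
    have hS : ∀ a b : ℝ, |a| ≤ θ → |b| ≤ θ → ((a, b) : ℝ × ℝ) ∈ d.S := fun a b q1 q2 =>
      h.memLL (s1 (mem_bxcLL.2 ⟨q1, q2⟩))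
    have hm : MeasurableSet (bx tLL θ) := (isOpen_bx _ _).measurableSet
    have w1 : h11 ((swf t).pull u) (0, b₀, a₀) = h22 u (t, a₀, b₀) := by
      rw [← hq_e1, ← hq_e2]
      exact hq_swf hc h.gs h.tI (y := (b₀, a₀)) (hS _ _ n2 n1) _
    have w2 : h22 ((swf t).pull u) (0, b₀, a₀) = h11 u (t, a₀, b₀) := by
      rw [← hq_e1, ← hq_e2]
      exact hq_swf hc h.gs h.tI (y := (b₀, a₀)) (hS _ _ n2 n1) _
    obtain ⟨fr, f1, f2⟩ := H _ _ _ 0 (b₀, a₀) _ (h.frame hc rfl cp mp)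
      (by
        rw [En_frame0 hc _ hm, det_swf, ρ1, one_pow, div_one, one_mul]
        exact (En_mono h.gs h.tI hR im).trans hE)
      (by
        rw [Dt_frame0 hc h.gs h.tI rfl hm (fun y hy => hR.sub (im ⟨y, hy, rfl⟩)), det_swf, ρ1]
        simpa using (Dt_mono hc h.gs h.tI hR im).trans hDt)
      (mem_bxcLL.2 ⟨n1, n2⟩) (by rw [w1, w2]; exact hle) (by rw [w1]; exact p2)
      (c2.trans_le hk)
      (fun b hb q1 a q2 e => by
        rw [hq_swf hc h.gs h.tI (y := (a, b)) (hS _ _ q1 q2),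
          hq_swf hc h.gs h.tI (y := (b₀, a₀)) (hS _ _ n2 n1)]
        exact p3 b a q1 q2 (Or.inr hb) e.swap)
    refine ⟨(swf t).comp fr, comp_p f1, Good.comp hc rfl (h.ty ▸ cp) f2 mp ?_ ?_ ?_ le_rfl⟩
    · rw [ρ1, one_mul]
    · rw [ρ1, one_mul]
    · rw [ρ1, det_swf, one_pow, one_mul, mul_one]

end Pool.Agent.P.MP_2cea5e_gt.I.S4
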