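import Pool.Agent.P.MP_2cea5e_gt.I.S.Fill
import Pool.Agent.P.MP_2cea5e_gt.I.S.LLa
import Pool.Agent.P.MP_2cea5e_gt.I.S.LLb
import Pool.Agent.P.MP_2cea5e_gt.I.S.LLc
import Pool.Agent.P.MP_2cea5e_gt.I.S.LL
import Pool.Agent.P.MP_2cea5e_gt.I.S.StrA
import Pool.Agent.P.MP_2cea5e_gt.I.S.Strict
import Pool.Agent.P.MP_2cea5e_gt.I.S.PLa
import Pool.Agent.P.MP_2cea5e_gt.I.S.PLb1
import Pool.Agent.P.MP_2cea5e_gt.I.S.PLb2
import Pool.Agent.P.MP_2cea5e_gt.I.S.PLb3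
import Pool.Agent.P.MP_2cea5e_gt.I.S.PLb
import Pool.Agent.P.MP_2cea5e_gt.I.S.PL
import Pool.Agent.P.MP_2cea5e_gt.I.S.Anti
import Pool.Agent.P.MP_2cea5e_gt.I.S.PPg
import Pool.Agent.P.MP_2cea5e_gt.I.S.PPf
import Pool.Agent.P.MP_2cea5e_gt.I.S.PP1
import Pool.Agent.P.MP_2cea5e_gt.I.S.PPv
import Pool.Agent.P.MP_2cea5e_gt.I.S.Dr1
import Pool.Agent.P.MP_2cea5e_gt.I.S.Time
import Pool.Agent.P.MP_2cea5e_gt.I.S.PPd
import Pool.Agent.P.MP_2cea5e_gt.I.S.PPj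
import Pool.Agent.P.MP_2cea5e_gt.I.S.StartA
import Pool.Agent.P.MP_2cea5e_gt.I.S.StartB
import Pool.Agent.P.MP_2cea5e_gt.I.Api
import Pool.Agent.P.MP_2cea5e_gt.I.T1
import Pool.Agent.P.MP_2cea5e_gt.I.FI
import Pool.Agent.P.MP_2cea5e_gt.I.FC
import Pool.Agent.P.MP_2cea5e_gt.I.FG
import Pool.Agent.P.MP_2cea5e_gt.I.Swap

/-!
Chapter I, section 2: assembly.
-/

set_option linter.dupNamespace false

namespace Pool.Agent.P.MP_2cea5e_gt.I.S4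

theorem start_all (hc : Core) : StStart :=
  have hF := fill_ok hc
  have hT := time_ok hc (dr1_ok hc)
  start_ok hc
    (startLL_ok hc (ll_ok hc (llc_ok hc (lla_ok hc) (llb_ok hc hF))) hT)
    (startPL_ok hc (pl_ok hc (strict_ok hc (strA_ok hc)) (pla_ok hc)
      (plb_ok hc (plb1_ok hc) (plb2_ok hc) (plb3_ok hc hF))) hT)
    (startPP_ok hc (pp1_ok hc (anti_ok hc) (ppg_ok hc) (ppf_ok hc))
      (ppj_ok hc (ppv_ok hc) (ppd_ok hc (osc2_ok hc) (dr1_ok hc))))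

theorem core_ok : Core :=
  ⟨api_ok, t1_ok api_ok alg_ok, cheb_ok, fc_ok, fi_ok, fg_ok fc_ok, swap_ok⟩

/-- Section 2 of chapter I. -/
theorem start_done : StStart := start_all core_ok

end Pool.Agent.P.MP_2cea5e_gt.I.S4
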