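import Pool.Agent.P.MP_2cea5e_gt.I.S.Tool2

/-!
Chapter I, section 2: the choice of the scale at the vertex.
-/

open scoped ContDiff Topology ENNReal
open MeasureTheory Set Filter

noncomputable section

set_option linter.dupNamespace false

namespace Pool.Agent.P.MP_2cea5e_gt.I.S4

namespace PPj

variable {d : Dm} {u F : X → ℝ} {T₀ T Λ : ℝ}

theorem half_le {i j : ℕ} (h : i ≤ j) : (1 / 2 : ℝ) ^ j ≤ (1 / 2) ^ i :=
  pow_le_pow_of_le_one (by norm_num) (by norm_num) h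

theorem half_sq (j : ℕ) : ((1 / 2 : ℝ) ^ j) ^ 2 = (1 / 4) ^ j := by
  rw [← pow_mul, mul_comm, pow_mul]; norm_num

theorem memS (cs : CS d u F T₀ T Λ) {R : ℝ} (hR : qc R ⊆ d.O) {y : ℝ × ℝ} (hy : y ∈ qo R) :
    y ∈ d.S := by
  refine ⟨hR ⟨Ioo_subset_Icc_self hy.1, Ioo_subset_Icc_self hy.2⟩, ?_⟩
  rw [cs.ty]
  exact ⟨hy.1.1, hy.2.1⟩

theorem qo_mono {r s : ℝ} (h : r ≤ s) : qo r ⊆ qo s :=
  prod_mono (Ioo_subset_Ioo_right h) (Ioo_subset_Ioo_right h)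

theorem qc_mono {r s : ℝ} (h : r ≤ s) : qc r ⊆ qc s :=
  prod_mono (Icc_subset_Icc_right h) (Icc_subset_Icc_right h)

theorem tri_qo (a r : ℝ) : tri a r ⊆ qo r := fun _ h =>
  ⟨⟨h.1, by linarith [h.2.1, h.2.2.2]⟩, h.2.1, by linarith [h.1, h.2.2.2]⟩

theorem grad (cs : CS d u F T₀ T Λ) {R t : ℝ} (hR : qc (2 * R) ⊆ d.O) (h1 : R ≤ 1) (ht : t ∈ d.I)
    {y : ℝ × ℝ} (hy : y ∈ tri 0 R) : |D e1 u (t, y)| ≤ Λ * (1 - Real.log (min y.1 y.2)) ∧
      |D e2 u (t, y)| ≤ Λ * (1 - Real.log (min y.1 y.2)) := by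
  obtain ⟨a1, a2, -, a4⟩ := hy
  have m1 := min_le_left y.1 y.2
  have m2 := min_le_right y.1 y.2
  refine cs.lg t ht y _ (lt_min a1 a2) (by linarith) fun z hz => memS cs hR ?_
  rw [Metric.mem_ball, Prod.dist_eq, max_lt_iff, Real.dist_eq, Real.dist_eq, abs_lt, abs_lt] at hz
  obtain ⟨⟨b1, b2⟩, b3, b4⟩ := hz
  exact ⟨⟨by linarith, by linarith⟩, by linarith, by linarith⟩

theorem sq_le (cs : CS d u F T₀ T Λ) {t : ℝ} (ht : t ∈ d.I) {y : ℝ × ℝ} (hy : y ∈ d.S) :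
    D e0 u (t, y) ^ 2 ≤ F (t, y) ^ 2 := by
  rw [← sq_abs]
  exact pow_le_pow_left₀ (abs_nonneg _) (cs.gs.f2 (t, y) ⟨ht, hy⟩) 2

theorem meas_v (hc : Core) (cs : CS d u F T₀ T Λ) {t : ℝ} (ht : t ∈ d.I) :
    AEStronglyMeasurable (fun y => D e0 u (t, y)) (volume.restrict d.S) :=
  ((hc.api d u cs.gs.toGS0).bt.lc.slice ht).aestronglyMeasurable d.isOpen_S.measurableSet

theorem int_v (hc : Core) (cs : CS d u F T₀ T Λ) {t : ℝ} (ht : t ∈ d.I) :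
    IntegrableOn (fun y => D e0 u (t, y) ^ 2) d.S :=
  (cs.en t ht).1.mono' ((meas_v hc cs ht).pow 2)
    ((ae_restrict_iff' d.isOpen_S.measurableSet).2 (Eventually.of_forall fun y hy => by
      rw [Real.norm_of_nonneg (sq_nonneg _)]; exact sq_le cs ht hy))

theorem drift (hc : Core) (cs : CS d u F T₀ T Λ) {γ : ℝ} (hγ : 0 < γ) :
    ∃ l₀ : ℕ, ∀ l : ℕ, l₀ ≤ l → T₀ < T - (1 / 4) ^ (l ^ 6) ∧
    (∀ j, l ^ 6 ≤ j → ∀ t ∈ Ioo (T - (1 / 4) ^ j) T,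
      (∫ y in d.S, D e0 u (T - (1 / 4) ^ j, y) ^ 2) - ∫ y in d.S, D e0 u (t, y) ^ 2 ≤ γ) ∧
    ∀ A : ℕ → Set (ℝ × ℝ), (∀ j, MeasurableSet (A j) ∧ A j ⊆ d.S) →
      (∀ i j, i + l ≤ j → Disjoint (A i) (A j)) →
      ∑ j ∈ Finset.Ico (l ^ 6) (2 * l ^ 6), ∫ y in A j, D e0 u (T - (1 / 4) ^ j, y) ^ 2 ≤
        γ * l ^ 6 := by
  have e := cs.tI
  refine drift_ok d.S (fun t y => D e0 u (t, y)) T₀ T Λ γ cs.lt hγ (fun t ht => ?_)
    (fun t ht => ?_) (fun s hs => ?_) fun s hs t ht => cs.soft s (e ▸ hs) t ht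
  · exact (memLp_two_iff_integrable_sq (meas_v hc cs (e ▸ ht))).2 (int_v hc cs (e ▸ ht))
  · exact (setIntegral_mono_on (int_v hc cs (e ▸ ht)) (cs.en t (e ▸ ht)).1
      d.isOpen_S.measurableSet fun y hy => sq_le cs (e ▸ ht) hy).trans (cs.en t (e ▸ ht)).2
  · rw [← e]
    exact cs.vc s (e ▸ hs)

theorem small {c γ : ℝ} (hγ : 0 < γ) : ∀ᶠ l : ℕ in atTop, c * (l ^ 12 * (1 / 16 : ℝ) ^ l) ≤ γ := by
  have h := (tendsto_pow_const_mul_const_pow_of_abs_lt_one 12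
    (r := (1 / 16 : ℝ)) (by rw [abs_lt]; constructor <;> norm_num)).const_mul c
  rw [mul_zero] at h
  exact h.eventually (ge_mem_nhds hγ)

theorem tail {Λ γ : ℝ} {l j : ℕ} (hl : 1 ≤ l) (hj : j ≤ 2 * l ^ 6)
    (h : 8192 * Λ ^ 2 * (l ^ 12 * (1 / 16 : ℝ) ^ l) ≤ γ) :
    128 * Λ ^ 2 * ((1 / 2 : ℝ) ^ j * (1 / 2) ^ l) ^ 4 *
      (5 - Real.log ((1 / 2 : ℝ) ^ j * (1 / 2) ^ l)) ^ 2 ≤ γ * ((1 / 2 : ℝ) ^ j) ^ 4 := by
  have l1 : (1 : ℝ) ≤ l := by exact_mod_cast hl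
  have l6 : (l : ℝ) ≤ l ^ 6 := le_self_pow₀ l1 (by norm_num)
  have j6 : (j : ℝ) ≤ 2 * l ^ 6 := by exact_mod_cast hj
  have j0 : (0 : ℝ) ≤ j := Nat.cast_nonneg j
  have g1 : Real.log 2 ≤ 1 := by linarith [Real.log_two_lt_d9]
  have g0 : 0 ≤ Real.log 2 := Real.log_nonneg (by norm_num)
  have e1 : Real.log ((1 / 2 : ℝ) ^ j * (1 / 2) ^ l) = -((j + l) * Real.log 2) := by
    rw [← pow_add, Real.log_pow, one_div, Real.log_inv]; push_cast; ring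
  have e2 : ((1 / 2 : ℝ) ^ l) ^ 4 = (1 / 16) ^ l := by
    rw [← pow_mul, mul_comm, pow_mul]; norm_num
  have b0 : 0 ≤ ((j : ℝ) + l) * Real.log 2 := by positivity
  have b1 : ((j : ℝ) + l) * Real.log 2 ≤ j + l := mul_le_of_le_one_right (by positivity) g1
  have b2 : (5 - Real.log ((1 / 2 : ℝ) ^ j * (1 / 2) ^ l)) ^ 2 ≤ (8 * l ^ 6) ^ 2 := by
    rw [e1]
    exact pow_le_pow_left₀ (by linarith) (by linarith) 2
  calc _ ≤ 128 * Λ ^ 2 * ((1 / 2 : ℝ) ^ j * (1 / 2) ^ l) ^ 4 * (8 * l ^ 6) ^ 2 :=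
        mul_le_mul_of_nonneg_left b2 (by positivity)
    _ = 8192 * Λ ^ 2 * (l ^ 12 * (1 / 16 : ℝ) ^ l) * ((1 / 2 : ℝ) ^ j) ^ 4 := by
        rw [mul_pow, e2]; ring
    _ ≤ _ := mul_le_mul_of_nonneg_right h (by positivity)

end PPj

open PPj in
theorem ppj_ok (hc : Core) (h1 : StPPv) (h2 : StPPd) : StPPj := by
  intro d u F T₀ T Λ cs h0
  obtain ⟨C, hC, h1⟩ := h1
  have hΛ : 0 < Λ := one_pos.trans_le cs.one
  refine ⟨4 * C * Λ, by positivity, fun η e γ hη he hγ => ?_⟩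
  obtain ⟨R₀, hR₀, hb⟩ := Metric.isOpen_iff.1 d.oO 0 h0
  obtain ⟨l₀, hl₀⟩ := drift hc cs (γ := γ / 60) (by positivity)
  obtain ⟨N, hN⟩ := exists_pow_lt_of_lt_one (show 0 < η / 4 by positivity)
    (show (1 / 2 : ℝ) < 1 by norm_num)
  have ev1 : ∀ᶠ l : ℕ in atTop, (1 / 2 : ℝ) ^ l < min R₀ 1 / 32 :=
    (tendsto_pow_atTop_nhds_zero_of_lt_one (by norm_num) (by norm_num)).eventually
      (gt_mem_nhds (by positivity))
  have ev2 : ∀ᶠ l : ℕ in atTop, 4 * (N * Λ / e) ≤ (l : ℝ) :=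
    tendsto_natCast_atTop_atTop.eventually (eventually_ge_atTop _)
  obtain ⟨l, ⟨⟨⟨a1, a2⟩, a3⟩, a4⟩, a5⟩ := ((((ev1.and ev2).and (eventually_ge_atTop l₀)).and
    (eventually_ge_atTop 4)).and (small (c := 8192 * Λ ^ 2) (half_pos hγ))).exists
  obtain ⟨d1, d2, d3⟩ := hl₀ l a3
  set n := l ^ 6 with hn
  have ln : l ≤ n := Nat.le_self_pow (by norm_num) l
  have m1 := min_le_left R₀ 1
  have m2 := min_le_right R₀ 1
  have pn : (0 : ℝ) < (1 / 2) ^ n := by positivity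
  have sn : (1 / 2 : ℝ) ^ n < min R₀ 1 / 32 := (half_le ln).trans_lt a1
  have hq : qc (2 * (16 * (1 / 2) ^ n)) ⊆ d.O := fun y hy => hb (by
    rw [Metric.mem_ball, Prod.dist_eq, max_lt_iff, Real.dist_eq, Real.dist_eq, Prod.fst_zero,
      Prod.snd_zero, sub_zero, sub_zero, abs_of_nonneg hy.1.1, abs_of_nonneg hy.2.1]
    exact ⟨by linarith [hy.1.2], by linarith [hy.2.2]⟩)
  set t' := T - (1 / 4 : ℝ) ^ (2 * n) / 2 with ht'
  have q4 : ∀ i j : ℕ, i ≤ j → (1 / 4 : ℝ) ^ j ≤ (1 / 4) ^ i := fun i j h =>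
    pow_le_pow_of_le_one (by norm_num) (by norm_num) h
  have p4 : (0 : ℝ) < (1 / 4) ^ (2 * n) := by positivity
  have tj : ∀ j, j ≤ 2 * n → t' ∈ Ioo (T - (1 / 4) ^ j) T := fun j hj =>
    ⟨by linarith [q4 j _ hj], by linarith⟩
  have tI : t' ∈ d.I := by
    rw [cs.tI]
    exact ⟨d1.trans (tj n (by omega)).1, (tj n (by omega)).2⟩
  have s1 := h1 Λ n d u F t' hΛ.le (by omega)
    ⟨cs.gs, tI, cs.ty, (trc_subset _).trans ((qc_mono (by linarith)).trans hq)⟩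
    fun y hy => grad cs hq (by linarith) tI hy
  have s2 := d3 (fun j => (qo ((1 / 2) ^ j) \ qo ((1 / 2) ^ j * (1 / 2) ^ l)) ∩ d.S)
    (fun j => ⟨((isOpen_qo _).measurableSet.diff (isOpen_qo _).measurableSet).inter
      d.isOpen_S.measurableSet, inter_subset_right⟩)
    fun i j hij => Set.disjoint_left.2 fun y hi hj =>
      hi.1.2 (qo_mono (by rw [← pow_add]; exact half_le hij) hj.1.1)
  have s3 := En_sum (cs.en t' tI).1 (fun j => tri (η * (1 / 2) ^ j) (4 * (1 / 2) ^ j))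
    (fun j => (isOpen_tri _ _).measurableSet) N
    (fun i j hij => Set.disjoint_left.2 fun y hi hj => by
      have b1 := half_le hij
      rw [pow_add] at b1
      have b2 : (0 : ℝ) < (1 / 2) ^ i := by positivity
      have b3 := mul_lt_mul_of_pos_left hN b2
      linarith [hi.2.2.1, hj.2.2.2])
    (Finset.Ico n (2 * n)) fun j hj y hy => memS cs hq (qo_mono (by
      linarith [half_le (Finset.mem_Ico.1 hj).1]) (tri_qo _ _ hy))
  have s3' := s3.trans (mul_le_mul_of_nonneg_left (cs.en t' tI).2 (Nat.cast_nonneg N))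
  have fin : ∀ j ∈ Finset.Ico n (2 * n), Vi u t' ((1 / 2) ^ j) ≠ ⊤ := fun j hj =>
    ne_top_of_le_ne_top ENNReal.ofReal_ne_top ((Finset.single_le_sum
      (f := fun j => Vi u t' ((1 / 2) ^ j)) (fun _ _ => zero_le) hj).trans s1)
  have s1' : ∑ j ∈ Finset.Ico n (2 * n), (Vi u t' ((1 / 2) ^ j)).toReal ≤ C * Λ * n := by
    rw [← ENNReal.toReal_sum fin]
    exact ENNReal.toReal_le_of_le_ofReal (by positivity) s1
  have nl : (l : ℝ) ≤ n := by exact_mod_cast ln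
  have n4 : (4 : ℝ) ≤ l := by exact_mod_cast a4
  have en : (l : ℝ) ^ 6 = n := by rw [hn]; push_cast; rfl
  obtain ⟨j, hj, hlt⟩ := Finset.exists_lt_of_sum_lt (s := Finset.Ico n (2 * n))
    (f := fun j => (Vi u t' ((1 / 2) ^ j)).toReal / (4 * C * Λ) +
      (∫ y in (qo ((1 / 2) ^ j) \ qo ((1 / 2) ^ j * (1 / 2) ^ l)) ∩ d.S,
        D e0 u (T - (1 / 4) ^ j, y) ^ 2) / (4 * (γ / 60)) +
      En F t' (tri (η * (1 / 2) ^ j) (4 * (1 / 2) ^ j)) / e) (g := fun _ => (1 : ℝ)) (by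
    rw [Finset.sum_add_distrib, Finset.sum_add_distrib, ← Finset.sum_div, ← Finset.sum_div,
      ← Finset.sum_div, Finset.sum_const, Nat.card_Ico, nsmul_eq_mul, mul_one,
      show 2 * n - n = n by omega]
    have c1 := div_le_div_of_nonneg_right s1' (show 0 ≤ 4 * C * Λ by positivity)
    have c2 := div_le_div_of_nonneg_right s2 (show 0 ≤ 4 * (γ / 60) by positivity)
    have c3 := div_le_div_of_nonneg_right s3' he.le
    rw [show C * Λ * n / (4 * C * Λ) = n / 4 by field_simp] at c1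
    rw [en, show γ / 60 * n / (4 * (γ / 60)) = n / 4 by field_simp] at c2
    linarith)
  obtain ⟨j1, j2⟩ := Finset.mem_Ico.1 hj
  have f1 : 0 ≤ (Vi u t' ((1 / 2) ^ j)).toReal / (4 * C * Λ) := by positivity
  have f2 : 0 ≤ (∫ y in (qo ((1 / 2) ^ j) \ qo ((1 / 2) ^ j * (1 / 2) ^ l)) ∩ d.S,
      D e0 u (T - (1 / 4) ^ j, y) ^ 2) / (4 * (γ / 60)) :=
    div_nonneg (integral_nonneg fun _ => sq_nonneg _) (by positivity)
  have f3 := div_nonneg (En_nonneg F t' (tri (η * (1 / 2) ^ j) (4 * (1 / 2) ^ j))) he.le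
  have rj := half_le j1
  have pj : (0 : ℝ) < (1 / 2) ^ j := by positivity
  have tT : T₀ < T - (1 / 4) ^ j := by linarith [q4 n j j1]
  refine ⟨(1 / 2) ^ j, t', pj, (trc_subset _).trans ((qc_mono (by linarith)).trans hq),
    by rwa [half_sq], by rw [half_sq]; exact tj j j2.le, ?_,
    (div_le_one he).1 (by linarith), fun t ht => ?_⟩
  · rw [← ENNReal.ofReal_toReal (fin j hj)]
    exact ENNReal.ofReal_le_ofReal ((div_le_one (by positivity)).1 (by linarith))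
  · have hl1 : (1 / 2 : ℝ) ^ l ≤ 1 / 2 := by simpa using half_le (show 1 ≤ l by omega)
    have k := h2 d u F T₀ T Λ ((1 / 2) ^ j) ((1 / 2) ^ j * (1 / 2) ^ l) t t' (4 * (γ / 60)) (γ / 60)
      cs (by positivity) (by nlinarith) (by linarith) ((qc_mono (by linarith)).trans hq)
      (by
        rw [cs.tI, half_sq]
        exact ⟨tT, sub_lt_self _ (by positivity)⟩) ht (by rw [half_sq]; exact tj j j2.le)
      (by
        rw [half_sq, ← inter_eq_left.2 (show qo ((1 / 2) ^ j) \ qo ((1 / 2) ^ j * (1 / 2) ^ l) ⊆ d.S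
          from fun y hy => memS cs hq (qo_mono (by linarith) hy.1))]
        exact (div_le_one (by positivity)).1 (by linarith))
      (by rw [half_sq]; exact d2 j j1)
    have k2 := tail (show 1 ≤ l by omega) j2.le a5
    linarith

end Pool.Agent.P.MP_2cea5e_gt.I.S4
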