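import Pool.Agent.P.MP_2cea5e_gt.I.St3
import Pool.Agent.P.MP_2cea5e_gt.I.St4
import Pool.Agent.P.MP_2cea5e_gt.I.Green
import Pool.Agent.P.MP_2cea5e_gt.I.Line
import Pool.Agent.P.MP_2cea5e_gt.I.Norm
import Pool.Agent.P.MP_2cea5e_gt.I.LemK
import Pool.Agent.P.MP_2cea5e_gt.I.Rig
import Pool.Agent.P.MP_2cea5e_gt.I.Fill1
import Pool.Agent.P.MP_2cea5e_gt.I.Alg
import Pool.Agent.P.MP_2cea5e_gt.I.Drift

/-!
Chapter I, section 2: toolbox (lines, regions, cheap lines).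
-/

open scoped ContDiff Topology ENNReal
open MeasureTheory Set Filter

noncomputable section

set_option linter.dupNamespace false

namespace Pool.Agent.P.MP_2cea5e_gt.I.S4

/-- The core calculus. -/
structure Core : Prop where
  api : StApi
  t1 : StT1
  cheb : StCheb
  fc : StFC
  fi : StFI
  fg : StFG
  swap : StSwap

theorem hLine : StLine := line_ok green_ok conc_ok
theorem hNorm : StNorm := norm_ok green_ok
theorem hK : StK := k_ok conc_ok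
theorem hRig : StRig := rig_ok green_ok hNorm

variable {d : Dm} {u F : X → ℝ} {t : ℝ} {p : X} {τ : Ty} {A B : Set (ℝ × ℝ)}

/-! ### Pointwise identities -/

theorem hq_qx (u : X → ℝ) (e : ℝ × ℝ) (p : X) :
    hq u e p = qx (h11 u p) (h12 u p) (h22 u p) e := by
  simp only [hq, hb, T2.ap, hs, qx]; ring
theorem W_eq' (u : X → ℝ) (p : X) : W u p = h11 u p * h22 u p - h12 u p ^ 2 := by
  simp only [W, h11, h12, h22, Pi.sub_apply, Pi.mul_apply]; ring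
theorem i11_eq (u : X → ℝ) (p : X) : i11 u p = h22 u p / W u p := by
  simp only [i11, Pi.mul_apply, Iv_apply, div_eq_mul_inv]
theorem i12_eq (u : X → ℝ) (p : X) : i12 u p = -h12 u p / W u p := by
  simp only [i12, Pi.neg_apply, Pi.mul_apply, Iv_apply, div_eq_mul_inv, neg_mul]
theorem i22_eq (u : X → ℝ) (p : X) : i22 u p = h11 u p / W u p := by
  simp only [i22, Pi.mul_apply, Iv_apply, div_eq_mul_inv]
theorem iq_qi (u : X → ℝ) (n : ℝ × ℝ) (p : X) :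
    iq u n p = qi (h11 u p) (h12 u p) (h22 u p) n := by
  simp only [iq, ib, T2.ap, iv2, qi, i11_eq, i12_eq, i22_eq, W_eq']; ring
theorem hb_eq (u : X → ℝ) (e e' : ℝ × ℝ) (p : X) : hb u e e' p =
    h11 u p * e.1 * e'.1 + h12 u p * (e.1 * e'.2 + e.2 * e'.1) + h22 u p * e.2 * e'.2 := rfl
theorem ib_eq (u : X → ℝ) (e e' : ℝ × ℝ) (p : X) : ib u e e' p =
    i11 u p * e.1 * e'.1 + i12 u p * (e.1 * e'.2 + e.2 * e'.1) + i22 u p * e.2 * e'.2 := rfl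
theorem hq_eq (u : X → ℝ) (e : ℝ × ℝ) (p : X) :
    hq u e p = h11 u p * e.1 ^ 2 + 2 * h12 u p * e.1 * e.2 + h22 u p * e.2 ^ 2 := by
  rw [hq, hb_eq]; ring
theorem iq_eq (u : X → ℝ) (e : ℝ × ℝ) (p : X) :
    iq u e p = i11 u p * e.1 ^ 2 + 2 * i12 u p * e.1 * e.2 + i22 u p * e.2 ^ 2 := by
  rw [iq, ib_eq]; ring
theorem hq_e1 (u : X → ℝ) : hq u (1, 0) = h11 u := by funext p; simp [hq_eq]
theorem hq_e2 (u : X → ℝ) : hq u (0, 1) = h22 u := by funext p; simp [hq_eq]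
theorem hb_e11 (u : X → ℝ) : hb u (1, 0) (1, 0) = h11 u := hq_e1 u
theorem hb_e22 (u : X → ℝ) : hb u (0, 1) (0, 1) = h22 u := hq_e2 u
theorem hb_e12 (u : X → ℝ) : hb u (1, 0) (0, 1) = h12 u := by funext p; simp [hb_eq]
theorem hb_e21 (u : X → ℝ) : hb u (0, 1) (1, 0) = h12 u := by funext p; simp [hb_eq]
theorem iq_e1 (u : X → ℝ) : iq u (1, 0) = i11 u := by funext p; simp [iq_eq]
theorem iq_e2 (u : X → ℝ) : iq u (0, 1) = i22 u := by funext p; simp [iq_eq]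
theorem ib_e12 (u : X → ℝ) : ib u (1, 0) (0, 1) = i12 u := by funext p; simp [ib_eq]
theorem sv_e1 : sv (1, 0) = e1 := rfl
theorem sv_e2 : sv (0, 1) = e2 := rfl
theorem D_sv (e : ℝ × ℝ) (f : X → ℝ) (p : X) :
    D (sv e) f p = e.1 * D e1 f p + e.2 * D e2 f p := by
  rw [← D_lin]; congr 1; ext <;> simp [sv, e1, e2]

theorem ln_h (t b : ℝ) (f : X → ℝ) : ln t (0, b) (1, 0) f = fun x => f (t, x, b) := by
  funext x; simp [ln]
theorem ln_v (t a : ℝ) (f : X → ℝ) : ln t (a, 0) (0, 1) f = fun x => f (t, a, x) := by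
  funext x; simp [ln]
theorem pt_ad (s b : ℝ) : ((s, 0) : ℝ × ℝ) + b • ((-s, s) : ℝ × ℝ) = ad s b := by
  ext <;> simp [ad] <;> ring
theorem pt_ray (s b : ℝ) : (0 : ℝ × ℝ) + s • ((1 - b, b) : ℝ × ℝ) = ad s b := by
  ext <;> simp [ad]
theorem ln_ad (t s : ℝ) (f : X → ℝ) : ln t (s, 0) (-s, s) f = fun b => f (t, ad s b) := by
  funext x; simp only [ln, pt_ad]
theorem ln_ray (t b : ℝ) (f : X → ℝ) : ln t 0 (1 - b, b) f = fun s => f (t, ad s b) := by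
  funext x; simp only [ln, pt_ray]

/-! ### Membership -/

theorem SK.mono (h : SK τ A d u F t) (hB : B ⊆ A) : SK τ B d u F t :=
  ⟨h.gs, h.tI, h.ty, hB.trans h.sub⟩
theorem SK.memS (h : SK τ A d u F t) {y : ℝ × ℝ} (hy : y ∈ A) (h1 : τ.1 = true → 0 < y.1)
    (h2 : τ.2 = true → 0 < y.2) : y ∈ d.S := by
  refine ⟨h.sub hy, ?_, ?_⟩ <;> rw [h.ty]
  · cases hτ : τ.1 <;> simp_all [ok]
  · cases hτ : τ.2 <;> simp_all [ok]
theorem SK.memSc (h : SK τ A d u F t) {y : ℝ × ℝ} (hy : y ∈ A) (h1 : τ.1 = true → 0 ≤ y.1)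
    (h2 : τ.2 = true → 0 ≤ y.2) : y ∈ d.Sc := by
  refine ⟨h.sub hy, ?_, ?_⟩ <;> rw [h.ty]
  · cases hτ : τ.1 <;> simp_all [okc]
  · cases hτ : τ.2 <;> simp_all [okc]
theorem SK.memLL (h : SK tLL A d u F t) {y : ℝ × ℝ} (hy : y ∈ A) : y ∈ d.S :=
  h.memS hy (by simp) (by simp)
theorem SK.memPL (h : SK tPL A d u F t) {y : ℝ × ℝ} (hy : y ∈ A) (h1 : 0 < y.1) : y ∈ d.S :=
  h.memS hy (fun _ => h1) (by simp)
theorem SK.memPP (h : SK tPP A d u F t) {y : ℝ × ℝ} (hy : y ∈ A) (h1 : 0 < y.1) (h2 : 0 < y.2) :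
    y ∈ d.S := h.memS hy (fun _ => h1) fun _ => h2
theorem SK.memU (h : SK τ A d u F t) {y : ℝ × ℝ} (hy : y ∈ d.S) : ((t, y) : X) ∈ d.U := ⟨h.tI, hy⟩
theorem SK.api (hc : Core) (h : SK τ A d u F t) : Api d u := hc.api d u h.gs.toGS0
theorem SK.F0 (h : SK τ A d u F t) {y : ℝ × ℝ} (hy : y ∈ d.S) : 0 ≤ F (t, y) :=
  (abs_nonneg _).trans (h.gs.f2 _ (h.memU hy))

theorem mem_bxLL {r : ℝ} {y : ℝ × ℝ} : y ∈ bx tLL r ↔ |y.1| < r ∧ |y.2| < r := by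
  simp [bx, iv, abs_lt]
theorem mem_bxcLL {r : ℝ} {y : ℝ × ℝ} : y ∈ bxc tLL r ↔ |y.1| ≤ r ∧ |y.2| ≤ r := by
  rw [abs_le, abs_le]; rfl
theorem bxPL (r : ℝ) : bx tPL r = ro 0 (r ^ 2) r := rfl
theorem bxcPL (r : ℝ) : bxc tPL r = rc (r ^ 2) r := rfl
theorem bxPP (r : ℝ) : bx tPP r = qo (r ^ 2) := rfl
theorem bxcPP (r : ℝ) : bxc tPP r = qc (r ^ 2) := rfl
theorem isCompact_rc (a L : ℝ) : IsCompact (rc a L) := isCompact_Icc.prod isCompact_Icc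
theorem isCompact_qc (r : ℝ) : IsCompact (qc r) := isCompact_Icc.prod isCompact_Icc
theorem isOpen_ro (a a' L : ℝ) : IsOpen (ro a a' L) := isOpen_Ioo.prod isOpen_Ioo
theorem isOpen_qo (r : ℝ) : IsOpen (qo r) := isOpen_Ioo.prod isOpen_Ioo
theorem isOpen_tri (η R : ℝ) : IsOpen (tri η R) :=
  (isOpen_lt continuous_const continuous_fst).inter ((isOpen_lt continuous_const continuous_snd).inter
    ((isOpen_lt continuous_const (continuous_fst.add continuous_snd)).inter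
      (isOpen_lt (continuous_fst.add continuous_snd) continuous_const)))
theorem trc_subset (R : ℝ) : trc R ⊆ qc R := fun _ h =>
  ⟨⟨h.1, by linarith [h.2.1, h.2.2]⟩, h.2.1, by linarith [h.1, h.2.2]⟩
theorem isCompact_trc (R : ℝ) : IsCompact (trc R) :=
  (isCompact_qc R).of_isClosed_subset ((isClosed_le continuous_const continuous_fst).inter
    ((isClosed_le continuous_const continuous_snd).inter
      (isClosed_le (continuous_fst.add continuous_snd) continuous_const))) (trc_subset R)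
theorem convex_trc (R : ℝ) : Convex ℝ (trc R) := by
  intro x hx y hy a b ha hb hab
  obtain ⟨h1, h2, h3⟩ := hx
  obtain ⟨h4, h5, h6⟩ := hy
  refine ⟨?_, ?_, ?_⟩ <;> simp only [Prod.fst_add, Prod.snd_add, Prod.smul_fst, Prod.smul_snd,
    smul_eq_mul]
  · positivity
  · positivity
  · have e : R = a * R + b * R := by rw [← add_mul, hab, one_mul]
    nlinarith
theorem tri_subset (η R : ℝ) : tri η R ⊆ trc R := fun _ h => ⟨h.1.le, h.2.1.le, h.2.2.2.le⟩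
theorem ad_sum (s b : ℝ) : (ad s b).1 + (ad s b).2 = s := by simp [ad]; ring
theorem ad_mem_tri {η R s b : ℝ} (h0 : 0 < s) (hs : s ∈ Ioo η R) (hb : b ∈ Ioo (0 : ℝ) 1) :
    ad s b ∈ tri η R :=
  ⟨mul_pos h0 (sub_pos.2 hb.2), mul_pos h0 hb.1, by rw [ad_sum]; exact hs.1,
    by rw [ad_sum]; exact hs.2⟩
theorem ad_mem_trc {R s b : ℝ} (hs : s ∈ Icc 0 R) (hb : b ∈ Icc (0 : ℝ) 1) : ad s b ∈ trc R :=
  ⟨mul_nonneg hs.1 (sub_nonneg.2 hb.2), mul_nonneg hs.1 hb.1, by rw [ad_sum]; exact hs.2⟩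

/-! ### Regions -/

theorem SK.reg (h : SK τ A d u F t) (hA : IsCompact A)
    (h0 : ∀ y ∈ A, (τ.1 = true → 0 ≤ y.1) ∧ (τ.2 = true → 0 ≤ y.2)) (hB : MeasurableSet B)
    (hs : B ⊆ A) (h1 : ∀ y ∈ B, (τ.1 = true → 0 < y.1) ∧ (τ.2 = true → 0 < y.2)) : Reg d B :=
  ⟨hB, fun y hy => h.memS (hs hy) (h1 y hy).1 (h1 y hy).2, A, hA, hs,
    fun y hy => h.memSc hy (h0 y hy).1 (h0 y hy).2⟩
theorem SK.reg_bx {r : ℝ} (h : SK τ (bxc τ r) d u F t) : Reg d (bx τ r) := by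
  have := I.reg_bx (d := d) (r := r) (by rw [h.ty]; exact h.sub)
  rwa [h.ty] at this
theorem ro_subset_rc {a L a₁ a₂ L' : ℝ} (h1 : 0 ≤ a₁) (h2 : a₂ ≤ a) (h3 : L' ≤ L) :
    ro a₁ a₂ L' ⊆ rc a L := fun _ hy =>
  ⟨⟨h1.trans hy.1.1.le, hy.1.2.le.trans h2⟩, by linarith [hy.2.1], hy.2.2.le.trans h3⟩
theorem SK.reg_ro {a L a₁ a₂ L' : ℝ} (h : SK tPL (rc a L) d u F t) (h1 : 0 ≤ a₁) (h2 : a₂ ≤ a)
    (h3 : L' ≤ L) : Reg d (ro a₁ a₂ L') :=
  h.reg (isCompact_rc _ _) (fun _ hy => ⟨fun _ => hy.1.1, by simp⟩) (isOpen_ro _ _ _).measurableSet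
    (ro_subset_rc h1 h2 h3) fun _ hy => ⟨fun _ => h1.trans_lt hy.1.1, by simp⟩
theorem SK.reg_tri {R η : ℝ} (h : SK tPP (trc R) d u F t) : Reg d (tri η R) :=
  h.reg (isCompact_trc _) (fun _ hy => ⟨fun _ => hy.1, fun _ => hy.2.1⟩)
    (isOpen_tri _ _).measurableSet (tri_subset _ _) fun _ hy => ⟨fun _ => hy.1, fun _ => hy.2.1⟩
theorem SK.reg_qo {r : ℝ} (h : SK tPP (qc r) d u F t) : Reg d (qo r) :=
  h.reg (isCompact_qc _) (fun _ hy => ⟨fun _ => hy.1.1, fun _ => hy.2.1⟩)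
    (isOpen_qo _).measurableSet (prod_mono Ioo_subset_Icc_self Ioo_subset_Icc_self)
    fun _ hy => ⟨fun _ => hy.1.1, fun _ => hy.2.1⟩

theorem int_F2 (hg : GS d u F) (ht : t ∈ d.I) (hA : Reg d A) :
    IntegrableOn (fun y => F (t, y) ^ 2) A := (hg.lcF.pow 2).integrableOn hA ht
theorem En_nonneg (F : X → ℝ) (t : ℝ) (A : Set (ℝ × ℝ)) : 0 ≤ En F t A :=
  integral_nonneg fun _ => sq_nonneg _
theorem En_mono' (hB : IntegrableOn (fun y => F (t, y) ^ 2) B) (hs : A ⊆ B) :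
    En F t A ≤ En F t B :=
  setIntegral_mono_set hB (Eventually.of_forall fun _ => sq_nonneg _) hs.eventuallyLE
theorem En_mono (hg : GS d u F) (ht : t ∈ d.I) (hB : Reg d B) (hs : A ⊆ B) :
    En F t A ≤ En F t B := En_mono' (int_F2 hg ht hB) hs

/-- Bounded overlap. -/
theorem En_sum (hB : IntegrableOn (fun y => F (t, y) ^ 2) B) (C : ℕ → Set (ℝ × ℝ))
    (hC : ∀ j, MeasurableSet (C j)) (l : ℕ) (hd : ∀ i j, i + l ≤ j → Disjoint (C i) (C j))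
    (s : Finset ℕ) (hs : ∀ j ∈ s, C j ⊆ B) : ∑ j ∈ s, En F t (C j) ≤ l * En F t B := by
  have := Drift.mult (μ := volume.restrict B) hB (fun _ => sq_nonneg _) C hC l hd s
  refine le_trans (le_of_eq (Finset.sum_congr rfl fun j hj => ?_)) this
  rw [En, Measure.restrict_restrict (hC j), inter_eq_left.2 (hs j hj)]

theorem dq_pos (hc : Core) (hg : GS d u F) (hp : p ∈ d.U) : 0 < dq u p :=
  inv_pos.2 (Real.sqrt_pos.2 (Real.sqrt_pos.2 ((hc.api d u hg.toGS0).pW p hp)))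
theorem dq_nonneg (u : X → ℝ) (p : X) : 0 ≤ dq u p := inv_nonneg.2 (Real.sqrt_nonneg _)
theorem dq_pow (hc : Core) (hg : GS d u F) (hp : p ∈ d.U) : dq u p ^ 4 = (W u p)⁻¹ := by
  have h := ((hc.api d u hg.toGS0).pW p hp).le
  rw [dq, inv_pow, show (4 : ℕ) = 2 * 2 from rfl, pow_mul, Real.sq_sqrt (Real.sqrt_nonneg _),
    Real.sq_sqrt h]

theorem lc_dq (hc : Core) (hg : GS d u F) : Lc d (dq u) := by
  have ha := hc.api d u hg.toGS0
  have h1 : Bd d (o1 d.τ * o2 d.τ * Iv (o1 d.τ * o2 d.τ * W u)) :=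
    (bd_o1.mul bd_o2).mul (ha.bW.inv hg.nd)
  refine (h1.lc.sqrt.sqrt).congr fun p hp => ?_
  have h2 := (d.o1_pos hp).ne'
  have h3 := (d.o2_pos hp).ne'
  have : (o1 d.τ * o2 d.τ * Iv (o1 d.τ * o2 d.τ * W u)) p = (W u p)⁻¹ := by
    simp only [Pi.mul_apply, Iv_apply]; field_simp
  simp only [this, dq, Real.sqrt_inv]

theorem int_dq (hc : Core) (hg : GS d u F) (ht : t ∈ d.I) (hA : Reg d A) :
    IntegrableOn (fun y => dq u (t, y)) A := (lc_dq hc hg).integrableOn hA ht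
theorem Dt_mono' (hB : IntegrableOn (fun y => dq u (t, y)) B) (hs : A ⊆ B) :
    Dt u t A ≤ Dt u t B :=
  setIntegral_mono_set hB (Eventually.of_forall fun _ => dq_nonneg _ _) hs.eventuallyLE
theorem Dt_mono (hc : Core) (hg : GS d u F) (ht : t ∈ d.I) (hB : Reg d B) (hs : A ⊆ B) :
    Dt u t A ≤ Dt u t B := Dt_mono' (int_dq hc hg ht hB) hs

/-! ### Behaviour at the faces -/

theorem face (hc : Core) (hg : GS d u F) (ht : t ∈ d.I) (hA : IsCompact A) (hs : A ⊆ d.Sc) :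
    ∃ C, 0 ≤ C ∧ ∀ y ∈ A, y ∈ d.S →
      |i11 u (t, y) - om d.τ.1 y.1| ≤ C * om d.τ.1 y.1 ^ 2 ∧
      |i12 u (t, y)| ≤ C * (om d.τ.1 y.1 * om d.τ.2 y.2) ∧
      |i22 u (t, y) - om d.τ.2 y.2| ≤ C * om d.τ.2 y.2 ^ 2 := by
  obtain ⟨k₁, k₂, k₃, b1, b2, b3, q1, q2, q3⟩ := (hc.api d u hg.toGS0).nt
  have hK : IsCompact (({t} : Set ℝ) ×ˢ A) := isCompact_singleton.prod hA
  have hK2 : ({t} : Set ℝ) ×ˢ A ⊆ d.Uc := prod_mono (singleton_subset_iff.2 ht) hs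
  obtain ⟨C1, c1⟩ := b1.bd0 _ hK hK2
  obtain ⟨C2, c2⟩ := b2.bd0 _ hK hK2
  obtain ⟨C3, c3⟩ := b3.bd0 _ hK hK2
  refine ⟨|C1| + |C2| + |C3|, by positivity, fun y hy hS => ?_⟩
  have hU : ((t, y) : X) ∈ d.U := ⟨ht, hS⟩
  have hm : ((t, y) : X) ∈ ({t} : Set ℝ) ×ˢ A := ⟨rfl, hy⟩
  have p1 : 0 < om d.τ.1 y.1 := d.o1_pos hU
  have p2 : 0 < om d.τ.2 y.2 := d.o2_pos hU
  have a1 := (c1 _ hm hU).trans (le_abs_self C1)
  have a2 := (c2 _ hm hU).trans (le_abs_self C2)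
  have a3 := (c3 _ hm hU).trans (le_abs_self C3)
  have n1 := abs_nonneg C1
  have n2 := abs_nonneg C2
  have n3 := abs_nonneg C3
  have e1 : i11 u (t, y) - om d.τ.1 y.1 = om d.τ.1 y.1 * om d.τ.1 y.1 * k₁ (t, y) := q1 hU
  have e2 : i12 u (t, y) = om d.τ.1 y.1 * om d.τ.2 y.2 * k₂ (t, y) := q2 hU
  have e3 : i22 u (t, y) - om d.τ.2 y.2 = om d.τ.2 y.2 * om d.τ.2 y.2 * k₃ (t, y) := q3 hU
  refine ⟨?_, ?_, ?_⟩
  · rw [e1, abs_mul, abs_of_pos (mul_pos p1 p1), mul_comm, ← sq]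
    exact mul_le_mul_of_nonneg_right (by linarith) (sq_nonneg _)
  · rw [e2, abs_mul, abs_of_pos (mul_pos p1 p2), mul_comm]
    exact mul_le_mul_of_nonneg_right (by linarith) (mul_pos p1 p2).le
  · rw [e3, abs_mul, abs_of_pos (mul_pos p2 p2), mul_comm, ← sq]
    exact mul_le_mul_of_nonneg_right (by linarith) (sq_nonneg _)

/-- Closeness of the inverse gives closeness of the Hessian. -/
theorem ne_of_inv (hc : Core) (hg : GS d u F) {δ : ℝ} (hδ : δ ≤ 1 / 10) (hp : p ∈ d.U)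
    (h1 : |i11 u p / o1 d.τ p - 1| ≤ δ) (h2 : |i22 u p / o2 d.τ p - 1| ≤ δ)
    (h3 : |i12 u p| ≤ δ * √(o1 d.τ p * o2 d.τ p)) : NE d.τ u (4 * δ) p := by
  have ha := hc.api d u hg.toGS0
  obtain ⟨g1, g2⟩ := ha.gx1 p hp
  have p1 := d.o1_pos hp
  have p2 := d.o2_pos hp
  have pW := ha.pW p hp
  have ps : 0 < √(o1 d.τ p * o2 d.τ p) := Real.sqrt_pos.2 (mul_pos p1 p2)
  have hs : √(o1 d.τ p * o2 d.τ p) ^ 2 = o1 d.τ p * o2 d.τ p := Real.sq_sqrt (mul_pos p1 p2).le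
  have e : o1 d.τ p * h11 u p * (o2 d.τ p * h22 u p) - (√(o1 d.τ p * o2 d.τ p) * h12 u p) ^ 2 =
      o1 d.τ p * o2 d.τ p * W u p := by rw [mul_pow, hs, W_eq']; ring
  obtain ⟨r1, r2, r3⟩ := alg_ok.2.2.2.1 _ _ _ δ g1 g2 hδ
    (by rw [e]; convert h1 using 3; rw [i11_eq]; field_simp)
    (by
      rw [e]
      have : √(o1 d.τ p * o2 d.τ p) * h12 u p / (o1 d.τ p * o2 d.τ p * W u p) =
          -(i12 u p / √(o1 d.τ p * o2 d.τ p)) := by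
        rw [i12_eq]
        nth_rewrite 2 [← hs]
        field_simp
      rw [this, abs_neg, abs_div, abs_of_pos ps, div_le_iff₀ ps]
      exact h3)
    (by rw [e]; convert h2 using 3; rw [i22_eq]; field_simp)
  exact ⟨r1, r3, by rwa [abs_mul, abs_of_pos ps] at r2⟩

theorem NE.mono {δ δ' : ℝ} (h : NE τ u δ p) (hδ : δ ≤ δ') : NE τ u δ' p :=
  ⟨h.1.trans hδ, h.2.1.trans hδ, h.2.2.trans hδ⟩

theorem one_le_h11_i11 (hc : Core) (hg : GS d u F) (hp : p ∈ d.U) : 1 ≤ h11 u p * i11 u p := by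
  have pW := (hc.api d u hg.toGS0).pW p hp
  rw [i11_eq, ← mul_div_assoc, le_div_iff₀ pW, W_eq']; nlinarith [sq_nonneg (h12 u p)]
theorem one_le_h22_i22 (hc : Core) (hg : GS d u F) (hp : p ∈ d.U) : 1 ≤ h22 u p * i22 u p := by
  have pW := (hc.api d u hg.toGS0).pW p hp
  rw [i22_eq, ← mul_div_assoc, le_div_iff₀ pW, W_eq']; nlinarith [sq_nonneg (h12 u p)]
theorem i11_pos (hc : Core) (hg : GS d u F) (hp : p ∈ d.U) : 0 < i11 u p := by
  rw [i11_eq]; exact div_pos ((hc.api d u hg.toGS0).p22 p hp) ((hc.api d u hg.toGS0).pW p hp)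
theorem i22_pos (hc : Core) (hg : GS d u F) (hp : p ∈ d.U) : 0 < i22 u p := by
  rw [i22_eq]; exact div_pos (hg.p11 p hp) ((hc.api d u hg.toGS0).pW p hp)
theorem i12_sq (hc : Core) (hg : GS d u F) (hp : p ∈ d.U) : i12 u p ^ 2 ≤ i11 u p * i22 u p := by
  have pW := (hc.api d u hg.toGS0).pW p hp
  rw [i11_eq, i12_eq, i22_eq, div_pow, div_mul_div_comm, ← sq]
  refine div_le_div_of_nonneg_right ?_ (sq_nonneg _)
  rw [W_eq'] at pW; nlinarith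

/-! ### Horizontal and vertical lines -/

/-- The functions along the horizontal line of height `b`. -/
structure HL (d : Dm) (u F : X → ℝ) (t b : ℝ) (J : Set ℝ) : Prop where
  cu : C2On (fun x => u (t, x, b)) (fun x => D e1 u (t, x, b)) (fun x => h11 u (t, x, b)) J
  cw : C2On (fun x => wv d.τ u (t, x, b)) (fun x => D e1 (wv d.τ u) (t, x, b))
    (fun x => h11 u (t, x, b) - (om d.τ.1 x)⁻¹) J
  d2 : ∀ x ∈ J, HasDerivAt (fun x => D e2 u (t, x, b)) (h12 u (t, x, b)) x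
  c12 : ContinuousOn (fun x => h12 u (t, x, b)) J
  cF : ContinuousOn (fun x => F (t, x, b)) J
  m : ∃ m' m'', C2On (fun x => (h11 u (t, x, b))⁻¹) m' m'' J ∧ ∀ x ∈ J, m'' x ≤ F (t, x, b)
  q : ∀ n, n ≠ 0 → ∃ y' y'', C2On (fun x => iq u n (t, x, b)) y' y'' J ∧
    ∀ x ∈ J, |y'' x| ≤ F (t, x, b) * iq u n (t, x, b) * h11 u (t, x, b)
  z : ∃ z' z'', C2On (fun x => i12 u (t, x, b)) z' z'' J ∧ ∀ x ∈ J,
    |z'' x| ≤ F (t, x, b) * √(i11 u (t, x, b) * i22 u (t, x, b)) * h11 u (t, x, b)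

/-- The functions along the vertical line `y₁ = a`. -/
structure VL (d : Dm) (u F : X → ℝ) (t a : ℝ) (J : Set ℝ) : Prop where
  cu : C2On (fun x => u (t, a, x)) (fun x => D e2 u (t, a, x)) (fun x => h22 u (t, a, x)) J
  cw : C2On (fun x => wv d.τ u (t, a, x)) (fun x => D e2 (wv d.τ u) (t, a, x))
    (fun x => h22 u (t, a, x) - (om d.τ.2 x)⁻¹) J
  d1 : ∀ x ∈ J, HasDerivAt (fun x => D e1 u (t, a, x)) (h12 u (t, a, x)) x
  c12 : ContinuousOn (fun x => h12 u (t, a, x)) J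
  cF : ContinuousOn (fun x => F (t, a, x)) J
  m : ∃ m' m'', C2On (fun x => (h22 u (t, a, x))⁻¹) m' m'' J ∧ ∀ x ∈ J, m'' x ≤ F (t, a, x)
  q : ∀ n, n ≠ 0 → ∃ y' y'', C2On (fun x => iq u n (t, a, x)) y' y'' J ∧
    ∀ x ∈ J, |y'' x| ≤ F (t, a, x) * iq u n (t, a, x) * h22 u (t, a, x)
  z : ∃ z' z'', C2On (fun x => i12 u (t, a, x)) z' z'' J ∧ ∀ x ∈ J,
    |z'' x| ≤ F (t, a, x) * √(i11 u (t, a, x) * i22 u (t, a, x)) * h22 u (t, a, x)

theorem hl (hc : Core) (hg : GS d u F) (ht : t ∈ d.I) {b : ℝ} {J : Set ℝ}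
    (hJ : ∀ x ∈ J, ((x, b) : ℝ × ℝ) ∈ d.S) : HL d u F t b J := by
  obtain ⟨a1, a2, a3, a4, a5, a6, a7, -⟩ := hc.t1 d u F t (0, b) (1, 0) J hg ht (by simp)
    (fun x hx => by simpa using hJ x hx)
  simp only [ln_h, sv_e1, hq_e1] at a1 a2 a3 a4 a5 a6 a7
  refine ⟨a1, ?_, fun x hx => ?_, ?_, a5, a7, fun n hn => ?_, ?_⟩
  · simpa [hq0, o1] using a2
  · simpa only [sv_e2, hb_e12] using a3 (0, 1) x hx
  · simpa only [hb_e12] using a4 (0, 1)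
  · obtain ⟨y', y'', b1, b2⟩ := a6 n n
    refine ⟨y', y'', b1, fun x hx => ?_⟩
    have := b2 x hx
    rwa [Real.sqrt_mul_self ((hc.api d u hg.toGS0).hqp (t, x, b) ⟨ht, hJ x hx⟩ n hn).2.le] at this
  · simpa only [ib_e12, iq_e1, iq_e2] using a6 (1, 0) (0, 1)

theorem vl (hc : Core) (hg : GS d u F) (ht : t ∈ d.I) {a : ℝ} {J : Set ℝ}
    (hJ : ∀ x ∈ J, ((a, x) : ℝ × ℝ) ∈ d.S) : VL d u F t a J := by
  obtain ⟨a1, a2, a3, a4, a5, a6, a7, -⟩ := hc.t1 d u F t (a, 0) (0, 1) J hg ht (by simp)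
    (fun x hx => by simpa using hJ x hx)
  simp only [ln_v, sv_e2, hq_e2] at a1 a2 a3 a4 a5 a6 a7
  refine ⟨a1, ?_, fun x hx => ?_, ?_, a5, a7, fun n hn => ?_, ?_⟩
  · simpa [hq0, o2] using a2
  · simpa only [sv_e1, hb_e21] using a3 (1, 0) x hx
  · simpa only [hb_e21] using a4 (1, 0)
  · obtain ⟨y', y'', b1, b2⟩ := a6 n n
    refine ⟨y', y'', b1, fun x hx => ?_⟩
    have := b2 x hx
    rwa [Real.sqrt_mul_self ((hc.api d u hg.toGS0).hqp (t, a, x) ⟨ht, hJ x hx⟩ n hn).2.le] at this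
  · simpa only [ib_e12, iq_e1, iq_e2] using a6 (1, 0) (0, 1)

end Pool.Agent.P.MP_2cea5e_gt.I.S4
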