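import Pool.Agent.P.MP_2cea5e_gt.I.S.Tool

/-!
Chapter I, section 2: toolbox (cheap lines, Markov inequality, second differences, frames).
-/

open scoped ContDiff Topology ENNReal
open MeasureTheory Set Filter

noncomputable section

set_option linter.dupNamespace false

namespace Pool.Agent.P.MP_2cea5e_gt.I.S4

variable {d : Dm} {u F : X → ℝ} {t : ℝ} {p : X} {τ : Ty} {A B : Set (ℝ × ℝ)}

/-! ### Cheap segments -/

theorem cheap_le {f : ℝ → ℝ} {a b ε ε' : ℝ} (h : Cheap f a b ε) (hε : ε ≤ ε') : Cheap f a b ε' :=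
  ⟨h.nn, h.int, h.le.trans hε⟩

theorem cheap_add {f : ℝ → ℝ} {a b c ε ε' : ℝ} (hab : a ≤ b) (hbc : b ≤ c)
    (h0 : ∀ x ∈ Ioo a c, 0 ≤ f x) (h1 : Cheap f a b ε) (h2 : Cheap f b c ε') :
    Cheap f a c (ε + ε') := by
  have i1 : IntervalIntegrable f volume a b :=
    (intervalIntegrable_iff_integrableOn_Ioo_of_le hab).2 h1.int
  have i2 : IntervalIntegrable f volume b c :=
    (intervalIntegrable_iff_integrableOn_Ioo_of_le hbc).2 h2.int
  refine ⟨h0, (intervalIntegrable_iff_integrableOn_Ioo_of_le (hab.trans hbc)).1 (i1.trans i2), ?_⟩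
  have e := intervalIntegral.integral_add_adjacent_intervals i1 i2
  rw [intervalIntegral.integral_of_le hab, intervalIntegral.integral_of_le hbc,
    intervalIntegral.integral_of_le (hab.trans hbc), integral_Ioc_eq_integral_Ioo,
    integral_Ioc_eq_integral_Ioo, integral_Ioc_eq_integral_Ioo] at e
  linarith [h1.le, h2.le]

theorem cheap_scale {f : ℝ → ℝ} {s ε : ℝ} (hs : 0 < s) (h : Cheap f 0 s ε) :
    Cheap (fun b => s * f (s * b)) 0 1 ε := by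
  have i1 : IntervalIntegrable f volume 0 s :=
    (intervalIntegrable_iff_integrableOn_Ioo_of_le hs.le).2 h.int
  have i2 := (i1.comp_mul_left (c := s)).const_mul s
  rw [zero_div, div_self hs.ne'] at i2
  refine ⟨fun x hx => mul_nonneg hs.le (h.nn _ ⟨mul_pos hs hx.1, by nlinarith [hx.2]⟩),
    (intervalIntegrable_iff_integrableOn_Ioo_of_le zero_le_one).1 i2, ?_⟩
  have e := intervalIntegral.smul_integral_comp_mul_left (a := 0) (b := 1) f s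
  rw [mul_zero, mul_one, intervalIntegral.integral_of_le hs.le,
    intervalIntegral.integral_of_le zero_le_one, integral_Ioc_eq_integral_Ioo,
    integral_Ioc_eq_integral_Ioo, smul_eq_mul] at e
  rw [integral_const_mul, e]
  exact h.le

/-- Most horizontal segments are cheap. -/
theorem cheb_h (hc : Core) (hg : GS d u F) (ht : t ∈ d.I) (hA : Reg d A) {E ε a a' : ℝ}
    {J : Set ℝ} (hE : En F t A ≤ E) (hJ : MeasurableSet J) (hε : 0 < ε) (ha : a ≤ a')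
    (hs : Ioo a a' ×ˢ J ⊆ A) :
    volume {b ∈ J | ¬Cheap (fun x => F (t, x, b)) a a' ε} ≤
      ENNReal.ofReal ((a' - a) * E / ε ^ 2) := by
  have := hc.cheb (fun y => F (t, y)) A E ε (a' - a) 0 (1, 0) (0, 1) (fun _ => a) (fun _ => a') J
    hA.ms ((hg.lcF.slice ht).mono hA.sub)
    (fun z hz => (abs_nonneg _).trans (hg.f2 _ ⟨ht, hA.sub hz⟩)) (int_F2 hg ht hA) hE (by simp)
    continuous_const continuous_const hJ hε (sub_nonneg.2 ha)
    (fun b hb => ⟨le_rfl, fun x hx => by simpa using hs (mk_mem_prod hx hb)⟩)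
  simpa using this

/-- Most vertical segments are cheap. -/
theorem cheb_v (hc : Core) (hg : GS d u F) (ht : t ∈ d.I) (hA : Reg d A) {E ε a a' : ℝ}
    {J : Set ℝ} (hE : En F t A ≤ E) (hJ : MeasurableSet J) (hε : 0 < ε) (ha : a ≤ a')
    (hs : J ×ˢ Ioo a a' ⊆ A) :
    volume {b ∈ J | ¬Cheap (fun x => F (t, b, x)) a a' ε} ≤
      ENNReal.ofReal ((a' - a) * E / ε ^ 2) := by
  have := hc.cheb (fun y => F (t, y)) A E ε (a' - a) 0 (0, 1) (1, 0) (fun _ => a) (fun _ => a') J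
    hA.ms ((hg.lcF.slice ht).mono hA.sub)
    (fun z hz => (abs_nonneg _).trans (hg.f2 _ ⟨ht, hA.sub hz⟩)) (int_F2 hg ht hA) hE (by simp)
    continuous_const continuous_const hJ hε (sub_nonneg.2 ha)
    (fun b hb => ⟨le_rfl, fun x hx => by simpa using hs (mk_mem_prod hb hx)⟩)
  simpa using this

/-- Most antidiagonals are cheap. -/
theorem cheb_ad (hc : Core) {R η E ε : ℝ} (h : SK tPP (trc R) d u F t) (hη : 0 ≤ η) (hR : 0 ≤ R)
    (hE : En F t (tri η R) ≤ E) (hε : 0 < ε) :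
    volume {s ∈ Ioo η R | ¬Cheap (fun b => s * F (t, ad s b)) 0 1 ε} ≤
      ENNReal.ofReal (R * E / ε ^ 2) := by
  have hA : Reg d (tri η R) := h.reg_tri
  have := hc.cheb (fun y => F (t, y)) (tri η R) E ε R 0 (-1, 1) (1, 0) (fun _ => 0) (fun s => s)
    (Ioo η R) hA.ms ((h.gs.lcF.slice h.tI).mono hA.sub) (fun z hz => h.F0 (hA.sub hz))
    (int_F2 h.gs h.tI hA) hE (by simp) continuous_const continuous_id measurableSet_Ioo hε hR
    (fun s hs => ⟨by linarith [hs.2], fun x hx => by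
      refine ⟨?_, ?_, ?_, ?_⟩ <;> simp <;> linarith [hx.1, hx.2, hs.1, hs.2]⟩)
  refine le_trans (measure_mono fun s hs => ?_) (this.trans (le_of_eq (by simp)))
  refine ⟨hs.1, fun hcp => hs.2 ?_⟩
  have h2 := cheap_scale (hη.trans_lt hs.1.1) hcp
  convert h2 using 5
  ext <;> simp [ad]
  ring

/-! ### The Markov inequality on rectangles -/

theorem mk_v {g : ℝ × ℝ → ℝ} {I J : Set ℝ} {Λ κ : ℝ} (hI : MeasurableSet I)
    (hJ : MeasurableSet J) (hg : ContinuousOn g (I ×ˢ J)) (hκ : 0 < κ)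
    (h : ∫⁻ y in I ×ˢ J, ENNReal.ofReal (g y) ≤ ENNReal.ofReal Λ) :
    volume {c ∈ I | ENNReal.ofReal κ < ∫⁻ x in J, ENNReal.ofReal (g (c, x))} ≤
      ENNReal.ofReal (Λ / κ) := by
  have hm : AEMeasurable (fun y => ENNReal.ofReal (g y))
      ((volume.restrict I).prod (volume.restrict J)) := by
    rw [Measure.prod_restrict]
    exact (hg.aemeasurable (hI.prod hJ)).ennreal_ofReal
  rw [Measure.volume_eq_prod, ← Measure.prod_restrict, lintegral_prod _ hm] at h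
  have h2 := meas_ge_le_lintegral_div hm.lintegral_prod_right'
    (ε := ENNReal.ofReal κ) (by simpa using hκ) ENNReal.ofReal_ne_top
  rw [Measure.restrict_apply' hI] at h2
  rw [ENNReal.ofReal_div_of_pos hκ]
  refine le_trans (measure_mono fun c hc => ?_) (h2.trans (ENNReal.div_le_div_right h _))
  exact ⟨hc.2.le, hc.1⟩

theorem mk_h {g : ℝ × ℝ → ℝ} {I J : Set ℝ} {Λ κ : ℝ} (hI : MeasurableSet I)
    (hJ : MeasurableSet J) (hg : ContinuousOn g (I ×ˢ J)) (hκ : 0 < κ)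
    (h : ∫⁻ y in I ×ˢ J, ENNReal.ofReal (g y) ≤ ENNReal.ofReal Λ) :
    volume {c ∈ J | ENNReal.ofReal κ < ∫⁻ x in I, ENNReal.ofReal (g (x, c))} ≤
      ENNReal.ofReal (Λ / κ) := by
  refine mk_v (g := fun y => g y.swap) hJ hI
    (hg.comp continuous_swap.continuousOn fun y hy => ⟨hy.2, hy.1⟩) hκ ?_
  rw [Measure.volume_eq_prod, ← Measure.prod_restrict] at h ⊢
  rwa [lintegral_prod_swap (fun y => ENNReal.ofReal (g y))]

theorem lint_le {α : Type} [MeasurableSpace α] {μ : Measure α} {g : α → ℝ} {Λ : ℝ}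
    (hi : Integrable g μ) (h0 : 0 ≤ᵐ[μ] g) (h : ∫ y, g y ∂μ ≤ Λ) :
    ∫⁻ y, ENNReal.ofReal (g y) ∂μ ≤ ENNReal.ofReal Λ := by
  rw [← ofReal_integral_eq_lintegral_ofReal hi h0]
  exact ENNReal.ofReal_le_ofReal h

theorem int_le_of_lint {α : Type} [MeasurableSpace α] {μ : Measure α} {g : α → ℝ} {Λ : ℝ}
    (hi : Integrable g μ) (h0 : 0 ≤ᵐ[μ] g) (hΛ : 0 ≤ Λ)
    (h : ∫⁻ y, ENNReal.ofReal (g y) ∂μ ≤ ENNReal.ofReal Λ) : ∫ y, g y ∂μ ≤ Λ := by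
  rw [← ofReal_integral_eq_lintegral_ofReal hi h0] at h
  exact (ENNReal.ofReal_le_ofReal_iff hΛ).1 h

/-- A set covered by two small sets. -/
theorem vol_lt_of_cover {S S₁ S₂ : Set ℝ} {a b c : ℝ} (hs : S ⊆ S₁ ∪ S₂) (ha : 0 ≤ a) (hb : 0 ≤ b)
    (h1 : volume S₁ ≤ ENNReal.ofReal a) (h2 : volume S₂ ≤ ENNReal.ofReal b) (h : a + b < c) :
    volume S < ENNReal.ofReal c :=
  calc volume S ≤ volume S₁ + volume S₂ := (measure_mono hs).trans (measure_union_le _ _)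
    _ ≤ ENNReal.ofReal (a + b) := by rw [ENNReal.ofReal_add ha hb]; exact add_le_add h1 h2
    _ < ENNReal.ofReal c := (ENNReal.ofReal_lt_ofReal_iff (by linarith)).2 h

/-- A point of a short interval in the good set. -/
theorem exists_good {J G : Set ℝ} {a η : ℝ} (h : volume (J \ G) < ENNReal.ofReal η)
    (hs : Ioo a (a + η) ⊆ J) : ∃ x ∈ Ioo a (a + η), x ∈ G := by
  obtain ⟨x, hx, hn⟩ := fill1_ok.2 _ a η h
  exact ⟨x, hx, by_contra fun hG => hn ⟨hs hx, hG⟩⟩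

/-- Scaling of a bad set. -/
theorem vol_scale {J J' G : Set ℝ} {s η : ℝ} (hs : 0 < s) (h : volume (J \ G) < ENNReal.ofReal η)
    (hJ : ∀ c ∈ J', s * c ∈ J) :
    volume (J' \ {c | s * c ∈ G}) < ENNReal.ofReal (η / s) := by
  have h1 : J' \ {c | s * c ∈ G} ⊆ (fun c => s * c) ⁻¹' (J \ G) := fun c hc => ⟨hJ c hc.1, hc.2⟩
  refine (measure_mono h1).trans_lt ?_
  rw [Real.volume_preimage_mul_left hs.ne', abs_of_pos (inv_pos.2 hs), div_eq_inv_mul,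
    ENNReal.ofReal_mul (inv_pos.2 hs).le]
  exact ENNReal.mul_lt_mul_right (by simpa using hs) ENNReal.ofReal_ne_top h

theorem cont_rad (hc : Core) {R : ℝ} (h : SK tPP (trc R) d u F t) :
    ContinuousOn (fun q : ℝ × ℝ => rad u t q.1 q.2) (Ioc 0 R ×ˢ Ioo 0 1) := by
  have ha := h.api hc
  have hm : MapsTo (fun q : ℝ × ℝ => ((t, ad q.1 q.2) : X)) (Ioc 0 R ×ˢ Ioo 0 1) d.U := fun q hq =>
    h.memU (h.memPP (ad_mem_trc ⟨hq.1.1.le, hq.1.2⟩ ⟨hq.2.1.le, hq.2.2.le⟩)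
      (mul_pos hq.1.1 (sub_pos.2 hq.2.2)) (mul_pos hq.1.1 hq.2.1))
  have h0 : Continuous fun q : ℝ × ℝ => ((t, ad q.1 q.2) : X) := by unfold ad; fun_prop
  have c1 := (smO_D d.isOpen_U e1 (smO_D d.isOpen_U e1 ha.sm)).continuousOn.comp
    h0.continuousOn hm
  have c2 := (smO_D d.isOpen_U e1 (smO_D d.isOpen_U e2 ha.sm)).continuousOn.comp
    h0.continuousOn hm
  have c3 := (smO_D d.isOpen_U e2 (smO_D d.isOpen_U e2 ha.sm)).continuousOn.comp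
    h0.continuousOn hm
  simp only [rad, hq_eq]
  exact continuousOn_fst.mul (((c1.mul (by fun_prop)).add
    (((continuousOn_const.mul c2).mul (by fun_prop)).mul (by fun_prop))).add (c3.mul (by fun_prop)))

/-! ### Second differences -/

theorem cvx_v (hc : Core) (h : SK τ A d u F t) {x a b : ℝ}
    (hs : ∀ y ∈ Icc a b, ((x, y) : ℝ × ℝ) ∈ d.S) : ConvexOn ℝ (Icc a b) fun y => u (t, x, y) := by
  have c := (vl hc h.gs h.tI hs).cu
  refine convexOn_of_hasDerivWithinAt2_nonneg (f' := fun y => D e2 u (t, x, y))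
    (f'' := fun y => h22 u (t, x, y)) (convex_Icc a b) (Line.c2_cont c)
    (fun y hy => (c.d1 y (interior_subset hy)).hasDerivWithinAt)
    (fun y hy => (c.d2 y (interior_subset hy)).hasDerivWithinAt) fun y hy => ?_
  exact ((h.api hc).p22 _ (h.memU (hs y (interior_subset hy)))).le

theorem cvx_h (hc : Core) (h : SK τ A d u F t) {y a b : ℝ}
    (hs : ∀ x ∈ Icc a b, ((x, y) : ℝ × ℝ) ∈ d.S) : ConvexOn ℝ (Icc a b) fun x => u (t, x, y) := by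
  have c := (hl hc h.gs h.tI hs).cu
  refine convexOn_of_hasDerivWithinAt2_nonneg (f' := fun x => D e1 u (t, x, y))
    (f'' := fun x => h11 u (t, x, y)) (convex_Icc a b) (Line.c2_cont c)
    (fun y hy => (c.d1 y (interior_subset hy)).hasDerivWithinAt)
    (fun y hy => (c.d2 y (interior_subset hy)).hasDerivWithinAt) fun x hx => ?_
  exact (h.gs.p11 _ (h.memU (hs x (interior_subset hx)))).le

theorem TT_scale (hc : Core) {a L₀ x L θ : ℝ} (h : SK tPL (rc a L₀) d u F t) (hx : x ∈ Ioc 0 a)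
    (hL : L ∈ Icc 0 L₀) (h0 : 0 ≤ θ) (h1 : θ ≤ 1) : TT u t x (θ * L) ≤ θ * TT u t x L := by
  have c := cvx_v hc h (x := x) (a := -L₀) (b := L₀)
    fun y hy => h.memPL ⟨⟨hx.1.le, hx.2⟩, hy⟩ hx.1
  have hz : (0 : ℝ) ∈ Icc (-L₀) L₀ := ⟨by linarith [hL.1, hL.2], hL.1.trans hL.2⟩
  have a1 := c.2 (x := L) ⟨by linarith [hL.1, hL.2], hL.2⟩ hz h0 (sub_nonneg.2 h1) (by ring)
  have a2 := c.2 (x := -L) ⟨by linarith [hL.2], by linarith [hL.1, hL.2]⟩ hz h0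
    (sub_nonneg.2 h1) (by ring)
  simp only [smul_eq_mul, mul_zero, add_zero, mul_neg] at a1 a2
  simp only [TT]
  linarith

theorem TT_nonneg (hc : Core) {a L₀ x L : ℝ} (h : SK tPL (rc a L₀) d u F t) (hx : x ∈ Ioc 0 a)
    (hL : L ∈ Icc 0 L₀) : 0 ≤ TT u t x L := by
  have c := cvx_v hc h (x := x) (a := -L₀) (b := L₀)
    fun y hy => h.memPL ⟨⟨hx.1.le, hx.2⟩, hy⟩ hx.1
  have c2 := c.2
  have a1 := @c2 L ⟨by linarith [hL.1, hL.2], hL.2⟩ (-L)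
    ⟨by linarith [hL.2], by linarith [hL.1, hL.2]⟩ (1 / 2) (1 / 2) (by norm_num)
    (by norm_num) (by norm_num)
  simp only [smul_eq_mul, mul_neg, add_neg_cancel] at a1
  simp only [TT]
  linarith

theorem TT_mono (hc : Core) {a L₀ x L L' : ℝ} (h : SK tPL (rc a L₀) d u F t) (hx : x ∈ Ioc 0 a)
    (h0 : 0 ≤ L') (h1 : L' ≤ L) (hL : L ≤ L₀) : TT u t x L' ≤ TT u t x L := by
  rcases (h0.trans h1).eq_or_lt with e | e
  · have : L' = L := by linarith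
    rw [this]
  · have a1 := TT_scale hc h hx ⟨e.le, hL⟩ (div_nonneg h0 e.le) ((div_le_one e).2 h1)
    rw [div_mul_cancel₀ _ e.ne'] at a1
    have a2 := TT_nonneg hc h hx ⟨e.le, hL⟩
    exact a1.trans (mul_le_of_le_one_left a2 ((div_le_one e).2 h1))

/-! ### Frames -/

/-- The diagonal frame with centre `q`. -/
def dg (t ρ : ℝ) (hρ : 0 < ρ) (q : ℝ × ℝ) (a e : ℝ) (ha : 0 < a) (he : 0 < e) : Fr :=
  ⟨t, ρ, q, a, 0, 0, e, 0, 0, 0, hρ, by simp [ha.ne', he.ne']⟩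

theorem dg_sp (t ρ : ℝ) (hρ : 0 < ρ) (q : ℝ × ℝ) (a e : ℝ) (ha : 0 < a) (he : 0 < e) (y : ℝ × ℝ) :
    (dg t ρ hρ q a e ha he).sp y = (q.1 + a * y.1, q.2 + e * y.2) := by
  ext <;> simp [dg, Fr.sp, Fr.S]
theorem dg_det (t ρ : ℝ) (hρ : 0 < ρ) (q : ℝ × ℝ) (a e : ℝ) (ha : 0 < a) (he : 0 < e) :
    |(dg t ρ hρ q a e ha he).det| = a * e := by
  simp [dg, Fr.det, abs_of_pos ha, abs_of_pos he]

/-- The exchange of the coordinates as a frame. -/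
def swf (t : ℝ) : Fr := ⟨t, 1, 0, 0, 1, 1, 0, 0, 0, 0, one_pos, by norm_num⟩
theorem swf_sp (t : ℝ) (y : ℝ × ℝ) : (swf t).sp y = y.swap := by
  ext <;> simp [swf, Fr.sp, Fr.S]

theorem fm_zero (fr : Fr) (y : ℝ × ℝ) : fr.fm (0, y) = (fr.t1, fr.sp y) := by simp [Fr.fm, Fr.tm]

/-- Subtracting one more affine function. -/
def setl (fr : Fr) (l₀ l₁ l₂ : ℝ) : Fr :=
  { fr with l0 := fr.l0 + fr.ρ ^ 2 * l₀, l1 := fr.l1 + fr.ρ ^ 2 * l₁, l2 := fr.l2 + fr.ρ ^ 2 * l₂ }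
theorem wv_setl (fr : Fr) (l₀ l₁ l₂ : ℝ) (τ : Ty) (u : X → ℝ) (q : X) :
    wv τ ((setl fr l₀ l₁ l₂).pull u) q = wv τ (fr.pull u) q - af l₀ l₁ l₂ q := by
  have := fr.ρ_pos.ne'
  have e : (setl fr l₀ l₁ l₂).fm q = fr.fm q := rfl
  simp only [wv, Pi.sub_apply, Fr.pull, e]
  simp only [setl, af]
  field_simp
  ring

theorem mem_dmO {fr : Fr} {τ' : Ty} {y : ℝ × ℝ} (h : fr.sp y ∈ d.O)
    (h1 : τ'.1 = false → d.τ.1 = true → 0 < (fr.sp y).1)
    (h2 : τ'.2 = false → d.τ.2 = true → 0 < (fr.sp y).2) : y ∈ (fr.dm d τ').O := by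
  refine ⟨h, ?_, ?_⟩
  · cases a : τ'.1 <;> cases b : d.τ.1 <;> simp_all [ok]
  · cases a : τ'.2 <;> cases b : d.τ.2 <;> simp_all [ok]

/-- Passing to a frame; the new time is `0`. -/
theorem sk_frame (hc : Core) (hg : GS d u F) (ht : t ∈ d.I) {fr : Fr} {τ' : Ty}
    (h1 : fr.t1 = t) (h2 : fr.Cp d.τ τ') (h3 : B ⊆ (fr.dm d τ').O) :
    SK τ' B (fr.dm d τ') (fr.pull u) (fr.pullF F) 0 :=
  ⟨(hc.fg.1 fr d τ' h2).2.2.2.2.2.2.2 u F hg, by
    change fr.tm 0 ∈ d.I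
    simpa [Fr.tm, h1] using ht, rfl, h3⟩

/-- Passing to a frame of the same type. -/
theorem SK.frame (hc : Core) (h : SK τ A d u F t) {fr : Fr} (h1 : fr.t1 = t) (h2 : fr.Cp τ τ)
    (h3 : MapsTo fr.sp B A) : SK τ B (fr.dm d τ) (fr.pull u) (fr.pullF F) 0 :=
  sk_frame hc h.gs h.tI h1 (by rw [h.ty]; exact h2) fun y hy =>
    mem_dmO (h.sub (h3 hy)) (by rw [h.ty]; simp +contextual) (by rw [h.ty]; simp +contextual)

theorem int_frame (hc : Core) (fr : Fr) (hA : MeasurableSet A) (f : ℝ × ℝ → ℝ) :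
    ∫ y in A, f (fr.sp y) = |fr.det|⁻¹ * ∫ y in fr.sp '' A, f y := ((hc.fi fr A hA).2.1 f).2

theorem En_frame (hc : Core) (fr : Fr) (hA : MeasurableSet A) (F : X → ℝ) (s : ℝ) :
    En (fr.pullF F) s A = fr.ρ ^ 4 / |fr.det| * En F (fr.tm s) (fr.sp '' A) := by
  have := int_frame hc fr hA fun y => F (fr.tm s, y) ^ 2
  have e : ∀ y, fr.pullF F (s, y) ^ 2 = fr.ρ ^ 4 * F (fr.tm s, fr.sp y) ^ 2 := fun y => by
    simp only [Fr.pullF, Fr.fm]; ring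
  simp only [En, e]
  rw [integral_const_mul, this]
  ring

theorem En_frame0 (hc : Core) (fr : Fr) (hA : MeasurableSet A) (F : X → ℝ) :
    En (fr.pullF F) 0 A = fr.ρ ^ 4 / |fr.det| * En F fr.t1 (fr.sp '' A) := by
  simpa [Fr.tm] using En_frame hc fr hA F 0

/-- The pointwise transformation rules at time `0`. -/
theorem frame_pt (hc : Core) (hg : GS d u F) (ht : t ∈ d.I) {fr : Fr} (h1 : fr.t1 = t)
    {y : ℝ × ℝ} (hy : fr.sp y ∈ d.S) :
    (∀ e, D (sv e) (fr.pull u) (0, y) =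
      (D (sv (fr.S e)) u (t, fr.sp y) - (fr.l1 * e.1 + fr.l2 * e.2)) / fr.ρ ^ 2) ∧
    (∀ e e', hb (fr.pull u) e e' (0, y) = hb u (fr.S e) (fr.S e') (t, fr.sp y) / fr.ρ ^ 2) ∧
    W (fr.pull u) (0, y) = fr.det ^ 2 / fr.ρ ^ 4 * W u (t, fr.sp y) ∧
    (∀ n n', ib (fr.pull u) (fr.St n) (fr.St n') (0, y) =
      fr.ρ ^ 2 * ib u n n' (t, fr.sp y)) ∧
    fr.pull u (0, y) = (u (t, fr.sp y) - af fr.l0 fr.l1 fr.l2 (0, y)) / fr.ρ ^ 2 ∧
    fr.pullF F (0, y) = fr.ρ ^ 2 * F (t, fr.sp y) := by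
  have ha := hc.api d u hg.toGS0
  have e : fr.fm (0, y) = (t, fr.sp y) := by rw [fm_zero, h1]
  obtain ⟨-, b1, b2, b3, -, b4, -⟩ := ((hc.fc fr d.U d.isOpen_U).2.2 u ha.sm
    fun p hp => (ha.pW p hp).ne').2 (0, y) (by rw [e]; exact ⟨ht, hy⟩)
  rw [e] at b1 b2 b3 b4
  exact ⟨b1, b2, b3, b4, by rw [Fr.pull, e], by rw [Fr.pullF, e]⟩

theorem Dt_frame0 (hc : Core) (hg : GS d u F) (ht : t ∈ d.I) {fr : Fr} (h1 : fr.t1 = t)
    (hA : MeasurableSet A) (hs : MapsTo fr.sp A d.S) :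
    Dt (fr.pull u) 0 A = fr.ρ / (√|fr.det| * |fr.det|) * Dt u t (fr.sp '' A) := by
  have := int_frame hc fr hA fun y => dq u (t, y)
  have hd : 0 < |fr.det| := abs_pos.2 fr.det_ne
  have hρ := fr.ρ_pos
  have e : ∀ y ∈ A, dq (fr.pull u) (0, y) = fr.ρ / √|fr.det| * dq u (t, fr.sp y) := fun y hy => by
    have e1 : √(fr.det ^ 2 / fr.ρ ^ 4) = |fr.det| / fr.ρ ^ 2 := by
      rw [Real.sqrt_div (sq_nonneg _), Real.sqrt_sq_eq_abs,
        show fr.ρ ^ 4 = (fr.ρ ^ 2) ^ 2 by ring, Real.sqrt_sq (sq_nonneg _)]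
    rw [dq, dq, (frame_pt hc hg ht h1 (hs hy)).2.2.1, Real.sqrt_mul (by positivity), e1,
      Real.sqrt_mul (by positivity), Real.sqrt_div hd.le, Real.sqrt_sq hρ.le, mul_inv, inv_div]
  rw [Dt, setIntegral_congr_fun hA e, integral_const_mul, this, Dt]
  field_simp

/-- A good frame inside a frame. -/
theorem Good.comp (hc : Core) {fr fr' : Fr} {τ' τ'' : Ty} {ρ₀ ρ₁ ε ε₁ : ℝ} (h1 : fr.t1 = t)
    (h2 : fr.Cp d.τ τ') (h : Good (fr.dm d τ') (fr.pull u) 0 τ'' B ρ₁ ε₁ fr')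
    (hm : MapsTo fr.sp B A) (a1 : ρ₀ ≤ fr.ρ * ρ₁) (a2 : fr.ρ * ε₁ ≤ ε)
    (a3 : fr.ρ ^ 4 * ε₁ ≤ ε * |fr.det|) (a4 : ε₁ ≤ ε) : Good d u t τ'' A ρ₀ ε (fr.comp fr') where
  t1 := by
    change fr.tm fr'.t1 = t
    rw [h.t1]; simpa [Fr.tm] using h1
  cp := (hc.fg.2.1 fr fr' d τ' τ'' h2 h.cp).1
  lo := a1.trans (mul_le_mul_of_nonneg_left h.lo fr.ρ_pos.le)
  hi := (mul_le_mul_of_nonneg_left h.hi fr.ρ_pos.le).trans a2
  fac := by
    rw [Fr.comp_det, abs_mul]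
    change (fr.ρ * fr'.ρ) ^ 4 ≤ _
    calc (fr.ρ * fr'.ρ) ^ 4 = fr.ρ ^ 4 * fr'.ρ ^ 4 := by ring
      _ ≤ fr.ρ ^ 4 * (ε₁ * |fr'.det|) := mul_le_mul_of_nonneg_left h.fac (by positivity)
      _ = fr.ρ ^ 4 * ε₁ * |fr'.det| := by ring
      _ ≤ ε * |fr.det| * |fr'.det| := mul_le_mul_of_nonneg_right a3 (abs_nonneg _)
      _ = _ := by ring
  mp := fun y hy => by rw [Fr.comp_sp]; exact hm (h.mp hy)
  cl := fun y hy => by rw [Fr.comp_pull]; exact (h.cl y hy).trans a4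

theorem comp_p {fr fr' : Fr} (h : fr'.p = 0) : (fr.comp fr').p = fr.p := by
  change fr.sp fr'.p = fr.p
  rw [h]; ext <;> simp [Fr.sp, Fr.S]

theorem Good.mono {ρ₀ ε : ℝ} {fr : Fr} (h : Good d u t τ A ρ₀ ε fr) (hs : A ⊆ B) :
    Good d u t τ B ρ₀ ε fr := ⟨h.t1, h.cp, h.lo, h.hi, h.fac, h.mp.mono_right hs, h.cl⟩

/-- The conclusion of the filling lemma in a frame gives a good frame. -/
theorem good_of_fill {fr : Fr} {ρ₀ ε l₀ l₁ l₂ : ℝ} (h1 : fr.t1 = t) (h2 : fr.Cp d.τ τ)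
    (a1 : ρ₀ ≤ fr.ρ) (a2 : fr.ρ ≤ ε) (a3 : fr.ρ ^ 4 ≤ ε * |fr.det|)
    (a4 : MapsTo fr.sp (bxc τ 1) A)
    (h : ∀ y ∈ bx τ 1, |wv τ (fr.pull u) (0, y) - af l₀ l₁ l₂ (0, y)| ≤ ε) :
    Good d u t τ A ρ₀ ε (setl fr l₀ l₁ l₂) :=
  ⟨h1, h2, a1, a2, a3, a4, fun y hy => by rw [wv_setl]; exact h y hy⟩

end Pool.Agent.P.MP_2cea5e_gt.I.S4
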